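import Mathlib

/-! Definitions for the vanishing of Waldhausen's Nil groups without coherence. -/

set_option autoImplicit false

namespace Pool.Agent.Wald

open Finsupp

/-! ### Functions on invertible matrices with the formal properties of `K_1` -/

/-- An abelian group valued invariant of invertible matrices over `Λ` with the formal properties
of the class in `K_1`. -/
structure K1Fun (Λ : Type) [Ring Λ] (K : Type) [CommGroup K] where
  /-- the invariant (only its values at invertible matrices matter) -/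
  f : ∀ {n : Type} [Fintype n] [DecidableEq n], Matrix n n Λ → K
  mul : ∀ {n : Type} [Fintype n] [DecidableEq n] (A B : Matrix n n Λ), IsUnit A → IsUnit B →
    f (A * B) = f A * f B
  reindex : ∀ {n m : Type} [Fintype n] [DecidableEq n] [Fintype m] [DecidableEq m] (e : n ≃ m)
    (A : Matrix n n Λ), IsUnit A → f (A.submatrix e.symm e.symm) = f A
  tri : ∀ {n m : Type} [Fintype n] [DecidableEq n] [Fintype m] [DecidableEq m]
    (A : Matrix n n Λ) (B : Matrix n m Λ) (D : Matrix m m Λ), IsUnit A → IsUnit D →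
    f (Matrix.fromBlocks A B 0 D) = f A * f D

/-- The relation used everywhere: `1 - A` and `1 - B` are both invertible and have the same
class, for every `K_1`-like invariant. -/
def SameK {Λ : Type} [Ring Λ] {n m : Type} [Fintype n] [DecidableEq n] [Fintype m] [DecidableEq m]
    (A : Matrix n n Λ) (B : Matrix m m Λ) : Prop :=
  IsUnit (1 - A) → IsUnit (1 - B) ∧
    ∀ (K : Type) [CommGroup K] (κ : K1Fun Λ K), κ.f (1 - B) = κ.f (1 - A)

section Ext

/-! ### Base change from `R` to `Λ` for free modules -/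

variable (R Λ : Type) [Ring R] [Ring Λ] [Module R Λ] [IsScalarTower R Λ Λ]

/-- The ring homomorphism `R → Λ`, `r ↦ r • 1`. -/
abbrev io : R →+* Λ := RingHom.smulOneHom

/-- The embedding `R^(J) → Λ^(J)`. -/
noncomputable def emb (J : Type) : (J →₀ R) →ₗ[R] (J →₀ Λ) :=
  Finsupp.mapRange.linearMap (LinearMap.toSpanSingleton R Λ 1)

variable {R} in
/-- Base change of a linear map between free modules. -/
noncomputable def bc {J J' : Type} (g : (J →₀ R) →ₗ[R] (J' →₀ R)) : (J →₀ Λ) →ₗ[Λ] (J' →₀ Λ) :=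
  Finsupp.linearCombination Λ fun j => emb R Λ J' (g (single j 1))

/-- `Λ` is flat as a right `R`-module, in the form used here. -/
def RFlat : Prop :=
  ∀ (J J' : Type) (g : (J →₀ R) →ₗ[R] (J' →₀ R)) (y : J →₀ Λ), bc Λ g y = 0 →
    y ∈ Submodule.span Λ (emb R Λ J '' (LinearMap.ker g : Set (J →₀ R)))

/-- Condition (C1) for the left `R`-modules `Λ^(J)`: relations of a finite tuple in a kernel are
contained in a finitely generated module of relations of a larger finite tuple in the kernel. -/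
def C1F : Prop :=
  ∀ (J J' : Type) (g : (J →₀ R) →ₗ[R] (J' →₀ R)) (s : ℕ) (k : Fin s → (J →₀ Λ)),
    (∀ l, bc Λ g (k l) = 0) →
    ∃ (s' : ℕ) (k' : Fin s' → (J →₀ Λ)) (T : ℕ) (ρ : Matrix (Fin T) (Fin s) R)
      (ρ' : Matrix (Fin T) (Fin s') R), (∀ l, bc Λ g (k' l) = 0) ∧
      (∀ t, ∑ l, ρ t l • k l + ∑ l, ρ' t l • k' l = 0) ∧
      ∀ c : Fin s → R, ∑ l, c l • k l = 0 → ∃ z : Fin T → R, Matrix.vecMul z ρ = c ∧
        Matrix.vecMul z ρ' = 0

/-- Condition (C1) for `R`, matrix form. -/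
def C1 (R : Type) [Ring R] : Prop :=
  ∀ (a b s : ℕ) (h : Matrix (Fin a) (Fin b) R) (k : Matrix (Fin s) (Fin a) R), k * h = 0 →
    ∃ (s' : ℕ) (k' : Matrix (Fin s') (Fin a) R) (T : ℕ) (ρ : Matrix (Fin T) (Fin s) R)
      (ρ' : Matrix (Fin T) (Fin s') R), k' * h = 0 ∧ ρ * k + ρ' * k' = 0 ∧
      ∀ c : Fin s → R, Matrix.vecMul c k = 0 → ∃ z : Fin T → R, Matrix.vecMul z ρ = c ∧
        Matrix.vecMul z ρ' = 0

/-- Second kernels are projective. -/
def PD1 (R : Type) [Ring R] : Prop :=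
  ∀ (a b : ℕ) (e : (Fin a →₀ R) →ₗ[R] (Fin b →₀ R)) (J : Type)
    (d : (J →₀ R) →ₗ[R] (Fin a →₀ R)), LinearMap.range d = LinearMap.ker e →
    Module.Projective R (LinearMap.ker d)

end Ext

/-! ### Finite rank maps `Y → Λ ⊗ Y'` -/

section Tr

variable (R Λ : Type) [Ring R] [Ring Λ] [Module R Λ] [IsScalarTower R Λ Λ]
variable (Y Y' Y'' : Type) [AddCommGroup Y] [Module R Y] [AddCommGroup Y'] [Module R Y']
  [AddCommGroup Y''] [Module R Y'']

/-- A finite sum of elementary maps `y ↦ φ_a(y) ⊗ lam_a ⊗ y_a`. -/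
structure Tr where
  k : ℕ
  φ : Fin k → (Y →ₗ[R] R)
  lam : Fin k → Λ
  y : Fin k → Y'

variable {R Λ Y Y' Y''}

/-- The value at `x`, tested by a functional `f`. -/
def Tr.ev (t : Tr R Λ Y Y') (x : Y) (f : Y' →ₗ[R] R) : Λ :=
  ∑ a, t.φ a x • (t.lam a * io R Λ (f (t.y a)))

/-- The value in a `Λ`-module `N` to which `Y'` is mapped by `j`. -/
def Tr.app {N : Type} [AddCommGroup N] [Module R N] [Module Λ N] (t : Tr R Λ Y Y')
    (j : Y' →ₗ[R] N) (x : Y) : N :=
  ∑ a, t.φ a x • t.lam a • j (t.y a)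

/-- The matrix of a finite rank endomorphism. -/
def Tr.mat (t : Tr R Λ Y Y) : Matrix (Fin t.k) (Fin t.k) Λ :=
  fun a b => t.lam a * io R Λ (t.φ b (t.y a))

/-- Composition with a linear map before. -/
def Tr.pre (t : Tr R Λ Y Y') (I : Y'' →ₗ[R] Y) : Tr R Λ Y'' Y' :=
  ⟨t.k, fun a => t.φ a ∘ₗ I, t.lam, t.y⟩

/-- Composition with a linear map after. -/
def Tr.post (t : Tr R Λ Y Y') (I : Y' →ₗ[R] Y'') : Tr R Λ Y Y'' :=
  ⟨t.k, t.φ, t.lam, fun a => I (t.y a)⟩

/-- The matrix of an `R`-linear map `R^r → Λ^r'`. -/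
noncomputable def matOf {r r' : ℕ} (N : (Fin r →₀ R) →ₗ[R] (Fin r' →₀ Λ)) :
    Matrix (Fin r) (Fin r') Λ :=
  fun a b => N (single a 1) b

end Tr

section Stage

variable (R Λ : Type) [Ring R] [Ring Λ] [Module R Λ] [IsScalarTower R Λ Λ]

/-- One stage of the tower: `e : R^r → R^n`, an endomorphism `N` of `Λ^r` which covers `ν`, a free
module `R^(J)` with a map `d` onto the kernel of `e`, and a finite rank map `t` which covers
`N`. -/
structure Stage (n : ℕ) (ν : (Fin n →₀ R) →ₗ[R] (Fin n →₀ Λ)) where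
  r : ℕ
  e : (Fin r →₀ R) →ₗ[R] (Fin n →₀ R)
  N : (Fin r →₀ R) →ₗ[R] (Fin r →₀ Λ)
  hN : ∀ x, bc Λ e (N x) = ν (e x)
  J : Type
  d : (J →₀ R) →ₗ[R] (Fin r →₀ R)
  hd : LinearMap.range d = LinearMap.ker e
  t : Tr R Λ (J →₀ R) (J →₀ R)
  ht : ∀ w, bc Λ d (t.app (emb R Λ J) w) = N (d w)

end Stage

end Pool.Agent.Wald
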