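import Mathlib
import Pool.Agent.Lib.MP_8f66f0_al_Wald.Defs

/-! Group ring definitions: base change along an injective homomorphism, supports, trees. -/

set_option autoImplicit false

namespace Pool.Agent.Wald

open MonoidAlgebra

section Base

/-- The map of integral group rings induced by a homomorphism. -/
noncomputable abbrev inc {E G : Type} [Group E] [Group G] (φ : E →* G) :
    MonoidAlgebra ℤ E →+* MonoidAlgebra ℤ G :=
  MonoidAlgebra.mapDomainRingHom ℤ φ

/-- `ℤG` as a left `ℤE`-module. -/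
noncomputable abbrev modH {E G : Type} [Group E] [Group G] (φ : E →* G) :
    Module (MonoidAlgebra ℤ E) (MonoidAlgebra ℤ G) :=
  Module.compHom _ (inc φ)

theorem towerH {E G : Type} [Group E] [Group G] (φ : E →* G) :
    letI := modH φ
    IsScalarTower (MonoidAlgebra ℤ E) (MonoidAlgebra ℤ G) (MonoidAlgebra ℤ G) :=
  letI := modH φ
  ⟨fun x y z => mul_assoc (inc φ x) y z⟩

/-- Kernels of matrices (row convention) are projective. -/
def KerProj (S : Type) [Ring S] : Prop :=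
  ∀ (a b : ℕ) (h : Matrix (Fin a) (Fin b) S),
    Module.Projective S (LinearMap.ker (Matrix.vecMulLinear h))

/-- Finitely generated projective modules are stably free. -/
def ProjSF (R : Type) [Ring R] : Prop :=
  ∀ (P : Type) [AddCommGroup P] [Module R P] [Module.Finite R P] [Module.Projective R P],
    ∃ a b : ℕ, Nonempty ((P × (Fin a → R)) ≃ₗ[R] (Fin b → R))

/-- Cohomological dimension at most two: the trivial module `ℤ` has projective dimension at most
two over `ℤE`. -/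
def CdLE2 (E : Type) [Group E] : Prop :=
  CategoryTheory.HasProjectiveDimensionLE
    (ModuleCat.of (MonoidAlgebra ℤ E) (Representation.trivial ℤ E ℤ).asModule) 2

/-- `Wh(Γ)` is trivial, as in the frozen statement. -/
def WhTrivial (Γ : Type) [Group Γ] : Prop :=
  ∀ (n : ℕ) (A : (Matrix (Fin n) (Fin n) (MonoidAlgebra ℤ Γ))ˣ),
    ∃ (m : ℕ) (g : Γ) (ε : ℤˣ)
      (C : (Matrix (Fin n ⊕ Fin (m + 1)) (Fin n ⊕ Fin (m + 1)) (MonoidAlgebra ℤ Γ))ˣ),
      C ∈ commutator (Matrix (Fin n ⊕ Fin (m + 1)) (Fin n ⊕ Fin (m + 1))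
              (MonoidAlgebra ℤ Γ))ˣ ∧
      Matrix.fromBlocks (↑A : Matrix (Fin n) (Fin n) (MonoidAlgebra ℤ Γ))
          (0 : Matrix (Fin n) (Fin (m + 1)) (MonoidAlgebra ℤ Γ))
          (0 : Matrix (Fin (m + 1)) (Fin n) (MonoidAlgebra ℤ Γ))
          (1 : Matrix (Fin (m + 1)) (Fin (m + 1)) (MonoidAlgebra ℤ Γ)) =
        Matrix.diagonal (fun i : Fin n ⊕ Fin (m + 1) =>
            if i = Sum.inr (0 : Fin (m + 1)) then
              (MonoidAlgebra.single g ((ε : ℤ)) : MonoidAlgebra ℤ Γ) else 1) *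
          (↑C : Matrix (Fin n ⊕ Fin (m + 1)) (Fin n ⊕ Fin (m + 1)) (MonoidAlgebra ℤ Γ))

/-- The invariant kills the trivial units `± g`. -/
def KillsUnits {Γ : Type} [Group Γ] {K : Type} [CommGroup K]
    (κ : K1Fun (MonoidAlgebra ℤ Γ) K) : Prop :=
  ∀ (g : Γ) (ε : ℤˣ), κ.f (Matrix.of fun _ _ : Fin 1 => (MonoidAlgebra.single g (ε : ℤ))) = 1

/-- `Wh(Γ) = 0` in terms of `K_1`-like invariants. -/
def WhT (Γ : Type) [Group Γ] : Prop :=
  ∀ (K : Type) [CommGroup K] (κ : K1Fun (MonoidAlgebra ℤ Γ) K), KillsUnits κ →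
    ∀ (n : Type) [Fintype n] [DecidableEq n] (A : Matrix n n (MonoidAlgebra ℤ Γ)), IsUnit A →
      κ.f A = 1

end Base

section Supp

variable {G : Type} [Group G]

/-- The support of `x` is contained in `S`. -/
def SuppIn (S : Set G) (x : MonoidAlgebra ℤ G) : Prop := ∀ g, g ∉ S → x.coeff g = 0

open Classical in
/-- Restriction of `x` to the set `S`. -/
noncomputable def rs (S : Set G) : MonoidAlgebra ℤ G →+ MonoidAlgebra ℤ G where
  toFun x := MonoidAlgebra.ofCoeff (x.coeff.filter (· ∈ S))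
  map_zero' := by
    rw [MonoidAlgebra.coeff_zero, Finsupp.filter_zero, MonoidAlgebra.ofCoeff_zero]
  map_add' x y := by
    rw [MonoidAlgebra.coeff_add, Finsupp.filter_add, MonoidAlgebra.ofCoeff_add]

/-- All entries are supported in `S`. -/
def MSupp {m n : Type} (S : Set G) (M : Matrix m n (MonoidAlgebra ℤ G)) : Prop :=
  ∀ i j, SuppIn S (M i j)

/-- Entrywise restriction. -/
noncomputable def mrs {m n : Type} (S : Set G) (M : Matrix m n (MonoidAlgebra ℤ G)) :
    Matrix m n (MonoidAlgebra ℤ G) := M.map (rs S)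

/-- The invariant kills invertible matrices which are, with their inverses, supported in `S`. -/
def Kills {K : Type} [CommGroup K] (κ : K1Fun (MonoidAlgebra ℤ G) K) (S : Set G) : Prop :=
  ∀ (n : Type) [Fintype n] [DecidableEq n] (M M' : Matrix n n (MonoidAlgebra ℤ G)),
    MSupp S M → MSupp S M' → M * M' = 1 → M' * M = 1 → κ.f M = 1

end Supp

/-- Combinatorics of reduced paths. -/
structure PathData (G : Type) [Group G] (E : Subgroup G) (T : Type) where
  X : T → T → Set G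
  Y : T → Set G
  len : G → ℕ
  len_one : len 1 = 0
  one_mem : ∀ i, (1 : G) ∈ Y i
  mulY : ∀ i, ∀ e ∈ E, ∀ g ∈ Y i, e * g ∈ Y i ∧ len (e * g) = len g
  mulX : ∀ i j, ∀ e ∈ E, ∀ u ∈ X i j, u * e ∈ X i j ∧ e * u ∈ X i j
  add : ∀ i j, ∀ u ∈ X i j, ∀ g ∈ Y j, u * g ∈ Y i ∧ len (u * g) = len g + 1
  uniq : ∀ i j i' j' : T, ∀ u ∈ X i j, ∀ g ∈ Y j, ∀ u' ∈ X i' j', ∀ g' ∈ Y j',
    u * g = u' * g' → u⁻¹ * u' ∈ E

/-- The combinatorics of an amalgamated product `A *_(A ∩ B) B`. -/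
structure AmTree (G : Type) [Group G] where
  A : Subgroup G
  B : Subgroup G
  /-- reduced words beginning in `A`, beginning in `B` -/
  SA : Set G
  SB : Set G
  len : G → ℕ
  gen : Subgroup.closure ((A : Set G) ∪ B) = ⊤
  cover : ∀ g, g ∈ A ⊓ B ∨ g ∈ SA ∨ g ∈ SB
  disj : ∀ g ∈ SA, g ∉ SB
  disjA : ∀ g ∈ SA, g ∉ A ⊓ B
  disjB : ∀ g ∈ SB, g ∉ A ⊓ B
  leftEA : ∀ e ∈ A ⊓ B, ∀ g ∈ SA, e * g ∈ SA
  leftEB : ∀ e ∈ A ⊓ B, ∀ g ∈ SB, e * g ∈ SB
  lenE : ∀ e ∈ A ⊓ B, ∀ g, len (e * g) = len g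
  len_one : len 1 = 0
  leftA : ∀ a ∈ A, a ∉ B → ∀ g ∉ SA, a * g ∈ SA ∧ len (a * g) = len g + 1
  leftB : ∀ b ∈ B, b ∉ A → ∀ g ∉ SB, b * g ∈ SB ∧ len (b * g) = len g + 1
  rightB : ∀ g ∈ SA, ∀ b ∈ B, g * b ∈ SA
  rightA : ∀ g ∈ SB, ∀ a ∈ A, g * a ∈ SB

/-- The combinatorics of an HNN extension with base `H` and stable letter `t`; the stabilizer of
the base edge from `H` to `tH` is `E = H ∩ t H t⁻¹`, and `g ∈ V` means that the vertex `gH` lies
beyond the base edge. -/
structure HnnTree (G : Type) [Group G] where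
  H : Subgroup G
  E : Subgroup G
  t : G
  V : Set G
  len : G → ℕ
  gen : Subgroup.closure ((H : Set G) ∪ {t}) = ⊤
  memE : ∀ g, g ∈ E ↔ g ∈ H ∧ t⁻¹ * g * t ∈ H
  rightH : ∀ g ∈ V, ∀ h ∈ H, g * h ∈ V
  one_notMem : (1 : G) ∉ V
  t_mem : t ∈ V
  edge : ∀ g, g ∉ E → (g ∈ V ↔ g * t ∈ V)
  leftE : ∀ e ∈ E, ∀ g ∈ V, e * g ∈ V
  lenE : ∀ e ∈ E, ∀ g, len (e * g) = len g
  len_one : len 1 = 0
  /-- `t h` followed by a path which is trivial or leaves through `tH` -/
  pp : ∀ h ∈ H, ∀ g, (g ∈ E ∨ g ∈ V) → t * h * g ∈ V ∧ len (t * h * g) = len g + 1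
  /-- `t h t⁻¹` followed by a path which is trivial or leaves through `H` -/
  pm : ∀ h ∈ H, t * h * t⁻¹ ∉ E → ∀ g ∉ V, t * h * t⁻¹ * g ∈ V ∧
    len (t * h * t⁻¹ * g) = len g + 1
  /-- `h` followed by a path which is trivial or leaves through `tH` -/
  mp : ∀ h ∈ H, h ∉ E → ∀ g, (g ∈ E ∨ g ∈ V) → h * g ∉ V ∧ h * g ∉ E ∧
    len (h * g) = len g + 1
  /-- `h t⁻¹` followed by a path which is trivial or leaves through `H` -/
  mm : ∀ h ∈ H, ∀ g ∉ V, h * t⁻¹ * g ∉ V ∧ h * t⁻¹ * g ∉ E ∧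
    len (h * t⁻¹ * g) = len g + 1

/-- Supports of the entries of `ν` for amalgams: rows and columns of type `true` belong to `A`,
those of type `false` to `B`. -/
def AmTree.X {G : Type} [Group G] (T : AmTree G) : Bool → Bool → Set G
  | true, false => {g | g ∈ T.B ∧ g ∉ T.A}
  | false, true => {g | g ∈ T.A ∧ g ∉ T.B}
  | _, _ => ∅

/-- Supports of the rows of the inverse of `1 - ν` for amalgams. -/
def AmTree.Y {G : Type} [Group G] (T : AmTree G) : Bool → Set G
  | true => T.SAᶜ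
  | false => T.SBᶜ

/-- Supports of the entries of `ν` for HNN extensions. -/
def HnnTree.X {G : Type} [Group G] (T : HnnTree G) : Bool → Bool → Set G
  | true, true => {g | ∃ h ∈ T.H, g = T.t * h}
  | true, false => {g | (∃ h ∈ T.H, g = T.t * h * T.t⁻¹) ∧ g ∉ T.E}
  | false, true => {g | g ∈ T.H ∧ g ∉ T.E}
  | false, false => {g | ∃ h ∈ T.H, g = h * T.t⁻¹}

/-- Supports of the rows of the inverse of `1 - ν` for HNN extensions. -/
def HnnTree.Y {G : Type} [Group G] (T : HnnTree G) : Bool → Set G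
  | true => {g | g ∈ T.E ∨ g ∈ T.V}
  | false => T.Vᶜ

/-- An invertible matrix `[a | b]` over `ℤG`, `a` over `ℤA` and `b` over `ℤB`, with rows indexed
by `I`, and its inverse with rows `a'`, `b'`. -/
structure AmData {G : Type} [Group G] (T : AmTree G) (I nA nB : Type) [Fintype I] [DecidableEq I]
    [Fintype nA] [DecidableEq nA] [Fintype nB] [DecidableEq nB] where
  a : Matrix I nA (MonoidAlgebra ℤ G)
  b : Matrix I nB (MonoidAlgebra ℤ G)
  a' : Matrix nA I (MonoidAlgebra ℤ G)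
  b' : Matrix nB I (MonoidAlgebra ℤ G)
  ha : MSupp (T.A : Set G) a
  hb : MSupp (T.B : Set G) b
  sum : a * a' + b * b' = 1
  aa : a' * a = 1
  ab : a' * b = 0
  ba : b' * a = 0
  bb : b' * b = 1

/-- The idempotent belonging to `A`. -/
noncomputable def AmData.pA {G : Type} [Group G] {T : AmTree G} {I nA nB : Type} [Fintype I]
    [DecidableEq I] [Fintype nA] [DecidableEq nA] [Fintype nB] [DecidableEq nB]
    (D : AmData T I nA nB) : Matrix I I (MonoidAlgebra ℤ G) :=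
  mrs ((T.A ⊓ T.B : Subgroup G) : Set G) (D.a * D.a')

/-- The idempotent belonging to `B`. -/
noncomputable def AmData.pB {G : Type} [Group G] {T : AmTree G} {I nA nB : Type} [Fintype I]
    [DecidableEq I] [Fintype nA] [DecidableEq nA] [Fintype nB] [DecidableEq nB]
    (D : AmData T I nA nB) : Matrix I I (MonoidAlgebra ℤ G) :=
  mrs ((T.A ⊓ T.B : Subgroup G) : Set G) (D.b * D.b')

/-- An invertible matrix `a + t b` over `ℤG`, `a` and `b` over `ℤH`, and its inverse `c`. -/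
structure HnnData {G : Type} [Group G] (T : HnnTree G) (I J : Type) [Fintype I] [DecidableEq I]
    [Fintype J] [DecidableEq J] where
  a : Matrix I J (MonoidAlgebra ℤ G)
  b : Matrix I J (MonoidAlgebra ℤ G)
  c : Matrix J I (MonoidAlgebra ℤ G)
  ha : MSupp (T.H : Set G) a
  hb : MSupp (T.H : Set G) b
  mc : (a + (MonoidAlgebra.single T.t (1 : ℤ) : MonoidAlgebra ℤ G) • b) * c = 1
  cm : c * (a + (MonoidAlgebra.single T.t (1 : ℤ) : MonoidAlgebra ℤ G) • b) = 1

/-- The matrix `a + t b`. -/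
noncomputable def HnnData.m {G : Type} [Group G] {T : HnnTree G} {I J : Type} [Fintype I]
    [DecidableEq I] [Fintype J] [DecidableEq J] (D : HnnData T I J) :
    Matrix I J (MonoidAlgebra ℤ G) :=
  D.a + (MonoidAlgebra.single T.t (1 : ℤ) : MonoidAlgebra ℤ G) • D.b

/-- The matrix `diag(1, t⁻¹)`. -/
noncomputable def HnnTree.tInv {G : Type} [Group G] (T : HnnTree G) (p q : ℕ) :
    Matrix (Fin p ⊕ Fin q) (Fin p ⊕ Fin q) (MonoidAlgebra ℤ G) :=
  Matrix.fromBlocks 1 0 0 (Matrix.diagonal fun _ => MonoidAlgebra.single T.t⁻¹ (1 : ℤ))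

/-- The idempotent belonging to `a`. -/
noncomputable def HnnData.pa {G : Type} [Group G] {T : HnnTree G} {I J : Type} [Fintype I]
    [DecidableEq I] [Fintype J] [DecidableEq J] (D : HnnData T I J) :
    Matrix I I (MonoidAlgebra ℤ G) :=
  mrs (T.E : Set G) (D.a * D.c)

/-- The idempotent belonging to `t b`. -/
noncomputable def HnnData.pb {G : Type} [Group G] {T : HnnTree G} {I J : Type} [Fintype I]
    [DecidableEq I] [Fintype J] [DecidableEq J] (D : HnnData T I J) :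
    Matrix I I (MonoidAlgebra ℤ G) :=
  mrs (T.E : Set G) (((MonoidAlgebra.single T.t (1 : ℤ) : MonoidAlgebra ℤ G) • D.b) * D.c)

end Pool.Agent.Wald
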