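import Pool.Agent.Lib.MP_8f66f0_al_Wald.GrDefs

/-! The combinatorics of the amalgamated product `Monoid.PushoutI` of two groups. -/

set_option autoImplicit false

namespace Pool.Agent.Wald

open Monoid Monoid.PushoutI Monoid.PushoutI.NormalWord

namespace AmPush

variable {G : Bool → Type} [∀ i, Group (G i)] {E : Type} [Group E] {φ : ∀ i, E →* G i}
  [∀ i, DecidableEq (G i)] {d : Transversal φ}

/-- the first letter of the normal form -/
noncomputable def fi (d : Transversal φ) (g : PushoutI φ) : Option Bool :=
  (g • (NormalWord.empty : NormalWord d)).toWord.fstIdx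

/-- the length of the normal form -/
noncomputable def ln (d : Transversal φ) (g : PushoutI φ) : ℕ :=
  (g • (NormalWord.empty : NormalWord d)).toWord.toList.length

theorem base_mul (h : E) (g : PushoutI φ) :
    fi d (base φ h * g) = fi d g ∧ ln d (base φ h * g) = ln d g := by
  unfold fi ln
  rw [mul_smul, base_smul_def]
  exact ⟨rfl, rfl⟩

theorem cons_mul {i : Bool} (a : G i) (ha : a ∉ (φ i).range) (g : PushoutI φ)
    (hg : fi d g ≠ some i) :
    fi d (of i a * g) = some i ∧ ln d (of i a * g) = ln d g + 1 := by
  unfold fi ln
  rw [mul_smul, ← cons_eq_smul a (g • (NormalWord.empty : NormalWord d)) hg ha]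
  refine ⟨?_, ?_⟩
  · rfl
  · rfl

theorem fi_one : fi d (1 : PushoutI φ) = none := by
  unfold fi
  rw [one_smul]
  rfl

theorem ln_one : ln d (1 : PushoutI φ) = 0 := by
  unfold ln
  rw [one_smul]
  rfl

theorem base_of_none {g : PushoutI φ} (h : fi d g = none) : ∃ e : E, g = base φ e := by
  have h1 : (g • (NormalWord.empty : NormalWord d)).prod = g := (NormalWord.equiv (d := d)).left_inv g
  have h2 : (g • (NormalWord.empty : NormalWord d)).toWord.toList = [] := by
    unfold fi CoprodI.Word.fstIdx at h
    rcases hl : (g • (NormalWord.empty : NormalWord d)).toWord.toList with _ | ⟨x, l⟩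
    · rfl
    · rw [hl] at h
      exact absurd h (by simp)
  refine ⟨(g • (NormalWord.empty : NormalWord d)).head, ?_⟩
  have h3 : (g • (NormalWord.empty : NormalWord d)).toWord.prod = 1 := by
    unfold CoprodI.Word.prod
    rw [h2]
    rfl
  rw [NormalWord.prod, h3, map_one, mul_one] at h1
  exact h1.symm

theorem fi_base (e : E) : fi d (base φ e) = none := by
  have := (base_mul (d := d) e 1).1
  rw [mul_one] at this
  rw [this, fi_one]

theorem fi_of {i : Bool} (a : G i) : (a ∈ (φ i).range ∧ fi d (of (φ := φ) i a) = none) ∨
    (a ∉ (φ i).range ∧ fi d (of (φ := φ) i a) = some i) := by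
  by_cases ha : a ∈ (φ i).range
  · left
    refine ⟨ha, ?_⟩
    obtain ⟨e, rfl⟩ := ha
    rw [of_apply_eq_base, fi_base]
  · right
    refine ⟨ha, ?_⟩
    have := (cons_mul (d := d) a ha 1 (by rw [fi_one]; simp)).1
    rwa [mul_one] at this

theorem fi_of_ne {i : Bool} (a : G i) : fi d (of (φ := φ) i a) ≠ some (!i) := by
  rcases fi_of (d := d) (φ := φ) a with ⟨-, h⟩ | ⟨-, h⟩
  · rw [h]
    simp
  · rw [h]
    cases i <;> simp

/-- right multiplication -/
theorem right_mul (g : PushoutI φ) : ∀ (j : Bool) (x : G j),
    (fi d (g * of j x) = some (!j) ↔ fi d g = some (!j)) := by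
  have hg : (g • (NormalWord.empty : NormalWord d)).prod = g := (NormalWord.equiv (d := d)).left_inv g
  rw [← hg]
  generalize (g • (NormalWord.empty : NormalWord d)) = v
  induction v using NormalWord.consRecOn with
  | empty =>
    intro j x
    rw [prod_empty, one_mul, fi_one]
    exact ⟨fun h => absurd h (fi_of_ne x), fun h => absurd h (by simp)⟩
  | cons i y w' hmw hgn hgr hw1 ih =>
    intro j x
    rw [prod_cons, mul_assoc]
    have h1 : fi d w'.prod = w'.fstIdx := by
      unfold fi
      rw [prod_smul_empty]
    have h2 : fi d w'.prod ≠ some i := by rw [h1]; exact hmw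
    rw [(cons_mul (d := d) y hgr w'.prod h2).1]
    by_cases hij : i = !j
    · subst hij
      have h3 : fi d (w'.prod * of j x) ≠ some (!j) := fun h => h2 ((ih j x).mp h)
      rw [(cons_mul (d := d) y hgr _ h3).1]
    · have hij' : i = j := by
        cases i <;> cases j <;> simp_all
      subst hij'
      refine ⟨fun h => ?_, fun h => absurd h (by cases i <;> simp)⟩
      exfalso
      by_cases h4 : fi d w'.prod = some (!i)
      · have h5 := (ih i x).mpr h4
        have h6 : fi d (w'.prod * of i x) ≠ some i := by
          rw [h5]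
          cases i <;> simp
        rw [(cons_mul (d := d) y hgr _ h6).1] at h
        cases i <;> simp at h
      · have h5 : fi d w'.prod = none := by
          rcases h6 : fi d w'.prod with _ | k
          · rfl
          · exfalso
            rw [h6] at h2 h4
            cases i <;> cases k <;> simp_all
        obtain ⟨e, he⟩ := base_of_none h5
        rw [he, ← of_apply_eq_base φ i e, ← map_mul, ← map_mul] at h
        exact fi_of_ne _ h
  | base e w' hw1 ih =>
    intro j x
    rw [prod_smul, mul_assoc, (base_mul _ _).1, (base_mul _ _).1]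
    exact ih j x

end AmPush

open AmPush

/-- The combinatorics of the amalgamated product. -/
theorem amTree_pushout (G : Bool → Type) [∀ i, Group (G i)] (E : Type) [Group E]
    (φ : ∀ i, E →* G i) (hφ : ∀ i, Function.Injective (φ i)) :
    ∃ T : AmTree (Monoid.PushoutI φ), T.A = (Monoid.PushoutI.of (φ := φ) true).range ∧
      T.B = (Monoid.PushoutI.of (φ := φ) false).range ∧
      T.A ⊓ T.B = (Monoid.PushoutI.base φ).range := by
  classical
  obtain ⟨d⟩ := transversal_nonempty φ hφ
  have hbase : ∀ (e : E) (i : Bool), base φ e ∈ (of (φ := φ) i).range := fun e i =>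
    ⟨φ i e, of_apply_eq_base φ i e⟩
  have hinf : (of (φ := φ) true).range ⊓ (of (φ := φ) false).range = (base φ).range := by
    ext g
    constructor
    · rintro ⟨⟨a, ha⟩, ⟨b, hb⟩⟩
      have ha' : fi d g = fi d (of (φ := φ) true a) := by rw [ha]
      have hb' : fi d g = fi d (of (φ := φ) false b) := by rw [hb]
      rcases fi_of (d := d) (φ := φ) a with ⟨-, h⟩ | ⟨-, h⟩
      · rw [h] at ha'
        obtain ⟨e, he⟩ := base_of_none ha'
        exact ⟨e, he.symm⟩
      · rw [h] at ha'
        rcases fi_of (d := d) (φ := φ) b with ⟨-, h'⟩ | ⟨-, h'⟩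
        · rw [h', ha'] at hb'
          exact absurd hb' (by simp)
        · rw [h', ha'] at hb'
          exact absurd hb' (by simp)
    · rintro ⟨e, rfl⟩
      exact ⟨hbase e true, hbase e false⟩
  have hL : ∀ i : Bool, ∀ a ∈ (of (φ := φ) i).range, a ∉ (of (φ := φ) (!i)).range → ∀ g,
      fi d g ≠ some i → fi d (a * g) = some i ∧ ln d (a * g) = ln d g + 1 := by
    rintro i a ⟨x, rfl⟩ hx g hg
    refine cons_mul x (fun hr => ?_) g hg
    obtain ⟨e, rfl⟩ := hr
    apply hx
    rw [of_apply_eq_base]
    exact hbase e _
  refine ⟨{ A := (of (φ := φ) true).range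
            B := (of (φ := φ) false).range
            SA := {g | fi d g = some true}
            SB := {g | fi d g = some false}
            len := ln d
            gen := ?_
            cover := ?_
            disj := ?_
            disjA := ?_
            disjB := ?_
            leftEA := ?_
            leftEB := ?_
            lenE := ?_
            len_one := ln_one
            leftA := ?_
            leftB := ?_
            rightB := ?_
            rightA := ?_ }, rfl, rfl, hinf⟩
  · rw [eq_top_iff]
    intro g _
    induction g using PushoutI.induction_on with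
    | of i a =>
      refine Subgroup.subset_closure ?_
      cases i
      · exact Or.inr ⟨a, rfl⟩
      · exact Or.inl ⟨a, rfl⟩
    | base e => exact Subgroup.subset_closure (Or.inl (hbase e true))
    | mul x y hx hy => exact mul_mem (hx trivial) (hy trivial)
  · intro g
    rcases h : fi d g with _ | i
    · left
      rw [hinf]
      obtain ⟨e, he⟩ := base_of_none h
      exact ⟨e, he.symm⟩
    · cases i
      · exact Or.inr (Or.inr h)
      · exact Or.inr (Or.inl h)
  · intro g hg hg'
    have h1 : fi d g = some true := hg
    have h2 : fi d g = some false := hg'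
    rw [h1] at h2
    exact absurd h2 (by simp)
  · intro g hg hg'
    rw [hinf] at hg'
    obtain ⟨e, rfl⟩ := hg'
    have h1 : fi d (base φ e) = some true := hg
    rw [fi_base] at h1
    exact absurd h1 (by simp)
  · intro g hg hg'
    rw [hinf] at hg'
    obtain ⟨e, rfl⟩ := hg'
    have h1 : fi d (base φ e) = some false := hg
    rw [fi_base] at h1
    exact absurd h1 (by simp)
  · intro a ha g hg
    rw [hinf] at ha
    obtain ⟨e, rfl⟩ := ha
    exact (base_mul e g).1.trans hg
  · intro a ha g hg
    rw [hinf] at ha
    obtain ⟨e, rfl⟩ := ha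
    exact (base_mul e g).1.trans hg
  · intro a ha g
    rw [hinf] at ha
    obtain ⟨e, rfl⟩ := ha
    exact (base_mul e g).2
  · exact fun a ha ha' g hg => hL true a ha ha' g hg
  · exact fun b hb hb' g hg => hL false b hb hb' g hg
  · rintro g hg b ⟨x, rfl⟩
    exact (right_mul g false x).mpr hg
  · rintro g hg b ⟨x, rfl⟩
    exact (right_mul g true x).mpr hg

end Pool.Agent.Wald
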