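import Mathlib
import Pool.Agent.Lib.MP_8f66f0_al_Wald.GrDefs

/-! The tree combinatorics of an HNN extension, in the form of `HnnTree`.

The indicator function `f` of the half tree beyond the base edge is constructed by the universal
property (it is determined by `f 1 = 0`, `f (g h) = f g` for `h` in the base group and
`f (g t) = f g + 1_E g`), the distance of vertices is the number of separating edges. -/

set_option autoImplicit false

namespace Pool.Agent.Wald

open HNNExtension

section HnnExt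

/-- Right translation of functions. -/
private def HnnExt_theta (Γ : Type) [Group Γ] : Γ →* MulAut (Γ → Multiplicative ℤ) where
  toFun x :=
    { toFun := fun m g => m (g * x)
      invFun := fun m g => m (g * x⁻¹)
      left_inv := fun m => by funext g; simp
      right_inv := fun m => by funext g; simp
      map_mul' := fun m m' => rfl }
  map_one' := by ext m g; simp
  map_mul' x y := by ext m g; simp [mul_assoc]

variable {G : Type} [Group G] {A B : Subgroup G} {φ : A ≃* B}

private theorem HnnExt_cocycle (c : HNNExtension G A B φ → ℤ)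
    (hc : ∀ g (b : B), c (g * of (b : G)) = c g) :
    ∃ F : HNNExtension G A B φ → ℤ, F 1 = 0 ∧ (∀ g (x : G), F (g * of x) = F g) ∧
      ∀ g, F (g * t) = F g + c g := by
  have hx : ∀ a : A, (⟨fun g => Multiplicative.ofAdd (c g), t⟩ :
      (HNNExtension G A B φ → Multiplicative ℤ) ⋊[HnnExt_theta _] HNNExtension G A B φ) *
        (SemidirectProduct.inr.comp of) (a : G) =
      (SemidirectProduct.inr.comp of) (φ a : G) * ⟨fun g => Multiplicative.ofAdd (c g), t⟩ := by
    intro a
    apply SemidirectProduct.ext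
    · rw [SemidirectProduct.mul_left, SemidirectProduct.mul_left]
      funext g
      have h := hc g (φ a)
      change Multiplicative.ofAdd (c g) * 1 =
        1 * Multiplicative.ofAdd (c (g * of (φ a : G)))
      rw [h, mul_one, one_mul]
    · exact t_mul_of a
  let j : HNNExtension G A B φ →*
      (HNNExtension G A B φ → Multiplicative ℤ) ⋊[HnnExt_theta _] HNNExtension G A B φ :=
    HNNExtension.lift (SemidirectProduct.inr.comp of)
      ⟨fun g => Multiplicative.ofAdd (c g), t⟩ hx
  have hjo : ∀ x : G, j (of x) = SemidirectProduct.inr (of x) := fun x => by simp [j]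
  have hjt : j t = ⟨fun g => Multiplicative.ofAdd (c g), t⟩ := lift_t _ _ hx
  have hj : (SemidirectProduct.rightHom.comp j) = MonoidHom.id (HNNExtension G A B φ) :=
    HNNExtension.hom_ext (by
      ext x
      change (j (of x)).right = of x
      rw [hjo]; rfl) (by
      change (j t).right = t
      rw [hjt])
  have hj' : ∀ g, (j g).right = g := fun g => DFunLike.congr_fun hj g
  refine ⟨fun g => Multiplicative.toAdd ((j g).left 1), by simp, fun g x => ?_, fun g => ?_⟩
  · change Multiplicative.toAdd ((j (g * of x)).left 1) = _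
    rw [map_mul, SemidirectProduct.mul_left, hjo]
    simp
  · change Multiplicative.toAdd ((j (g * t)).left 1) = _
    rw [map_mul, SemidirectProduct.mul_left, hjt, hj']
    change Multiplicative.toAdd ((j g).left 1 * Multiplicative.ofAdd (c (1 * g))) = _
    simp

private theorem HnnExt_ind {P : HNNExtension G A B φ → Prop} (h1 : P 1)
    (ho : ∀ g (x : G), P g → P (g * of x)) (ht : ∀ g, P g ↔ P (g * t)) (g : HNNExtension G A B φ) :
    P g := by
  have key : ∀ x : HNNExtension G A B φ, ∀ g, P g ↔ P (g * x) := by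
    intro x
    induction x using HNNExtension.induction_on with
    | of x =>
      intro g
      refine ⟨ho g x, fun h => ?_⟩
      have := ho _ x⁻¹ h
      simpa [mul_assoc] using this
    | t => exact ht
    | mul x y hx hy => intro g; rw [hx g, hy (g * x), mul_assoc]
    | inv x hx => intro g; rw [hx (g * x⁻¹)]; simp
  simpa using (key g 1).1 h1

/-- The edge group. -/
private def HnnExt_E (φ : A ≃* B) : Subgroup (HNNExtension G A B φ) :=
  ((HNNExtension.of (φ := φ)).comp B.subtype).range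

private theorem HnnExt_memE {g : HNNExtension G A B φ} :
    g ∈ HnnExt_E φ ↔ ∃ b : B, of (b : G) = g := Iff.rfl

open Classical in
/-- The indicator of the edge group. -/
private noncomputable def HnnExt_c (g : HNNExtension G A B φ) : ℤ :=
  if g ∈ HnnExt_E φ then 1 else 0

private theorem HnnExt_c_mem {g : HNNExtension G A B φ} (h : g ∈ HnnExt_E φ) :
    HnnExt_c g = 1 := if_pos h

private theorem HnnExt_c_notMem {g : HNNExtension G A B φ} (h : g ∉ HnnExt_E φ) :
    HnnExt_c g = 0 := if_neg h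

private theorem HnnExt_c_congr {g g' : HNNExtension G A B φ}
    (h : g ∈ HnnExt_E φ ↔ g' ∈ HnnExt_E φ) : HnnExt_c g = HnnExt_c g' := by
  by_cases h2 : g' ∈ HnnExt_E φ
  · rw [HnnExt_c_mem h2, HnnExt_c_mem (h.2 h2)]
  · rw [HnnExt_c_notMem h2, HnnExt_c_notMem fun h3 => h2 (h.1 h3)]

/-- The indicator function of the half tree. -/
private structure HnnExt_Ind (φ : A ≃* B) where
  f : HNNExtension G A B φ → ℤ
  one : f 1 = 0
  ofx : ∀ g (x : G), f (g * of x) = f g
  st : ∀ g, f (g * t) = f g + HnnExt_c g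

private theorem HnnExt_exists (φ : A ≃* B) : Nonempty (HnnExt_Ind φ) := by
  obtain ⟨F, h1, h2, h3⟩ := HnnExt_cocycle (φ := φ) HnnExt_c fun g b =>
    HnnExt_c_congr (Subgroup.mul_mem_cancel_right _ ⟨b, rfl⟩)
  exact ⟨⟨F, h1, h2, h3⟩⟩

namespace HnnExt_Ind

variable (F : HnnExt_Ind φ)

private theorem f_of (x : G) : F.f (of x) = 0 := by
  have := F.ofx 1 x
  rwa [one_mul, F.one] at this

private theorem f_E {e : HNNExtension G A B φ} (he : e ∈ HnnExt_E φ) : F.f e = 0 := by
  obtain ⟨b, rfl⟩ := he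
  exact F.f_of b

private theorem f_mul_E (g : HNNExtension G A B φ) {e : HNNExtension G A B φ}
    (he : e ∈ HnnExt_E φ) : F.f (g * e) = F.f g := by
  obtain ⟨b, rfl⟩ := he
  exact F.ofx g b

private theorem f_ti (g : HNNExtension G A B φ) :
    F.f (g * t⁻¹) = F.f g - HnnExt_c (g * t⁻¹) := by
  have := F.st (g * t⁻¹)
  rw [inv_mul_cancel_right] at this
  rw [this]; ring

private theorem f_t : F.f t = 1 := by
  have := F.st 1
  rwa [one_mul, F.one, HnnExt_c_mem (one_mem _), zero_add] at this

private theorem f01 (g : HNNExtension G A B φ) : F.f g = 0 ∨ F.f g = 1 := by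
  induction g using HnnExt_ind with
  | h1 => exact Or.inl F.one
  | ho g x h => rwa [F.ofx]
  | ht g =>
    rw [F.st]
    by_cases h : g ∈ HnnExt_E φ
    · rw [HnnExt_c_mem h, F.f_E h]; simp
    · rw [HnnExt_c_notMem h, add_zero]

private theorem f_left {e : HNNExtension G A B φ} (he : e ∈ HnnExt_E φ)
    (g : HNNExtension G A B φ) : F.f (e * g) = F.f g := by
  induction g using HnnExt_ind with
  | h1 => rw [mul_one, F.one, F.f_E he]
  | ho g x h => rw [← mul_assoc, F.ofx, F.ofx, h]
  | ht g =>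
    rw [← mul_assoc, F.st, F.st, HnnExt_c_congr (Subgroup.mul_mem_cancel_left _ he),
      add_left_inj]

private theorem nest {c : HNNExtension G A B φ} (hc : c ∉ HnnExt_E φ)
    (g : HNNExtension G A B φ) : F.f g = F.f c⁻¹ ∨ F.f (c * g) = F.f c := by
  induction g using HnnExt_ind with
  | h1 => exact Or.inr (by rw [mul_one])
  | ho g x h => rwa [← mul_assoc, F.ofx, F.ofx]
  | ht g =>
    rw [← mul_assoc, F.st, F.st]
    by_cases h : g ∈ HnnExt_E φ
    · have h' : c * g ∉ HnnExt_E φ := fun h2 => hc ((Subgroup.mul_mem_cancel_right _ h).1 h2)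
      rw [HnnExt_c_notMem h', add_zero, F.f_mul_E c h]
      simp
    · by_cases h' : c * g ∈ HnnExt_E φ
      · have h3 : F.f g = F.f c⁻¹ := by
          have := F.f_mul_E c⁻¹ h'
          rwa [inv_mul_cancel_left] at this
        rw [HnnExt_c_notMem h, add_zero, h3]
        simp
      · rw [HnnExt_c_notMem h, HnnExt_c_notMem h', add_zero, add_zero]

/-- The edges which separate the base vertex and its translate by `g`. -/
private def S (g : HNNExtension G A B φ) : Set (HNNExtension G A B φ ⧸ HnnExt_E φ) :=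
  {x | F.f (x.out⁻¹ * g) ≠ F.f x.out⁻¹}

private theorem mem_S (g y : HNNExtension G A B φ) :
    (QuotientGroup.mk y : HNNExtension G A B φ ⧸ HnnExt_E φ) ∈ F.S g ↔
      F.f (y⁻¹ * g) ≠ F.f y⁻¹ := by
  obtain ⟨e, he⟩ := QuotientGroup.mk_out_eq_mul (HnnExt_E φ) y
  change F.f ((Quotient.out _)⁻¹ * g) ≠ F.f (Quotient.out _)⁻¹ ↔ _
  rw [he, mul_inv_rev, mul_assoc, F.f_left (inv_mem e.2), F.f_left (inv_mem e.2)]

private theorem S_one : F.S 1 = ∅ := by
  ext x
  induction x using QuotientGroup.induction_on with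
  | H y => rw [mem_S, mul_one]; simp

private theorem S_of (g : HNNExtension G A B φ) (x : G) : F.S (g * of x) = F.S g := by
  ext z
  induction z using QuotientGroup.induction_on with
  | H y => rw [mem_S, mem_S, ← mul_assoc, F.ofx]

private theorem S_ne (g y : HNNExtension G A B φ)
    (h : (QuotientGroup.mk y : HNNExtension G A B φ ⧸ HnnExt_E φ) ≠ QuotientGroup.mk g) :
    (QuotientGroup.mk y : HNNExtension G A B φ ⧸ HnnExt_E φ) ∈ F.S (g * t) ↔
      (QuotientGroup.mk y : HNNExtension G A B φ ⧸ HnnExt_E φ) ∈ F.S g := by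
  have h' : y⁻¹ * g ∉ HnnExt_E φ := fun h2 => h (QuotientGroup.eq.2 h2)
  rw [mem_S, mem_S, ← mul_assoc, F.st, HnnExt_c_notMem h', add_zero]

private theorem S_self (g : HNNExtension G A B φ) :
    (QuotientGroup.mk g : HNNExtension G A B φ ⧸ HnnExt_E φ) ∈ F.S g ↔ F.f g⁻¹ = 1 := by
  rw [mem_S, inv_mul_cancel, F.one]
  rcases F.f01 g⁻¹ with h | h <;> simp [h]

private theorem S_self' (g : HNNExtension G A B φ) :
    (QuotientGroup.mk g : HNNExtension G A B φ ⧸ HnnExt_E φ) ∈ F.S (g * t) ↔ F.f g⁻¹ = 0 := by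
  rw [mem_S, inv_mul_cancel_left, F.f_t]
  rcases F.f01 g⁻¹ with h | h <;> simp [h]

private theorem S_zero {g : HNNExtension G A B φ} (h : F.f g⁻¹ = 0) :
    F.S (g * t) = insert (QuotientGroup.mk g) (F.S g) := by
  ext z
  induction z using QuotientGroup.induction_on with
  | H y =>
    rw [Set.mem_insert_iff]
    by_cases h2 : (QuotientGroup.mk y : HNNExtension G A B φ ⧸ HnnExt_E φ) = QuotientGroup.mk g
    · rw [h2, S_self', h]; simp
    · rw [F.S_ne g y h2]; simp [h2]

private theorem S_pos {g : HNNExtension G A B φ} (h : F.f g⁻¹ = 1) :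
    F.S g = insert (QuotientGroup.mk g) (F.S (g * t)) := by
  ext z
  induction z using QuotientGroup.induction_on with
  | H y =>
    rw [Set.mem_insert_iff]
    by_cases h2 : (QuotientGroup.mk y : HNNExtension G A B φ ⧸ HnnExt_E φ) = QuotientGroup.mk g
    · rw [h2, S_self, h]; simp
    · rw [F.S_ne g y h2]; simp [h2]

private theorem S_fin (g : HNNExtension G A B φ) : (F.S g).Finite := by
  induction g using HnnExt_ind with
  | h1 => rw [S_one]; exact Set.finite_empty
  | ho g x h => rwa [S_of]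
  | ht g =>
    rcases F.f01 g⁻¹ with h | h
    · rw [F.S_zero h, Set.finite_insert]
    · rw [F.S_pos h, Set.finite_insert]

/-- The distance. -/
private noncomputable def d (g : HNNExtension G A B φ) : ℤ := (F.S g).ncard

private theorem d_one : F.d 1 = 0 := by
  rw [d, S_one]; simp

private theorem d_ofx (g : HNNExtension G A B φ) (x : G) : F.d (g * of x) = F.d g := by
  rw [d, S_of]; rfl

private theorem d_st (g : HNNExtension G A B φ) :
    F.d (g * t) = F.d g + 1 - 2 * F.f g⁻¹ := by
  rcases F.f01 g⁻¹ with h | h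
  · rw [d, F.S_zero h, Set.ncard_insert_of_notMem (by rw [S_self, h]; simp) (F.S_fin g), h, d]
    push_cast; ring
  · rw [h]
    have : F.d g = F.d (g * t) + 1 := by
      rw [d, F.S_pos h, Set.ncard_insert_of_notMem (by rw [S_self', h]; simp) (F.S_fin _), d]
      push_cast; ring
    rw [this]; ring

private theorem d_of (x : G) : F.d (of x) = 0 := by
  have := F.d_ofx 1 x
  rwa [one_mul, F.d_one] at this

private theorem d_left (x : G) (g : HNNExtension G A B φ) : F.d (of x * g) = F.d g := by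
  induction g using HnnExt_ind with
  | h1 => rw [mul_one, F.d_one, F.d_of]
  | ho g y h => rw [← mul_assoc, F.d_ofx, F.d_ofx, h]
  | ht g =>
    have : F.f (of x * g)⁻¹ = F.f g⁻¹ := by rw [mul_inv_rev, ← map_inv, F.ofx]
    rw [← mul_assoc, F.d_st, F.d_st, this]
    constructor <;> intro h <;> linarith

private theorem f_inv_t (g : HNNExtension G A B φ) :
    F.f (t * g)⁻¹ = F.f g⁻¹ - HnnExt_c (t * g) := by
  rw [mul_inv_rev, F.f_ti]
  congr 1
  apply HnnExt_c_congr
  rw [← mul_inv_rev, inv_mem_iff]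

private theorem d_tl (g : HNNExtension G A B φ) :
    F.d (t * g) = F.d g + 2 * F.f (t * g) - 1 := by
  induction g using HnnExt_ind with
  | h1 =>
    have := F.d_st 1
    rw [one_mul, inv_one, F.one, F.d_one] at this
    rw [mul_one, F.d_one, F.f_t, this]; norm_num
  | ho g y h => rw [← mul_assoc, F.d_ofx, F.d_ofx, F.ofx, h]
  | ht g =>
    rw [← mul_assoc, F.d_st, F.d_st, F.st, F.f_inv_t]
    constructor <;> intro h <;> linarith

private theorem d_til (g : HNNExtension G A B φ) :
    F.d (t⁻¹ * g) = F.d g - 2 * F.f g + 1 := by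
  have := F.d_tl (t⁻¹ * g)
  rw [mul_inv_cancel_left] at this
  rw [this]; ring

private theorem d_nonneg (g : HNNExtension G A B φ) : 0 ≤ F.d g := by
  unfold d; positivity

private theorem d_zero {g : HNNExtension G A B φ} (h : F.d g = 0) : F.f g = 0 := by
  have h1 : (F.S g).ncard = 0 := by unfold d at h; exact_mod_cast h
  rw [Set.ncard_eq_zero (F.S_fin g)] at h1
  have h2 : (QuotientGroup.mk 1 : HNNExtension G A B φ ⧸ HnnExt_E φ) ∉ F.S g := by
    rw [h1]; simp
  rw [mem_S] at h2
  simpa [F.one] using h2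

/-- The distance of edges. -/
private noncomputable def L (g : HNNExtension G A B φ) : ℤ :=
  F.d g + 1 - F.f g - HnnExt_c g - F.f g⁻¹

private theorem L_nonneg (g : HNNExtension G A B φ) : 0 ≤ F.L g := by
  unfold L
  by_cases h : g ∈ HnnExt_E φ
  · rw [F.f_E h, F.f_E (inv_mem h), HnnExt_c_mem h]
    have := F.d_nonneg g
    linarith
  · rw [HnnExt_c_notMem h]
    by_cases h2 : F.d g = 0
    · rw [F.d_zero h2]
      rcases F.f01 g⁻¹ with h | h <;> linarith
    · have h3 := F.d_nonneg g
      have h4 : 1 ≤ F.d g := by omega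
      rcases F.f01 g⁻¹ with h | h <;> rcases F.f01 g with h' | h' <;> linarith

private theorem L_pp (x : G) {g : HNNExtension G A B φ} (hg : g ∈ HnnExt_E φ ∨ F.f g = 1) :
    F.f (t * of x * g) = 1 ∧ F.L (t * of x * g) = F.L g + 1 := by
  have ht : t * of x ∉ HnnExt_E φ := by
    intro h
    have h1 := F.f_E h
    rw [F.ofx, F.f_t] at h1
    norm_num at h1
  have hti : F.f (t * of x)⁻¹ = 0 := by
    rw [mul_inv_rev, F.f_ti, ← map_inv, F.f_of, HnnExt_c_notMem]
    · norm_num
    · intro h
      apply ht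
      have := inv_mem h
      rwa [mul_inv_rev, inv_inv, ← map_inv, inv_inv] at this
  have h1 : F.f (t * of x * g) = 1 := by
    rcases hg with hg | hg
    · rw [F.f_mul_E _ hg, F.ofx, F.f_t]
    · rcases F.nest ht g with h | h
      · rw [h, hti] at hg; norm_num at hg
      · rw [h, F.ofx, F.f_t]
  refine ⟨h1, ?_⟩
  have h2 : t * of x * g ∉ HnnExt_E φ := fun h => by
    rw [F.f_E h] at h1; norm_num at h1
  have h3 : F.f g + HnnExt_c g = 1 := by
    rcases hg with hg | hg
    · rw [F.f_E hg, HnnExt_c_mem hg]; norm_num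
    · rw [hg, HnnExt_c_notMem fun h => by rw [F.f_E h] at hg; norm_num at hg]; norm_num
  have h4 : F.d (t * of x * g) = F.d g + 1 := by
    have := F.d_tl (of x * g)
    rw [← mul_assoc, h1, F.d_left] at this
    rw [this]; ring
  have h5 : F.f (t * of x * g)⁻¹ = F.f g⁻¹ := by
    have := F.f_inv_t (of x * g)
    rw [← mul_assoc, HnnExt_c_notMem h2, mul_inv_rev (of x), ← map_inv, F.ofx] at this
    rw [this]; ring
  unfold L
  rw [h1, h4, h5, HnnExt_c_notMem h2]
  linarith

private theorem L_pm (x : G) (ht : t * of x * t⁻¹ ∉ HnnExt_E φ) {g : HNNExtension G A B φ}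
    (hg : F.f g = 0) :
    F.f (t * of x * t⁻¹ * g) = 1 ∧ F.L (t * of x * t⁻¹ * g) = F.L g + 1 := by
  have hc : F.f (t * of x * t⁻¹) = 1 := by
    rw [F.f_ti, F.ofx, F.f_t, HnnExt_c_notMem ht]; norm_num
  have hci : F.f (t * of x * t⁻¹)⁻¹ = 1 := by
    have h1 : (t * of x * t⁻¹ : HNNExtension G A B φ)⁻¹ = t * of x⁻¹ * t⁻¹ := by
      rw [mul_inv_rev, mul_inv_rev, inv_inv, map_inv, mul_assoc]
    have h2 : t * of x⁻¹ * t⁻¹ ∉ HnnExt_E φ := by rwa [← h1, inv_mem_iff]
    rw [h1, F.f_ti, F.ofx, F.f_t, HnnExt_c_notMem h2]; norm_num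
  have h1 : F.f (t * of x * t⁻¹ * g) = 1 := by
    rcases F.nest ht g with h | h
    · rw [h, hci] at hg; norm_num at hg
    · rw [h, hc]
  refine ⟨h1, ?_⟩
  have h2 : t * of x * t⁻¹ * g ∉ HnnExt_E φ := fun h => by
    rw [F.f_E h] at h1; norm_num at h1
  have h4 : F.d (t * of x * t⁻¹ * g) = F.d g + 2 := by
    have := F.d_tl (of x * (t⁻¹ * g))
    rw [← mul_assoc, ← mul_assoc, h1, F.d_left, F.d_til, hg] at this
    rw [this]; ring
  have h5 : F.f (t * of x * t⁻¹ * g)⁻¹ = F.f g⁻¹ + HnnExt_c g := by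
    have h6 : (t * of x * t⁻¹ * g : HNNExtension G A B φ)⁻¹ = g⁻¹ * t * of x⁻¹ * t⁻¹ := by
      simp only [mul_inv_rev, inv_inv, map_inv, mul_assoc]
    rw [h6, F.f_ti, ← h6, HnnExt_c_congr inv_mem_iff, HnnExt_c_notMem h2, F.ofx, F.st,
      HnnExt_c_congr inv_mem_iff]
    ring
  unfold L
  rw [h1, h4, h5, HnnExt_c_notMem h2, hg]
  ring

private theorem L_mp (x : G) (hx : of x ∉ HnnExt_E φ) {g : HNNExtension G A B φ}
    (hg : g ∈ HnnExt_E φ ∨ F.f g = 1) :
    F.f (of x * g) = 0 ∧ of x * g ∉ HnnExt_E φ ∧ F.L (of x * g) = F.L g + 1 := by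
  have h1 : F.f (of x * g) = 0 := by
    rcases hg with hg | hg
    · rw [F.f_mul_E _ hg, F.f_of]
    · rcases F.nest hx g with h | h
      · rw [h, ← map_inv, F.f_of] at hg; norm_num at hg
      · rw [h, F.f_of]
  have h2 : of x * g ∉ HnnExt_E φ := by
    rcases hg with hg | hg
    · exact fun h => hx ((Subgroup.mul_mem_cancel_right _ hg).1 h)
    · intro h
      have h3 := F.f_mul_E (of x⁻¹) h
      rw [map_inv, inv_mul_cancel_left, ← map_inv, F.f_of, hg] at h3
      norm_num at h3
  refine ⟨h1, h2, ?_⟩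
  have h3 : F.f g + HnnExt_c g = 1 := by
    rcases hg with hg | hg
    · rw [F.f_E hg, HnnExt_c_mem hg]; norm_num
    · rw [hg, HnnExt_c_notMem fun h => by rw [F.f_E h] at hg; norm_num at hg]; norm_num
  unfold L
  rw [h1, F.d_left, HnnExt_c_notMem h2, mul_inv_rev, ← map_inv, F.ofx]
  linarith

private theorem L_mm (x : G) {g : HNNExtension G A B φ} (hg : F.f g = 0) :
    F.f (of x * t⁻¹ * g) = 0 ∧ of x * t⁻¹ * g ∉ HnnExt_E φ ∧
      F.L (of x * t⁻¹ * g) = F.L g + 1 := by
  have hi : (of x * t⁻¹ : HNNExtension G A B φ)⁻¹ = t * of x⁻¹ := by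
    rw [mul_inv_rev, inv_inv, map_inv]
  have hci : F.f (of x * t⁻¹)⁻¹ = 1 := by rw [hi, F.ofx, F.f_t]
  have hc1 : of x * t⁻¹ ∉ HnnExt_E φ := fun h => by
    rw [F.f_E (inv_mem h)] at hci; norm_num at hci
  have hc : F.f (of x * t⁻¹) = 0 := by
    rw [F.f_ti, F.f_of, HnnExt_c_notMem hc1]; norm_num
  have h1 : F.f (of x * t⁻¹ * g) = 0 := by
    rcases F.nest hc1 g with h | h
    · rw [h, hci] at hg; norm_num at hg
    · rw [h, hc]
  have h2 : of x * t⁻¹ * g ∉ HnnExt_E φ := by
    intro h
    have h3 := F.f_mul_E (of x * t⁻¹)⁻¹ h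
    rw [inv_mul_cancel_left, hci, hg] at h3
    norm_num at h3
  refine ⟨h1, h2, ?_⟩
  have h4 : F.d (of x * t⁻¹ * g) = F.d g + 1 := by
    rw [mul_assoc, F.d_left, F.d_til, hg]; ring
  have h5 : F.f (of x * t⁻¹ * g)⁻¹ = F.f g⁻¹ + HnnExt_c g := by
    rw [mul_inv_rev, hi, ← mul_assoc, F.ofx, F.st, HnnExt_c_congr inv_mem_iff]
  unfold L
  rw [h1, h4, h5, HnnExt_c_notMem h2, hg]
  ring

end HnnExt_Ind

end HnnExt

theorem hnnTree_ext (G : Type) [Group G] (A B : Subgroup G) (φ : A ≃* B) :
    ∃ T : HnnTree (HNNExtension G A B φ), T.H = (HNNExtension.of (φ := φ)).range ∧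
      T.t = HNNExtension.t ∧ T.E = ((HNNExtension.of (φ := φ)).comp B.subtype).range := by
  obtain ⟨F⟩ := HnnExt_exists φ
  have hV : ∀ g, g ∉ {g | F.f g = 1} ↔ F.f g = 0 := by
    intro g
    change ¬ F.f g = 1 ↔ F.f g = 0
    rcases F.f01 g with h | h <;> simp [h]
  have hlen : ∀ g g', F.L g' = F.L g + 1 → (F.L g').toNat = (F.L g).toNat + 1 := by
    intro g g' h
    have := F.L_nonneg g
    omega
  refine ⟨{ H := (HNNExtension.of (φ := φ)).range
            E := HnnExt_E φ
            t := HNNExtension.t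
            V := {g | F.f g = 1}
            len := fun g => (F.L g).toNat
            gen := ?_
            memE := ?_
            rightH := ?_
            one_notMem := ?_
            t_mem := F.f_t
            edge := ?_
            leftE := ?_
            lenE := ?_
            len_one := ?_
            pp := ?_
            pm := ?_
            mp := ?_
            mm := ?_ }, rfl, rfl, rfl⟩
  · rw [eq_top_iff]
    intro g _
    induction g using HNNExtension.induction_on with
    | of x => exact Subgroup.subset_closure (Or.inl ⟨x, rfl⟩)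
    | t => exact Subgroup.subset_closure (Or.inr rfl)
    | mul x y hx hy => exact mul_mem (hx trivial) (hy trivial)
    | inv x hx => exact inv_mem (hx trivial)
  · intro g
    constructor
    · rintro ⟨b, rfl⟩
      refine ⟨⟨(b : G), rfl⟩, ⟨(φ.symm b : G), ?_⟩⟩
      exact equiv_symm_eq_conj b
    · rintro ⟨⟨x, rfl⟩, ⟨y, hy⟩⟩
      by_contra hx
      have h1 : of x * t = t * (of y : HNNExtension G A B φ) := by
        rw [hy]; group
      have h2 := F.st (of x)
      rw [h1, F.ofx, F.f_t, F.f_of, HnnExt_c_notMem hx] at h2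
      norm_num at h2
  · rintro g hg _ ⟨x, rfl⟩
    change F.f (g * of x) = 1
    rw [F.ofx]; exact hg
  · rw [hV]; exact F.one
  · intro g hg
    change F.f g = 1 ↔ F.f (g * t) = 1
    rw [F.st, HnnExt_c_notMem hg, add_zero]
  · intro e he g hg
    change F.f (e * g) = 1
    rw [F.f_left he]; exact hg
  · rintro e he g
    have : F.L (e * g) = F.L g := by
      obtain ⟨b, hb⟩ := he
      change of (b : G) = e at hb
      have he : e ∈ HnnExt_E φ := ⟨b, hb⟩
      have h1 : F.d (e * g) = F.d g := by rw [← hb, F.d_left]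
      unfold HnnExt_Ind.L
      rw [h1, F.f_left he, HnnExt_c_congr (Subgroup.mul_mem_cancel_left _ he),
        mul_inv_rev, F.f_mul_E _ (inv_mem he)]
    change (F.L (e * g)).toNat = (F.L g).toNat
    rw [this]
  · have : F.L 1 = 0 := by
      unfold HnnExt_Ind.L
      rw [inv_one, F.one, F.d_one, HnnExt_c_mem (one_mem _)]; norm_num
    change (F.L 1).toNat = 0
    rw [this]; rfl
  · rintro _ ⟨x, rfl⟩ g hg
    have := F.L_pp x hg
    exact ⟨this.1, hlen _ _ this.2⟩
  · rintro _ ⟨x, rfl⟩ hx g hg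
    have := F.L_pm x hx ((hV g).1 hg)
    exact ⟨this.1, hlen _ _ this.2⟩
  · rintro _ ⟨x, rfl⟩ hx g hg
    have := F.L_mp x hx hg
    exact ⟨(hV _).2 this.1, this.2.1, hlen _ _ this.2.2⟩
  · rintro _ ⟨x, rfl⟩ g hg
    have := F.L_mm x ((hV g).1 hg)
    exact ⟨(hV _).2 this.1, this.2.1, hlen _ _ this.2.2⟩

end Pool.Agent.Wald
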