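import Mathlib
import Pool.Agent.Lib.MP_8f66f0_al_Wald.GrDefs

/-! The path data of an HNN extension. -/

set_option autoImplicit false

namespace Pool.Agent.Wald

section Paths
variable {G : Type} [Group G]

private theorem HnnPath_notMem {H : Subgroup G} {a b : G} (hb : b ∈ H) (h : a ∉ H) : a * b ∉ H :=
  fun h1 => h (by simpa using H.mul_mem h1 (H.inv_mem hb))

private theorem HnnPath_notMem' {H : Subgroup G} {a b : G} (hb : b ∈ H) (h : a ∉ H) : b * a ∉ H :=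
  fun h1 => h (by simpa using H.mul_mem (H.inv_mem hb) h1)

/-- the last step of a path -/
private def HnnPath_st (T : HnnTree G) : Bool → Set G
  | true => {g | g ∈ T.H}
  | false => {g | ∃ h ∈ T.H, g = h * T.t⁻¹}

private theorem HnnPath_uniq (T : HnnTree G) (j j' : Bool) (s s' g g' : G)
    (hs : s ∈ HnnPath_st T j) (hs' : s' ∈ HnnPath_st T j') (hg : g ∈ T.Y j) (hg' : g' ∈ T.Y j')
    (h : s * g = s' * g') : s⁻¹ * s' ∈ T.E := by
  have e1 : g = s⁻¹ * s' * g' := by rw [mul_assoc, ← h, inv_mul_cancel_left]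
  have e2 : g' = s'⁻¹ * s * g := by rw [mul_assoc, h, inv_mul_cancel_left]
  rcases j with _ | _ <;> rcases j' with _ | _
  · obtain ⟨a, ha, rfl⟩ := hs
    obtain ⟨b, hb, rfl⟩ := hs'
    have e3 : (a * T.t⁻¹)⁻¹ * (b * T.t⁻¹) = T.t * (a⁻¹ * b) * T.t⁻¹ := by group
    rw [e3] at e1 ⊢
    by_contra h1
    have h2 := (T.pm (a⁻¹ * b) (T.H.mul_mem (T.H.inv_mem ha) hb) h1 g' hg').1
    rw [← e1] at h2
    exact hg h2
  · obtain ⟨a, ha, rfl⟩ := hs
    exfalso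
    have h2 := T.mm (s'⁻¹ * a) (T.H.mul_mem (T.H.inv_mem hs') ha) g hg
    rw [← mul_assoc s'⁻¹ a] at e2
    rw [← e2] at h2
    exact hg'.elim h2.2.1 h2.1
  · obtain ⟨b, hb, rfl⟩ := hs'
    exfalso
    have h2 := T.mm (s⁻¹ * b) (T.H.mul_mem (T.H.inv_mem hs) hb) g' hg'
    rw [← mul_assoc s⁻¹ b] at e1
    rw [← e1] at h2
    exact hg.elim h2.2.1 h2.1
  · by_contra h1
    have h2 := T.mp (s⁻¹ * s') (T.H.mul_mem (T.H.inv_mem hs) hs') h1 g' hg'
    rw [← e1] at h2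
    exact hg.elim h2.2.1 h2.1

theorem HnnTree.exists_path (T : HnnTree G) :
    ∃ D : PathData G T.E Bool, D.X = T.X ∧ D.Y = T.Y := by
  have hEH : ∀ e ∈ T.E, e ∈ T.H := fun e he => ((T.memE e).1 he).1
  have hEt : ∀ e ∈ T.E, T.t⁻¹ * e * T.t ∈ T.H := fun e he => ((T.memE e).1 he).2
  -- the vertices
  have hadd : ∀ i j, ∀ u ∈ T.X i j, ∀ g ∈ T.Y j,
      (i = true → u * g ∈ T.V) ∧ (i = false → u * g ∉ T.V) ∧ T.len (u * g) = T.len g + 1 := by
    rintro (_ | _) (_ | _) u hu g hg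
    · obtain ⟨h, hh, rfl⟩ := hu
      have h1 := T.mm h hh g hg
      exact ⟨by simp, fun _ => h1.1, h1.2.2⟩
    · have h1 := T.mp u hu.1 hu.2 g hg
      exact ⟨by simp, fun _ => h1.1, h1.2.2⟩
    · obtain ⟨⟨h, hh, rfl⟩, hE⟩ := hu
      have h1 := T.pm h hh hE g hg
      exact ⟨fun _ => h1.1, by simp, h1.2⟩
    · obtain ⟨h, hh, rfl⟩ := hu
      have h1 := T.pp h hh g hg
      exact ⟨fun _ => h1.1, by simp, h1.2⟩
  -- the last step
  have hstF : ∀ j, ∀ u ∈ T.X false j, u ∈ HnnPath_st T j := by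
    rintro (_ | _) u hu
    · exact hu
    · exact hu.1
  have hstT : ∀ j, ∀ u ∈ T.X true j, T.t⁻¹ * u ∈ HnnPath_st T j := by
    rintro (_ | _) u hu
    · obtain ⟨⟨h, hh, rfl⟩, -⟩ := hu
      exact ⟨h, hh, by group⟩
    · obtain ⟨h, hh, rfl⟩ := hu
      change T.t⁻¹ * (T.t * h) ∈ T.H
      rwa [inv_mul_cancel_left]
  refine ⟨⟨T.X, T.Y, T.len, T.len_one, ?_, ?_, ?_, ?_, ?_⟩, rfl, rfl⟩
  · rintro (_ | _)
    · exact T.one_notMem
    · exact Or.inl T.E.one_mem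
  · rintro (_ | _) e he g hg
    · refine ⟨fun h => hg ?_, T.lenE e he g⟩
      have h1 := T.leftE _ (T.E.inv_mem he) _ h
      rwa [inv_mul_cancel_left] at h1
    · refine ⟨?_, T.lenE e he g⟩
      rcases hg with hg | hg
      · exact Or.inl (T.E.mul_mem he hg)
      · exact Or.inr (T.leftE e he g hg)
  · rintro (_ | _) (_ | _) e he u hu
    · obtain ⟨h, hh, rfl⟩ := hu
      exact ⟨⟨h * (T.t⁻¹ * e * T.t), T.H.mul_mem hh (hEt e he), by group⟩,
        ⟨e * h, T.H.mul_mem (hEH e he) hh, by group⟩⟩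
    · exact ⟨⟨T.H.mul_mem hu.1 (hEH e he), HnnPath_notMem he hu.2⟩,
        ⟨T.H.mul_mem (hEH e he) hu.1, HnnPath_notMem' he hu.2⟩⟩
    · obtain ⟨⟨h, hh, rfl⟩, hE⟩ := hu
      exact ⟨⟨⟨h * (T.t⁻¹ * e * T.t), T.H.mul_mem hh (hEt e he), by group⟩,
          HnnPath_notMem he hE⟩,
        ⟨⟨T.t⁻¹ * e * T.t * h, T.H.mul_mem (hEt e he) hh, by group⟩, HnnPath_notMem' he hE⟩⟩
    · obtain ⟨h, hh, rfl⟩ := hu
      exact ⟨⟨h * e, T.H.mul_mem hh (hEH e he), by group⟩,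
        ⟨T.t⁻¹ * e * T.t * h, T.H.mul_mem (hEt e he) hh, by group⟩⟩
  · intro i j u hu g hg
    have h1 := hadd i j u hu g hg
    refine ⟨?_, h1.2.2⟩
    rcases i with _ | _
    · exact h1.2.1 rfl
    · exact Or.inr (h1.1 rfl)
  · intro i j i' j' u hu g hg u' hu' g' hg' h
    have h1 := hadd i j u hu g hg
    have h2 := hadd i' j' u' hu' g' hg'
    rw [← h] at h2
    rcases i with _ | _ <;> rcases i' with _ | _
    · exact HnnPath_uniq T j j' u u' g g' (hstF j u hu) (hstF j' u' hu') hg hg' h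
    · exact (h1.2.1 rfl (h2.1 rfl)).elim
    · exact (h2.2.1 rfl (h1.1 rfl)).elim
    · have h3 := HnnPath_uniq T j j' (T.t⁻¹ * u) (T.t⁻¹ * u') g g' (hstT j u hu)
        (hstT j' u' hu') hg hg' (by rw [mul_assoc, h, mul_assoc])
      have h4 : (T.t⁻¹ * u)⁻¹ * (T.t⁻¹ * u') = u⁻¹ * u' := by group
      rwa [h4] at h3

end Paths

end Pool.Agent.Wald
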