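import Mathlib
import Pool.Agent.Lib.MP_8f66f0_al_Wald.GrDefs

/-! Idempotent matrices over rings whose finitely generated projective modules are stably free. -/

set_option autoImplicit false

namespace Pool.Agent.Wald

open Matrix

section StabIdem

variable {R : Type} [Ring R]

/-- the matrix of a linear map of free left modules (row convention) -/
private noncomputable def StabIdem_mat {A B : Type} [Fintype A] [DecidableEq A]
    (F : (A → R) →ₗ[R] (B → R)) : Matrix A B R := fun i => F (Pi.single i 1)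

private theorem StabIdem_vecMul {A B : Type} [Fintype A] [DecidableEq A]
    (F : (A → R) →ₗ[R] (B → R)) (x : A → R) : vecMul x (StabIdem_mat F) = F x := by
  have hx : x = ∑ i, x i • (Pi.single i 1 : A → R) := by
    funext j
    rw [Finset.sum_apply, Finset.sum_eq_single j]
    · simp
    · intro b _ hb
      simp [Pi.single_eq_of_ne (Ne.symm hb)]
    · intro h
      exact absurd (Finset.mem_univ j) h
  conv_rhs => rw [hx]
  rw [map_sum]
  funext j
  rw [Finset.sum_apply]
  unfold vecMul dotProduct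
  refine Finset.sum_congr rfl fun i _ => ?_
  rw [map_smul]
  rfl

private theorem StabIdem_mul {A B C : Type} [Fintype A] [DecidableEq A] [Fintype B]
    (F : (A → R) →ₗ[R] (B → R)) (M : Matrix B C R) (i : A) :
    (StabIdem_mat F * M) i = vecMul (F (Pi.single i 1)) M := by
  rw [Matrix.mul_apply_eq_vecMul]
  rfl

private theorem StabIdem_inv {A B : Type} [Fintype A] [DecidableEq A] [Fintype B] [DecidableEq B]
    (F : (A → R) →ₗ[R] (B → R)) (F' : (B → R) →ₗ[R] (A → R)) (h : ∀ x, F' (F x) = x) :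
    StabIdem_mat F * StabIdem_mat F' = 1 := by
  funext i
  rw [StabIdem_mul, StabIdem_vecMul, h]
  funext j
  rw [Matrix.one_apply, Pi.single_apply]
  simp only [eq_comm]

theorem stab_idem (hR : ProjSF R) {I : Type} [Fintype I] [DecidableEq I]
    (p : Matrix I I R) (hp : p * p = p) :
    ∃ (k l a b : ℕ) (U : Matrix (Fin a ⊕ Fin b) (I ⊕ (Fin k ⊕ Fin l)) R)
      (V : Matrix (I ⊕ (Fin k ⊕ Fin l)) (Fin a ⊕ Fin b) R), U * V = 1 ∧ V * U = 1 ∧
      U * fromBlocks p 0 0 (fromBlocks 1 0 0 0) = fromBlocks 1 0 0 0 * U := by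
  set e : (I → R) →ₗ[R] (I → R) := Matrix.vecMulLinear p with he
  have hee : ∀ x, e (e x) = e x := by
    intro x
    rw [he, Matrix.vecMulLinear_apply, Matrix.vecMulLinear_apply, Matrix.vecMul_vecMul, hp]
  set P := LinearMap.range e with hP
  set Q := LinearMap.ker e with hQ
  have hPe : ∀ x ∈ P, e x = x := by
    rintro x ⟨y, rfl⟩
    exact hee y
  have hQe : ∀ x ∈ Q, e x = 0 := fun x hx => hx
  have hQm : ∀ x, x - e x ∈ Q := by
    intro x
    show e (x - e x) = 0
    rw [map_sub, hee, sub_self]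
  set sP : (I → R) →ₗ[R] P := e.rangeRestrict with hsP
  set sQ : (I → R) →ₗ[R] Q := (LinearMap.id - e).codRestrict Q (fun x => hQm x) with hsQ
  have h1 : sP.comp P.subtype = LinearMap.id := by
    ext x
    exact congrFun (hPe x x.2) _
  have h2 : sQ.comp Q.subtype = LinearMap.id := by
    ext x j
    show (x : I → R) j - e x j = (x : I → R) j
    rw [hQe x x.2]
    simp
  have : Module.Projective R P := Module.Projective.of_split P.subtype sP h1
  have : Module.Projective R Q := Module.Projective.of_split Q.subtype sQ h2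
  have : Module.Finite R P := Module.Finite.of_surjective sP
    (fun y => ⟨y, LinearMap.congr_fun h1 y⟩)
  have : Module.Finite R Q := Module.Finite.of_surjective sQ
    (fun y => ⟨y, LinearMap.congr_fun h2 y⟩)
  obtain ⟨k, a, ⟨φ⟩⟩ := hR P
  obtain ⟨l, b, ⟨ψ⟩⟩ := hR Q
  have hsPP : ∀ x : P, sP (x : I → R) = x := fun x => LinearMap.congr_fun h1 x
  have hsQQ : ∀ x : Q, sQ (x : I → R) = x := fun x => LinearMap.congr_fun h2 x
  have hsPQ : ∀ x : Q, sP (x : I → R) = 0 := by
    intro x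
    apply Subtype.ext
    exact hQe x x.2
  have hsQP : ∀ x : P, sQ (x : I → R) = 0 := by
    intro x
    apply Subtype.ext
    show (x : I → R) - e x = 0
    rw [hPe x x.2, sub_self]
  let F : (Fin a ⊕ Fin b → R) →ₗ[R] (I ⊕ (Fin k ⊕ Fin l) → R) :=
    { toFun := fun x => Sum.elim
        (((φ.symm (x ∘ Sum.inl)).1 : I → R) + ((ψ.symm (x ∘ Sum.inr)).1 : I → R))
        (Sum.elim (φ.symm (x ∘ Sum.inl)).2 (ψ.symm (x ∘ Sum.inr)).2)
      map_add' := by
        intro x y
        have e1 : (x + y) ∘ Sum.inl = x ∘ Sum.inl + y ∘ (Sum.inl : Fin a → Fin a ⊕ Fin b) := rfl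
        have e2 : (x + y) ∘ Sum.inr = x ∘ Sum.inr + y ∘ (Sum.inr : Fin b → Fin a ⊕ Fin b) := rfl
        rw [e1, e2, map_add, map_add]
        funext z
        rcases z with i | j | j
        · simp only [Pi.add_apply, Sum.elim_inl, Prod.fst_add, Submodule.coe_add]
          abel
        · rfl
        · rfl
      map_smul' := by
        intro r x
        have e1 : (r • x) ∘ Sum.inl = r • (x ∘ (Sum.inl : Fin a → Fin a ⊕ Fin b)) := rfl
        have e2 : (r • x) ∘ Sum.inr = r • (x ∘ (Sum.inr : Fin b → Fin a ⊕ Fin b)) := rfl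
        rw [e1, e2, map_smul, map_smul]
        funext z
        rcases z with i | j | j
        · simp only [Pi.add_apply, Pi.smul_apply, Sum.elim_inl, Prod.smul_fst, RingHom.id_apply,
            Submodule.coe_smul, smul_add]
        · rfl
        · rfl }
  let F' : (I ⊕ (Fin k ⊕ Fin l) → R) →ₗ[R] (Fin a ⊕ Fin b → R) :=
    { toFun := fun z => Sum.elim
        (φ (sP (z ∘ Sum.inl), z ∘ Sum.inr ∘ Sum.inl))
        (ψ (sQ (z ∘ Sum.inl), z ∘ Sum.inr ∘ Sum.inr))
      map_add' := by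
        intro x y
        have e1 : (sP ((x + y) ∘ Sum.inl), (x + y) ∘ Sum.inr ∘ Sum.inl) =
            (sP (x ∘ Sum.inl), x ∘ Sum.inr ∘ (Sum.inl : Fin k → Fin k ⊕ Fin l)) +
              (sP (y ∘ (Sum.inl : I → I ⊕ (Fin k ⊕ Fin l))),
                y ∘ Sum.inr ∘ (Sum.inl : Fin k → Fin k ⊕ Fin l)) := by
          rw [Prod.mk_add_mk, ← map_add]
          rfl
        have e2 : (sQ ((x + y) ∘ Sum.inl), (x + y) ∘ Sum.inr ∘ Sum.inr) =
            (sQ (x ∘ Sum.inl), x ∘ Sum.inr ∘ (Sum.inr : Fin l → Fin k ⊕ Fin l)) +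
              (sQ (y ∘ (Sum.inl : I → I ⊕ (Fin k ⊕ Fin l))),
                y ∘ Sum.inr ∘ (Sum.inr : Fin l → Fin k ⊕ Fin l)) := by
          rw [Prod.mk_add_mk, ← map_add]
          rfl
        rw [e1, e2, map_add, map_add]
        funext z
        rcases z with i | j
        · rfl
        · rfl
      map_smul' := by
        intro r x
        have e1 : (sP ((r • x) ∘ Sum.inl), (r • x) ∘ Sum.inr ∘ Sum.inl) =
            r • (sP (x ∘ (Sum.inl : I → I ⊕ (Fin k ⊕ Fin l))),
              x ∘ Sum.inr ∘ (Sum.inl : Fin k → Fin k ⊕ Fin l)) := by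
          rw [Prod.smul_mk, ← map_smul]
          rfl
        have e2 : (sQ ((r • x) ∘ Sum.inl), (r • x) ∘ Sum.inr ∘ Sum.inr) =
            r • (sQ (x ∘ (Sum.inl : I → I ⊕ (Fin k ⊕ Fin l))),
              x ∘ Sum.inr ∘ (Sum.inr : Fin l → Fin k ⊕ Fin l)) := by
          rw [Prod.smul_mk, ← map_smul]
          rfl
        rw [e1, e2, map_smul, map_smul]
        funext z
        rcases z with i | j
        · rfl
        · rfl }
  have hF : ∀ x, F x = Sum.elim
        (((φ.symm (x ∘ Sum.inl)).1 : I → R) + ((ψ.symm (x ∘ Sum.inr)).1 : I → R))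
        (Sum.elim (φ.symm (x ∘ Sum.inl)).2 (ψ.symm (x ∘ Sum.inr)).2) := fun x => rfl
  have hF' : ∀ z, F' z = Sum.elim
        (φ (sP (z ∘ Sum.inl), z ∘ Sum.inr ∘ Sum.inl))
        (ψ (sQ (z ∘ Sum.inl), z ∘ Sum.inr ∘ Sum.inr)) := fun z => rfl
  have hFF : ∀ x, F' (F x) = x := by
    intro x
    rw [hF', hF]
    have e1 : sP (Sum.elim
        (((φ.symm (x ∘ Sum.inl)).1 : I → R) + ((ψ.symm (x ∘ Sum.inr)).1 : I → R))
        (Sum.elim (φ.symm (x ∘ Sum.inl)).2 (ψ.symm (x ∘ Sum.inr)).2) ∘ Sum.inl) =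
        (φ.symm (x ∘ Sum.inl)).1 := by
      rw [Sum.elim_comp_inl, map_add, hsPP, hsPQ, add_zero]
    have e2 : sQ (Sum.elim
        (((φ.symm (x ∘ Sum.inl)).1 : I → R) + ((ψ.symm (x ∘ Sum.inr)).1 : I → R))
        (Sum.elim (φ.symm (x ∘ Sum.inl)).2 (ψ.symm (x ∘ Sum.inr)).2) ∘ Sum.inl) =
        (ψ.symm (x ∘ Sum.inr)).1 := by
      rw [Sum.elim_comp_inl, map_add, hsQQ, hsQP, zero_add]
    rw [e1, e2, ← Function.comp_assoc, ← Function.comp_assoc, Sum.elim_comp_inr,
      Sum.elim_comp_inl, Sum.elim_comp_inr]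
    show Sum.elim (φ (φ.symm (x ∘ Sum.inl))) (ψ (ψ.symm (x ∘ Sum.inr))) = x
    rw [LinearEquiv.apply_symm_apply, LinearEquiv.apply_symm_apply]
    exact Sum.elim_comp_inl_inr x
  have hFF' : ∀ z, F (F' z) = z := by
    intro z
    rw [hF, hF']
    rw [Sum.elim_comp_inl, Sum.elim_comp_inr, LinearEquiv.symm_apply_apply,
      LinearEquiv.symm_apply_apply]
    funext t
    rcases t with i | j | j
    · show (e (z ∘ Sum.inl)) i + ((z ∘ Sum.inl) - e (z ∘ Sum.inl)) i = z (Sum.inl i)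
      rw [Pi.sub_apply, Function.comp_apply]
      abel
    · rfl
    · rfl
  refine ⟨k, l, a, b, StabIdem_mat F, StabIdem_mat F', StabIdem_inv F F' hFF,
    StabIdem_inv F' F hFF', ?_⟩
  have key : ∀ x : Fin a ⊕ Fin b → R,
      vecMul (F x) (fromBlocks p 0 0 (fromBlocks 1 0 0 0)) =
      F (vecMul x (fromBlocks (1 : Matrix (Fin a) (Fin a) R) 0 0 (0 : Matrix (Fin b) (Fin b) R))) := by
    intro x
    rw [Matrix.vecMul_fromBlocks, Matrix.vecMul_fromBlocks, Matrix.vecMul_fromBlocks, hF, hF]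
    simp only [Sum.elim_comp_inl, Sum.elim_comp_inr, Matrix.vecMul_zero, Matrix.vecMul_one,
      add_zero, map_zero, Prod.fst_zero, Prod.snd_zero, Submodule.coe_zero]
    have e1 : vecMul (((φ.symm (x ∘ Sum.inl)).1 : I → R) + ((ψ.symm (x ∘ Sum.inr)).1 : I → R)) p =
        ((φ.symm (x ∘ Sum.inl)).1 : I → R) := by
      rw [Matrix.add_vecMul]
      have e2 : vecMul ((φ.symm (x ∘ Sum.inl)).1 : I → R) p = ((φ.symm (x ∘ Sum.inl)).1 : I → R) :=
        hPe _ (φ.symm (x ∘ Sum.inl)).1.2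
      have e3 : vecMul ((ψ.symm (x ∘ Sum.inr)).1 : I → R) p = 0 :=
        hQe _ (ψ.symm (x ∘ Sum.inr)).1.2
      rw [e2, e3, add_zero]
    rw [e1, zero_add]
  funext i
  refine (StabIdem_mul F _ i).trans ?_
  rw [key]
  refine (StabIdem_vecMul F _).symm.trans ?_
  refine Eq.trans ?_ (Matrix.mul_apply_eq_vecMul _ _ i).symm
  rw [Matrix.single_one_vecMul]
  rfl

end StabIdem

end Pool.Agent.Wald
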