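import Pool.Agent.Lib.MP_8f66f0_al_Wald.Defs

/-! # MP_8f66f0_al, Theorem W: `K_1`-like invariants, swap and triangular matrices (helper91) -/

set_option autoImplicit false

namespace Pool.Agent.Wald

open Finsupp Matrix

section K1Lem
variable {Λ : Type} [Ring Λ]

theorem K1Fun.f_one {K : Type} [CommGroup K] (κ : K1Fun Λ K) {n : Type} [Fintype n]
    [DecidableEq n] : κ.f (1 : Matrix n n Λ) = 1 := by
  have h := κ.mul (1 : Matrix n n Λ) 1 isUnit_one isUnit_one
  rw [one_mul] at h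
  exact mul_left_cancel (a := κ.f (1 : Matrix n n Λ)) (by rw [mul_one]; exact h.symm)

/-- the two-sided inverse of an invertible matrix -/
private theorem ex_inv {n : Type} [Fintype n] [DecidableEq n] {A : Matrix n n Λ} (h : IsUnit A) :
    ∃ X : Matrix n n Λ, A * X = 1 ∧ X * A = 1 := by
  obtain ⟨u, rfl⟩ := h
  exact ⟨((u⁻¹ : (Matrix n n Λ)ˣ) : Matrix n n Λ), u.mul_inv, u.inv_mul⟩

theorem K1Fun.isUnit_tri {n m : Type} [Fintype n] [DecidableEq n] [Fintype m] [DecidableEq m]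
    {A : Matrix n n Λ} (B : Matrix n m Λ) {D : Matrix m m Λ} (hA : IsUnit A) (hD : IsUnit D) :
    IsUnit (fromBlocks A B 0 D) := by
  obtain ⟨X, hX1, hX2⟩ := ex_inv hA
  obtain ⟨Y, hY1, hY2⟩ := ex_inv hD
  refine ⟨⟨fromBlocks A B 0 D, fromBlocks X (-(X * B * Y)) 0 Y, ?_, ?_⟩, rfl⟩
  · rw [fromBlocks_multiply, Matrix.mul_zero, add_zero, hX1, Matrix.zero_mul,
      Matrix.mul_zero, add_zero, Matrix.zero_mul, zero_add, hY1, Matrix.mul_neg,
      ← Matrix.mul_assoc, ← Matrix.mul_assoc, hX1, Matrix.one_mul, neg_add_cancel,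
      fromBlocks_one]
  · rw [fromBlocks_multiply, Matrix.mul_zero, add_zero, hX2, Matrix.zero_mul,
      Matrix.mul_zero, add_zero, Matrix.zero_mul, zero_add, hY2, Matrix.neg_mul,
      Matrix.mul_assoc _ Y D, hY2, Matrix.mul_one, add_neg_cancel,
      fromBlocks_one]

theorem K1Fun.isUnit_lower {n m : Type} [Fintype n] [DecidableEq n] [Fintype m] [DecidableEq m]
    {A : Matrix n n Λ} (C : Matrix m n Λ) {D : Matrix m m Λ} (hA : IsUnit A) (hD : IsUnit D) :
    IsUnit (fromBlocks A 0 C D) := by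
  obtain ⟨X, hX1, hX2⟩ := ex_inv hA
  obtain ⟨Y, hY1, hY2⟩ := ex_inv hD
  refine ⟨⟨fromBlocks A 0 C D, fromBlocks X 0 (-(Y * C * X)) Y, ?_, ?_⟩, rfl⟩
  · rw [fromBlocks_multiply, Matrix.zero_mul, add_zero, hX1, Matrix.zero_mul,
      Matrix.mul_zero, add_zero, Matrix.mul_zero, zero_add, hY1, Matrix.mul_neg,
      ← Matrix.mul_assoc, ← Matrix.mul_assoc, hY1, Matrix.one_mul, add_neg_cancel,
      fromBlocks_one]
  · rw [fromBlocks_multiply, Matrix.zero_mul, add_zero, hX2, Matrix.zero_mul,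
      Matrix.mul_zero, add_zero, Matrix.mul_zero, zero_add, hY2, Matrix.neg_mul,
      Matrix.mul_assoc _ X A, hX2, Matrix.mul_one, neg_add_cancel,
      fromBlocks_one]

/-- The transport of an invertible matrix. -/
theorem K1Fun.isUnit_submatrix {n m : Type} [Fintype n] [DecidableEq n] [Fintype m]
    [DecidableEq m] (e : n ≃ m) {A : Matrix n n Λ} (hA : IsUnit A) :
    IsUnit (A.submatrix e.symm e.symm) := by
  have h := hA.map (Matrix.reindexRingEquiv Λ e)
  exact h

theorem K1Fun.lower {K : Type} [CommGroup K] (κ : K1Fun Λ K) {n m : Type} [Fintype n]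
    [DecidableEq n] [Fintype m] [DecidableEq m] (A : Matrix n n Λ) (C : Matrix m n Λ)
    (D : Matrix m m Λ) (hA : IsUnit A) (hD : IsUnit D) :
    κ.f (fromBlocks A 0 C D) = κ.f A * κ.f D := by
  have h1 : (fromBlocks D C 0 A).submatrix (Equiv.sumComm n m) (Equiv.sumComm n m) =
      fromBlocks A 0 C D := by
    ext (i | i) (j | j) <;> rfl
  have h2 := κ.reindex (Equiv.sumComm m n) (fromBlocks D C 0 A) (K1Fun.isUnit_tri C hD hA)
  rw [Equiv.sumComm_symm, h1] at h2
  rw [h2, κ.tri D C A hD hA, mul_comm]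

theorem K1Fun.diag {K : Type} [CommGroup K] (κ : K1Fun Λ K) {n m : Type} [Fintype n]
    [DecidableEq n] [Fintype m] [DecidableEq m] (A : Matrix n n Λ) (D : Matrix m m Λ)
    (hA : IsUnit A) (hD : IsUnit D) : κ.f (fromBlocks A 0 0 D) = κ.f A * κ.f D :=
  κ.tri A 0 D hA hD

theorem SameK.refl {n : Type} [Fintype n] [DecidableEq n] (A : Matrix n n Λ) : SameK A A :=
  fun h => ⟨h, fun _ _ _ => rfl⟩

theorem SameK.trans {n m l : Type} [Fintype n] [DecidableEq n] [Fintype m] [DecidableEq m]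
    [Fintype l] [DecidableEq l] {A : Matrix n n Λ} {B : Matrix m m Λ} {C : Matrix l l Λ}
    (h : SameK A B) (h' : SameK B C) : SameK A C := by
  intro hA
  obtain ⟨hB, h1⟩ := h hA
  obtain ⟨hC, h2⟩ := h' hB
  exact ⟨hC, fun K _ κ => (h2 K κ).trans (h1 K κ)⟩

theorem sameK_reindex {n m : Type} [Fintype n] [DecidableEq n] [Fintype m] [DecidableEq m]
    (e : n ≃ m) (A : Matrix n n Λ) : SameK A (A.submatrix e.symm e.symm) := by
  intro hA
  have h1 : (1 : Matrix m m Λ) - A.submatrix e.symm e.symm = (1 - A).submatrix e.symm e.symm := by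
    rw [submatrix_sub, Pi.sub_apply, Pi.sub_apply, submatrix_one_equiv]
  rw [h1]
  exact ⟨K1Fun.isUnit_submatrix e hA, fun K _ κ => κ.reindex e _ hA⟩

theorem sameK_swap {n m : Type} [Fintype n] [DecidableEq n] [Fintype m] [DecidableEq m]
    (A : Matrix n m Λ) (B : Matrix m n Λ) : SameK (A * B) (B * A) := by
  intro hA
  have hB : IsUnit (1 - B * A) := by
    obtain ⟨X, h1, h2⟩ := ex_inv hA
    rw [Matrix.sub_mul, Matrix.one_mul] at h1
    rw [Matrix.mul_sub, Matrix.mul_one] at h2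
    refine ⟨⟨1 - B * A, 1 + B * X * A, ?_, ?_⟩, rfl⟩
    · have h3 : (1 - B * A) * (1 + B * X * A) = 1 - B * A + B * (X - A * B * X) * A := by
        simp only [Matrix.mul_add, Matrix.sub_mul, Matrix.mul_sub, Matrix.one_mul, Matrix.mul_one,
          Matrix.mul_assoc]
      rw [h3, h1, Matrix.mul_one, sub_add_cancel]
    · have h3 : (1 + B * X * A) * (1 - B * A) = 1 - B * A + B * (X - X * (A * B)) * A := by
        simp only [Matrix.add_mul, Matrix.sub_mul, Matrix.mul_sub, Matrix.one_mul, Matrix.mul_one,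
          Matrix.mul_assoc]
        abel
      rw [h3, h2, Matrix.mul_one, sub_add_cancel]
  refine ⟨hB, fun K _ κ => ?_⟩
  have h1 : fromBlocks 1 0 B 1 * fromBlocks 1 A 0 (1 - B * A) =
      fromBlocks (1 - A * B) A 0 1 * fromBlocks 1 0 B 1 := by
    rw [fromBlocks_multiply, fromBlocks_multiply]
    simp
  have u1 : IsUnit (fromBlocks (1 : Matrix n n Λ) 0 B 1) :=
    K1Fun.isUnit_lower B isUnit_one isUnit_one
  have h2 := congrArg κ.f h1
  rw [κ.mul _ _ u1 (K1Fun.isUnit_tri A isUnit_one hB),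
    κ.mul _ _ (K1Fun.isUnit_tri A hA isUnit_one) u1,
    κ.lower 1 B 1 isUnit_one isUnit_one, κ.tri _ _ _ isUnit_one hB, κ.tri _ _ _ hA isUnit_one,
    κ.f_one, κ.f_one, one_mul, one_mul, one_mul, mul_one, mul_one] at h2
  exact h2

end K1Lem

end Pool.Agent.Wald
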