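import Pool.Agent.Lib.MP_8f66f0_al_Wald.Defs
import Pool.Agent.Lib.MP_8f66f0_al_Wald.K1Lem

/-! # MP_8f66f0_al, Theorem W: the trick of Higman (helper57) -/

set_option autoImplicit false

namespace Pool.Agent.Wald

open Finsupp Matrix

namespace HigmanAux

variable {S : Type} [Ring S]

/-- the additive span of the products of `k + 1` elements of `L` -/
def F (L : AddSubgroup S) : ℕ → AddSubgroup S
  | 0 => L
  | k + 1 => AddSubgroup.closure {x | ∃ u ∈ L, ∃ v ∈ F L k, x = u * v}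

theorem F_succ {L : AddSubgroup S} {k : ℕ} {u v : S} (hu : u ∈ L) (hv : v ∈ F L k) :
    u * v ∈ F L (k + 1) :=
  AddSubgroup.subset_closure ⟨u, hu, v, hv, rfl⟩

theorem F_le_succ {L : AddSubgroup S} (h1 : (1 : S) ∈ L) (k : ℕ) : F L k ≤ F L (k + 1) := by
  intro x hx
  have h := F_succ h1 hx
  rwa [one_mul] at h

theorem F_mono {L : AddSubgroup S} (h1 : (1 : S) ∈ L) {j k : ℕ} (h : j ≤ k) : F L j ≤ F L k :=
  monotone_nat_of_le_succ (F_le_succ h1) h

theorem F_mul {L : AddSubgroup S} : ∀ (j : ℕ) (x : S), x ∈ F L j → ∀ (k : ℕ) (y : S), y ∈ F L k →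
    x * y ∈ F L (j + k + 1)
  | 0, x, hx, k, y, hy => by
    rw [Nat.zero_add]
    exact F_succ hx hy
  | j + 1, x, hx, k, y, hy => by
    have e : j + 1 + k + 1 = (j + k + 1) + 1 := by omega
    rw [e]
    refine AddSubgroup.closure_induction (p := fun x _ => x * y ∈ F L ((j + k + 1) + 1))
      ?_ ?_ ?_ ?_ hx
    · rintro _ ⟨u, hu, v, hv, rfl⟩
      rw [mul_assoc]
      exact F_succ hu (F_mul j v hv k y hy)
    · rw [zero_mul]
      exact zero_mem _
    · intro a b _ _ ha hb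
      rw [add_mul]
      exact add_mem ha hb
    · intro a _ ha
      rw [neg_mul]
      exact neg_mem ha

theorem exists_F {L : AddSubgroup S} (h1 : (1 : S) ∈ L) (hgen : Subring.closure (L : Set S) = ⊤)
    (s : S) : ∃ k, s ∈ F L k := by
  have hs : s ∈ Subring.closure (L : Set S) := by
    rw [hgen]
    trivial
  refine Subring.closure_induction (p := fun s _ => ∃ k, s ∈ F L k) ?_ ?_ ?_ ?_ ?_ ?_ hs
  · intro x hx
    exact ⟨0, hx⟩
  · exact ⟨0, zero_mem _⟩
  · exact ⟨0, h1⟩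
  · rintro a b _ _ ⟨j, hj⟩ ⟨k, hk⟩
    exact ⟨max j k, add_mem (F_mono h1 (le_max_left _ _) hj) (F_mono h1 (le_max_right _ _) hk)⟩
  · rintro a _ ⟨j, hj⟩
    exact ⟨j, neg_mem hj⟩
  · rintro a b _ _ ⟨j, hj⟩ ⟨k, hk⟩
    exact ⟨j + k + 1, F_mul j a hj k b hk⟩

theorem sum_form {L : AddSubgroup S} {k : ℕ} {x : S} (hx : x ∈ F L (k + 1)) :
    ∃ (p : ℕ) (u v : Fin p → S), (∀ i, u i ∈ L) ∧ (∀ i, v i ∈ F L k) ∧ x = ∑ i, u i * v i := by
  refine AddSubgroup.closure_induction (p := fun x _ => ∃ (p : ℕ) (u v : Fin p → S),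
    (∀ i, u i ∈ L) ∧ (∀ i, v i ∈ F L k) ∧ x = ∑ i, u i * v i) ?_ ?_ ?_ ?_ hx
  · rintro _ ⟨u, hu, v, hv, rfl⟩
    exact ⟨1, fun _ => u, fun _ => v, fun _ => hu, fun _ => hv, by simp⟩
  · exact ⟨0, fun i => i.elim0, fun i => i.elim0, fun i => i.elim0, fun i => i.elim0, by simp⟩
  · rintro _ _ _ _ ⟨p, u, v, hu, hv, rfl⟩ ⟨q, u', v', hu', hv', rfl⟩
    refine ⟨p + q, Fin.append u u', Fin.append v v', ?_, ?_, ?_⟩
    · intro i
      refine Fin.addCases (fun i => ?_) (fun i => ?_) i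
      · rw [Fin.append_left]
        exact hu i
      · rw [Fin.append_right]
        exact hu' i
    · intro i
      refine Fin.addCases (fun i => ?_) (fun i => ?_) i
      · rw [Fin.append_left]
        exact hv i
      · rw [Fin.append_right]
        exact hv' i
    · rw [Fin.sum_univ_add]
      simp only [Fin.append_left, Fin.append_right]
  · rintro _ _ ⟨p, u, v, hu, hv, rfl⟩
    refine ⟨p, fun i => -u i, v, fun i => neg_mem (hu i), hv, ?_⟩
    rw [← Finset.sum_neg_distrib]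
    exact Finset.sum_congr rfl fun i _ => (neg_mul _ _).symm

theorem main {L : AddSubgroup S} (h1 : (1 : S) ∈ L) : ∀ (k : ℕ) (n : Type) [Fintype n]
    [DecidableEq n] (M : Matrix n n S), IsUnit M → (∀ i j, M i j ∈ F L k) →
    ∃ (N : ℕ) (M' : Matrix (Fin N) (Fin N) S), IsUnit M' ∧
      (∀ i j, M' i j ∈ L) ∧ ∀ (K : Type) [CommGroup K] (κ : K1Fun S K), κ.f M' = κ.f M
  | 0, n, _, _, M, hM, hF => by
    refine ⟨Fintype.card n, M.submatrix (Fintype.equivFin n).symm (Fintype.equivFin n).symm,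
      K1Fun.isUnit_submatrix _ hM, fun i j => hF _ _, fun K _ κ => κ.reindex _ _ hM⟩
  | k + 1, n, _, _, M, hM, hF => by
    choose p u v hu hv hsum using fun i j => sum_form (hF i j)
    let Q : Type := Σ ij : n × n, Fin (p ij.1 ij.2)
    let M1 : Matrix n Q S := fun i q => if q.1.1 = i then u q.1.1 q.1.2 q.2 else 0
    let M2 : Matrix Q n S := fun q j => if q.1.2 = j then v q.1.1 q.1.2 q.2 else 0
    have hprod : M1 * M2 = M := by
      ext i j
      rw [Matrix.mul_apply]
      change ∑ q : (Σ ij : n × n, Fin (p ij.1 ij.2)), (if q.1.1 = i then u q.1.1 q.1.2 q.2 else 0) *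
        (if q.1.2 = j then v q.1.1 q.1.2 q.2 else 0) = M i j
      rw [Fintype.sum_sigma, Finset.sum_eq_single (i, j)]
      · rw [hsum i j]
        refine Finset.sum_congr rfl fun t _ => ?_
        simp
      · rintro ⟨a, b⟩ _ hab
        refine Finset.sum_eq_zero fun t _ => ?_
        by_cases ha : a = i
        · have hb : b ≠ j := fun hb => hab (by rw [ha, hb])
          simp [hb]
        · simp [ha]
      · intro h
        exact absurd (Finset.mem_univ _) h
    have e : fromBlocks M M1 0 1 * fromBlocks 1 0 (-M2) 1 = fromBlocks 0 M1 (-M2) 1 := by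
      rw [fromBlocks_multiply]
      simp [hprod]
    have u1 : IsUnit (fromBlocks M M1 0 (1 : Matrix Q Q S)) := K1Fun.isUnit_tri M1 hM isUnit_one
    have u2 : IsUnit (fromBlocks (1 : Matrix n n S) 0 (-M2) 1) :=
      K1Fun.isUnit_lower (-M2) isUnit_one isUnit_one
    have u3 : IsUnit (fromBlocks (0 : Matrix n n S) M1 (-M2) 1) := by
      rw [← e]
      exact u1.mul u2
    obtain ⟨N, M', hM', hL, hκ⟩ := main h1 k (n ⊕ Q) (fromBlocks 0 M1 (-M2) 1) u3 (by
      have hLk : L ≤ F L k := F_mono h1 (Nat.zero_le k)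
      rintro (i | i) (j | j)
      · exact zero_mem _
      · change (if j.1.1 = i then u j.1.1 j.1.2 j.2 else 0) ∈ F L k
        split_ifs
        · exact hLk (hu _ _ _)
        · exact zero_mem _
      · change -(if i.1.2 = j then v i.1.1 i.1.2 i.2 else 0) ∈ F L k
        refine neg_mem ?_
        split_ifs
        · exact hv _ _ _
        · exact zero_mem _
      · change (1 : Matrix Q Q S) i j ∈ F L k
        by_cases h : i = j
        · rw [h, Matrix.one_apply_eq]
          exact hLk h1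
        · rw [Matrix.one_apply_ne h]
          exact zero_mem _)
    refine ⟨N, M', hM', hL, fun K _ κ => ?_⟩
    rw [hκ K κ, ← e, κ.mul _ _ u1 u2, κ.tri _ _ _ hM isUnit_one,
      κ.lower _ _ _ isUnit_one isUnit_one, κ.f_one, κ.f_one, mul_one, mul_one, mul_one]

end HigmanAux

open HigmanAux

theorem higman {S : Type} [Ring S] (L : AddSubgroup S) (h1 : (1 : S) ∈ L)
    (hgen : Subring.closure (L : Set S) = ⊤) {n : ℕ} (M : Matrix (Fin n) (Fin n) S)
    (hM : IsUnit M) : ∃ (N : ℕ) (M' : Matrix (Fin N) (Fin N) S), IsUnit M' ∧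
      (∀ i j, M' i j ∈ L) ∧ ∀ (K : Type) [CommGroup K] (κ : K1Fun S K), κ.f M' = κ.f M := by
  choose k hk using fun i j => exists_F h1 hgen (M i j)
  refine main h1 (∑ i, ∑ j, k i j) (Fin n) M hM fun i j => F_mono h1 ?_ (hk i j)
  calc k i j ≤ ∑ j, k i j := Finset.single_le_sum (fun _ _ => Nat.zero_le _) (Finset.mem_univ j)
    _ ≤ ∑ i, ∑ j, k i j :=
      Finset.single_le_sum (f := fun i => ∑ j, k i j) (fun _ _ => Nat.zero_le _) (Finset.mem_univ i)

end Pool.Agent.Wald
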