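import Mathlib
import Pool.Agent.Lib.MP_8f66f0_al_Wald.GrDefs

/-! The diagonal action, and the matrix form of `kernels are projective`. -/

set_option autoImplicit false

namespace Pool.Agent.Wald

open Matrix CategoryTheory TensorProduct

/-- Finitely generated submodules of kernels factor through free modules inside the kernel. -/
def GProp (S : Type) [Ring S] : Prop :=
  ∀ (a b s : ℕ) (h : Matrix (Fin a) (Fin b) S) (k : Matrix (Fin s) (Fin a) S), k * h = 0 →
    ∃ (l : ℕ) (r : Matrix (Fin s) (Fin l) S) (k' : Matrix (Fin l) (Fin a) S), k = r * k' ∧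
      k' * h = 0 ∧ ∀ c : Fin s → S, vecMul c k = 0 → vecMul c r = 0

section Diag

variable (k E : Type) [CommRing k] [Group E]

/-- The diagonal action on `M ⊗ P`. -/
noncomputable def diagRep (M P : Type) [AddCommGroup M] [Module k M]
    [Module (MonoidAlgebra k E) M] [IsScalarTower k (MonoidAlgebra k E) M] [AddCommGroup P]
    [Module (MonoidAlgebra ℤ E) P] : Representation k E (M ⊗[ℤ] P) where
  toFun g := TensorProduct.AlgebraTensorModule.map
    (Algebra.lsmul k k M (MonoidAlgebra.single g (1 : k) : MonoidAlgebra k E))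
    (Algebra.lsmul ℤ ℤ P (MonoidAlgebra.single g (1 : ℤ) : MonoidAlgebra ℤ E))
  map_one' := by
    rw [← MonoidAlgebra.one_def, ← MonoidAlgebra.one_def, map_one, map_one]
    exact TensorProduct.AlgebraTensorModule.map_one
  map_mul' g h := by
    have h1 : (MonoidAlgebra.single (g * h) (1 : k) : MonoidAlgebra k E) =
        MonoidAlgebra.single g 1 * MonoidAlgebra.single h 1 := by
      rw [MonoidAlgebra.single_mul_single, one_mul]
    have h2 : (MonoidAlgebra.single (g * h) (1 : ℤ) : MonoidAlgebra ℤ E) =
        MonoidAlgebra.single g 1 * MonoidAlgebra.single h 1 := by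
      rw [MonoidAlgebra.single_mul_single, one_mul]
    rw [h1, h2, map_mul, map_mul]
    exact TensorProduct.AlgebraTensorModule.map_mul _ _ _ _

end Diag

end Pool.Agent.Wald
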