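import Pool.Agent.Lib.MP_8f66f0_al_Wald.Defs

/-! # MP_8f66f0_al, Theorem W: base change and flatness lemmas (helper91) -/

set_option autoImplicit false

namespace Pool.Agent.Wald

open Finsupp Matrix

section Flat
variable {R Λ : Type} [Ring R] [Ring Λ] [Module R Λ] [IsScalarTower R Λ Λ]
variable {Y Y' Y'' : Type} [AddCommGroup Y] [Module R Y] [AddCommGroup Y'] [Module R Y']
  [AddCommGroup Y''] [Module R Y'']
variable {J J' J'' : Type}

theorem flat_io_mul (r : R) (x : Λ) : io R Λ r * x = r • x := by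
  rw [io, RingHom.smulOneHom_apply, smul_one_mul]

theorem flat_rsmul (r : R) (l : Λ) (y : J →₀ Λ) : r • l • y = (r • l) • y := (smul_assoc r l y).symm

@[simp] theorem emb_single (j : J) (r : R) : emb R Λ J (single j r) = single j (r • (1 : Λ)) := by
  rw [emb, Finsupp.mapRange.linearMap_apply, Finsupp.mapRange_single,
    LinearMap.toSpanSingleton_apply]

theorem emb_apply (x : J →₀ R) (j : J) : emb R Λ J x j = io R Λ (x j) := by
  rw [emb, Finsupp.mapRange.linearMap_apply, Finsupp.mapRange_apply,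
    LinearMap.toSpanSingleton_apply, io, RingHom.smulOneHom_apply]

theorem bc_single (g : (J →₀ R) →ₗ[R] (J' →₀ R)) (j : J) (l : Λ) :
    bc Λ g (single j l) = l • emb R Λ J' (g (single j 1)) := by
  rw [bc, Finsupp.linearCombination_single]

/-- `R`-linearity of the base change. -/
theorem bc_rsmul (g : (J →₀ R) →ₗ[R] (J' →₀ R)) (r : R) (y : J →₀ Λ) :
    bc Λ g (r • y) = r • bc Λ g y := by
  have h1 : r • y = io R Λ r • y := by
    ext j
    rw [Finsupp.smul_apply, Finsupp.smul_apply, smul_eq_mul, flat_io_mul]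
  have h2 : r • bc Λ g y = io R Λ r • bc Λ g y := by
    ext j
    rw [Finsupp.smul_apply, Finsupp.smul_apply, smul_eq_mul, flat_io_mul]
  rw [h1, h2, map_smul]

@[simp] theorem bc_emb (g : (J →₀ R) →ₗ[R] (J' →₀ R)) (x : J →₀ R) :
    bc Λ g (emb R Λ J x) = emb R Λ J' (g x) := by
  induction x using Finsupp.induction_linear with
  | zero => rw [map_zero, map_zero, map_zero, map_zero]
  | add x y hx hy => rw [map_add, map_add, map_add, map_add, hx, hy]
  | single j r =>
    rw [emb_single, bc_single]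
    have h1 : single j r = r • single j (1 : R) := by
      rw [Finsupp.smul_single, smul_eq_mul, mul_one]
    rw [h1, map_smul, map_smul, ← flat_rsmul, one_smul]

theorem bc_comp (g : (J →₀ R) →ₗ[R] (J' →₀ R)) (g' : (J' →₀ R) →ₗ[R] (J'' →₀ R)) (y : J →₀ Λ) :
    bc Λ g' (bc Λ g y) = bc Λ (g' ∘ₗ g) y := by
  induction y using Finsupp.induction_linear with
  | zero => rw [map_zero, map_zero, map_zero]
  | add x y hx hy => rw [map_add, map_add, map_add, hx, hy]
  | single j r =>
    rw [bc_single, bc_single, map_smul, bc_emb, LinearMap.comp_apply]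

theorem bc_smul_emb (g : (J →₀ R) →ₗ[R] (J' →₀ R)) (l : Λ) (x : J →₀ R) :
    bc Λ g (l • emb R Λ J x) = l • emb R Λ J' (g x) := by
  rw [map_smul, bc_emb]

theorem bc_app (g : (J →₀ R) →ₗ[R] (J' →₀ R)) (t : Tr R Λ Y (J →₀ R)) (x : Y) :
    bc Λ g (t.app (emb R Λ J) x) = (t.post g).app (emb R Λ J') x := by
  rw [Tr.app, map_sum]
  exact Finset.sum_congr rfl fun a _ => by rw [bc_rsmul, bc_smul_emb]; rfl

theorem app_pre {N : Type} [AddCommGroup N] [Module R N] [Module Λ N] (t : Tr R Λ Y Y')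
    (j : Y' →ₗ[R] N) (I : Y'' →ₗ[R] Y) (x : Y'') : (t.pre I).app j x = t.app j (I x) := rfl

/-- Every element of the kernel of a base change is a combination of elements of the kernel. -/
theorem exists_rep (hF : RFlat R Λ) (g : (J →₀ R) →ₗ[R] (J' →₀ R)) (y : J →₀ Λ)
    (hy : bc Λ g y = 0) : ∃ (k : ℕ) (l : Fin k → Λ) (x : Fin k → (J →₀ R)),
      (∀ a, g (x a) = 0) ∧ y = ∑ a, l a • emb R Λ J (x a) := by
  obtain ⟨k, l, z, hz⟩ := Submodule.mem_span_set'.1 (hF J J' g y hy)
  choose x hx1 hx2 using fun a => (z a).2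
  refine ⟨k, l, x, fun a => hx1 a, ?_⟩
  rw [← hz]
  exact Finset.sum_congr rfl fun a _ => by rw [hx2 a]

/-- Exactness is preserved. -/
theorem exists_lift (hF : RFlat R Λ) (d : (J →₀ R) →ₗ[R] (J' →₀ R))
    (e : (J' →₀ R) →ₗ[R] (J'' →₀ R)) (hd : LinearMap.range d = LinearMap.ker e) (y : J' →₀ Λ)
    (hy : bc Λ e y = 0) : ∃ x : J →₀ Λ, bc Λ d x = y := by
  obtain ⟨k, l, x, hx, rfl⟩ := exists_rep hF e y hy
  have h1 : ∀ a, ∃ w, d w = x a := fun a => by
    have h2 : x a ∈ LinearMap.ker e := hx a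
    rw [← hd] at h2
    exact h2
  choose w hw using h1
  refine ⟨∑ a, l a • emb R Λ J (w a), ?_⟩
  rw [map_sum]
  exact Finset.sum_congr rfl fun a _ => by rw [bc_smul_emb, hw]

/-- the `Λ`-linear extension of a functional -/
private noncomputable def ext1 (f : (J →₀ R) →ₗ[R] R) : (J →₀ Λ) →ₗ[Λ] Λ :=
  Finsupp.linearCombination Λ fun j => io R Λ (f (single j 1))

private theorem ext1_emb (f : (J →₀ R) →ₗ[R] R) (x : J →₀ R) :
    ext1 (Λ := Λ) f (emb R Λ J x) = io R Λ (f x) := by
  induction x using Finsupp.induction_linear with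
  | zero => rw [map_zero, map_zero, map_zero, map_zero]
  | add x y hx hy => rw [map_add, map_add, map_add, map_add, hx, hy]
  | single j r =>
    rw [emb_single, ext1, Finsupp.linearCombination_single]
    have h1 : single j r = r • single j (1 : R) := by
      rw [Finsupp.smul_single, smul_eq_mul, mul_one]
    rw [h1, map_smul, smul_eq_mul, smul_eq_mul, map_mul, smul_one_mul, flat_io_mul]

private theorem ext1_rsmul (f : (J →₀ R) →ₗ[R] R) (r : R) (y : J →₀ Λ) :
    ext1 (Λ := Λ) f (r • y) = r • ext1 (Λ := Λ) f y := by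
  have h1 : r • y = io R Λ r • y := by
    ext j
    rw [Finsupp.smul_apply, Finsupp.smul_apply, smul_eq_mul, flat_io_mul]
  rw [h1, map_smul, smul_eq_mul, flat_io_mul]

/-- The tests are values of the `Λ`-linear extension. -/
private theorem ext1_app (t : Tr R Λ Y (J →₀ R)) (x : Y) (f : (J →₀ R) →ₗ[R] R) :
    t.ev x f = ext1 (Λ := Λ) f (t.app (emb R Λ J) x) := by
  rw [Tr.app, map_sum, Tr.ev]
  exact Finset.sum_congr rfl fun a _ => by rw [ext1_rsmul, map_smul, ext1_emb, smul_eq_mul]

/-- The value of a triple with values in a free module determines its tests. -/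
theorem ev_eq_of_app (t t' : Tr R Λ Y (J →₀ R)) (x : Y)
    (h : t.app (emb R Λ J) x = t'.app (emb R Λ J) x) (f : (J →₀ R) →ₗ[R] R) :
    t.ev x f = t'.ev x f := by
  rw [ext1_app, ext1_app, h]

/-- A relation between elements of a submodule of a free module, tested by a functional. -/
theorem flat_relation (hF : RFlat R Λ) (Z : Submodule R (J →₀ R)) {q : Type} [Fintype q]
    (l : q → Λ) (z : q → Z) (h : ∑ a, l a • emb R Λ J (z a : J →₀ R) = 0) (f : Z →ₗ[R] R) :
    ∑ a, l a * io R Λ (f (z a)) = 0 := by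
  classical
  -- the map `R^q → R^(J)` and the functional `R^q → R`
  have h1 : ∃ g : (q →₀ R) →ₗ[R] Z, ∀ a, g (single a 1) = z a :=
    ⟨Finsupp.linearCombination R z, fun a => by rw [Finsupp.linearCombination_single, one_smul]⟩
  obtain ⟨g, hg⟩ := h1
  obtain ⟨y, hy⟩ : ∃ y : q →₀ Λ, y = ∑ a, single a (l a) := ⟨_, rfl⟩
  have h2 : bc Λ (Z.subtype ∘ₗ g) y = 0 := by
    rw [hy, map_sum, ← h]
    exact Finset.sum_congr rfl fun a _ => by
      rw [bc_single, LinearMap.comp_apply, hg, Submodule.subtype_apply]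
  have h3 : ext1 (Λ := Λ) (f ∘ₗ g) y = ∑ a, l a * io R Λ (f (z a)) := by
    rw [hy, map_sum]
    exact Finset.sum_congr rfl fun a _ => by
      rw [ext1, Finsupp.linearCombination_single, LinearMap.comp_apply, hg, smul_eq_mul]
  obtain ⟨k, l', x, hx, hxy⟩ := exists_rep hF (Z.subtype ∘ₗ g) y h2
  rw [← h3, hxy, map_sum]
  refine Finset.sum_eq_zero fun a _ => ?_
  rw [map_smul, ext1_emb]
  have h4 : g (x a) = 0 := by
    have h5 := hx a
    rw [LinearMap.comp_apply, Submodule.subtype_apply] at h5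
    exact Subtype.ext h5
  rw [LinearMap.comp_apply, h4, map_zero, map_zero, smul_zero]

/-- The value of a triple with values in a submodule of a free module determines its tests. -/
theorem ev_eq_of_app_sub (hF : RFlat R Λ) (Z : Submodule R (J →₀ R)) (t t' : Tr R Λ Y Z) (x : Y)
    (h : t.app (emb R Λ J ∘ₗ Z.subtype) x = t'.app (emb R Λ J ∘ₗ Z.subtype) x) (f : Z →ₗ[R] R) :
    t.ev x f = t'.ev x f := by
  have h1 := flat_relation hF Z (q := Fin t.k ⊕ Fin t'.k)
    (Sum.elim (fun a => t.φ a x • t.lam a) fun a => -(t'.φ a x • t'.lam a)) (Sum.elim t.y t'.y)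
    (by
      rw [Fintype.sum_sum_type]
      simp only [Sum.elim_inl, Sum.elim_inr, neg_smul, Finset.sum_neg_distrib]
      rw [← sub_eq_add_neg, sub_eq_zero]
      simp only [← flat_rsmul]
      exact h) f
  rw [Fintype.sum_sum_type] at h1
  simp only [Sum.elim_inl, Sum.elim_inr, neg_mul, Finset.sum_neg_distrib] at h1
  rw [← sub_eq_add_neg, sub_eq_zero] at h1
  simp only [smul_mul_assoc] at h1
  exact h1

/-- A coordinate of the image under a base change is a test. -/
theorem ev_lapply (t : Tr R Λ Y (J →₀ R)) (g : (J →₀ R) →ₗ[R] (J' →₀ R)) (x : Y) (c : J') :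
    t.ev x (lapply c ∘ₗ g) = bc Λ g (t.app (emb R Λ J) x) c := by
  rw [bc_app, Tr.app, Finsupp.finsetSum_apply, Tr.ev]
  refine Finset.sum_congr rfl fun a _ => ?_
  rw [Finsupp.smul_apply, Finsupp.smul_apply, emb_apply, smul_eq_mul]
  rfl

end Flat

end Pool.Agent.Wald
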