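import Pool.Agent.Lib.MP_8f66f0_al_Wald.Defs
import Pool.Agent.Lib.MP_8f66f0_al_Wald.Flat

/-! The step lemma: one step down the tower. -/

set_option autoImplicit false

namespace Pool.Agent.Wald

open Finsupp Matrix


section Step1
variable {R Λ : Type} [Ring R] [Ring Λ] [Module R Λ] [IsScalarTower R Λ Λ]

theorem Step.bc_single {J J' : Type} (g : (J →₀ R) →ₗ[R] (J' →₀ R)) (j : J) (l : Λ) :
    bc Λ g (single j l) = l • emb R Λ J' (g (single j 1)) := by
  simp [bc, Finsupp.linearCombination_single]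

theorem Step.emb_single_one {J : Type} (j : J) : emb R Λ J (single j 1) = single j (1 : Λ) := by
  simp

theorem Step.single_eq_smul {J : Type} (j : J) (l : Λ) :
    (single j l : J →₀ Λ) = l • emb R Λ J (single j 1) := by
  simp

/-- Two linear maps on a free module agree if they agree on the basis. -/
theorem Step.ext_single {J : Type} {M : Type} [AddCommGroup M] [Module R M]
    (f g : (J →₀ R) →ₗ[R] M) (h : ∀ j, f (single j 1) = g (single j 1)) (x : J →₀ R) :
    f x = g x := by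
  have : f = g := by
    ext j
    simpa using h j
  rw [this]

theorem Step.collect (hF : RFlat R Λ) {J J' : Type} (g : (J →₀ R) →ₗ[R] (J' →₀ R))
    {ι : Type} [Fintype ι] (y : ι → (J →₀ Λ)) (hy : ∀ i, bc Λ g (y i) = 0) :
    ∃ (r' : ℕ) (I : (Fin r' →₀ R) →ₗ[R] (J →₀ R)) (Ψ : ι → (Fin r' →₀ Λ)),
      (∀ x, g (I x) = 0) ∧ ∀ i, bc Λ I (Ψ i) = y i := by
  classical
  choose k l x hx hyx using fun i => exists_rep hF g (y i) (hy i)
  let σ := Σ i, Fin (k i)
  let e : σ ≃ Fin (Fintype.card σ) := Fintype.equivFin σ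
  let F : σ → (J →₀ R) := fun p => x p.1 p.2
  refine ⟨Fintype.card σ, Finsupp.linearCombination R fun s => F (e.symm s),
    fun i => ∑ a, single (e ⟨i, a⟩) (l i a), ?_, ?_⟩
  · intro z
    have := Step.ext_single (g ∘ₗ Finsupp.linearCombination R
      fun s => F (e.symm s)) 0 (by
        intro s
        simp [F, hx]) z
    simpa using this
  · intro i
    rw [map_sum, hyx i]
    refine Finset.sum_congr rfl fun a _ => ?_
    rw [Step.bc_single]
    simp only [Finsupp.linearCombination_single, Equiv.symm_apply_apply, one_smul]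
    rfl

theorem Step.exists_tr {Y : Type} [AddCommGroup Y] [Module R Y] {J' : Type} {ι : Type}
    [Fintype ι] (z : ι → (Y →ₗ[R] R)) (A : ι → (J' →₀ Λ)) :
    ∃ τ : Tr R Λ Y (J' →₀ R), ∀ w, τ.app (emb R Λ J') w = ∑ i, z i w • A i := by
  classical
  let σ := Σ i, {j // j ∈ (A i).support}
  let e : σ ≃ Fin (Fintype.card σ) := Fintype.equivFin σ
  let F1 : σ → (Y →ₗ[R] R) := fun p => z p.1
  let F2 : σ → Λ := fun p => A p.1 p.2.1
  let F3 : σ → (J' →₀ R) := fun p => single p.2.1 1
  refine ⟨⟨Fintype.card σ, fun s => F1 (e.symm s), fun s => F2 (e.symm s),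
    fun s => F3 (e.symm s)⟩, fun w => ?_⟩
  have h1 : ∀ i, A i = ∑ j : {j // j ∈ (A i).support}, single j.1 (A i j.1) := by
    intro i
    conv_lhs => rw [← Finsupp.sum_single (A i)]
    rw [Finsupp.sum, ← Finset.sum_coe_sort]
  unfold Tr.app
  simp only
  rw [← e.sum_comp (fun s => F1 (e.symm s) w • F2 (e.symm s) •
    emb R Λ J' (F3 (e.symm s)))]
  simp only [Equiv.symm_apply_apply]
  rw [Fintype.sum_sigma]
  refine Finset.sum_congr rfl fun i _ => ?_
  conv_rhs => rw [h1 i, Finset.smul_sum]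
  refine Finset.sum_congr rfl fun j _ => ?_
  rw [Step.single_eq_smul (R := R)]

section Pull

variable {K J L : Type} (I : (K →₀ R) →ₗ[R] (L →₀ R)) (d : (J →₀ R) →ₗ[R] (L →₀ R))

/-- The pullback as a type. -/
abbrev Step.Pb : Type := {p : (K →₀ R) × (J →₀ R) // I p.1 = d p.2}

/-- First projection. -/
noncomputable def Step.fstMap : (Step.Pb I d →₀ R) →ₗ[R] (K →₀ R) :=
  Finsupp.linearCombination R fun p => p.1.1

/-- Second projection. -/
noncomputable def Step.sndMap : (Step.Pb I d →₀ R) →ₗ[R] (J →₀ R) :=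
  Finsupp.linearCombination R fun p => p.1.2

theorem Step.fst_snd (x : Step.Pb I d →₀ R) :
    d (Step.sndMap I d x) = I (Step.fstMap I d x) := by
  have := Step.ext_single (d ∘ₗ Step.sndMap I d) (I ∘ₗ Step.fstMap I d) (by
    intro p
    simp [Step.sndMap, Step.fstMap, p.2]) x
  simpa using this

theorem Step.lift (hF : RFlat R Λ) (q : K →₀ Λ) (w : J →₀ Λ) (h : bc Λ I q = bc Λ d w) :
    ∃ u : Step.Pb I d →₀ Λ, bc Λ (Step.fstMap I d) u = q ∧ bc Λ (Step.sndMap I d) u = w := by
  classical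
  let G : ((K ⊕ J) →₀ R) →ₗ[R] (L →₀ R) :=
    Finsupp.linearCombination R (Sum.elim (fun k => I (single k 1)) (fun j => -d (single j 1)))
  have hG : ∀ x : (K ⊕ J) →₀ R, G x = I (lcomapDomain (R := R) Sum.inl Sum.inl_injective x) -
      d (lcomapDomain (R := R) Sum.inr Sum.inr_injective x) := by
    intro x
    have := Step.ext_single G (I ∘ₗ lcomapDomain Sum.inl Sum.inl_injective -
      d ∘ₗ lcomapDomain Sum.inr Sum.inr_injective) (by
        rintro (k | j)
        · have h1 : lcomapDomain (R := R) (M := R) (Sum.inl : K → K ⊕ J) Sum.inl_injective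
              (single (Sum.inl k) 1) = single k 1 := by
            ext a
            simp [lcomapDomain, Finsupp.comapDomain_apply, Finsupp.single_apply]
          have h2 : lcomapDomain (R := R) (M := R) (Sum.inr : J → K ⊕ J) Sum.inr_injective
              (single (Sum.inl k) 1) = 0 := by
            ext a
            simp [lcomapDomain, Finsupp.comapDomain_apply, Finsupp.single_apply]
          simp only [LinearMap.sub_apply, LinearMap.comp_apply, h1, h2, map_zero, sub_zero]
          simp [G]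
        · have h1 : lcomapDomain (R := R) (M := R) (Sum.inr : J → K ⊕ J) Sum.inr_injective
              (single (Sum.inr j) 1) = single j 1 := by
            ext a
            simp [lcomapDomain, Finsupp.comapDomain_apply, Finsupp.single_apply]
          have h2 : lcomapDomain (R := R) (M := R) (Sum.inl : K → K ⊕ J) Sum.inl_injective
              (single (Sum.inr j) 1) = 0 := by
            ext a
            simp [lcomapDomain, Finsupp.comapDomain_apply, Finsupp.single_apply]
          simp only [LinearMap.sub_apply, LinearMap.comp_apply, h1, h2, map_zero, zero_sub]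
          simp [G]) x
    simpa using this
  let y : (K ⊕ J) →₀ Λ := q.mapDomain Sum.inl + w.mapDomain Sum.inr
  have hb1 : ∀ q : K →₀ Λ, bc Λ G (q.mapDomain Sum.inl) = bc Λ I q := by
    intro q
    induction q using Finsupp.induction_linear with
    | zero => simp
    | add a b ha hb => rw [Finsupp.mapDomain_add, map_add, map_add, ha, hb]
    | single k l => rw [Finsupp.mapDomain_single, Step.bc_single, Step.bc_single]; simp [G]
  have hb2 : ∀ w : J →₀ Λ, bc Λ G (w.mapDomain Sum.inr) = - bc Λ d w := by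
    intro q
    induction q using Finsupp.induction_linear with
    | zero => simp
    | add a b ha hb => rw [Finsupp.mapDomain_add, map_add, map_add, ha, hb]; abel
    | single k l => rw [Finsupp.mapDomain_single, Step.bc_single, Step.bc_single]; simp [G]
  have hy : bc Λ G y = 0 := by
    simp only [y, map_add, hb1, hb2, h, add_neg_cancel]
  obtain ⟨k, l, x, hx, hyx⟩ := exists_rep hF G y hy
  have hx' : ∀ a, I (lcomapDomain (R := R) Sum.inl Sum.inl_injective (x a)) =
      d (lcomapDomain (R := R) Sum.inr Sum.inr_injective (x a)) := by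
    intro a
    have := hx a
    rw [hG, sub_eq_zero] at this
    exact this
  have hc1 : ∀ (c : Λ) (x : (K ⊕ J) →₀ R), lcomapDomain (R := Λ) Sum.inl Sum.inl_injective
      (c • emb R Λ (K ⊕ J) x) =
      c • emb R Λ K (lcomapDomain (R := R) Sum.inl Sum.inl_injective x) := by
    intro c x
    ext a
    simp [lcomapDomain, Finsupp.comapDomain_apply, emb]
  have hc2 : ∀ (c : Λ) (x : (K ⊕ J) →₀ R), lcomapDomain (R := Λ) Sum.inr Sum.inr_injective
      (c • emb R Λ (K ⊕ J) x) =
      c • emb R Λ J (lcomapDomain (R := R) Sum.inr Sum.inr_injective x) := by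
    intro c x
    ext a
    simp [lcomapDomain, Finsupp.comapDomain_apply, emb]
  refine ⟨∑ a, single ⟨(_, _), hx' a⟩ (l a), ?_, ?_⟩
  · rw [map_sum]
    have h1 : q = lcomapDomain (R := Λ) Sum.inl Sum.inl_injective y := by
      ext a
      simp only [y, map_add, lcomapDomain, Finsupp.add_apply, LinearMap.coe_mk, AddHom.coe_mk,
        Finsupp.comapDomain_apply]
      rw [Finsupp.mapDomain_apply Sum.inl_injective, Finsupp.mapDomain_of_notMem_range]
      · simp
      · simp
    rw [h1, hyx, map_sum]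
    refine Finset.sum_congr rfl fun a _ => ?_
    rw [Step.bc_single, hc1]
    simp [Step.fstMap]
  · rw [map_sum]
    have h1 : w = lcomapDomain (R := Λ) Sum.inr Sum.inr_injective y := by
      ext a
      simp only [y, map_add, lcomapDomain, Finsupp.add_apply, LinearMap.coe_mk, AddHom.coe_mk,
        Finsupp.comapDomain_apply]
      rw [Finsupp.mapDomain_apply Sum.inr_injective, Finsupp.mapDomain_of_notMem_range]
      · simp
      · simp
    rw [h1, hyx, map_sum]
    refine Finset.sum_congr rfl fun a _ => ?_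
    rw [Step.bc_single, hc2]
    simp [Step.sndMap]

end Pull

end Step1


section Step
variable {R Λ : Type} [Ring R] [Ring Λ] [Module R Λ] [IsScalarTower R Λ Λ]

/-- Extension of a family to an `R`-linear map with values in a free `Λ`-module. -/
theorem Step.exists_ext {J : Type} {M : Type} [AddCommGroup M] [Module R M] (v : J → M) :
    ∃ P : (J →₀ R) →ₗ[R] M, ∀ j, P (single j 1) = v j :=
  ⟨Finsupp.linearCombination R v, fun j => by simp⟩

theorem Step.bc_rcomp {J J' : Type} (g : (J →₀ R) →ₗ[R] (J' →₀ R)) {M : Type} [AddCommGroup M]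
    [Module R M] (P : M →ₗ[R] (J →₀ Λ)) :
    ∃ Q : M →ₗ[R] (J' →₀ Λ), ∀ x, Q x = bc Λ g (P x) :=
  ⟨{ toFun := fun x => bc Λ g (P x)
     map_add' := fun x y => by rw [map_add, map_add]
     map_smul' := fun r x => by rw [map_smul, bc_rsmul]; rfl }, fun _ => rfl⟩

theorem Step.sum_single_smul {r : ℕ} (x : Fin r →₀ R) : ∑ b, x b • single b (1 : R) = x := by
  classical
  ext a
  simp [Finsupp.finset_sum_apply, Finsupp.single_apply]

/-- A linear family of coefficients, chosen on a basis. -/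
theorem Step.coef {J : Type} {s s' T : ℕ} (ρ : Matrix (Fin T) (Fin s) R)
    (ρ' : Matrix (Fin T) (Fin s') R) (c : (J →₀ R) →ₗ[R] (Fin s → R))
    (h : ∀ x, ∃ z : Fin T → R, Matrix.vecMul z ρ = c x ∧ Matrix.vecMul z ρ' = 0) :
    ∃ z : Fin T → ((J →₀ R) →ₗ[R] R), ∀ x, (∀ l, ∑ t, z t x * ρ t l = c x l) ∧
      (∀ l, ∑ t, z t x * ρ' t l = 0) := by
  classical
  choose z hz hz' using fun j : J => h (single j 1)
  let Z : Fin T → ((J →₀ R) →ₗ[R] R) := fun t => Finsupp.linearCombination R fun j => z j t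
  refine ⟨Z, fun x => ⟨fun l => ?_, fun l => ?_⟩⟩
  · have := Step.ext_single
      (∑ t, (LinearMap.toSpanSingleton R R (ρ t l)) ∘ₗ Z t) (LinearMap.proj l ∘ₗ c) (by
        intro j
        have h1 := congrFun (hz j) l
        simp only [Matrix.vecMul, dotProduct] at h1
        simp [Z, LinearMap.sum_apply, ← h1]) x
    simpa [LinearMap.sum_apply] using this
  · have := Step.ext_single
      (∑ t, (LinearMap.toSpanSingleton R R (ρ' t l)) ∘ₗ Z t) 0 (by
        intro j
        have h1 := congrFun (hz' j) l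
        simp only [Matrix.vecMul, dotProduct] at h1
        simpa [Z, LinearMap.sum_apply] using h1) x
    simpa [LinearMap.sum_apply] using this

theorem Stage.step (hF : RFlat R Λ) (hC : C1F R Λ) {n : ℕ}
    {ν : (Fin n →₀ R) →ₗ[R] (Fin n →₀ Λ)} (S : Stage R Λ n ν) {B B' : Type}
    (h : (Fin n →₀ R) →ₗ[R] (B →₀ R)) (h' : (Fin n →₀ R) →ₗ[R] (B' →₀ R))
    (hS : ∀ x, h (S.e x) = 0) (hh : ∀ x, h x = 0 → bc Λ h' (ν x) = 0) :
    ∃ (S' : Stage R Λ n ν) (I : (Fin S'.r →₀ R) →ₗ[R] (Fin S.r →₀ R))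
      (P : (Fin S.r →₀ R) →ₗ[R] (Fin S'.r →₀ Λ)) (IW : (S'.J →₀ R) →ₗ[R] (S.J →₀ R))
      (τ : Tr R Λ (S.J →₀ R) (S'.J →₀ R)),
      (∀ x, h' (S'.e x) = 0) ∧ (∀ x, S.N x = bc Λ I (P x)) ∧ (∀ x, S'.N x = P (I x)) ∧
      (∀ w, S.d (IW w) = I (S'.d w)) ∧
      (∀ w, bc Λ S'.d (τ.app (emb R Λ S'.J) w) = P (S.d w)) ∧
      (∀ w, bc Λ IW (τ.app (emb R Λ S'.J) w) = S.t.app (emb R Λ S.J) w) ∧
      S'.t = τ.pre IW := by
  classical
  have hed : ∀ w, S.e (S.d w) = 0 := fun w => by
    have : S.d w ∈ LinearMap.ker S.e := S.hd ▸ LinearMap.mem_range_self S.d w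
    simpa using this
  let η : Fin S.t.k → (S.J →₀ Λ) := fun a => S.t.lam a • emb R Λ S.J (S.t.y a)
  have happ : ∀ w, S.t.app (emb R Λ S.J) w = ∑ a, S.t.φ a w • η a := fun w => rfl
  let g : (Fin S.r →₀ R) →ₗ[R] (B' →₀ R) := h' ∘ₗ S.e
  let k1 : Fin S.r → (Fin S.r →₀ Λ) := fun b => S.N (single b 1)
  let k2 : Fin S.t.k → (Fin S.r →₀ Λ) := fun a => bc Λ S.d (η a)
  have hgN : ∀ x, bc Λ g (S.N x) = 0 := fun x => by
    rw [← bc_comp, S.hN]
    exact hh _ (hS x)
  have hgd : ∀ y, bc Λ g (bc Λ S.d y) = 0 := fun y => by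
    rw [bc_comp]
    have : g ∘ₗ S.d = 0 := by
      ext j
      simp [g, hed]
    rw [this]
    simp [bc, Finsupp.linearCombination_apply]
  let k : Fin (S.r + S.t.k) → (Fin S.r →₀ Λ) := Fin.append k1 k2
  have hk : ∀ l, bc Λ g (k l) = 0 := by
    intro l
    refine Fin.addCases (fun b => ?_) (fun a => ?_) l
    · simp only [k, Fin.append_left]; exact hgN _
    · simp only [k, Fin.append_right]; exact hgd _
  obtain ⟨s', k3, T, ρ, ρ', hk3, hρ, hcl⟩ := hC (Fin S.r) B' g (S.r + S.t.k) k hk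
  -- a common finite family
  let ι := (Fin S.r ⊕ Fin S.t.k) ⊕ Fin s'
  let y : ι → (Fin S.r →₀ Λ) := Sum.elim (Sum.elim k1 k2) k3
  obtain ⟨r', I, Φ, hgI, hIΦ⟩ := Step.collect hF g y (by
    rintro ((b | a) | c)
    · exact hgN _
    · exact hgd _
    · exact hk3 _)
  let Ψ : Fin S.r → (Fin r' →₀ Λ) := fun b => Φ (Sum.inl (Sum.inl b))
  let χ : Fin S.t.k → (Fin r' →₀ Λ) := fun a => Φ (Sum.inl (Sum.inr a))
  let κ : Fin s' → (Fin r' →₀ Λ) := fun c => Φ (Sum.inr c)
  have hΨ : ∀ b, bc Λ I (Ψ b) = k1 b := fun b => hIΦ _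
  have hχ : ∀ a, bc Λ I (χ a) = k2 a := fun a => hIΦ _
  have hκ : ∀ c, bc Λ I (κ c) = k3 c := fun c => hIΦ _
  obtain ⟨P, hP⟩ := Step.exists_ext (R := R) Ψ
  have hNP : ∀ x, S.N x = bc Λ I (P x) := by
    obtain ⟨Q, hQ⟩ := Step.bc_rcomp I P
    intro x
    rw [← hQ]
    refine Step.ext_single _ _ (fun b => ?_) x
    rw [hQ, hP, hΨ]
  -- the pullback
  let IW := Step.sndMap I S.d
  let d' := Step.fstMap I S.d
  have hdI : ∀ w, S.d (IW w) = I (d' w) := Step.fst_snd I S.d
  -- the two kinds of lifts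
  let ω : Fin T → (Fin r' →₀ Λ) := fun t => ∑ b, ρ t (Fin.castAdd _ b) • Ψ b +
    ∑ a, ρ t (Fin.natAdd _ a) • χ a + ∑ c, ρ' t c • κ c
  have hω : ∀ t, bc Λ I (ω t) = bc Λ S.d 0 := by
    intro t
    have h1 := hρ t
    rw [Fin.sum_univ_add] at h1
    simp only [k, Fin.append_left, Fin.append_right] at h1
    simp only [ω, map_add, map_sum, bc_rsmul, hΨ, hχ, hκ, map_zero]
    exact h1
  choose A hA1 hA2 using fun t => Step.lift I S.d hF (ω t) 0 (hω t)
  choose Bq hB1 hB2 using fun a => Step.lift I S.d hF (χ a) (η a) (hχ a)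
  -- the relation
  let c : (S.J →₀ R) →ₗ[R] (Fin (S.r + S.t.k) → R) :=
    LinearMap.pi (Fin.addCases (fun b => lapply b ∘ₗ S.d) (fun a => -S.t.φ a))
  have hc1 : ∀ x b, c x (Fin.castAdd _ b) = S.d x b := by
    intro x b
    simp [c]
  have hc2 : ∀ x a, c x (Fin.natAdd _ a) = -S.t.φ a x := by
    intro x a
    simp [c]
  have hrel : ∀ x, ∑ l, c x l • k l = 0 := by
    intro x
    rw [Fin.sum_univ_add]
    simp only [k, Fin.append_left, Fin.append_right, hc1, hc2]
    have h1 : ∑ b, S.d x b • k1 b = S.N (S.d x) := by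
      conv_rhs => rw [← Step.sum_single_smul (S.d x), map_sum]
      simp only [map_smul]
      rfl
    have h2 : ∑ a, -S.t.φ a x • k2 a = - bc Λ S.d (S.t.app (emb R Λ S.J) x) := by
      rw [happ, map_sum, ← Finset.sum_neg_distrib]
      refine Finset.sum_congr rfl fun a _ => ?_
      rw [bc_rsmul, neg_smul]
    rw [h1, h2, S.ht, add_neg_cancel]
  obtain ⟨z, hz⟩ := Step.coef ρ ρ' c (fun x => hcl _ (hrel x))
  obtain ⟨τ, hτ⟩ := Step.exists_tr (R := R) (Λ := Λ)
    (Sum.elim z S.t.φ : Fin T ⊕ Fin S.t.k → ((S.J →₀ R) →ₗ[R] R)) (Sum.elim A Bq)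
  have hτ' : ∀ w, τ.app (emb R Λ (Step.Pb I S.d)) w =
      ∑ t, z t w • A t + ∑ a, S.t.φ a w • Bq a := by
    intro w
    rw [hτ, Fintype.sum_sum_type]
    rfl
  have hτd : ∀ w, bc Λ d' (τ.app (emb R Λ (Step.Pb I S.d)) w) = P (S.d w) := by
    intro w
    rw [hτ', map_add, map_sum, map_sum]
    simp only [bc_rsmul]
    have e1 : ∀ t, bc Λ d' (A t) = ω t := hA1
    have e2 : ∀ a, bc Λ d' (Bq a) = χ a := hB1
    simp only [e1, e2]
    have e3 : P (S.d w) = ∑ b, S.d w b • Ψ b := by
      conv_lhs => rw [← Step.sum_single_smul (S.d w), map_sum]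
      simp only [map_smul, hP]
    have e4 : ∑ t, z t w • ω t = ∑ b, S.d w b • Ψ b - ∑ a, S.t.φ a w • χ a := by
      simp only [ω, smul_add, Finset.sum_add_distrib, Finset.smul_sum, smul_smul]
      rw [Finset.sum_comm, Finset.sum_comm (f := fun t a => (z t w * ρ t (Fin.natAdd S.r a)) • χ a),
        Finset.sum_comm (f := fun t a => (z t w * ρ' t a) • κ a)]
      simp only [← Finset.sum_smul]
      have f1 : ∀ b, ∑ t, z t w * ρ t (Fin.castAdd S.t.k b) = S.d w b := fun b => by
        rw [(hz w).1, hc1]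
      have f2 : ∀ a, ∑ t, z t w * ρ t (Fin.natAdd S.r a) = -S.t.φ a w := fun a => by
        rw [(hz w).1, hc2]
      simp only [f1, f2, (hz w).2, zero_smul, Finset.sum_const_zero, add_zero, neg_smul,
        Finset.sum_neg_distrib]
      rw [sub_eq_add_neg]
    rw [e3, e4, sub_add_cancel]
  have hτI : ∀ w, bc Λ IW (τ.app (emb R Λ (Step.Pb I S.d)) w) = S.t.app (emb R Λ S.J) w := by
    intro w
    rw [hτ', map_add, map_sum, map_sum, happ]
    simp only [bc_rsmul]
    have e1 : ∀ t, bc Λ IW (A t) = 0 := hA2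
    have e2 : ∀ a, bc Λ IW (Bq a) = η a := hB2
    simp only [e1, e2, smul_zero, Finset.sum_const_zero, zero_add]
  have hd' : LinearMap.range d' = LinearMap.ker (S.e ∘ₗ I) := by
    apply le_antisymm
    · rintro _ ⟨w, rfl⟩
      simp only [LinearMap.mem_ker, LinearMap.comp_apply]
      rw [← hdI, hed]
    · intro q hq
      have h1 : I q ∈ LinearMap.range S.d := by
        rw [S.hd]
        simpa using hq
      obtain ⟨w, hw⟩ := h1
      refine ⟨single ⟨(q, w), hw.symm⟩ 1, ?_⟩
      simp [d', Step.fstMap]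
  refine ⟨⟨r', S.e ∘ₗ I, P ∘ₗ I, ?_, Step.Pb I S.d, d', hd', τ.pre IW, ?_⟩, I, P, IW, τ,
    ?_, hNP, fun _ => rfl, hdI, hτd, hτI, rfl⟩
  · intro x
    simp only [LinearMap.comp_apply]
    rw [← bc_comp, ← hNP, S.hN]
  · intro w
    rw [app_pre, hτd, hdI]
    rfl
  · intro x
    exact hgI x

end Step

end Pool.Agent.Wald
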