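import Pool.Agent.Lib.MP_8f66f0_al_Wald.FG
import Pool.Agent.Lib.MP_8f66f0_al_Wald.Step

/-! One step down the tower at the higher levels: the mapping cone. -/

set_option autoImplicit false

namespace Pool.Agent.Wald

open Finsupp Matrix

section Cone
variable {R Λ : Type} [Ring R] [Ring Λ] [Module R Λ] [IsScalarTower R Λ Λ]

namespace Cone

theorem bc_add {J J' : Type} (f g : (J →₀ R) →ₗ[R] (J' →₀ R)) (y : J →₀ Λ) :
    bc Λ (f + g) y = bc Λ f y + bc Λ g y := by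
  induction y using Finsupp.induction_linear with
  | zero => simp
  | add a b ha hb => rw [map_add, map_add, map_add, ha, hb]; abel
  | single j l =>
    rw [Step.bc_single, Step.bc_single, Step.bc_single, LinearMap.add_apply, map_add, smul_add]

theorem bc_neg {J J' : Type} (f : (J →₀ R) →ₗ[R] (J' →₀ R)) (y : J →₀ Λ) :
    bc Λ (-f) y = -bc Λ f y := by
  induction y using Finsupp.induction_linear with
  | zero => simp
  | add a b ha hb => rw [map_add, map_add, ha, hb]; abel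
  | single j l => rw [Step.bc_single, Step.bc_single, LinearMap.neg_apply, map_neg, smul_neg]

theorem bc_id {J : Type} (y : J →₀ Λ) : bc Λ (LinearMap.id : (J →₀ R) →ₗ[R] (J →₀ R)) y = y := by
  induction y using Finsupp.induction_linear with
  | zero => simp
  | add a b ha hb => rw [map_add, ha, hb]
  | single j l => rw [Step.bc_single, LinearMap.id_apply]; simp

theorem bc_zero {J J' : Type} (y : J →₀ Λ) : bc Λ (0 : (J →₀ R) →ₗ[R] (J' →₀ R)) y = 0 := by
  induction y using Finsupp.induction_linear with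
  | zero => simp
  | add a b ha hb => rw [map_add, ha, hb, add_zero]
  | single j l => rw [Step.bc_single, LinearMap.zero_apply, map_zero, smul_zero]

variable (R) (X Y : Type)

/-- first inclusion -/
noncomputable def il : (X →₀ R) →ₗ[R] (X ⊕ Y →₀ R) := lmapDomain R R Sum.inl

/-- second inclusion -/
noncomputable def ir : (Y →₀ R) →ₗ[R] (X ⊕ Y →₀ R) := lmapDomain R R Sum.inr

/-- first projection -/
noncomputable def pl : (X ⊕ Y →₀ R) →ₗ[R] (X →₀ R) := lcomapDomain Sum.inl Sum.inl_injective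

/-- second projection -/
noncomputable def pr : (X ⊕ Y →₀ R) →ₗ[R] (Y →₀ R) := lcomapDomain Sum.inr Sum.inr_injective

variable {R X Y}

theorem pl_il (x : X →₀ R) : pl R X Y (il R X Y x) = x := by
  ext a
  change (Finsupp.mapDomain Sum.inl x) (Sum.inl a) = x a
  exact Finsupp.mapDomain_apply Sum.inl_injective x a

theorem pr_ir (x : Y →₀ R) : pr R X Y (ir R X Y x) = x := by
  ext a
  change (Finsupp.mapDomain Sum.inr x) (Sum.inr a) = x a
  exact Finsupp.mapDomain_apply Sum.inr_injective x a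

theorem pl_ir (x : Y →₀ R) : pl R X Y (ir R X Y x) = 0 := by
  ext a
  change (Finsupp.mapDomain Sum.inr x) (Sum.inl a) = 0
  exact Finsupp.mapDomain_of_notMem_range _ _ (by simp)

theorem pr_il (x : X →₀ R) : pr R X Y (il R X Y x) = 0 := by
  ext a
  change (Finsupp.mapDomain Sum.inl x) (Sum.inr a) = 0
  exact Finsupp.mapDomain_of_notMem_range _ _ (by simp)

theorem sum_pl_pr (x : X ⊕ Y →₀ R) : il R X Y (pl R X Y x) + ir R X Y (pr R X Y x) = x := by
  ext a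
  rcases a with a | a
  · rw [Finsupp.add_apply]
    have h1 : il R X Y (pl R X Y x) (Sum.inl a) = x (Sum.inl a) := by
      change (Finsupp.mapDomain Sum.inl (pl R X Y x)) (Sum.inl a) = _
      rw [Finsupp.mapDomain_apply Sum.inl_injective]
      rfl
    have h2 : ir R X Y (pr R X Y x) (Sum.inl a) = 0 := by
      change (Finsupp.mapDomain Sum.inr (pr R X Y x)) (Sum.inl a) = _
      exact Finsupp.mapDomain_of_notMem_range _ _ (by simp)
    rw [h1, h2, add_zero]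
  · rw [Finsupp.add_apply]
    have h1 : il R X Y (pl R X Y x) (Sum.inr a) = 0 := by
      change (Finsupp.mapDomain Sum.inl (pl R X Y x)) (Sum.inr a) = _
      exact Finsupp.mapDomain_of_notMem_range _ _ (by simp)
    have h2 : ir R X Y (pr R X Y x) (Sum.inr a) = x (Sum.inr a) := by
      change (Finsupp.mapDomain Sum.inr (pr R X Y x)) (Sum.inr a) = _
      rw [Finsupp.mapDomain_apply Sum.inr_injective]
      rfl
    rw [h1, h2, zero_add]

/-- The differential of the cone. -/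
noncomputable def dif {A J : Type} (f : (X →₀ R) →ₗ[R] (A →₀ R))
    (g : (X →₀ R) →ₗ[R] (J →₀ R)) (h : (Y →₀ R) →ₗ[R] (J →₀ R)) :
    (X ⊕ Y →₀ R) →ₗ[R] (A ⊕ J →₀ R) :=
  il R A J ∘ₗ f ∘ₗ pl R X Y + ir R A J ∘ₗ (g ∘ₗ pl R X Y + -(h ∘ₗ pr R X Y))

theorem pl_dif {A J : Type} (f : (X →₀ R) →ₗ[R] (A →₀ R))
    (g : (X →₀ R) →ₗ[R] (J →₀ R)) (h : (Y →₀ R) →ₗ[R] (J →₀ R)) (x : X ⊕ Y →₀ R) :
    pl R A J (dif f g h x) = f (pl R X Y x) := by
  simp only [dif, LinearMap.add_apply, LinearMap.comp_apply, map_add, pl_il, pl_ir, add_zero]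

theorem pr_dif {A J : Type} (f : (X →₀ R) →ₗ[R] (A →₀ R))
    (g : (X →₀ R) →ₗ[R] (J →₀ R)) (h : (Y →₀ R) →ₗ[R] (J →₀ R)) (x : X ⊕ Y →₀ R) :
    pr R A J (dif f g h x) = g (pl R X Y x) - h (pr R X Y x) := by
  simp only [dif, LinearMap.add_apply, LinearMap.comp_apply, map_add, pr_il, pr_ir, zero_add,
    LinearMap.neg_apply, map_neg, sub_eq_add_neg]

theorem ext_pl_pr {x y : X ⊕ Y →₀ R} (h1 : pl R X Y x = pl R X Y y)
    (h2 : pr R X Y x = pr R X Y y) : x = y := by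
  rw [← sum_pl_pr x, ← sum_pl_pr y, h1, h2]

theorem dif_mk {A J : Type} (f : (X →₀ R) →ₗ[R] (A →₀ R))
    (g : (X →₀ R) →ₗ[R] (J →₀ R)) (h : (Y →₀ R) →ₗ[R] (J →₀ R)) (x : X →₀ R) (y : Y →₀ R) :
    dif f g h (il R X Y x + ir R X Y y) = il R A J (f x) + ir R A J (g x - h y) := by
  apply ext_pl_pr
  · rw [pl_dif, map_add, pl_il, pl_ir, add_zero, map_add, pl_il, pl_ir, add_zero]
  · rw [pr_dif, map_add (pl R X Y), pl_il, pl_ir, add_zero, map_add (pr R X Y), pr_il, pr_ir,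
      zero_add, map_add (pr R A J), pr_il, pr_ir, zero_add]

end Cone

/-- The mapping cone step. -/
theorem cone_step (hF : RFlat R Λ) (hC : C1F R Λ) {A J A2 J2 C2 J' : Type}
    (d : (J →₀ R) →ₗ[R] (A →₀ R))
    (e2 : (A2 →₀ R) →ₗ[R] (C2 →₀ R)) (d2 : (J2 →₀ R) →ₗ[R] (A2 →₀ R))
    (hd2 : LinearMap.range d2 = LinearMap.ker e2)
    (IA : (A2 →₀ R) →ₗ[R] (A →₀ R)) (I : (J2 →₀ R) →ₗ[R] (J →₀ R))
    (hI : ∀ w, d (I w) = IA (d2 w)) (PA : (A →₀ R) →ₗ[R] (A2 →₀ Λ))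
    (t : Tr R Λ (J →₀ R) (J →₀ R)) (τ : Tr R Λ (J →₀ R) (J2 →₀ R))
    (hτ : ∀ w, bc Λ d2 (τ.app (emb R Λ J2) w) = PA (d w))
    (hτI : ∀ w, bc Λ I (τ.app (emb R Λ J2) w) = t.app (emb R Λ J) w)
    (d' : (J' →₀ R) →ₗ[R] (J →₀ R)) (hd' : LinearMap.range d' = LinearMap.ker d)
    (t' : Tr R Λ (J' →₀ R) (J' →₀ R))
    (ht' : ∀ w, bc Λ d' (t'.app (emb R Λ J') w) = t.app (emb R Λ J) (d' w)) :
    ∃ (J2' : Type) (d2' : (J2' →₀ R) →ₗ[R] (J2 →₀ R)) (I' : (J2' →₀ R) →ₗ[R] (J' →₀ R))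
      (τ' : Tr R Λ (J' →₀ R) (J2' →₀ R)), LinearMap.range d2' = LinearMap.ker d2 ∧
      (∀ w, d' (I' w) = I (d2' w)) ∧
      (∀ v, bc Λ d2' (τ'.app (emb R Λ J2') v) = τ.app (emb R Λ J2) (d' v)) ∧
      ∀ v, bc Λ I' (τ'.app (emb R Λ J2') v) = t'.app (emb R Λ J') v := by
  classical
  have hdd' : ∀ v, d (d' v) = 0 := fun v => by
    have h1 : d' v ∈ LinearMap.ker d := hd' ▸ LinearMap.mem_range_self d' v
    exact h1
  have hed : ∀ v, e2 (d2 v) = 0 := fun v => by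
    have h1 : d2 v ∈ LinearMap.ker e2 := hd2 ▸ LinearMap.mem_range_self d2 v
    exact h1
  obtain ⟨D, hD⟩ : ∃ D : (J2 ⊕ J' →₀ R) →ₗ[R] (A2 ⊕ J →₀ R), D = Cone.dif d2 I d' := ⟨_, rfl⟩
  obtain ⟨D', hD'⟩ : ∃ D' : (A2 ⊕ J →₀ R) →ₗ[R] (C2 ⊕ A →₀ R), D' = Cone.dif e2 IA d := ⟨_, rfl⟩
  have hDD : LinearMap.range D = LinearMap.ker D' := by
    apply le_antisymm
    · rintro _ ⟨x, rfl⟩
      rw [LinearMap.mem_ker, hD', hD]
      apply Cone.ext_pl_pr
      · rw [Cone.pl_dif, Cone.pl_dif, hed, map_zero]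
      · rw [Cone.pr_dif, Cone.pl_dif, Cone.pr_dif, map_sub, hI, hdd', sub_zero, sub_self, map_zero]
    · intro y hy
      rw [LinearMap.mem_ker, hD'] at hy
      have h1 : e2 (Cone.pl R A2 J y) = 0 := by
        rw [← Cone.pl_dif e2 IA d, hy, map_zero]
      have h2 : IA (Cone.pl R A2 J y) - d (Cone.pr R A2 J y) = 0 := by
        rw [← Cone.pr_dif e2 IA d, hy, map_zero]
      have h3 : Cone.pl R A2 J y ∈ LinearMap.range d2 := by rw [hd2]; exact h1
      obtain ⟨ζ, hζ⟩ := h3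
      have h4 : I ζ - Cone.pr R A2 J y ∈ LinearMap.range d' := by
        rw [hd', LinearMap.mem_ker, map_sub, hI, hζ]
        exact h2
      obtain ⟨v, hv⟩ := h4
      refine ⟨Cone.il R J2 J' ζ + Cone.ir R J2 J' v, ?_⟩
      rw [hD, Cone.dif_mk, hζ, hv, sub_sub_cancel]
      exact Cone.sum_pl_pr y
  -- the finite rank map into the sum
  obtain ⟨t0, ht0⟩ := Step.exists_tr (R := R) (Λ := Λ)
    (Sum.elim (fun a => τ.φ a ∘ₗ d') t'.φ : Fin τ.k ⊕ Fin t'.k → ((J' →₀ R) →ₗ[R] R))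
    (Sum.elim (fun a => bc Λ (Cone.il R J2 J') (τ.lam a • emb R Λ J2 (τ.y a)))
      (fun a => bc Λ (Cone.ir R J2 J') (t'.lam a • emb R Λ J' (t'.y a))))
  have ht0' : ∀ v, t0.app (emb R Λ (J2 ⊕ J')) v =
      bc Λ (Cone.il R J2 J') (τ.app (emb R Λ J2) (d' v)) +
      bc Λ (Cone.ir R J2 J') (t'.app (emb R Λ J') v) := by
    intro v
    rw [ht0, Fintype.sum_sum_type]
    unfold Tr.app
    rw [map_sum, map_sum]
    simp only [bc_rsmul, Sum.elim_inl, Sum.elim_inr, LinearMap.comp_apply]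
  have hzero : ∀ v, bc Λ D (t0.app (emb R Λ (J2 ⊕ J')) v) = 0 := by
    intro v
    rw [ht0', map_add, bc_comp, bc_comp]
    have e1 : D ∘ₗ Cone.il R J2 J' = Cone.il R A2 J ∘ₗ d2 + Cone.ir R A2 J ∘ₗ I := by
      refine LinearMap.ext fun x => ?_
      rw [hD]
      have h1 := Cone.dif_mk d2 I d' x 0
      rw [map_zero, add_zero, map_zero, sub_zero] at h1
      exact h1
    have e2' : D ∘ₗ Cone.ir R J2 J' = -(Cone.ir R A2 J ∘ₗ d') := by
      refine LinearMap.ext fun x => ?_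
      rw [hD]
      have h1 := Cone.dif_mk d2 I d' 0 x
      rw [map_zero, zero_add, map_zero, map_zero, map_zero, zero_add, zero_sub, map_neg] at h1
      exact h1
    rw [e1, e2', Cone.bc_add, Cone.bc_neg, ← bc_comp, ← bc_comp, ← bc_comp, hτ, hτI, ht', hdd',
      map_zero, map_zero, zero_add, add_neg_cancel]
  obtain ⟨u, hu⟩ := exists_tr_ker hF hC D D' hDD t0 hzero
  have hker : ∀ x : LinearMap.ker D, d2 (Cone.pl R J2 J' x) = 0 ∧
      I (Cone.pl R J2 J' x) = d' (Cone.pr R J2 J' x) := by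
    intro x
    have hx : Cone.dif d2 I d' (x : J2 ⊕ J' →₀ R) = 0 := by rw [← hD]; exact x.2
    constructor
    · rw [← Cone.pl_dif d2 I d', hx, map_zero]
    · rw [← sub_eq_zero, ← Cone.pr_dif d2 I d', hx, map_zero]
  let d2' : (LinearMap.ker D →₀ R) →ₗ[R] (J2 →₀ R) :=
    Finsupp.linearCombination R fun x : LinearMap.ker D => Cone.pl R J2 J' x
  let I' : (LinearMap.ker D →₀ R) →ₗ[R] (J' →₀ R) :=
    Finsupp.linearCombination R fun x : LinearMap.ker D => Cone.pr R J2 J' x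
  let τ' : Tr R Λ (J' →₀ R) (LinearMap.ker D →₀ R) :=
    ⟨u.k, u.φ, u.lam, fun a => single (u.y a) 1⟩
  have hd2's : ∀ x, d2' (single x 1) = Cone.pl R J2 J' x := fun x => by simp [d2']
  have hI's : ∀ x, I' (single x 1) = Cone.pr R J2 J' x := fun x => by simp [I']
  have hgen : ∀ {X : Type} (g : (J2 ⊕ J' →₀ R) →ₗ[R] (X →₀ R))
      (g' : (LinearMap.ker D →₀ R) →ₗ[R] (X →₀ R)) (_ : ∀ x : LinearMap.ker D,
      g' (single x 1) = g x) (v : J' →₀ R),
      bc Λ g' (τ'.app (emb R Λ _) v) = bc Λ g (t0.app (emb R Λ _) v) := by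
    intro X g g' hg v
    have e1 : bc Λ g' (τ'.app (emb R Λ _) v) =
        bc Λ g ((u.post (LinearMap.ker D).subtype).app (emb R Λ _) v) := by
      rw [bc_app, bc_app]
      unfold Tr.app
      refine Finset.sum_congr rfl fun a _ => ?_
      change u.φ a v • u.lam a • emb R Λ X (g' (single (u.y a) 1)) =
        u.φ a v • u.lam a • emb R Λ X (g (u.y a))
      rw [hg]
    rw [e1]
    have e2' : (u.post (LinearMap.ker D).subtype).app (emb R Λ _) v = t0.app (emb R Λ _) v := hu v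
    rw [e2']
  refine ⟨LinearMap.ker D, d2', I', τ', ?_, ?_, ?_, ?_⟩
  · apply le_antisymm
    · rintro _ ⟨w, rfl⟩
      rw [LinearMap.mem_ker]
      have h1 := Step.ext_single (d2 ∘ₗ d2') 0 (fun x => by
        rw [LinearMap.comp_apply, hd2's, (hker x).1, LinearMap.zero_apply]) w
      exact h1
    · intro ζ hζ
      rw [LinearMap.mem_ker] at hζ
      have h1 : I ζ ∈ LinearMap.range d' := by
        rw [hd', LinearMap.mem_ker, hI, hζ, map_zero]
      obtain ⟨v, hv⟩ := h1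
      have h2 : Cone.il R J2 J' ζ + Cone.ir R J2 J' v ∈ LinearMap.ker D := by
        rw [LinearMap.mem_ker, hD, Cone.dif_mk, hζ, hv, sub_self, map_zero, map_zero, add_zero]
      refine ⟨single ⟨_, h2⟩ 1, ?_⟩
      rw [hd2's, map_add, Cone.pl_il, Cone.pl_ir, add_zero]
  · intro w
    have h1 := Step.ext_single (d' ∘ₗ I') (I ∘ₗ d2') (fun x => by
      rw [LinearMap.comp_apply, LinearMap.comp_apply, hd2's, hI's, (hker x).2]) w
    exact h1
  · intro v
    have e1 : Cone.pl R J2 J' ∘ₗ Cone.il R J2 J' = LinearMap.id := LinearMap.ext Cone.pl_il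
    have e2' : Cone.pl R J2 J' ∘ₗ Cone.ir R J2 J' = 0 := LinearMap.ext Cone.pl_ir
    rw [hgen (Cone.pl R J2 J') d2' hd2's, ht0', map_add, bc_comp, bc_comp, e1, e2', Cone.bc_id,
      Cone.bc_zero, add_zero]
  · intro v
    have e1 : Cone.pr R J2 J' ∘ₗ Cone.il R J2 J' = 0 := LinearMap.ext Cone.pr_il
    have e2' : Cone.pr R J2 J' ∘ₗ Cone.ir R J2 J' = LinearMap.id := LinearMap.ext Cone.pr_ir
    rw [hgen (Cone.pr R J2 J') I' hI's, ht0', map_add, bc_comp, bc_comp, e1, e2', Cone.bc_id,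
      Cone.bc_zero, zero_add]

end Cone

end Pool.Agent.Wald
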