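import Pool.Agent.Lib.MP_8f66f0_al_Wald.TrLem

/-! # MP_8f66f0_al, Theorem W: additivity in a split exact sequence (helper91) -/

set_option autoImplicit false

namespace Pool.Agent.Wald

open Finsupp Matrix

section AddLem
variable {R Λ : Type} [Ring R] [Ring Λ] [Module R Λ] [IsScalarTower R Λ Λ]

theorem add_lemma {Z W : Type} [AddCommGroup Z] [Module R Z] [AddCommGroup W] [Module R W]
    [Module.Projective R W] {r : ℕ} (i : Z →ₗ[R] W) (d : W →ₗ[R] (Fin r →₀ R))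
    (s : (Fin r →₀ R) →ₗ[R] W) (p : W →ₗ[R] Z) (hds : ∀ x, d (s x) = x) (hpi : ∀ z, p (i z) = z)
    (hsum : ∀ w, i (p w) + s (d w) = w) (hdi : ∀ z, d (i z) = 0) (hps : ∀ x, p (s x) = 0)
    (tW : Tr R Λ W W) (tZ : Tr R Λ Z Z) (N : (Fin r →₀ R) →ₗ[R] (Fin r →₀ Λ))
    (hZ : ∀ z f, tW.ev (i z) f = tZ.ev z (f ∘ₗ i))
    (hD : ∀ w c, tW.ev w (lapply c ∘ₗ d) = N (d w) c)
    (uW : IsUnit (1 - tW.mat)) (uZ : IsUnit (1 - tZ.mat)) (uN : IsUnit (1 - matOf N))
    {K : Type} [CommGroup K] (κ : K1Fun Λ K) :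
    κ.f (1 - tW.mat) = κ.f (1 - tZ.mat) * κ.f (1 - matOf N) := by
  classical
  obtain ⟨q, f, hf⟩ := trLem_dual (R := R) (Finset.univ.image (fun a => i (tZ.y a)) ∪
    Finset.univ.image (fun a => i (p (tW.y a))))
  have hfZ : ∀ a, i (tZ.y a) = ∑ k : q, f k (i (tZ.y a)) • (k : W) := fun a =>
    hf _ (Finset.mem_union_left _ (Finset.mem_image_of_mem _ (Finset.mem_univ a)))
  have hfW : ∀ a, i (p (tW.y a)) = ∑ k : q, f k (i (p (tW.y a))) • (k : W) := fun a =>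
    hf _ (Finset.mem_union_right _ (Finset.mem_image_of_mem _ (Finset.mem_univ a)))
  -- the dual basis of `W`
  obtain ⟨F, hF⟩ : ∃ F : q ⊕ Fin r → (W →ₗ[R] R),
      F = Sum.elim (fun k => f k ∘ₗ i ∘ₗ p) fun c => lapply c ∘ₗ d := ⟨_, rfl⟩
  obtain ⟨B, hB⟩ : ∃ B : q ⊕ Fin r → W,
      B = Sum.elim (fun k : q => i (p (k : W))) fun c => s (single c 1) := ⟨_, rfl⟩
  have hdual : ∀ a, tW.y a = ∑ j, F j (tW.y a) • B j := by
    intro a
    rw [Fintype.sum_sum_type, hF, hB]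
    simp only [Sum.elim_inl, Sum.elim_inr, LinearMap.comp_apply, lapply_apply]
    have h1 : ∑ k : q, f k (i (p (tW.y a))) • i (p (k : W)) = i (p (tW.y a)) := by
      have h2 := congrArg (fun x => i (p x)) (hfW a)
      simp only [hpi, map_sum, map_smul] at h2
      exact h2.symm
    have h2 : ∑ c, (d (tW.y a)) c • s (single c 1) = s (d (tW.y a)) := by
      have h3 : d (tW.y a) = ∑ c, (d (tW.y a)) c • single c (1 : R) := by
        ext c'
        rw [Finsupp.finset_sum_apply]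
        simp [Finsupp.single_apply]
      conv_rhs => rw [h3]
      rw [map_sum]
      exact Finset.sum_congr rfl fun c _ => (map_smul _ _ _).symm
    rw [h1, h2, hsum]
  have hZdual : ∀ a, tZ.y a = ∑ k : q, (f k ∘ₗ i) (tZ.y a) • p (k : W) := by
    intro a
    have h1 := congrArg p (hfZ a)
    rw [hpi, map_sum] at h1
    refine h1.trans (Finset.sum_congr rfl fun k _ => ?_)
    rw [map_smul, LinearMap.comp_apply]
  obtain ⟨u1, e1⟩ := (sameK_ev tW F B hdual).1 uW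
  obtain ⟨u2, e2⟩ := (sameK_ev tZ (fun k => f k ∘ₗ i) (fun k : q => p (k : W)) hZdual).1 uZ
  obtain ⟨MZ, hMZ⟩ : ∃ MZ : Matrix q q Λ,
      MZ = fun k k' => tZ.ev (p ((k : q) : W)) (f k' ∘ₗ i) := ⟨_, rfl⟩
  rw [← hMZ] at u2 e2
  obtain ⟨C, hC⟩ : ∃ C : Matrix (Fin r) q Λ,
      C = fun c k' => tW.ev (s (single c 1)) (f k' ∘ₗ i ∘ₗ p) := ⟨_, rfl⟩
  have hM : (fun j j' => tW.ev (B j) (F j')) = fromBlocks MZ 0 C (matOf N) := by
    funext j j'
    rcases j with k | c <;> rcases j' with k' | c'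
    · rw [fromBlocks_apply₁₁, hMZ, hB, hF]
      simp only [Sum.elim_inl]
      rw [hZ]
      have h1 : (f k' ∘ₗ i ∘ₗ p) ∘ₗ i = f k' ∘ₗ i := by
        ext z
        simp only [LinearMap.comp_apply, hpi]
      rw [h1]
    · rw [fromBlocks_apply₁₂, hB, hF]
      simp only [Sum.elim_inl, Sum.elim_inr]
      rw [hD, hdi, map_zero]
      rfl
    · rw [fromBlocks_apply₂₁, hC, hB, hF]
      simp only [Sum.elim_inl, Sum.elim_inr]
    · rw [fromBlocks_apply₂₂, hB, hF]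
      simp only [Sum.elim_inr]
      rw [hD, hds]
      rfl
  rw [hM] at u1 e1
  have h1 : (1 : Matrix (q ⊕ Fin r) (q ⊕ Fin r) Λ) - fromBlocks MZ 0 C (matOf N) =
      fromBlocks (1 - MZ) 0 (-C) (1 - matOf N) := by
    rw [← fromBlocks_one, sub_eq_add_neg, fromBlocks_neg, fromBlocks_add, ← sub_eq_add_neg, neg_zero,
      add_zero, zero_add, ← sub_eq_add_neg]
  rw [h1] at e1
  rw [← e1 K κ, ← e2 K κ]
  exact κ.lower _ _ _ u2 uN

end AddLem

end Pool.Agent.Wald
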