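import Pool.Agent.Lib.MP_8f66f0_al_Wald.Flat

/-! # MP_8f66f0_al, Theorem W: finite rank maps into kernels (helper91) -/

set_option autoImplicit false

namespace Pool.Agent.Wald

open Finsupp Matrix

section FG
variable {R Λ : Type} [Ring R] [Ring Λ] [Module R Λ] [IsScalarTower R Λ Λ]
variable {Y : Type} [AddCommGroup Y] [Module R Y]
variable {J J' J'' : Type}

/-- Linear choice of coefficients. -/
private theorem lin_choice [Module.Projective R Y] {s s' T : ℕ} (φ : Fin s → (Y →ₗ[R] R))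
    (ρ : Matrix (Fin T) (Fin s) R) (ρ' : Matrix (Fin T) (Fin s') R)
    (h : ∀ x : Y, ∃ z : Fin T → R, Matrix.vecMul z ρ = (fun a => φ a x) ∧
      Matrix.vecMul z ρ' = 0) :
    ∃ z : Y →ₗ[R] (Fin T → R), ∀ x, Matrix.vecMul (z x) ρ = (fun a => φ a x) ∧
      Matrix.vecMul (z x) ρ' = 0 := by
  obtain ⟨F, hF⟩ : ∃ F : (Fin T → R) →ₗ[R] (Fin s → R) × (Fin s' → R),
      ∀ z, F z = (Matrix.vecMul z ρ, Matrix.vecMul z ρ') :=
    ⟨LinearMap.prod (Matrix.vecMulLinear ρ) (Matrix.vecMulLinear ρ'), fun z => rfl⟩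
  obtain ⟨Φ, hΦ⟩ : ∃ Φ : Y →ₗ[R] (Fin s → R) × (Fin s' → R), ∀ x, Φ x = (fun a => φ a x, 0) :=
    ⟨LinearMap.prod (LinearMap.pi φ) 0, fun x => rfl⟩
  have h1 : ∀ x, Φ x ∈ LinearMap.range F := fun x => by
    obtain ⟨z, hz1, hz2⟩ := h x
    exact ⟨z, by rw [hF, hΦ, hz1, hz2]⟩
  obtain ⟨z, hz⟩ := Module.projective_lifting_property F.rangeRestrict
    (Φ.codRestrict (LinearMap.range F) h1) F.surjective_rangeRestrict
  refine ⟨z, fun x => ?_⟩
  have h2 : F (z x) = Φ x := by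
    have h3 := congrArg Subtype.val (LinearMap.congr_fun hz x)
    exact h3
  rw [hF, hΦ, Prod.mk.injEq] at h2
  exact h2

theorem exists_tr_ker (hF : RFlat R Λ) (hC : C1F R Λ) [Module.Projective R Y]
    (d : (J →₀ R) →ₗ[R] (J' →₀ R)) (e : (J' →₀ R) →ₗ[R] (J'' →₀ R))
    (hd : LinearMap.range d = LinearMap.ker e) (t : Tr R Λ Y (J →₀ R))
    (ht : ∀ x, bc Λ d (t.app (emb R Λ J) x) = 0) :
    ∃ t' : Tr R Λ Y (LinearMap.ker d), ∀ x,
      t'.app (emb R Λ J ∘ₗ (LinearMap.ker d).subtype) x = t.app (emb R Λ J) x := by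
  classical
  have hed : ∀ x, e (d x) = 0 := fun x => by
    have h1 : d x ∈ LinearMap.range d := ⟨x, rfl⟩
    rw [hd] at h1
    exact h1
  obtain ⟨k, hk⟩ : ∃ k : Fin t.k → (J' →₀ Λ),
      ∀ a, k a = bc Λ d (t.lam a • emb R Λ J (t.y a)) := ⟨_, fun _ => rfl⟩
  have hk0 : ∀ a, bc Λ e (k a) = 0 := fun a => by
    rw [hk, bc_smul_emb, bc_smul_emb, hed, map_zero, smul_zero]
  obtain ⟨s', k', T, ρ, ρ', hk', hrel, hfin⟩ := hC J' J'' e t.k k hk0
  choose η hη using fun b => exists_lift hF d e hd (k' b) (hk' b)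
  obtain ⟨ζ, hζ⟩ : ∃ ζ : Fin T → (J →₀ Λ), ∀ i, ζ i =
      ∑ a, ρ i a • (t.lam a • emb R Λ J (t.y a)) + ∑ b, ρ' i b • η b := ⟨_, fun _ => rfl⟩
  have hζ0 : ∀ i, bc Λ d (ζ i) = 0 := fun i => by
    rw [hζ, map_add, map_sum, map_sum, ← hrel i]
    congr 1
    · exact Finset.sum_congr rfl fun a _ => by rw [bc_rsmul, hk]
    · exact Finset.sum_congr rfl fun b _ => by rw [bc_rsmul, hη]
  choose K l w hw hζw using fun i => exists_rep hF d (ζ i) (hζ0 i)
  obtain ⟨z, hz⟩ := lin_choice t.φ ρ ρ' fun x => hfin (fun a => t.φ a x) (by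
    rw [← ht x, Tr.app, map_sum]
    exact Finset.sum_congr rfl fun a _ => by rw [bc_rsmul, hk])
  have happ : ∀ x, t.app (emb R Λ J) x = ∑ i, z x i • ζ i := by
    intro x
    have h1 : ∀ i, z x i • ζ i = ∑ a, (z x i * ρ i a) • (t.lam a • emb R Λ J (t.y a)) +
        ∑ b, (z x i * ρ' i b) • η b := by
      intro i
      rw [hζ, smul_add, Finset.smul_sum, Finset.smul_sum]
      congr 1
      · exact Finset.sum_congr rfl fun a _ => (mul_smul _ _ _).symm
      · exact Finset.sum_congr rfl fun b _ => (mul_smul _ _ _).symm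
    rw [Finset.sum_congr rfl fun i _ => h1 i, Finset.sum_add_distrib, Finset.sum_comm,
      Finset.sum_comm (s := Finset.univ) (t := Finset.univ) (f := fun i b => (z x i * ρ' i b) • η b)]
    have h2 : ∀ b, ∑ i, (z x i * ρ' i b) • η b = 0 := by
      intro b
      rw [← Finset.sum_smul]
      have h3 : ∑ i, z x i * ρ' i b = 0 := congrFun (hz x).2 b
      rw [h3, zero_smul]
    have h4 : ∀ a, ∑ i, (z x i * ρ i a) • (t.lam a • emb R Λ J (t.y a)) =
        t.φ a x • (t.lam a • emb R Λ J (t.y a)) := by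
      intro a
      rw [← Finset.sum_smul]
      have h3 : ∑ i, z x i * ρ i a = t.φ a x := congrFun (hz x).1 a
      rw [h3]
    rw [Finset.sum_congr rfl fun b _ => h2 b, Finset.sum_const_zero, add_zero,
      Finset.sum_congr rfl fun a _ => h4 a]
    rfl
  -- the new triple
  refine ⟨⟨∑ i, K i, fun c => LinearMap.proj (finSigmaFinEquiv.symm c).1 ∘ₗ z,
    fun c => l (finSigmaFinEquiv.symm c).1 (finSigmaFinEquiv.symm c).2,
    fun c => ⟨w (finSigmaFinEquiv.symm c).1 (finSigmaFinEquiv.symm c).2, hw _ _⟩⟩, fun x => ?_⟩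
  rw [happ x]
  show ∑ c : Fin (∑ i, K i), (z x (finSigmaFinEquiv.symm c).1) •
    l (finSigmaFinEquiv.symm c).1 (finSigmaFinEquiv.symm c).2 •
      emb R Λ J (w (finSigmaFinEquiv.symm c).1 (finSigmaFinEquiv.symm c).2) = _
  rw [Equiv.sum_comp finSigmaFinEquiv.symm fun c : (i : Fin T) × Fin (K i) => z x c.1 •
    l c.1 c.2 • emb R Λ J (w c.1 c.2), Fintype.sum_sigma]
  refine Finset.sum_congr rfl fun i _ => ?_
  rw [hζw i, Finset.smul_sum]

end FG

end Pool.Agent.Wald
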