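import Pool.Agent.Lib.MP_8f66f0_al_Wald.K1Lem

/-! # MP_8f66f0_al, Theorem W: finite rank maps, the class depends only on the map (helper91) -/

set_option autoImplicit false

namespace Pool.Agent.Wald

open Finsupp Matrix

section TrLem
variable {R Λ : Type} [Ring R] [Ring Λ] [Module R Λ] [IsScalarTower R Λ Λ]
variable {Y Y' Y'' : Type} [AddCommGroup Y] [Module R Y] [AddCommGroup Y'] [Module R Y']
  [AddCommGroup Y''] [Module R Y'']

theorem trLem_io_mul (r : R) (x : Λ) : io R Λ r * x = r • x := by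
  rw [io, RingHom.smulOneHom_apply, smul_one_mul]

theorem Tr.mat_post (t : Tr R Λ Y Y') (I : Y' →ₗ[R] Y) : (t.post I).mat = (t.pre I).mat := rfl

theorem sameK_ev (t : Tr R Λ Y Y) {q : Type} [Fintype q] [DecidableEq q] (f : q → (Y →ₗ[R] R))
    (b : q → Y) (hb : ∀ a, t.y a = ∑ k, f k (t.y a) • b k) :
    SameK t.mat (fun k k' => t.ev (b k) (f k')) ∧ SameK (fun k k' => t.ev (b k) (f k')) t.mat := by
  obtain ⟨A, hA⟩ : ∃ A : Matrix (Fin t.k) q Λ, A = fun a k => t.lam a * io R Λ (f k (t.y a)) :=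
    ⟨_, rfl⟩
  obtain ⟨B, hB⟩ : ∃ B : Matrix q (Fin t.k) Λ, B = fun k c => io R Λ (t.φ c (b k)) := ⟨_, rfl⟩
  have h1 : t.mat = A * B := by
    ext a c
    rw [Matrix.mul_apply, hA, hB]
    show t.lam a * io R Λ (t.φ c (t.y a)) = _
    conv_lhs => rw [hb a]
    rw [map_sum, map_sum, Finset.mul_sum]
    refine Finset.sum_congr rfl fun k _ => ?_
    rw [map_smul, smul_eq_mul, map_mul, mul_assoc]
  have h2 : (fun k k' => t.ev (b k) (f k')) = B * A := by
    funext k k'
    rw [Matrix.mul_apply, hA, hB]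
    show ∑ a, t.φ a (b k) • (t.lam a * io R Λ (f k' (t.y a))) = _
    exact Finset.sum_congr rfl fun a _ => (trLem_io_mul _ _).symm
  rw [h1, h2]
  exact ⟨sameK_swap _ _, sameK_swap _ _⟩

/-- a finite dual basis for finitely many elements of a projective module -/
theorem trLem_dual [Module.Projective R Y] (F : Finset Y) :
    ∃ (q : Finset Y) (f : q → (Y →ₗ[R] R)), ∀ x ∈ F, x = ∑ k : q, f k x • (k : Y) := by
  classical
  obtain ⟨s, hs⟩ := (Module.projective_def (R := R) (P := Y)).1 inferInstance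
  refine ⟨F.biUnion fun x => (s x).support, fun k => lapply (k : Y) ∘ₗ s, fun x hx => ?_⟩
  have h1 : x = (s x).sum fun k r => r • k := by
    conv_lhs => rw [← hs x, Finsupp.linearCombination_apply]
    rfl
  have h2 : ((s x).sum fun k r => r • k) =
      ∑ k ∈ F.biUnion fun x => (s x).support, s x k • k := by
    refine Finsupp.sum_of_support_subset _ ?_ _ fun _ _ => zero_smul _ _
    intro k hk
    exact Finset.mem_biUnion.2 ⟨x, hx, hk⟩
  conv_lhs => rw [h1, h2]
  exact (Finset.sum_coe_sort (F.biUnion fun x => (s x).support) fun k => s x k • k).symm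

theorem sameK_of_ev [Module.Projective R Y] (t t' : Tr R Λ Y Y)
    (h : ∀ x f, t.ev x f = t'.ev x f) : SameK t.mat t'.mat := by
  classical
  obtain ⟨q, f, hf⟩ := trLem_dual (R := R) (Finset.univ.image t.y ∪ Finset.univ.image t'.y)
  have h1 := (sameK_ev t f (fun k : q => (k : Y)) fun a => hf _ (Finset.mem_union_left _
    (Finset.mem_image_of_mem _ (Finset.mem_univ a)))).1
  have h2 := (sameK_ev t' f (fun k : q => (k : Y)) fun a => hf _ (Finset.mem_union_right _
    (Finset.mem_image_of_mem _ (Finset.mem_univ a)))).2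
  have h3 : (fun k k' => t.ev ((k : q) : Y) (f k')) =
      fun k k' => t'.ev ((k : q) : Y) (f k') := by
    funext k k'
    exact h _ _
  rw [h3] at h1
  exact h1.trans h2

end TrLem

end Pool.Agent.Wald
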