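import Pool.Agent.Lib.MP_8f66f0_al_Wald.Defs
import Pool.Agent.Lib.MP_8f66f0_al_Wald.K1Lem
import Pool.Agent.Lib.MP_8f66f0_al_Wald.TrLem
import Pool.Agent.Lib.MP_8f66f0_al_Wald.AddLem
import Pool.Agent.Lib.MP_8f66f0_al_Wald.Flat
import Pool.Agent.Lib.MP_8f66f0_al_Wald.FG
import Pool.Agent.Lib.MP_8f66f0_al_Wald.Step

/-! Theorem N: assembly. -/

set_option autoImplicit false

namespace Pool.Agent.Wald

open Finsupp Matrix

section NilVan
variable {R Λ : Type} [Ring R] [Ring Λ] [Module R Λ] [IsScalarTower R Λ Λ]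

private theorem nilVan_emb_apply (J : Type) (x : J →₀ R) (j : J) :
    emb R Λ J x j = io R Λ (x j) := rfl

private theorem nilVan_io_mul (r : R) (l : Λ) : io R Λ r * l = r • l := by
  change (r • (1 : Λ)) * l = r • l
  rw [smul_mul_assoc, one_mul]

private theorem nilVan_bc_apply {J J' : Type} [Fintype J] (g : (J →₀ R) →ₗ[R] (J' →₀ R))
    (y : J →₀ Λ) (c : J') : bc Λ g y c = ∑ j, y j * io R Λ (g (single j 1) c) := by
  have h1 : bc Λ g y = ∑ j, y j • emb R Λ J' (g (single j 1)) := by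
    change Finsupp.linearCombination Λ (fun j => emb R Λ J' (g (single j 1))) y = _
    rw [Finsupp.linearCombination_apply]
    exact Finsupp.sum_fintype _ _ (fun i => zero_smul _ _)
  rw [h1, Finsupp.finsetSum_apply]
  exact Finset.sum_congr rfl fun j _ => rfl

theorem matOf_swap {r r' : ℕ} (I : (Fin r' →₀ R) →ₗ[R] (Fin r →₀ R))
    (P : (Fin r →₀ R) →ₗ[R] (Fin r' →₀ Λ)) (N : (Fin r →₀ R) →ₗ[R] (Fin r →₀ Λ))
    (N' : (Fin r' →₀ R) →ₗ[R] (Fin r' →₀ Λ)) (h : ∀ x, N x = bc Λ I (P x))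
    (h' : ∀ x, N' x = P (I x)) : SameK (matOf N) (matOf N') := by
  have h1 : matOf N = matOf P * Matrix.of (fun (a : Fin r') (b : Fin r) =>
      io R Λ (I (single a 1) b)) := by
    ext1 a b
    change N (single a 1) b = _
    rw [h, nilVan_bc_apply, Matrix.mul_apply]
    rfl
  have h2 : matOf N' = Matrix.of (fun (a : Fin r') (b : Fin r) =>
      io R Λ (I (single a 1) b)) * matOf P := by
    ext1 a b
    change N' (single a 1) b = _
    rw [h', Matrix.mul_apply]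
    have h3 : I (single a 1) = ∑ j, (I (single a 1) j) • (single j (1 : R)) := by
      refine Finsupp.ext fun j => ?_
      rw [Finsupp.finsetSum_apply]
      simp [Finsupp.single_apply]
    conv_lhs => rw [h3, map_sum]
    rw [Finsupp.finsetSum_apply]
    refine Finset.sum_congr rfl fun j _ => ?_
    rw [map_smul, Finsupp.smul_apply]
    exact (nilVan_io_mul _ _).symm
  rw [h1, h2]
  exact sameK_swap _ _

/-- The invariant of the downward induction. -/
private def NilVan_Inv {n : ℕ} (ν : (Fin n →₀ R) →ₗ[R] (Fin n →₀ Λ)) {B : Type}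
    (h : (Fin n →₀ R) →ₗ[R] (B →₀ R)) {K : Type} [CommGroup K] (κ : K1Fun Λ K) : Prop :=
  ∃ S : Stage R Λ n ν, (∀ x, h (S.e x) = 0) ∧ SameK (matOf ν) (matOf S.N) ∧
    (IsUnit (1 - S.t.mat) ∧ κ.f (1 - S.t.mat) = 1) ∧
    ∀ tz : Tr R Λ (LinearMap.ker S.d) (LinearMap.ker S.d),
      (∀ z : LinearMap.ker S.d, tz.app (emb R Λ S.J ∘ₗ (LinearMap.ker S.d).subtype) z =
        S.t.app (emb R Λ S.J) (z : S.J →₀ R)) →
      IsUnit (1 - tz.mat) ∧ κ.f (1 - tz.mat) = 1

private theorem nilVan_tr0 {Y : Type} [AddCommGroup Y] [Module R Y] {K : Type} [CommGroup K]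
    (κ : K1Fun Λ K) (t : Tr R Λ Y Y) (ht : t.mat = 0) :
    IsUnit (1 - t.mat) ∧ κ.f (1 - t.mat) = 1 := by
  rw [ht, sub_zero]
  exact ⟨isUnit_one, κ.f_one⟩

private theorem nilVan_sub {Y : Type} [AddCommGroup Y] [Module R Y] [Subsingleton Y]
    (t : Tr R Λ Y Y) : t.mat = 0 := by
  ext1 a b
  change t.lam a * io R Λ (t.φ b (t.y a)) = 0
  have h2 : t.y a = 0 := Subsingleton.elim _ _
  rw [h2, map_zero, map_zero, mul_zero]

private theorem nilVan_bc_id {n : ℕ} (y : Fin n →₀ Λ) : bc (R := R) Λ LinearMap.id y = y := by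
  refine Finsupp.ext fun c => ?_
  rw [nilVan_bc_apply]
  rw [Finset.sum_eq_single c]
  · change y c * io R Λ ((single c (1 : R)) c) = y c
    rw [Finsupp.single_eq_same, map_one, mul_one]
  · intro j _ hj
    change y j * io R Λ ((single j (1 : R)) c) = 0
    rw [Finsupp.single_apply, if_neg hj, map_zero, mul_zero]
  · intro hc
    exact absurd (Finset.mem_univ c) hc

/-- The first stage. -/
private noncomputable def nilVan_S0 {n : ℕ} (ν : (Fin n →₀ R) →ₗ[R] (Fin n →₀ Λ)) :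
    Stage R Λ n ν where
  r := n
  e := LinearMap.id
  N := ν
  hN x := nilVan_bc_id (ν x)
  J := Empty
  d := 0
  hd := by rw [LinearMap.range_zero, LinearMap.ker_id]
  t := ⟨0, fun a => a.elim0, fun a => a.elim0, fun a => a.elim0⟩
  ht w := by
    have h1 : ∀ z : Empty →₀ Λ, bc Λ (0 : (Empty →₀ R) →ₗ[R] (Fin n →₀ R)) z = 0 := by
      intro z
      have h2 : z = 0 := Subsingleton.elim _ _
      rw [h2, map_zero]
    rw [h1]
    exact (map_zero ν).symm

private theorem nilVan_base {n : ℕ} (ν : (Fin n →₀ R) →ₗ[R] (Fin n →₀ Λ)) {B : Type}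
    (h : (Fin n →₀ R) →ₗ[R] (B →₀ R)) {K : Type} [CommGroup K] (κ : K1Fun Λ K)
    (hm : ∀ x, h x = 0) : NilVan_Inv ν h κ := by
  have hJ : IsEmpty (nilVan_S0 (R := R) (Λ := Λ) ν).J := inferInstanceAs (IsEmpty Empty)
  refine ⟨nilVan_S0 ν, fun x => hm _, SameK.refl _, ?_, ?_⟩
  · exact nilVan_tr0 κ _ (nilVan_sub _)
  · intro tz _
    exact nilVan_tr0 κ _ (nilVan_sub _)

private theorem nilVan_step (hF : RFlat R Λ) (hC : C1F R Λ) (hP : PD1 R) {n : ℕ}
    (ν : (Fin n →₀ R) →ₗ[R] (Fin n →₀ Λ)) {B B' : Type}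
    (h : (Fin n →₀ R) →ₗ[R] (B →₀ R)) (h' : (Fin n →₀ R) →ₗ[R] (B' →₀ R))
    (hh : ∀ x, h x = 0 → bc Λ h' (ν x) = 0) {K : Type} [CommGroup K] (κ : K1Fun Λ K)
    (hI : NilVan_Inv ν h κ) : NilVan_Inv ν h' κ := by
  obtain ⟨S, hS, hb, ⟨hc1, hc2⟩, hd⟩ := hI
  obtain ⟨S', I, P, IW, τ, g1, g2, g3, g4, g5, g6, g7⟩ := S.step hF hC h h' hS hh
  refine ⟨S', g1, hb.trans (matOf_swap I P S.N S'.N g2 g3), ?_, ?_⟩
  · have e1 : SameK S.t.mat (τ.post IW).mat := by
      refine sameK_of_ev S.t (τ.post IW) fun x f => ev_eq_of_app _ _ x ?_ f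
      rw [← bc_app, g6]
    obtain ⟨e2, e3⟩ := e1 hc1
    rw [g7]
    exact ⟨e2, (e3 K κ).trans hc2⟩
  · intro tz' htz'
    have hZ : Module.Projective R (LinearMap.ker S.d) := hP _ _ S.e S.J S.d S.hd
    have hZ' : Module.Projective R (LinearMap.ker S'.d) := hP _ _ S'.e S'.J S'.d S'.hd
    have ht0 : ∀ z : LinearMap.ker S.d,
        bc Λ S'.d ((τ.pre (LinearMap.ker S.d).subtype).app (emb R Λ S'.J) z) = 0 := by
      intro z
      have e1 : S.d ((LinearMap.ker S.d).subtype z) = 0 := z.2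
      have e2 := g5 ((LinearMap.ker S.d).subtype z)
      rw [e1, map_zero] at e2
      exact e2
    let t0 : Tr R Λ (LinearMap.ker S.d) (S'.J →₀ R) := τ.pre (LinearMap.ker S.d).subtype
    obtain ⟨τz, hτz⟩ := exists_tr_ker hF hC S'.d S'.e S'.hd t0 ht0
    have hIW : ∀ w : LinearMap.ker S'.d,
        (IW ∘ₗ (LinearMap.ker S'.d).subtype) w ∈ LinearMap.ker S.d := by
      intro w
      have e1 := g4 ((LinearMap.ker S'.d).subtype w)
      have e2 : S'.d ((LinearMap.ker S'.d).subtype w) = 0 := w.2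
      rw [e2, map_zero] at e1
      exact e1
    let IWz : LinearMap.ker S'.d →ₗ[R] LinearMap.ker S.d :=
      (IW ∘ₗ (LinearMap.ker S'.d).subtype).codRestrict (LinearMap.ker S.d) hIW
    have e1 : SameK (τz.pre IWz).mat tz'.mat := by
      refine sameK_of_ev _ _ fun x f => ev_eq_of_app_sub hF (LinearMap.ker S'.d) _ _ x ?_ f
      rw [htz', g7]
      exact hτz (IWz x)
    have e2 := hd (τz.post IWz) (by
      intro z
      have e3 := bc_app (Λ := Λ) IW (τz.post (LinearMap.ker S'.d).subtype) z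
      have e4 : (τz.post (LinearMap.ker S'.d).subtype).app (emb R Λ S'.J) z =
          τ.app (emb R Λ S'.J) (z : S.J →₀ R) := hτz z
      rw [e4, g6] at e3
      exact e3.symm)
    obtain ⟨e5, e6⟩ := e2
    obtain ⟨e7, e8⟩ := e1 e5
    exact ⟨e7, (e8 K κ).trans e6⟩

theorem nilVanish (hF : RFlat R Λ) (hC : C1F R Λ) (hP : PD1 R) {n : ℕ}
    (ν : (Fin n →₀ R) →ₗ[R] (Fin n →₀ Λ)) (m : ℕ) (B : ℕ → Type)
    (h : ∀ i, (Fin n →₀ R) →ₗ[R] (B i →₀ R)) (h0 : ∀ x, h 0 x = 0 → x = 0) (hm : ∀ x, h m x = 0)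
    (hh : ∀ i x, h (i + 1) x = 0 → bc Λ (h i) (ν x) = 0) (hu : IsUnit (1 - matOf ν))
    {K : Type} [CommGroup K] (κ : K1Fun Λ K) : κ.f (1 - matOf ν) = 1 := by
  have hI : ∀ i ≤ m, NilVan_Inv ν (h (m - i)) κ := by
    intro i
    induction i with
    | zero => exact fun _ => nilVan_base ν _ κ hm
    | succ i ih =>
      intro hi
      refine nilVan_step hF hC hP ν (h (m - i)) (h (m - (i + 1))) ?_ κ (ih (by omega))
      have e1 : m - i = m - (i + 1) + 1 := by omega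
      rw [e1]
      exact hh (m - (i + 1))
  have hI0 := hI m le_rfl
  rw [Nat.sub_self] at hI0
  obtain ⟨S, hS, hb, ⟨hc1, hc2⟩, hd⟩ := hI0
  have he : ∀ x, S.e x = 0 := fun x => h0 _ (hS x)
  have hsurj : Function.Surjective S.d := by
    rw [← LinearMap.range_eq_top, S.hd, LinearMap.ker_eq_top]
    exact LinearMap.ext he
  obtain ⟨s, hs⟩ := Module.projective_lifting_property S.d LinearMap.id hsurj
  have hs' : ∀ x, S.d (s x) = x := fun x => LinearMap.congr_fun hs x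
  have hdk : ∀ z : LinearMap.ker S.d, S.d (z : S.J →₀ R) = 0 := fun z => z.2
  let q : (S.J →₀ R) →ₗ[R] (S.J →₀ R) := LinearMap.id - s ∘ₗ S.d
  have hp : ∀ w : S.J →₀ R, q w ∈ LinearMap.ker S.d := by
    intro w
    rw [LinearMap.mem_ker]
    change S.d (w - s (S.d w)) = 0
    rw [map_sub, hs', sub_self]
  let p : (S.J →₀ R) →ₗ[R] LinearMap.ker S.d :=
    q.codRestrict (LinearMap.ker S.d) hp
  have hZ : Module.Projective R (LinearMap.ker S.d) := hP _ _ S.e S.J S.d S.hd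
  have ht0 : ∀ z : LinearMap.ker S.d,
      bc Λ S.d ((S.t.pre (LinearMap.ker S.d).subtype).app (emb R Λ S.J) z) = 0 := by
    intro z
    have e1 : S.d ((LinearMap.ker S.d).subtype z) = 0 := z.2
    have e2 := S.ht ((LinearMap.ker S.d).subtype z)
    rw [e1, map_zero] at e2
    exact e2
  let t0 : Tr R Λ (LinearMap.ker S.d) (S.J →₀ R) := S.t.pre (LinearMap.ker S.d).subtype
  obtain ⟨tz, htz⟩ := exists_tr_ker hF hC S.d S.e S.hd t0 ht0
  obtain ⟨d1, d2⟩ := hd tz htz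
  obtain ⟨d3, d4⟩ := hb hu
  let i0 : LinearMap.ker S.d →ₗ[R] (S.J →₀ R) := (LinearMap.ker S.d).subtype
  have a1 : ∀ z, p (i0 z) = z := fun z => Subtype.ext (by
    change (z : S.J →₀ R) - s (S.d z) = z
    rw [hdk, map_zero, sub_zero])
  have a2 : ∀ w, i0 (p w) + s (S.d w) = w := fun w => by
    change (w - s (S.d w)) + s (S.d w) = w
    rw [sub_add_cancel]
  have a3 : ∀ z, S.d (i0 z) = 0 := hdk
  have a4 : ∀ x, p (s x) = 0 := fun x => Subtype.ext (by
    change s x - s (S.d (s x)) = 0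
    rw [hs', sub_self])
  let t1 : Tr R Λ (LinearMap.ker S.d) (S.J →₀ R) := S.t.pre i0
  let t2 : Tr R Λ (LinearMap.ker S.d) (S.J →₀ R) := tz.post i0
  have a5 : ∀ z f, S.t.ev (i0 z) f = tz.ev z (f ∘ₗ i0) := fun z f =>
    ev_eq_of_app t1 t2 z (htz z).symm f
  have a6 : ∀ w c, S.t.ev w (lapply c ∘ₗ S.d) = S.N (S.d w) c := fun w c => by
    rw [ev_lapply, S.ht]
  have hadd := add_lemma i0 S.d s p hs' a1 a2 a3 a4 S.t tz S.N a5 a6 hc1 d1 d3 κ
  rw [hc2, d2, one_mul, d4 K κ] at hadd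
  exact hadd.symm

end NilVan

end Pool.Agent.Wald
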