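import Pool.Agent.Lib.MP_8f66f0_al_Wald.AddLem2
import Pool.Agent.Lib.MP_8f66f0_al_Wald.Cone
import Pool.Agent.Lib.MP_8f66f0_al_Wald.NilVan

/-! Theorem N for kernels of finite projective dimension. -/

set_option autoImplicit false

namespace Pool.Agent.Wald

open Finsupp Matrix

section NilVanPd
variable {R Λ : Type} [Ring R] [Ring Λ] [Module R Λ] [IsScalarTower R Λ Λ]

/-- The `k`-th syzygy of the kernel of `d`, formed with free modules, is projective. -/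
def PdK (R : Type) [Ring R] : ℕ → ∀ {J A : Type}, ((J →₀ R) →ₗ[R] (A →₀ R)) → Prop
  | 0, _, _, d => Module.Projective R (LinearMap.ker d)
  | k + 1, J, _, d => ∀ (J' : Type) (d' : (J' →₀ R) →ₗ[R] (J →₀ R)),
      LinearMap.range d' = LinearMap.ker d → PdK R k d'

/-- The higher part of the invariant. -/
def Good {K : Type} [CommGroup K] (κ : K1Fun Λ K) :
    ℕ → ∀ {J A : Type}, ((J →₀ R) →ₗ[R] (A →₀ R)) → Tr R Λ (J →₀ R) (J →₀ R) → Prop
  | 0, J, _, d, t => ∀ tz : Tr R Λ (LinearMap.ker d) (LinearMap.ker d),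
      (∀ z : LinearMap.ker d, tz.app (emb R Λ J ∘ₗ (LinearMap.ker d).subtype) z =
        t.app (emb R Λ J) (z : J →₀ R)) → IsUnit (1 - tz.mat) ∧ κ.f (1 - tz.mat) = 1
  | k + 1, J, _, d, t => ∃ (J' : Type) (d' : (J' →₀ R) →ₗ[R] (J →₀ R))
      (t' : Tr R Λ (J' →₀ R) (J' →₀ R)), LinearMap.range d' = LinearMap.ker d ∧
      (∀ w, bc Λ d' (t'.app (emb R Λ J') w) = t.app (emb R Λ J) (d' w)) ∧
      (IsUnit (1 - t'.mat) ∧ κ.f (1 - t'.mat) = 1) ∧ Good κ k d' t'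

theorem good_step (hF : RFlat R Λ) (hC : C1F R Λ) {K : Type} [CommGroup K] (κ : K1Fun Λ K)
    (k : ℕ) : ∀ {A J C A2 J2 C2 : Type} (e : (A →₀ R) →ₗ[R] (C →₀ R))
    (d : (J →₀ R) →ₗ[R] (A →₀ R)) (_ : LinearMap.range d = LinearMap.ker e)
    (e2 : (A2 →₀ R) →ₗ[R] (C2 →₀ R)) (d2 : (J2 →₀ R) →ₗ[R] (A2 →₀ R))
    (_ : LinearMap.range d2 = LinearMap.ker e2)
    (IA : (A2 →₀ R) →ₗ[R] (A →₀ R)) (I : (J2 →₀ R) →ₗ[R] (J →₀ R))
    (_ : ∀ w, d (I w) = IA (d2 w)) (PA : (A →₀ R) →ₗ[R] (A2 →₀ Λ))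
    (t : Tr R Λ (J →₀ R) (J →₀ R)) (τ : Tr R Λ (J →₀ R) (J2 →₀ R))
    (_ : ∀ w, bc Λ d2 (τ.app (emb R Λ J2) w) = PA (d w))
    (_ : ∀ w, bc Λ I (τ.app (emb R Λ J2) w) = t.app (emb R Λ J) w)
    (_ : PdK R k d) (_ : PdK R k d2) (_ : Good κ k d t), Good κ k d2 (τ.pre I) := by
  induction k with
  | zero =>
    intro A J C A2 J2 C2 e d hd e2 d2 hd2 IA I hI PA t τ hτ hτI hp hp2 hg tz' htz'
    have hZ : Module.Projective R (LinearMap.ker d) := hp
    have hZ' : Module.Projective R (LinearMap.ker d2) := hp2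
    have ht0 : ∀ z : LinearMap.ker d,
        bc Λ d2 ((τ.pre (LinearMap.ker d).subtype).app (emb R Λ J2) z) = 0 := by
      intro z
      have e1 : d ((LinearMap.ker d).subtype z) = 0 := z.2
      have e2 := hτ ((LinearMap.ker d).subtype z)
      rw [e1, map_zero] at e2
      exact e2
    let t0 : Tr R Λ (LinearMap.ker d) (J2 →₀ R) := τ.pre (LinearMap.ker d).subtype
    obtain ⟨τz, hτz⟩ := exists_tr_ker hF hC d2 e2 hd2 t0 ht0
    have hIW : ∀ w : LinearMap.ker d2,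
        (I ∘ₗ (LinearMap.ker d2).subtype) w ∈ LinearMap.ker d := by
      intro w
      have e1 := hI ((LinearMap.ker d2).subtype w)
      have e2 : d2 ((LinearMap.ker d2).subtype w) = 0 := w.2
      rw [e2, map_zero] at e1
      exact e1
    let IWz : LinearMap.ker d2 →ₗ[R] LinearMap.ker d :=
      (I ∘ₗ (LinearMap.ker d2).subtype).codRestrict (LinearMap.ker d) hIW
    have e1 : SameK (τz.pre IWz).mat tz'.mat := by
      refine sameK_of_ev _ _ fun x f => ev_eq_of_app_sub hF (LinearMap.ker d2) _ _ x ?_ f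
      rw [htz']
      exact hτz (IWz x)
    have e2 := hg (τz.post IWz) (by
      intro z
      have e3 := bc_app (Λ := Λ) I (τz.post (LinearMap.ker d2).subtype) z
      have e4 : (τz.post (LinearMap.ker d2).subtype).app (emb R Λ J2) z =
          τ.app (emb R Λ J2) (z : J →₀ R) := hτz z
      rw [e4, hτI] at e3
      exact e3.symm)
    obtain ⟨e5, e6⟩ := e2
    obtain ⟨e7, e8⟩ := e1 e5
    exact ⟨e7, (e8 K κ).trans e6⟩
  | succ k ih =>
    intro A J C A2 J2 C2 e d hd e2 d2 hd2 IA I hI PA t τ hτ hτI hp hp2 hg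
    obtain ⟨J', d', t', hd', ht', ⟨hc1, hc2⟩, hg'⟩ := hg
    obtain ⟨J2', d2', I', τ', h1, h2, h3, h4⟩ := cone_step hF hC d e2 d2 hd2 IA I hI PA t τ hτ hτI
      d' hd' t' ht'
    obtain ⟨Q, hQ⟩ : ∃ Q : (J →₀ R) →ₗ[R] (J2 →₀ Λ), ∀ w, Q w = τ.app (emb R Λ J2) w :=
      ⟨{ toFun := fun w => τ.app (emb R Λ J2) w
         map_add' := fun x y => by
           unfold Tr.app
           rw [← Finset.sum_add_distrib]
           exact Finset.sum_congr rfl fun a _ => by rw [map_add, add_smul]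
         map_smul' := fun r x => by
           unfold Tr.app
           rw [RingHom.id_apply, Finset.smul_sum]
           exact Finset.sum_congr rfl fun a _ => by rw [map_smul, smul_assoc] },
        fun _ => rfl⟩
    have e1 : SameK t'.mat (τ'.post I').mat := by
      refine sameK_of_ev t' (τ'.post I') fun x f => ev_eq_of_app _ _ x ?_ f
      rw [← bc_app, h4]
    obtain ⟨e3, e4⟩ := e1 hc1
    refine ⟨J2', d2', τ'.pre I', h1, ?_, ?_, ?_⟩
    · intro w
      rw [app_pre, h3, h2]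
      rfl
    · exact ⟨e3, (e4 K κ).trans hc2⟩
    · exact ih d d' hd' d2 d2' h1 I I' h2 Q t' τ' (fun w => by rw [h3, hQ]) h4 (hp J' d' hd')
        (hp2 J2' d2' h1) hg'

theorem good_empty {K : Type} [CommGroup K] (κ : K1Fun Λ K) (k : ℕ) :
    ∀ {J A : Type} [IsEmpty J] (d : (J →₀ R) →ₗ[R] (A →₀ R)) (t : Tr R Λ (J →₀ R) (J →₀ R)),
      Good κ k d t := by
  have hsub : ∀ {Y : Type} [AddCommGroup Y] [Module R Y] [Subsingleton Y] (t : Tr R Λ Y Y),
      IsUnit (1 - t.mat) ∧ κ.f (1 - t.mat) = 1 := by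
    intro Y _ _ _ t
    have h1 : t.mat = 0 := by
      ext1 a b
      change t.lam a * io R Λ (t.φ b (t.y a)) = 0
      have h2 : t.y a = 0 := Subsingleton.elim _ _
      rw [h2, map_zero, map_zero, mul_zero]
    rw [h1, sub_zero]
    exact ⟨isUnit_one, κ.f_one⟩
  induction k with
  | zero =>
    intro J A _ d t tz _
    exact hsub tz
  | succ k ih =>
    intro J A _ d t
    refine ⟨J, LinearMap.id, t, ?_, ?_, hsub t, ih _ _⟩
    · rw [LinearMap.range_id]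
      exact (Subsingleton.elim _ _)
    · intro w
      exact Subsingleton.elim _ _

theorem good_split (hF : RFlat R Λ) (hC : C1F R Λ) {K : Type} [CommGroup K] (κ : K1Fun Λ K)
    (k : ℕ) : ∀ {A J C : Type} (e : (A →₀ R) →ₗ[R] (C →₀ R)) (d : (J →₀ R) →ₗ[R] (A →₀ R))
    (_ : LinearMap.range d = LinearMap.ker e) (_ : Module.Projective R (LinearMap.ker d))
    (t : Tr R Λ (J →₀ R) (J →₀ R)) (_ : Good κ k d t)
    (tz : Tr R Λ (LinearMap.ker d) (LinearMap.ker d))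
    (_ : ∀ z : LinearMap.ker d, tz.app (emb R Λ J ∘ₗ (LinearMap.ker d).subtype) z =
        t.app (emb R Λ J) (z : J →₀ R)), IsUnit (1 - tz.mat) ∧ κ.f (1 - tz.mat) = 1 := by
  induction k with
  | zero =>
    intro A J C e d hd hp t hg tz htz
    exact hg tz htz
  | succ k ih =>
    intro A J C e d hd hp t hg tz htz
    obtain ⟨J', d', t', hd', ht', ⟨hc1, hc2⟩, hg'⟩ := hg
    have hmem : ∀ w, d' w ∈ LinearMap.ker d := fun w => hd' ▸ LinearMap.mem_range_self d' w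
    obtain ⟨d'', hd''⟩ : ∃ d'' : (J' →₀ R) →ₗ[R] LinearMap.ker d, ∀ w, (d'' w : J →₀ R) = d' w :=
      ⟨d'.codRestrict (LinearMap.ker d) hmem, fun _ => rfl⟩
    have hsurj : Function.Surjective d'' := by
      rintro ⟨y, hy⟩
      have h1 : y ∈ LinearMap.range d' := by rw [hd']; exact hy
      obtain ⟨w, hw⟩ := h1
      exact ⟨w, Subtype.ext ((hd'' w).trans hw)⟩
    obtain ⟨s, hs⟩ := Module.projective_lifting_property d'' LinearMap.id hsurj
    have hs' : ∀ x, d'' (s x) = x := fun x => LinearMap.congr_fun hs x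
    have hdk : ∀ z : LinearMap.ker d', d'' (z : J' →₀ R) = 0 := fun z => Subtype.ext (by
      rw [hd'']
      exact z.2)
    have hdk' : ∀ w, d'' w = 0 → d' w = 0 := fun w hw => by
      rw [← hd'', hw]
      rfl
    obtain ⟨p, hp'⟩ : ∃ p : (J' →₀ R) →ₗ[R] LinearMap.ker d', ∀ w,
        (p w : J' →₀ R) = w - s (d'' w) :=
      ⟨(LinearMap.id - s ∘ₗ d'').codRestrict (LinearMap.ker d') fun w => by
        rw [LinearMap.mem_ker]
        apply hdk'
        rw [LinearMap.sub_apply, LinearMap.id_apply, LinearMap.comp_apply, map_sub, hs', sub_self],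
        fun _ => rfl⟩
    obtain ⟨i0, hi0⟩ : ∃ i0 : LinearMap.ker d' →ₗ[R] (J' →₀ R), i0 = (LinearMap.ker d').subtype :=
      ⟨_, rfl⟩
    have hi0' : ∀ z, i0 z = (z : J' →₀ R) := fun z => by
      rw [hi0]
      rfl
    have a1 : ∀ z, p (i0 z) = z := fun z => Subtype.ext (by
      rw [hp', hi0', hdk, map_zero, sub_zero])
    have a2 : ∀ w, i0 (p w) + s (d'' w) = w := fun w => by
      rw [hi0', hp', sub_add_cancel]
    have a3 : ∀ z, d'' (i0 z) = 0 := fun z => by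
      rw [hi0', hdk]
    have hZ : Module.Projective R (LinearMap.ker d') :=
      Module.Projective.of_split i0 p (LinearMap.ext a1)
    have e3 : t.app (emb R Λ J) 0 = 0 := by
      unfold Tr.app
      exact Finset.sum_eq_zero fun a _ => by rw [map_zero, zero_smul]
    obtain ⟨t0, ht0'⟩ : ∃ t0 : Tr R Λ (LinearMap.ker d') (J' →₀ R), t0 = t'.pre i0 := ⟨_, rfl⟩
    have ht00 : ∀ z : LinearMap.ker d', t0.app (emb R Λ J') z = t'.app (emb R Λ J') (i0 z) := by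
      intro z
      rw [ht0']
      exact app_pre _ _ _ _
    have ht0 : ∀ z : LinearMap.ker d', bc Λ d' (t0.app (emb R Λ J') z) = 0 := by
      intro z
      have e1 : d' (i0 z) = 0 := by
        rw [hi0']
        exact z.2
      rw [ht00, ht', e1, e3]
    obtain ⟨tz', htz'⟩ := exists_tr_ker hF hC d' d hd' t0 ht0
    obtain ⟨u1, u2⟩ := ih d d' hd' hZ t' hg' tz' fun z => by
      rw [htz', ht00, hi0']
    have a5 : ∀ (z : LinearMap.ker d') (f : (J' →₀ R) →ₗ[R] R),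
        t'.ev (i0 z) f = tz'.ev z (f ∘ₗ i0) := fun z f => by
      have e5 : (tz'.post i0).app (emb R Λ J') z =
          tz'.app (emb R Λ J' ∘ₗ (LinearMap.ker d').subtype) z := by
        rw [hi0]
        rfl
      have e4 := ev_eq_of_app t0 (tz'.post i0) z ((e5.trans (htz' z)).symm) f
      rw [ht0'] at e4
      exact e4
    have a6 : ∀ (w : J' →₀ R) (g : LinearMap.ker d →ₗ[R] R),
        t'.ev w (g ∘ₗ d'') = tz.ev (d'' w) g := fun w g => by
      refine ev_eq_of_app_sub hF (LinearMap.ker d) (t'.post d'') (tz.pre d'') w ?_ g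
      have e1 : (tz.pre d'').app (emb R Λ J ∘ₗ (LinearMap.ker d).subtype) w =
          t.app (emb R Λ J) (d'' w : J →₀ R) := htz (d'' w)
      rw [e1, hd'', ← ht', bc_app]
      have e2 : (LinearMap.ker d).subtype ∘ₗ d'' = d' := LinearMap.ext hd''
      rw [← e2]
      rfl
    obtain ⟨v1, v2⟩ := add_lemma2 i0 d'' s p hs' a1 a2 a3 t' tz' tz a5 a6 hc1 u1 κ
    refine ⟨v1, ?_⟩
    rw [hc2, u2, one_mul] at v2
    exact v2.symm

/-- The invariant of the downward induction. -/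
private def NilVanPd_Inv (k : ℕ) {n : ℕ} (ν : (Fin n →₀ R) →ₗ[R] (Fin n →₀ Λ)) {B : Type}
    (h : (Fin n →₀ R) →ₗ[R] (B →₀ R)) {K : Type} [CommGroup K] (κ : K1Fun Λ K) : Prop :=
  ∃ S : Stage R Λ n ν, (∀ x, h (S.e x) = 0) ∧ SameK (matOf ν) (matOf S.N) ∧
    (IsUnit (1 - S.t.mat) ∧ κ.f (1 - S.t.mat) = 1) ∧ Good κ k S.d S.t

/-- Second kernels have free syzygies which are projective from the `k`-th on. -/
def PDk (R : Type) [Ring R] (k : ℕ) : Prop :=
  ∀ (a b : ℕ) (e : (Fin a →₀ R) →ₗ[R] (Fin b →₀ R)) (J : Type)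
    (d : (J →₀ R) →ₗ[R] (Fin a →₀ R)), LinearMap.range d = LinearMap.ker e → PdK R k d

private theorem nilVanPd_id {n : ℕ} (y : Fin n →₀ Λ) : bc (R := R) Λ LinearMap.id y = y :=
  Cone.bc_id y

/-- The first stage. -/
private noncomputable def nilVanPd_S0 {n : ℕ} (ν : (Fin n →₀ R) →ₗ[R] (Fin n →₀ Λ)) :
    Stage R Λ n ν where
  r := n
  e := LinearMap.id
  N := ν
  hN x := nilVanPd_id (ν x)
  J := Empty
  d := 0
  hd := by rw [LinearMap.range_zero, LinearMap.ker_id]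
  t := ⟨0, fun a => a.elim0, fun a => a.elim0, fun a => a.elim0⟩
  ht w := by
    have h1 : ∀ z : Empty →₀ Λ, bc Λ (0 : (Empty →₀ R) →ₗ[R] (Fin n →₀ R)) z = 0 := by
      intro z
      have h2 : z = 0 := Subsingleton.elim _ _
      rw [h2, map_zero]
    rw [h1]
    exact (map_zero ν).symm

private theorem nilVanPd_base (k : ℕ) {n : ℕ} (ν : (Fin n →₀ R) →ₗ[R] (Fin n →₀ Λ)) {B : Type}
    (h : (Fin n →₀ R) →ₗ[R] (B →₀ R)) {K : Type} [CommGroup K] (κ : K1Fun Λ K)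
    (hm : ∀ x, h x = 0) : NilVanPd_Inv k ν h κ := by
  have hJ : IsEmpty (nilVanPd_S0 (R := R) (Λ := Λ) ν).J := inferInstanceAs (IsEmpty Empty)
  refine ⟨nilVanPd_S0 ν, fun x => hm _, SameK.refl _, ?_, good_empty κ k _ _⟩
  have h1 : (nilVanPd_S0 (R := R) (Λ := Λ) ν).t.mat = 0 := by
    ext1 a b
    exact a.elim0
  rw [h1, sub_zero]
  exact ⟨isUnit_one, κ.f_one⟩

private theorem nilVanPd_step (hF : RFlat R Λ) (hC : C1F R Λ) {k : ℕ} (hP : PDk R k) {n : ℕ}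
    (ν : (Fin n →₀ R) →ₗ[R] (Fin n →₀ Λ)) {B B' : Type}
    (h : (Fin n →₀ R) →ₗ[R] (B →₀ R)) (h' : (Fin n →₀ R) →ₗ[R] (B' →₀ R))
    (hh : ∀ x, h x = 0 → bc Λ h' (ν x) = 0) {K : Type} [CommGroup K] (κ : K1Fun Λ K)
    (hI : NilVanPd_Inv k ν h κ) : NilVanPd_Inv k ν h' κ := by
  obtain ⟨S, hS, hb, ⟨hc1, hc2⟩, hd⟩ := hI
  obtain ⟨S', I, P, IW, τ, g1, g2, g3, g4, g5, g6, g7⟩ := S.step hF hC h h' hS hh
  refine ⟨S', g1, hb.trans (matOf_swap I P S.N S'.N g2 g3), ?_, ?_⟩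
  · have e1 : SameK S.t.mat (τ.post IW).mat := by
      refine sameK_of_ev S.t (τ.post IW) fun x f => ev_eq_of_app _ _ x ?_ f
      rw [← bc_app, g6]
    obtain ⟨e2, e3⟩ := e1 hc1
    rw [g7]
    exact ⟨e2, (e3 K κ).trans hc2⟩
  · rw [g7]
    exact good_step hF hC κ k S.e S.d S.hd S'.e S'.d S'.hd I IW g4 P S.t τ g5 g6
      (hP _ _ S.e S.J S.d S.hd) (hP _ _ S'.e S'.J S'.d S'.hd) hd

theorem nilVanish_pd (hF : RFlat R Λ) (hC : C1F R Λ) {k : ℕ} (hP : PDk R k) {n : ℕ}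
    (ν : (Fin n →₀ R) →ₗ[R] (Fin n →₀ Λ)) (m : ℕ) (B : ℕ → Type)
    (h : ∀ i, (Fin n →₀ R) →ₗ[R] (B i →₀ R)) (h0 : ∀ x, h 0 x = 0 → x = 0) (hm : ∀ x, h m x = 0)
    (hh : ∀ i x, h (i + 1) x = 0 → bc Λ (h i) (ν x) = 0) (hu : IsUnit (1 - matOf ν))
    {K : Type} [CommGroup K] (κ : K1Fun Λ K) : κ.f (1 - matOf ν) = 1 := by
  have hI : ∀ i ≤ m, NilVanPd_Inv k ν (h (m - i)) κ := by
    intro i
    induction i with
    | zero => exact fun _ => nilVanPd_base k ν _ κ hm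
    | succ i ih =>
      intro hi
      refine nilVanPd_step hF hC hP ν (h (m - i)) (h (m - (i + 1))) ?_ κ (ih (by omega))
      have e1 : m - i = m - (i + 1) + 1 := by omega
      rw [e1]
      exact hh (m - (i + 1))
  have hI0 := hI m le_rfl
  rw [Nat.sub_self] at hI0
  obtain ⟨S, hS, hb, ⟨hc1, hc2⟩, hd⟩ := hI0
  have he : ∀ x, S.e x = 0 := fun x => h0 _ (hS x)
  have hsurj : Function.Surjective S.d := by
    rw [← LinearMap.range_eq_top, S.hd, LinearMap.ker_eq_top]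
    exact LinearMap.ext he
  obtain ⟨s, hs⟩ := Module.projective_lifting_property S.d LinearMap.id hsurj
  have hs' : ∀ x, S.d (s x) = x := fun x => LinearMap.congr_fun hs x
  obtain ⟨p, hp'⟩ : ∃ p : (S.J →₀ R) →ₗ[R] LinearMap.ker S.d, ∀ w,
      (p w : S.J →₀ R) = w - s (S.d w) :=
    ⟨(LinearMap.id - s ∘ₗ S.d).codRestrict (LinearMap.ker S.d) fun w => by
      rw [LinearMap.mem_ker, LinearMap.sub_apply, LinearMap.id_apply, LinearMap.comp_apply,
        map_sub, hs', sub_self], fun _ => rfl⟩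
  obtain ⟨i0, hi0⟩ : ∃ i0 : LinearMap.ker S.d →ₗ[R] (S.J →₀ R),
      i0 = (LinearMap.ker S.d).subtype := ⟨_, rfl⟩
  have hi0' : ∀ z, i0 z = (z : S.J →₀ R) := fun z => by
    rw [hi0]
    rfl
  have a1 : ∀ z, p (i0 z) = z := fun z => Subtype.ext (by
    have h1 : S.d (z : S.J →₀ R) = 0 := z.2
    rw [hp', hi0', h1, map_zero, sub_zero])
  have a2 : ∀ w, i0 (p w) + s (S.d w) = w := fun w => by
    rw [hi0', hp', sub_add_cancel]
  have a3 : ∀ z, S.d (i0 z) = 0 := fun z => by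
    rw [hi0']
    exact z.2
  have a4 : ∀ x, p (s x) = 0 := fun x => Subtype.ext (by
    rw [hp', hs', sub_self]
    rfl)
  have hZ : Module.Projective R (LinearMap.ker S.d) :=
    Module.Projective.of_split i0 p (LinearMap.ext a1)
  obtain ⟨t0, ht0'⟩ : ∃ t0 : Tr R Λ (LinearMap.ker S.d) (S.J →₀ R), t0 = S.t.pre i0 := ⟨_, rfl⟩
  have ht00 : ∀ z : LinearMap.ker S.d, t0.app (emb R Λ S.J) z =
      S.t.app (emb R Λ S.J) (i0 z) := by
    intro z
    rw [ht0']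
    exact app_pre _ _ _ _
  have ht0 : ∀ z : LinearMap.ker S.d, bc Λ S.d (t0.app (emb R Λ S.J) z) = 0 := by
    intro z
    rw [ht00, S.ht, a3, map_zero]
  obtain ⟨tz, htz⟩ := exists_tr_ker hF hC S.d S.e S.hd t0 ht0
  obtain ⟨d1, d2⟩ := good_split hF hC κ k S.e S.d S.hd hZ S.t hd tz fun z => by
    rw [htz, ht00, hi0']
  obtain ⟨d3, d4⟩ := hb hu
  have a5 : ∀ (z : LinearMap.ker S.d) (f : (S.J →₀ R) →ₗ[R] R),
      S.t.ev (i0 z) f = tz.ev z (f ∘ₗ i0) := fun z f => by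
    have e5 : (tz.post i0).app (emb R Λ S.J) z =
        tz.app (emb R Λ S.J ∘ₗ (LinearMap.ker S.d).subtype) z := by
      rw [hi0]
      rfl
    have e4 := ev_eq_of_app t0 (tz.post i0) z ((e5.trans (htz z)).symm) f
    rw [ht0'] at e4
    exact e4
  have a6 : ∀ w c, S.t.ev w (lapply c ∘ₗ S.d) = S.N (S.d w) c := fun w c => by
    rw [ev_lapply, S.ht]
  have hadd := add_lemma i0 S.d s p hs' a1 a2 a3 a4 S.t tz S.N a5 a6 hc1 d1 d3 κ
  rw [hc2, d2, one_mul, d4 K κ] at hadd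
  exact hadd.symm

end NilVanPd

end Pool.Agent.Wald
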