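import Pool.Agent.Lib.MP_8f66f0_al_Wald.KerP
import Pool.Agent.Lib.MP_8f66f0_al_Wald.NilVanPd

/-! Groups of finite cohomological dimension: second kernels have finite projective dimension. -/

set_option autoImplicit false

namespace Pool.Agent.Wald

open Matrix CategoryTheory TensorProduct

/-- Cohomological dimension at most `n`: the trivial module `ℤ` has projective dimension at most
`n` over `ℤE`. -/
def CdLE (n : ℕ) (E : Type) [Group E] : Prop :=
  CategoryTheory.HasProjectiveDimensionLE
    (ModuleCat.of (MonoidAlgebra ℤ E) (Representation.trivial ℤ E ℤ).asModule) n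

theorem cdLE_two {E : Type} [Group E] : CdLE 2 E ↔ CdLE2 E := Iff.rfl

theorem cdLE_succ {E : Type} [Group E] {n : ℕ} (h : CdLE n E) : CdLE (n + 1) E := by
  have h1 : HasProjectiveDimensionLT (ModuleCat.of (MonoidAlgebra ℤ E)
      (Representation.trivial ℤ E ℤ).asModule) (n + 1) := h
  exact hasProjectiveDimensionLT_of_ge _ (n + 1) _ (by omega)

private theorem PdN_sh {R : Type} [Ring R] {P M : Type} [AddCommGroup P] [Module R P]
    [AddCommGroup M] [Module R M] [Module.Projective R P] (f : P →ₗ[R] M)
    (hf : Function.Surjective f) (n : ℕ)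
    (hM : HasProjectiveDimensionLT (ModuleCat.of R M) (n + 2)) :
    HasProjectiveDimensionLT (ModuleCat.of R (LinearMap.ker f)) (n + 1) := by
  have h1 := LinearMap.shortExact_shortComplexKer hf
  have hP : Projective (ModuleCat.of R P) := (IsProjective.iff_projective P).mp inferInstance
  have h2 : HasProjectiveDimensionLT (ModuleCat.of R P) (n + 1) :=
    hasProjectiveDimensionLT_of_ge _ 1 _ (by omega)
  exact h1.hasProjectiveDimensionLT_X₁ (n + 1) h2 hM

/-- Dimension shifting for a homomorphism onto the kernel of the next one. -/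
private theorem PdN_ker {S : Type} [Ring S] {W₁ W₀ M : Type} [AddCommGroup W₁] [Module S W₁]
    [AddCommGroup W₀] [Module S W₀] [AddCommGroup M] [Module S M] [Module.Projective S W₁]
    (d : W₁ →ₗ[S] W₀) (e : W₀ →ₗ[S] M) (hde : LinearMap.range d = LinearMap.ker e) (n : ℕ)
    (hM : HasProjectiveDimensionLT (ModuleCat.of S (LinearMap.ker e)) (n + 2)) :
    HasProjectiveDimensionLT (ModuleCat.of S (LinearMap.ker d)) (n + 1) := by
  have hmem : ∀ x, d x ∈ LinearMap.ker e := by
    intro x
    rw [← hde]
    exact ⟨x, rfl⟩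
  set d' : W₁ →ₗ[S] LinearMap.ker e := d.codRestrict _ hmem with hd'
  have hsurj : Function.Surjective d' := by
    rintro ⟨y, hy⟩
    have hy' : y ∈ LinearMap.range d := by
      rw [hde]
      exact hy
    obtain ⟨x, rfl⟩ := hy'
    exact ⟨x, rfl⟩
  have h2 : HasProjectiveDimensionLT (ModuleCat.of S (LinearMap.ker d')) (n + 1) :=
    PdN_sh d' hsurj n hM
  have h4 : LinearMap.ker d' = LinearMap.ker d := LinearMap.ker_codRestrict _ _ _
  rw [h4] at h2
  exact h2

/-- One step: an exact sequence with a projective middle term. -/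
private theorem PdN_step {k E : Type} [CommRing k] [Group E] (M : Type) [AddCommGroup M]
    [Module k M] [Module (MonoidAlgebra k E) M] [IsScalarTower k (MonoidAlgebra k E) M]
    [Module.Projective k M] (n : ℕ) {K F N : Type} [AddCommGroup K]
    [Module (MonoidAlgebra ℤ E) K] [AddCommGroup F] [Module (MonoidAlgebra ℤ E) F]
    [AddCommGroup N] [Module (MonoidAlgebra ℤ E) N] [Module.Projective ℤ N]
    [Module.Projective (MonoidAlgebra ℤ E) F] [Module.Projective ℤ F]
    (i : K →ₗ[MonoidAlgebra ℤ E] F) (ε : F →ₗ[MonoidAlgebra ℤ E] N)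
    (hi : Function.Injective i) (hex : Function.Exact i ε) (hε : Function.Surjective ε)
    (ih : Module.Projective ℤ K → HasProjectiveDimensionLT
      (ModuleCat.of (MonoidAlgebra k E) (diagRep k E M K).asModule) (n + 1)) :
    HasProjectiveDimensionLT (ModuleCat.of (MonoidAlgebra k E) (diagRep k E M N).asModule)
      (n + 2) := by
  let εZ : F →ₗ[ℤ] N := ε.toAddMonoidHom.toIntLinearMap
  let iZ : K →ₗ[ℤ] F := i.toAddMonoidHom.toIntLinearMap
  -- the sequence is split over the integers
  obtain ⟨s, hs⟩ := Module.projective_lifting_property εZ LinearMap.id hε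
  have hs' : ∀ x, ε (s x) = x := fun x => LinearMap.congr_fun hs x
  have hpre : ∀ x : F, ∃ y : K, i y = x - s (ε x) := by
    intro x
    exact (hex _).1 (by rw [map_sub, hs', sub_self])
  choose r0 hr0 using hpre
  let r : F →ₗ[ℤ] K :=
    { toFun := r0
      map_add' := fun x y => hi (by
        rw [map_add i, hr0, hr0, hr0, map_add ε, map_add s]
        abel)
      map_smul' := fun c x => hi (by
        rw [RingHom.id_apply, map_zsmul i, hr0, hr0, map_zsmul ε, map_zsmul s, smul_sub]) }
  have hr : r ∘ₗ iZ = LinearMap.id := by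
    apply LinearMap.ext
    intro x
    apply hi
    show i (r0 (i x)) = i x
    have hx : ε (i x) = 0 := (hex _).2 ⟨x, rfl⟩
    rw [hr0, hx, map_zero, sub_zero]
  have hKp : Module.Projective ℤ K := Module.Projective.of_split iZ r hr
  have h1 := ih hKp
  have h2 : HasProjectiveDimensionLT (ModuleCat.of (MonoidAlgebra k E)
      (diagRep k E M F).asModule) (n + 2) := by
    have h4 := diag_projective k E M F
    have h5 : HasProjectiveDimensionLT (ModuleCat.of (MonoidAlgebra k E)
      (diagRep k E M F).asModule) 1 :=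
      projective_iff_hasProjectiveDimensionLT_one.mp ((IsProjective.iff_projective _).mp h4)
    exact hasProjectiveDimensionLT_of_ge _ 1 _ (by omega)
  obtain ⟨F1, hF1⟩ := diag_map k E M ε
  obtain ⟨F2, hF2⟩ := diag_map k E M i
  have t1 : Function.Surjective (LinearMap.lTensor M εZ) := LinearMap.lTensor_surjective M hε
  have t2 : Function.Injective (LinearMap.lTensor M iZ) := by
    have h1 : ∀ x, LinearMap.lTensor M r (LinearMap.lTensor M iZ x) = x := by
      intro x
      rw [← LinearMap.comp_apply, ← LinearMap.lTensor_comp, hr, LinearMap.lTensor_id]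
      rfl
    exact Function.LeftInverse.injective h1
  have t3 : Function.Exact (LinearMap.lTensor M iZ) (LinearMap.lTensor M εZ) :=
    lTensor_exact M hex hε
  have e1 : Function.Injective F2 := by
    intro a b hab
    obtain ⟨x, rfl⟩ := (diagRep k E M K).asModuleEquiv.symm.surjective a
    obtain ⟨y, rfl⟩ := (diagRep k E M K).asModuleEquiv.symm.surjective b
    rw [hF2, hF2] at hab
    rw [t2 ((diagRep k E M F).asModuleEquiv.symm.injective hab)]
  have e2 : Function.Exact F2 F1 := by
    intro a
    obtain ⟨x, rfl⟩ := (diagRep k E M F).asModuleEquiv.symm.surjective a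
    rw [hF1, LinearEquiv.map_eq_zero_iff]
    refine (t3 x).trans ⟨?_, ?_⟩
    · rintro ⟨y, rfl⟩
      exact ⟨(diagRep k E M K).asModuleEquiv.symm y, hF2 y⟩
    · rintro ⟨b, hb⟩
      obtain ⟨y, rfl⟩ := (diagRep k E M K).asModuleEquiv.symm.surjective b
      rw [hF2] at hb
      exact ⟨y, (diagRep k E M F).asModuleEquiv.symm.injective hb⟩
  have e3 : Function.Surjective F1 := by
    intro a
    obtain ⟨x, rfl⟩ := (diagRep k E M N).asModuleEquiv.symm.surjective a
    obtain ⟨y, rfl⟩ := t1 x
    exact ⟨(diagRep k E M F).asModuleEquiv.symm y, hF1 y⟩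
  have hse := ModuleCat.shortComplex_shortExact
    (ModuleCat.shortComplexOfCompEqZero F2 F1 (LinearMap.ext fun x => (e2 _).mpr ⟨x, rfl⟩))
    e2 e1 e3
  exact hse.hasProjectiveDimensionLT_X₃ (n + 1) h1 h2

private theorem PdN_proj {E : Type} [Group E] (P : Type) [AddCommGroup P]
    [Module (MonoidAlgebra ℤ E) P] [Module.Projective (MonoidAlgebra ℤ E) P] :
    Module.Projective ℤ P := by
  obtain ⟨s, hs⟩ := Module.projective_def.mp ‹Module.Projective (MonoidAlgebra ℤ E) P›
  have h1 : Module.Projective ℤ (P →₀ MonoidAlgebra ℤ E) := inferInstance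
  refine Module.Projective.of_split (R := ℤ) (M := P →₀ MonoidAlgebra ℤ E)
    s.toAddMonoidHom.toIntLinearMap
    (Finsupp.linearCombination (MonoidAlgebra ℤ E)
      (id : P → P)).toAddMonoidHom.toIntLinearMap ?_
  ext x
  exact hs x

/-- The diagonal tensor product does not increase the projective dimension. -/
theorem diag_pd {k E : Type} [CommRing k] [Group E] (M : Type) [AddCommGroup M] [Module k M]
    [Module (MonoidAlgebra k E) M] [IsScalarTower k (MonoidAlgebra k E) M] [Module.Projective k M]
    (n : ℕ) : ∀ (N : Type) [AddCommGroup N] [Module (MonoidAlgebra ℤ E) N]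
      [Module.Projective ℤ N],
      HasProjectiveDimensionLT (ModuleCat.of (MonoidAlgebra ℤ E) N) (n + 1) →
      HasProjectiveDimensionLT (ModuleCat.of (MonoidAlgebra k E) (diagRep k E M N).asModule)
        (n + 1) := by
  induction n with
  | zero =>
    intro N _ _ _ hN
    have h3 : Module.Projective (MonoidAlgebra ℤ E) N :=
      (IsProjective.iff_projective _).mpr (projective_iff_hasProjectiveDimensionLT_one.mpr hN)
    have h4 := diag_projective k E M N
    exact projective_iff_hasProjectiveDimensionLT_one.mp ((IsProjective.iff_projective _).mp h4)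
  | succ n ih =>
    intro N _ _ _ hN
    let ε : (N →₀ MonoidAlgebra ℤ E) →ₗ[MonoidAlgebra ℤ E] N :=
      Finsupp.linearCombination (MonoidAlgebra ℤ E) (id : N → N)
    have hε : Function.Surjective ε := fun m => ⟨Finsupp.single m 1, by simp [ε]⟩
    have hK : HasProjectiveDimensionLT (ModuleCat.of (MonoidAlgebra ℤ E) (LinearMap.ker ε))
        (n + 1) := PdN_sh ε hε n hN
    have hFZ : Module.Projective ℤ (N →₀ MonoidAlgebra ℤ E) := PdN_proj (E := E) _
    refine PdN_step M n (LinearMap.ker ε).subtype ε Subtype.val_injective ?_ hε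
      (fun hKp => ih (LinearMap.ker ε) hK)
    intro x
    constructor
    · intro hx
      exact ⟨⟨x, hx⟩, rfl⟩
    · rintro ⟨y, rfl⟩
      exact y.2

/-- A module which is projective over `k` has projective dimension at most `n` over `kE`. -/
theorem reso_n {E : Type} [Group E] (n : ℕ) (hE : CdLE n E) {k : Type} [CommRing k] (M : Type)
    [AddCommGroup M] [Module k M] [Module (MonoidAlgebra k E) M]
    [IsScalarTower k (MonoidAlgebra k E) M] [Module.Projective k M] :
    HasProjectiveDimensionLE (ModuleCat.of (MonoidAlgebra k E) M) n := by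
  obtain ⟨e, -⟩ := diag_trivial k E M
  have hTZ : Module.Projective ℤ (Representation.trivial ℤ E ℤ).asModule :=
    Module.Projective.of_equiv (Representation.trivial ℤ E ℤ).asModuleEquiv.symm
  have hT := diag_pd (k := k) (E := E) M n (Representation.trivial ℤ E ℤ).asModule hE
  exact hasProjectiveDimensionLT_of_iso e.toModuleIso (n + 1)

/-- The syzygies of a kernel of finite projective dimension. -/
theorem pdK_of_pd {R : Type} [Ring R] (n : ℕ) : ∀ {J A : Type} (d : (J →₀ R) →ₗ[R] (A →₀ R)),
    HasProjectiveDimensionLT (ModuleCat.of R (LinearMap.ker d)) (n + 1) → PdK R n d := by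
  induction n with
  | zero =>
    intro J A d hd
    exact (IsProjective.iff_projective _).mpr (projective_iff_hasProjectiveDimensionLT_one.mpr hd)
  | succ n ih =>
    intro J A d hd J' d' hd'
    exact ih d' (PdN_ker d' d hd' n hd)

theorem pdk_of_cd {E : Type} [Group E] (n : ℕ) (hE : CdLE (n + 2) E) :
    PDk (MonoidAlgebra ℤ E) n := by
  intro a b e J d hde
  have hproj : Module.Projective ℤ (LinearMap.range e) := by
    let φ : (Fin b →₀ MonoidAlgebra ℤ E) →+ (Fin b × E →₀ ℤ) :=
      (Finsupp.curryAddEquiv (α := Fin b) (β := E) (M := ℤ)).symm.toAddMonoidHom.comp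
        (Finsupp.mapRange.addMonoidHom
          (MonoidAlgebra.coeffAddEquiv (R := ℤ) (M := E)).toAddMonoidHom)
    have hφ : Function.Injective φ :=
      (Finsupp.curryAddEquiv (α := Fin b) (β := E) (M := ℤ)).symm.injective.comp
        (Finsupp.mapRange_injective _ (map_zero _)
          (MonoidAlgebra.coeffAddEquiv (R := ℤ) (M := E)).injective)
    let ψ : LinearMap.range e →ₗ[ℤ] (Fin b × E →₀ ℤ) :=
      { toFun := fun x => φ (x : Fin b →₀ MonoidAlgebra ℤ E)
        map_add' := fun x y => map_add φ _ _
        map_smul' := fun n x => map_zsmul φ n (x : Fin b →₀ MonoidAlgebra ℤ E) }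
    have hψ : Function.Injective ψ := hφ.comp Subtype.val_injective
    have h1 := int_submodule_projective (Fin b × E) (LinearMap.range ψ)
    exact Module.Projective.of_equiv (LinearEquiv.ofInjective ψ hψ).symm
  have h0 : HasProjectiveDimensionLT (ModuleCat.of (MonoidAlgebra ℤ E) (LinearMap.range e))
      (n + 3) := reso_n (n + 2) hE (k := ℤ) (LinearMap.range e)
  have h1 : HasProjectiveDimensionLT (ModuleCat.of (MonoidAlgebra ℤ E)
      (LinearMap.ker e.rangeRestrict)) (n + 2) :=
    PdN_sh e.rangeRestrict e.surjective_rangeRestrict (n + 1) h0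
  rw [LinearMap.ker_rangeRestrict e] at h1
  exact pdK_of_pd n d (PdN_ker d e hde n h1)

end Pool.Agent.Wald
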