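import Mathlib
import Pool.Agent.Lib.MP_8f66f0_al_Wald.GrDefs

/-! The path data of an amalgam. -/

set_option autoImplicit false

namespace Pool.Agent.Wald

section Paths
variable {G : Type} [Group G]

private theorem AmPath_notMem {H : Subgroup G} {a b : G} (hb : b ∈ H) (h : a ∉ H) : a * b ∉ H :=
  fun h1 => h (by simpa using H.mul_mem h1 (H.inv_mem hb))

private theorem AmPath_notMem' {H : Subgroup G} {a b : G} (hb : b ∈ H) (h : a ∉ H) : b * a ∉ H :=
  fun h1 => h (by simpa using H.mul_mem (H.inv_mem hb) h1)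

theorem AmTree.exists_path (T : AmTree G) :
    ∃ D : PathData G (T.A ⊓ T.B) Bool, D.X = T.X ∧ D.Y = T.Y := by
  -- the sets are disjoint
  have hd : ∀ u ∈ T.SB, u ∉ T.SA := fun u hu h => T.disj u h hu
  -- two elements of the same kind
  have hA : ∀ u ∈ T.A, ∀ u' ∈ T.A, ∀ g g' : G, g ∉ T.SA → g' ∉ T.SA → u * g = u' * g' →
      u⁻¹ * u' ∈ T.A ⊓ T.B := by
    intro u hu u' hu' g g' hg hg' h
    have h1 : u⁻¹ * u' ∈ T.A := T.A.mul_mem (T.A.inv_mem hu) hu'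
    refine ⟨h1, ?_⟩
    by_contra h2
    have h3 := (T.leftA _ h1 h2 g' hg').1
    rw [mul_assoc, ← h, inv_mul_cancel_left] at h3
    exact hg h3
  have hB : ∀ u ∈ T.B, ∀ u' ∈ T.B, ∀ g g' : G, g ∉ T.SB → g' ∉ T.SB → u * g = u' * g' →
      u⁻¹ * u' ∈ T.A ⊓ T.B := by
    intro u hu u' hu' g g' hg hg' h
    have h1 : u⁻¹ * u' ∈ T.B := T.B.mul_mem (T.B.inv_mem hu) hu'
    refine ⟨?_, h1⟩
    by_contra h2
    have h3 := (T.leftB _ h1 h2 g' hg').1
    rw [mul_assoc, ← h, inv_mul_cancel_left] at h3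
    exact hg h3
  refine ⟨⟨T.X, T.Y, T.len, T.len_one, ?_, ?_, ?_, ?_, ?_⟩, rfl, rfl⟩
  · rintro (_ | _)
    · exact fun h => T.disjB 1 h (T.A ⊓ T.B).one_mem
    · exact fun h => T.disjA 1 h (T.A ⊓ T.B).one_mem
  · rintro (_ | _) e he g hg
    · refine ⟨fun h => hg ?_, T.lenE e he g⟩
      have h1 := T.leftEB _ ((T.A ⊓ T.B).inv_mem he) _ h
      rwa [inv_mul_cancel_left] at h1
    · refine ⟨fun h => hg ?_, T.lenE e he g⟩
      have h1 := T.leftEA _ ((T.A ⊓ T.B).inv_mem he) _ h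
      rwa [inv_mul_cancel_left] at h1
  · rintro (_ | _) (_ | _) e he u hu
    · exact hu.elim
    · exact ⟨⟨T.A.mul_mem hu.1 he.1, AmPath_notMem he.2 hu.2⟩,
        ⟨T.A.mul_mem he.1 hu.1, AmPath_notMem' he.2 hu.2⟩⟩
    · exact ⟨⟨T.B.mul_mem hu.1 he.2, AmPath_notMem he.1 hu.2⟩,
        ⟨T.B.mul_mem he.2 hu.1, AmPath_notMem' he.1 hu.2⟩⟩
    · exact hu.elim
  · rintro (_ | _) (_ | _) u hu g hg
    · exact hu.elim
    · have h1 := T.leftA u hu.1 hu.2 g hg
      exact ⟨T.disj _ h1.1, h1.2⟩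
    · have h1 := T.leftB u hu.1 hu.2 g hg
      exact ⟨hd _ h1.1, h1.2⟩
    · exact hu.elim
  · rintro (_ | _) (_ | _) (_ | _) (_ | _) u hu g hg u' hu' g' hg' h
    · exact hu.elim
    · exact hu.elim
    · exact hu.elim
    · exact hu.elim
    · exact hu'.elim
    · exact hA u hu.1 u' hu'.1 g g' hg hg' h
    · have h1 := (T.leftA u hu.1 hu.2 g hg).1
      have h2 := (T.leftB u' hu'.1 hu'.2 g' hg').1
      rw [h] at h1
      exact (T.disj _ h1 h2).elim
    · exact hu'.elim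
    · exact hu'.elim
    · have h1 := (T.leftB u hu.1 hu.2 g hg).1
      have h2 := (T.leftA u' hu'.1 hu'.2 g' hg').1
      rw [h] at h1
      exact (T.disj _ h2 h1).elim
    · exact hB u hu.1 u' hu'.1 g g' hg hg' h
    · exact hu'.elim
    · exact hu.elim
    · exact hu.elim
    · exact hu.elim
    · exact hu.elim

/-- The tree with `A` and `B` exchanged. -/
theorem AmTree.exists_swap (T : AmTree G) :
    ∃ T' : AmTree G, T'.A = T.B ∧ T'.B = T.A ∧ T'.SA = T.SB ∧ T'.SB = T.SA ∧ T'.len = T.len := by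
  refine ⟨⟨T.B, T.A, T.SB, T.SA, T.len, ?_, ?_, ?_, ?_, ?_, ?_, ?_, ?_, T.len_one, T.leftB,
    T.leftA, T.rightA, T.rightB⟩, rfl, rfl, rfl, rfl, rfl⟩
  · rw [Set.union_comm]
    exact T.gen
  · intro g
    rcases T.cover g with h | h | h
    · exact Or.inl ⟨h.2, h.1⟩
    · exact Or.inr (Or.inr h)
    · exact Or.inr (Or.inl h)
  · exact fun g hg h => T.disj g h hg
  · exact fun g hg h => T.disjB g hg ⟨h.2, h.1⟩
  · exact fun g hg h => T.disjA g hg ⟨h.2, h.1⟩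
  · exact fun e he => T.leftEB e ⟨he.2, he.1⟩
  · exact fun e he => T.leftEA e ⟨he.2, he.1⟩
  · exact fun e he => T.lenE e ⟨he.2, he.1⟩

end Paths

end Pool.Agent.Wald
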