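import Pool.Agent.Lib.MP_8f66f0_al_Wald.TrLem

/-! Additivity in a split exact sequence, three modules. -/

set_option autoImplicit false

namespace Pool.Agent.Wald

open Finsupp Matrix

section AddLem2
variable {R Λ : Type} [Ring R] [Ring Λ] [Module R Λ] [IsScalarTower R Λ Λ]

/-- If a lower triangular block matrix and its first diagonal block are invertible, so is the
second diagonal block. -/
private theorem addLem2_unit {n m : Type} [Fintype n] [DecidableEq n] [Fintype m] [DecidableEq m]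
    (A : Matrix n n Λ) (C : Matrix m n Λ) (D : Matrix m m Λ) (h : IsUnit (fromBlocks A 0 C D))
    (hA : IsUnit A) : IsUnit D := by
  have h1 : fromBlocks A 0 C D = fromBlocks A 0 C 1 * fromBlocks 1 0 0 D := by
    rw [fromBlocks_multiply]
    simp
  have h2 : IsUnit (fromBlocks A 0 C (1 : Matrix m m Λ)) := K1Fun.isUnit_lower C hA isUnit_one
  rw [h1] at h
  have h3 : IsUnit (fromBlocks (1 : Matrix n n Λ) 0 0 D) := by
    obtain ⟨u, hu⟩ := h2
    rw [← hu] at h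
    exact (Units.isUnit_units_mul u _).1 h
  obtain ⟨v, hv⟩ := h3
  have e1 : fromBlocks (1 : Matrix n n Λ) 0 0 D * ((v⁻¹ : (Matrix (n ⊕ m) (n ⊕ m) Λ)ˣ) :
      Matrix (n ⊕ m) (n ⊕ m) Λ) = 1 := by rw [← hv]; exact v.mul_inv
  have e2 : ((v⁻¹ : (Matrix (n ⊕ m) (n ⊕ m) Λ)ˣ) :
      Matrix (n ⊕ m) (n ⊕ m) Λ) * fromBlocks (1 : Matrix n n Λ) 0 0 D = 1 := by
    rw [← hv]; exact v.inv_mul
  obtain ⟨V, hV⟩ : ∃ V : Matrix (n ⊕ m) (n ⊕ m) Λ,
    V = ((v⁻¹ : (Matrix (n ⊕ m) (n ⊕ m) Λ)ˣ) : Matrix (n ⊕ m) (n ⊕ m) Λ) := ⟨_, rfl⟩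
  rw [← hV] at e1 e2
  rw [← fromBlocks_toBlocks V, fromBlocks_multiply, ← fromBlocks_one, fromBlocks_inj] at e1 e2
  refine ⟨⟨D, V.toBlocks₂₂, ?_, ?_⟩, rfl⟩
  · have := e1.2.2.2
    simpa using this
  · have := e2.2.2.2
    simpa using this

theorem add_lemma2 {Z W Y : Type} [AddCommGroup Z] [Module R Z] [AddCommGroup W] [Module R W]
    [AddCommGroup Y] [Module R Y] [Module.Projective R W] [Module.Projective R Y]
    (i : Z →ₗ[R] W) (d : W →ₗ[R] Y)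
    (s : Y →ₗ[R] W) (p : W →ₗ[R] Z) (hds : ∀ x, d (s x) = x) (hpi : ∀ z, p (i z) = z)
    (hsum : ∀ w, i (p w) + s (d w) = w) (hdi : ∀ z, d (i z) = 0)
    (tW : Tr R Λ W W) (tZ : Tr R Λ Z Z) (tY : Tr R Λ Y Y)
    (hZ : ∀ z f, tW.ev (i z) f = tZ.ev z (f ∘ₗ i))
    (hY : ∀ w g, tW.ev w (g ∘ₗ d) = tY.ev (d w) g)
    (uW : IsUnit (1 - tW.mat)) (uZ : IsUnit (1 - tZ.mat))
    {K : Type} [CommGroup K] (κ : K1Fun Λ K) :
    IsUnit (1 - tY.mat) ∧ κ.f (1 - tW.mat) = κ.f (1 - tZ.mat) * κ.f (1 - tY.mat) := by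
  classical
  obtain ⟨q, f, hf⟩ := trLem_dual (R := R) (Finset.univ.image (fun a => i (tZ.y a)) ∪
    Finset.univ.image (fun a => i (p (tW.y a))))
  obtain ⟨q', g, hg⟩ := trLem_dual (R := R) (Finset.univ.image (fun a => tY.y a) ∪
    Finset.univ.image (fun a => d (tW.y a)))
  have hfZ : ∀ a, i (tZ.y a) = ∑ k : q, f k (i (tZ.y a)) • (k : W) := fun a =>
    hf _ (Finset.mem_union_left _ (Finset.mem_image_of_mem _ (Finset.mem_univ a)))
  have hfW : ∀ a, i (p (tW.y a)) = ∑ k : q, f k (i (p (tW.y a))) • (k : W) := fun a =>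
    hf _ (Finset.mem_union_right _ (Finset.mem_image_of_mem _ (Finset.mem_univ a)))
  have hgY : ∀ a, tY.y a = ∑ k : q', g k (tY.y a) • (k : Y) := fun a =>
    hg _ (Finset.mem_union_left _ (Finset.mem_image_of_mem _ (Finset.mem_univ a)))
  have hgW : ∀ a, d (tW.y a) = ∑ k : q', g k (d (tW.y a)) • (k : Y) := fun a =>
    hg _ (Finset.mem_union_right _ (Finset.mem_image_of_mem _ (Finset.mem_univ a)))
  -- the dual basis of `W`
  obtain ⟨F, hF⟩ : ∃ F : q ⊕ q' → (W →ₗ[R] R),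
      F = Sum.elim (fun k => f k ∘ₗ i ∘ₗ p) fun c => g c ∘ₗ d := ⟨_, rfl⟩
  obtain ⟨B, hB⟩ : ∃ B : q ⊕ q' → W,
      B = Sum.elim (fun k : q => i (p (k : W))) fun c : q' => s (c : Y) := ⟨_, rfl⟩
  have hdual : ∀ a, tW.y a = ∑ j, F j (tW.y a) • B j := by
    intro a
    rw [Fintype.sum_sum_type, hF, hB]
    simp only [Sum.elim_inl, Sum.elim_inr, LinearMap.comp_apply]
    have h1 : ∑ k : q, f k (i (p (tW.y a))) • i (p (k : W)) = i (p (tW.y a)) := by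
      have h2 := congrArg (fun x => i (p x)) (hfW a)
      simp only [hpi, map_sum, map_smul] at h2
      exact h2.symm
    have h2 : ∑ c : q', g c (d (tW.y a)) • s (c : Y) = s (d (tW.y a)) := by
      conv_rhs => rw [hgW a]
      rw [map_sum]
      exact Finset.sum_congr rfl fun c _ => (map_smul _ _ _).symm
    rw [h1, h2, hsum]
  have hZdual : ∀ a, tZ.y a = ∑ k : q, (f k ∘ₗ i) (tZ.y a) • p (k : W) := by
    intro a
    have h1 := congrArg p (hfZ a)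
    rw [hpi, map_sum] at h1
    refine h1.trans (Finset.sum_congr rfl fun k _ => ?_)
    rw [map_smul, LinearMap.comp_apply]
  obtain ⟨u1, e1⟩ := (sameK_ev tW F B hdual).1 uW
  obtain ⟨u2, e2⟩ := (sameK_ev tZ (fun k => f k ∘ₗ i) (fun k : q => p (k : W)) hZdual).1 uZ
  have hYb := (sameK_ev tY g (fun k : q' => (k : Y)) hgY).2
  obtain ⟨MZ, hMZ⟩ : ∃ MZ : Matrix q q Λ,
      MZ = fun k k' => tZ.ev (p ((k : q) : W)) (f k' ∘ₗ i) := ⟨_, rfl⟩
  obtain ⟨MY, hMY⟩ : ∃ MY : Matrix q' q' Λ,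
      MY = fun k k' => tY.ev ((k : q') : Y) (g k') := ⟨_, rfl⟩
  rw [← hMZ] at u2 e2
  rw [← hMY] at hYb
  obtain ⟨C, hC⟩ : ∃ C : Matrix q' q Λ,
      C = fun c k' => tW.ev (s ((c : q') : Y)) (f k' ∘ₗ i ∘ₗ p) := ⟨_, rfl⟩
  have hM : (fun j j' => tW.ev (B j) (F j')) = fromBlocks MZ 0 C MY := by
    funext j j'
    rcases j with k | c <;> rcases j' with k' | c'
    · rw [fromBlocks_apply₁₁, hMZ, hB, hF]
      simp only [Sum.elim_inl]
      rw [hZ]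
      have h1 : (f k' ∘ₗ i ∘ₗ p) ∘ₗ i = f k' ∘ₗ i := by
        ext z
        simp only [LinearMap.comp_apply, hpi]
      rw [h1]
    · rw [fromBlocks_apply₁₂, hB, hF]
      simp only [Sum.elim_inl, Sum.elim_inr]
      rw [hY, hdi]
      simp [Tr.ev]
    · rw [fromBlocks_apply₂₁, hC, hB, hF]
      simp only [Sum.elim_inl, Sum.elim_inr]
    · rw [fromBlocks_apply₂₂, hB, hF]
      simp only [Sum.elim_inr]
      rw [hY, hds, hMY]
  rw [hM] at u1 e1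
  have h1 : (1 : Matrix (q ⊕ q') (q ⊕ q') Λ) - fromBlocks MZ 0 C MY =
      fromBlocks (1 - MZ) 0 (-C) (1 - MY) := by
    rw [← fromBlocks_one, sub_eq_add_neg, fromBlocks_neg, fromBlocks_add, ← sub_eq_add_neg, neg_zero,
      add_zero, zero_add, ← sub_eq_add_neg]
  rw [h1] at u1 e1
  have u3 : IsUnit (1 - MY) := addLem2_unit _ _ _ u1 u2
  obtain ⟨u4, e4⟩ := hYb u3
  refine ⟨u4, ?_⟩
  rw [← e1 K κ, ← e2 K κ, e4 K κ]
  exact κ.lower _ _ _ u2 u3

end AddLem2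

end Pool.Agent.Wald
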