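import Pool.Agent.Lib.MP_8f66f0_al_Wald.Supp

/-! Amalgamated products: the idempotents and the supports. -/

set_option autoImplicit false

namespace Pool.Agent.Wald

open Matrix

section Paths

variable {G : Type} [Group G]

/-- The properties of the sets of reduced words (symmetric in `A` and `B`). -/
private structure AmCoreS (E A B : Subgroup G) (SA SB : Set G) : Prop where
  EA : E ≤ A
  EB : E ≤ B
  sA : ∀ g ∈ SA, ∀ b ∈ B, g * b ∈ SA
  sB : ∀ g ∈ SB, ∀ a ∈ A, g * a ∈ SB
  cov : ∀ g, g ∈ E ∨ g ∈ SA ∨ g ∈ SB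
  dis : ∀ g ∈ SA, g ∉ SB
  disA : ∀ g ∈ SA, g ∉ B
  disB : ∀ g ∈ SB, g ∉ A

private theorem AmCoreS.symm {E A B : Subgroup G} {SA SB : Set G} (h : AmCoreS E A B SA SB) :
    AmCoreS E B A SB SA where
  EA := h.EB
  EB := h.EA
  sA := h.sB
  sB := h.sA
  cov g := by
    rcases h.cov g with h1 | h1 | h1
    · exact Or.inl h1
    · exact Or.inr (Or.inr h1)
    · exact Or.inr (Or.inl h1)
  dis g hg hg' := h.dis g hg' hg
  disA := h.disB
  disB := h.disA

private theorem AmCoreS.sB' {E A B : Subgroup G} {SA SB : Set G} (h : AmCoreS E A B SA SB) :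
    ∀ g ∉ SB, ∀ a ∈ A, g * a ∉ SB := by
  intro g hg a ha hc
  apply hg
  have := h.sB _ hc a⁻¹ (A.inv_mem ha)
  rwa [mul_inv_cancel_right] at this

private theorem AmCoreS.disE {E A B : Subgroup G} {SA SB : Set G} (h : AmCoreS E A B SA SB) :
    Disjoint (E : Set G) SB := by
  rw [Set.disjoint_left]
  intro g hg hg'
  exact h.disB g hg' (h.EA hg)

private theorem AmCoreS.compl {E A B : Subgroup G} {SA SB : Set G} (h : AmCoreS E A B SA SB) :
    SAᶜ = (E : Set G) ∪ SB := by
  ext g
  constructor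
  · intro hg
    rcases h.cov g with h1 | h1 | h1
    · exact Or.inl h1
    · exact absurd h1 hg
    · exact Or.inr h1
  · rintro (hg | hg) hc
    · exact h.disA g hc (h.EB hg)
    · exact h.dis g hc hg

private theorem AmTree.coreS (T : AmTree G) : AmCoreS (T.A ⊓ T.B) T.A T.B T.SA T.SB where
  EA := inf_le_left
  EB := inf_le_right
  sA := T.rightB
  sB := T.rightA
  cov := T.cover
  dis := T.disj
  disA g hg hgB := by
    have h1 : (1 : G) ∉ T.SB := fun h => T.disjB 1 h (one_mem _)
    by_cases hA : g ∈ T.A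
    · exact T.disjA g hg ⟨hA, hgB⟩
    · have := (T.leftB g hgB hA 1 h1).1
      rw [mul_one] at this
      exact T.disj g hg this
  disB g hg hgA := by
    have h1 : (1 : G) ∉ T.SA := fun h => T.disjA 1 h (one_mem _)
    by_cases hB : g ∈ T.B
    · exact T.disjB g hg ⟨hgA, hB⟩
    · have := (T.leftA g hgA hB 1 h1).1
      rw [mul_one] at this
      exact T.disj g this hg

variable {I nA nB : Type} [Fintype I] [DecidableEq I] [Fintype nA] [DecidableEq nA] [Fintype nB]
  [DecidableEq nB]

/-- The matrices (symmetric in `A` and `B`). -/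
private structure AmCoreM (A B : Subgroup G) (a : Matrix I nA (MonoidAlgebra ℤ G))
    (b : Matrix I nB (MonoidAlgebra ℤ G)) (a' : Matrix nA I (MonoidAlgebra ℤ G))
    (b' : Matrix nB I (MonoidAlgebra ℤ G)) : Prop where
  ha : MSupp (A : Set G) a
  hb : MSupp (B : Set G) b
  sum : a * a' + b * b' = 1
  aa : a' * a = 1
  ab : a' * b = 0
  ba : b' * a = 0
  bb : b' * b = 1

private theorem AmCoreM.symm {A B : Subgroup G} {a : Matrix I nA (MonoidAlgebra ℤ G)}
    {b : Matrix I nB (MonoidAlgebra ℤ G)} {a' : Matrix nA I (MonoidAlgebra ℤ G)}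
    {b' : Matrix nB I (MonoidAlgebra ℤ G)} (h : AmCoreM A B a b a' b') :
    AmCoreM B A b a b' a' where
  ha := h.hb
  hb := h.ha
  sum := by rw [add_comm]; exact h.sum
  aa := h.bb
  ab := h.ba
  ba := h.ab
  bb := h.aa

variable {E A B : Subgroup G} {SA SB : Set G} {a : Matrix I nA (MonoidAlgebra ℤ G)}
    {b : Matrix I nB (MonoidAlgebra ℤ G)} {a' : Matrix nA I (MonoidAlgebra ℤ G)}
    {b' : Matrix nB I (MonoidAlgebra ℤ G)}

private theorem amCore_Eset (E : Subgroup G) : ∀ g ∈ (E : Set G), ∀ e ∈ (E : Set G), g * e ∈ (E : Set G) :=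
  fun _ hg _ he => E.mul_mem hg he

private theorem amCore_Eset' (E : Subgroup G) : ∀ e ∈ (E : Set G), ∀ g ∉ (E : Set G), e * g ∉ (E : Set G) := by
  intro e he g hg hc
  apply hg
  have := E.mul_mem (E.inv_mem he) hc
  rwa [inv_mul_cancel_left] at this

private theorem amCore_mul (h : AmCoreS E A B SA SB) (D : AmCoreM A B a b a' b') :
    mrs (E : Set G) (a * a') * mrs (E : Set G) (b * b') = 0 := by
  set y := a * a' with hy
  have hya : y * a = a := by rw [hy, Matrix.mul_assoc, D.aa, Matrix.mul_one]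
  have hyb : y * b = 0 := by rw [hy, Matrix.mul_assoc, D.ab, Matrix.mul_zero]
  have h1 : mrs SB y * a = 0 := by
    rw [← mrs_mul_right (S := SB) (S' := SB) D.ha h.sB h.sB', hya]
    refine mrs_eq_zero D.ha ?_
    rw [Set.disjoint_left]
    exact h.disB
  have h2 : (mrs (E : Set G) y + mrs SB y) * b = 0 := by
    rw [← mrs_union h.disE, ← h.compl,
      ← mrs_mul_right (S := SAᶜ) (S' := SAᶜ) D.hb h.symm.sB' ?_, hyb]
    · ext i j
      simp [mrs]
    · intro g hg c hc
      rw [Set.mem_compl_iff, not_not] at hg ⊢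
      exact h.sA g hg c hc
  have h3 : mrs SB y * b = -(mrs (E : Set G) y * b) := by
    rw [Matrix.add_mul] at h2
    exact (neg_eq_of_add_eq_zero_right h2).symm
  have h4 : mrs SB y = -(mrs (E : Set G) y * (b * b')) := by
    calc mrs SB y = mrs SB y * (a * a' + b * b') := by rw [D.sum, Matrix.mul_one]
      _ = (mrs SB y * a) * a' + (mrs SB y * b) * b' := by
        rw [Matrix.mul_add, Matrix.mul_assoc, Matrix.mul_assoc]
      _ = _ := by
        rw [h1, h3, Matrix.zero_mul, zero_add, Matrix.neg_mul, Matrix.mul_assoc]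
  have h5 : mrs (E : Set G) (mrs (E : Set G) y * (b * b')) =
      mrs (E : Set G) y * mrs (E : Set G) (b * b') :=
    mrs_mul_left (mrs_supp _ _) (amCore_Eset E) (amCore_Eset' E)
  have h6 : mrs (E : Set G) (mrs SB y) = 0 := by
    refine mrs_eq_zero (mrs_supp _ _) h.disE
  rw [← h5]
  have h7 : mrs (E : Set G) y * (b * b') = -mrs SB y := by rw [h4, neg_neg]
  rw [h7]
  have h8 : mrs (E : Set G) (mrs SB y + -mrs SB y) = 0 := by
    rw [add_neg_cancel]
    ext i j
    simp [mrs]
  rw [mrs_add, h6, zero_add] at h8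
  exact h8

private theorem amCore_rows (h : AmCoreS E A B SA SB) (D : AmCoreM A B a b a' b') {l : Type}
    (u : Matrix l I (MonoidAlgebra ℤ G)) (hu : MSupp (E : Set G) u)
    (h0 : u * mrs (E : Set G) (b * b') = 0) : MSupp SB (u * (b * b')) := by
  set z := u * (b * b') with hz
  have hza : z * a = 0 := by
    rw [hz, Matrix.mul_assoc, Matrix.mul_assoc, D.ba, Matrix.mul_zero, Matrix.mul_zero]
  have hzb : z * b = u * b := by
    rw [hz, Matrix.mul_assoc, Matrix.mul_assoc, D.bb, Matrix.mul_one]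
  have hE : mrs (E : Set G) z = 0 := by
    rw [hz, mrs_mul_left hu (amCore_Eset E) (amCore_Eset' E), h0]
  have h1 : mrs SA z * b = 0 := by
    rw [← mrs_mul_right (S := SA) (S' := SA) D.hb h.sA h.symm.sB', hzb]
    refine mrs_eq_zero (T := (B : Set G)) (hu.mul D.hb ?_) ?_
    · intro s hs t ht
      exact B.mul_mem (h.EB hs) ht
    · rw [Set.disjoint_left]
      exact h.disA
  have h2 : mrs SA z * a = 0 := by
    have h3 : mrs SBᶜ z = mrs SA z := by
      rw [h.symm.compl, mrs_union h.symm.disE, hE, zero_add]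
    rw [← h3, ← mrs_mul_right (S := SBᶜ) (S' := SBᶜ) D.ha h.sB' ?_, hza]
    · ext i j
      simp [mrs]
    · intro g hg c hc
      rw [Set.mem_compl_iff, not_not] at hg ⊢
      exact h.sB g hg c hc
  have h4 : mrs SA z = 0 := by
    calc mrs SA z = mrs SA z * (a * a' + b * b') := by rw [D.sum, Matrix.mul_one]
      _ = (mrs SA z * a) * a' + (mrs SA z * b) * b' := by
        rw [Matrix.mul_add, Matrix.mul_assoc, Matrix.mul_assoc]
      _ = 0 := by rw [h1, h2, Matrix.zero_mul, Matrix.zero_mul, add_zero]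
  have h5 : z = mrs SB z := by
    conv_lhs => rw [← mrs_add_compl SA z, h.compl, mrs_union h.disE, h4, hE, zero_add, zero_add]
  rw [h5]
  exact mrs_supp _ _

private theorem amCore_star (h : AmCoreS E A B SA SB) (D : AmCoreM A B a b a' b') :
    mrs (A : Set G) a' * mrs (E : Set G) (b * b') = 0 := by
  -- the left cosets of E in A
  have key : ∀ g ∈ A, mrs {x | g⁻¹ * x ∈ E} a' * mrs (E : Set G) (b * b') = 0 := by
    intro g hg
    set u := mrs {x | g⁻¹ * x ∈ E} a' with hu
    set z := mrs {x | g⁻¹ * x ∈ SB} a' with hz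
    have hza : z * a = 0 := by
      rw [hz, ← mrs_mul_right (S := {x | g⁻¹ * x ∈ SB}) (S' := {x | g⁻¹ * x ∈ SB}) D.ha ?_ ?_,
        D.aa]
      · have h1 : MSupp ((E : Set G)) (1 : Matrix nA nA (MonoidAlgebra ℤ G)) := by
          have := mrs_supp (E : Set G) (1 : Matrix nA nA (MonoidAlgebra ℤ G))
          rwa [mrs_one_of_mem (one_mem E)] at this
        have h2 : MSupp ({1} : Set G) (1 : Matrix nA nA (MonoidAlgebra ℤ G)) := by
          have := mrs_supp ({1} : Set G) (1 : Matrix nA nA (MonoidAlgebra ℤ G))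
          rwa [mrs_one_of_mem (Set.mem_singleton _)] at this
        refine mrs_eq_zero h2 ?_
        rw [Set.disjoint_singleton_right]
        intro hc
        change g⁻¹ * 1 ∈ SB at hc
        rw [mul_one] at hc
        exact h.disB _ hc (A.inv_mem hg)
      · intro x hx c hc
        change g⁻¹ * (x * c) ∈ SB
        rw [← mul_assoc]
        exact h.sB _ hx c hc
      · intro x hx c hc
        change ¬ (g⁻¹ * (x * c) ∈ SB)
        rw [← mul_assoc]
        exact h.sB' _ hx c hc
    have hzb : (u + z) * b = 0 := by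
      have h1 : u + z = mrs {x | g⁻¹ * x ∉ SA} a' := by
        rw [hu, hz, ← mrs_union]
        · congr 1
          ext x
          have h2 := Set.ext_iff.mp h.compl (g⁻¹ * x)
          exact h2.symm
        · rw [Set.disjoint_left]
          intro x hx hx'
          exact Set.disjoint_left.mp h.disE hx hx'
      rw [h1, ← mrs_mul_right (S := {x | g⁻¹ * x ∉ SA}) (S' := {x | g⁻¹ * x ∉ SA}) D.hb ?_ ?_,
        D.ab]
      · ext i j
        simp [mrs]
      · intro x hx c hc
        change ¬ (g⁻¹ * (x * c) ∈ SA)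
        rw [← mul_assoc]
        exact h.symm.sB' _ hx c hc
      · intro x hx c hc
        change ¬ ¬ (g⁻¹ * (x * c) ∈ SA)
        rw [← mul_assoc, not_not]
        refine h.sA _ ?_ c hc
        by_contra hc'
        exact hx hc'
    have h3 : z * b = -(u * b) := by
      rw [Matrix.add_mul] at hzb
      exact (neg_eq_of_add_eq_zero_right hzb).symm
    have h4 : z = -(u * (b * b')) := by
      calc z = z * (a * a' + b * b') := by rw [D.sum, Matrix.mul_one]
        _ = (z * a) * a' + (z * b) * b' := by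
          rw [Matrix.mul_add, Matrix.mul_assoc, Matrix.mul_assoc]
        _ = _ := by
          rw [hza, h3, Matrix.zero_mul, zero_add, Matrix.neg_mul, Matrix.mul_assoc]
    have h5 : mrs {x | g⁻¹ * x ∈ E} (u * (b * b')) = u * mrs (E : Set G) (b * b') := by
      refine mrs_mul_left (T := {x | g⁻¹ * x ∈ E}) (mrs_supp _ _) ?_ ?_
      · intro x hx c hc
        change g⁻¹ * (x * c) ∈ E
        rw [← mul_assoc]
        exact E.mul_mem hx hc
      · intro x hx c hc
        change ¬ (g⁻¹ * (x * c) ∈ E)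
        rw [← mul_assoc]
        exact amCore_Eset' E _ hx c hc
    have h6 : mrs {x | g⁻¹ * x ∈ E} z = 0 := by
      refine mrs_eq_zero (mrs_supp _ _) ?_
      rw [Set.disjoint_left]
      intro x hx hx'
      exact Set.disjoint_left.mp h.disE hx hx'
    have h7 : u * (b * b') = -z := by rw [h4, neg_neg]
    rw [← h5, h7]
    have h8 : mrs {x | g⁻¹ * x ∈ E} (z + -z) = 0 := by
      rw [add_neg_cancel]
      ext i j
      simp [mrs]
    rw [mrs_add, h6, zero_add] at h8
    exact h8
  -- assembly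
  have key2 : ∀ g, mrs {x | g⁻¹ * x ∈ E} (mrs (A : Set G) a' * mrs (E : Set G) (b * b')) = 0 := by
    intro g
    rw [mrs_mul_right (S := {x | g⁻¹ * x ∈ E}) (T := (E : Set G)) (mrs_supp _ _), mrs_mrs]
    · by_cases hg : g ∈ A
      · have h1 : {x | g⁻¹ * x ∈ E} ∩ (A : Set G) = {x | g⁻¹ * x ∈ E} := by
          rw [Set.inter_eq_left]
          intro x hx
          have := A.mul_mem hg (h.EA hx)
          rwa [mul_inv_cancel_left] at this
        rw [h1]
        exact key g hg
      · have h1 : {x | g⁻¹ * x ∈ E} ∩ (A : Set G) = ∅ := by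
          rw [Set.eq_empty_iff_forall_notMem]
          rintro x ⟨hx, hx'⟩
          apply hg
          have h2 : (g⁻¹ * x)⁻¹ ∈ A := A.inv_mem (h.EA hx)
          have h3 := A.mul_mem hx' h2
          have h4 : x * (g⁻¹ * x)⁻¹ = g := by group
          rwa [h4] at h3
        rw [h1]
        have h2 : mrs (∅ : Set G) a' = 0 :=
          mrs_eq_zero (T := Set.univ) (fun i j x hx => absurd (Set.mem_univ x) hx)
            (Set.disjoint_left.mpr fun x hx => absurd hx (Set.notMem_empty x))
        rw [h2, Matrix.zero_mul]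
    · intro x hx c hc
      change g⁻¹ * (x * c) ∈ E
      rw [← mul_assoc]
      exact E.mul_mem hx hc
    · intro x hx c hc hcc
      apply hx
      change g⁻¹ * (x * c) ∈ E at hcc
      have := E.mul_mem hcc (E.inv_mem hc)
      rw [← mul_assoc, mul_inv_cancel_right] at this
      exact this
  ext i j g
  have h1 := congrFun (congrFun (key2 g) i) j
  have h2 := congrArg (fun x : MonoidAlgebra ℤ G => x.coeff g) h1
  have h3 : g ∈ {x | g⁻¹ * x ∈ E} := by
    change g⁻¹ * g ∈ E
    rw [inv_mul_cancel]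
    exact one_mem E
  have h4 : (mrs {x | g⁻¹ * x ∈ E} (mrs (A : Set G) a' * mrs (E : Set G) (b * b')) i j).coeff g =
      ((mrs (A : Set G) a' * mrs (E : Set G) (b * b')) i j).coeff g := by
    classical
    exact Finsupp.filter_apply_pos _ _ h3
  rw [← h4]
  exact h2

end Paths

section AmData

variable {G : Type} [Group G] {T : AmTree G} {I nA nB : Type} [Fintype I] [DecidableEq I]
  [Fintype nA] [DecidableEq nA] [Fintype nB] [DecidableEq nB]

private theorem AmData.coreM (D : AmData T I nA nB) :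
    AmCoreM T.A T.B D.a D.b D.a' D.b' :=
  ⟨D.ha, D.hb, D.sum, D.aa, D.ab, D.ba, D.bb⟩

private theorem AmTree.coreS' (T : AmTree G) :
    AmCoreS (T.A ⊓ T.B) T.B T.A T.SB T.SA := T.coreS.symm

theorem AmData.pA_add_pB (D : AmData T I nA nB) : D.pA + D.pB = 1 := by
  rw [AmData.pA, AmData.pB, ← mrs_add, D.sum]
  exact mrs_one_of_mem (one_mem _)

theorem AmData.pA_mul_pB (D : AmData T I nA nB) : D.pA * D.pB = 0 :=
  amCore_mul T.coreS D.coreM

theorem AmData.pB_mul_pA (D : AmData T I nA nB) : D.pB * D.pA = 0 :=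
  amCore_mul T.coreS.symm D.coreM.symm

theorem AmData.rowsA (D : AmData T I nA nB) {l : Type} (u : Matrix l I (MonoidAlgebra ℤ G))
    (hu : MSupp ((T.A ⊓ T.B : Subgroup G) : Set G) u) (h : u * D.pB = 0) :
    MSupp T.SB (u * (D.b * D.b')) :=
  amCore_rows T.coreS D.coreM u hu h

theorem AmData.rowsB (D : AmData T I nA nB) {l : Type} (u : Matrix l I (MonoidAlgebra ℤ G))
    (hu : MSupp ((T.A ⊓ T.B : Subgroup G) : Set G) u) (h : u * D.pA = 0) :
    MSupp T.SA (u * (D.a * D.a')) :=
  amCore_rows T.coreS.symm D.coreM.symm u hu h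

theorem AmData.starA (D : AmData T I nA nB) : mrs (T.A : Set G) D.a' * D.pB = 0 :=
  amCore_star T.coreS D.coreM

theorem AmData.starB (D : AmData T I nA nB) : mrs (T.B : Set G) D.b' * D.pA = 0 :=
  amCore_star T.coreS.symm D.coreM.symm

end AmData

end Pool.Agent.Wald
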