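import Pool.Agent.Lib.MP_8f66f0_al_Wald.GrDefs

/-! # MP_8f66f0_al, Theorem W: supports and restriction in `ℤG` (helper91) -/

set_option autoImplicit false

namespace Pool.Agent.Wald

open Matrix

section Supp
variable {G : Type} [Group G]

/-! ### Elements -/

theorem SuppIn.mono {S T : Set G} {x : MonoidAlgebra ℤ G} (h : SuppIn S x) (hST : S ⊆ T) :
    SuppIn T x := fun g hg => h g fun hs => hg (hST hs)

theorem SuppIn.zero {S : Set G} : SuppIn S (0 : MonoidAlgebra ℤ G) := fun _ _ => rfl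

theorem SuppIn.add {S : Set G} {x y : MonoidAlgebra ℤ G} (hx : SuppIn S x) (hy : SuppIn S y) :
    SuppIn S (x + y) := fun g hg => by
  rw [MonoidAlgebra.coeff_add, Finsupp.add_apply, hx g hg, hy g hg, add_zero]

theorem SuppIn.neg {S : Set G} {x : MonoidAlgebra ℤ G} (hx : SuppIn S x) : SuppIn S (-x) :=
  fun g hg => by
  rw [MonoidAlgebra.coeff_neg, Finsupp.neg_apply, hx g hg, neg_zero]

theorem SuppIn.sub {S : Set G} {x y : MonoidAlgebra ℤ G} (hx : SuppIn S x) (hy : SuppIn S y) :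
    SuppIn S (x - y) := by
  rw [sub_eq_add_neg]
  exact hx.add hy.neg

theorem SuppIn.sum {S : Set G} {ι : Type} {s : Finset ι} {f : ι → MonoidAlgebra ℤ G}
    (h : ∀ i ∈ s, SuppIn S (f i)) : SuppIn S (∑ i ∈ s, f i) :=
  Finset.sum_induction f (SuppIn S) (fun _ _ => SuppIn.add) SuppIn.zero h

theorem SuppIn.single {S : Set G} {g : G} (hg : g ∈ S) (a : ℤ) :
    SuppIn S (MonoidAlgebra.single g a : MonoidAlgebra ℤ G) := fun g' hg' => by
  rw [MonoidAlgebra.coeff_single, Finsupp.single_eq_of_ne]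
  rintro rfl
  exact hg' hg

theorem SuppIn.one {S : Set G} (h : (1 : G) ∈ S) : SuppIn S (1 : MonoidAlgebra ℤ G) := by
  rw [MonoidAlgebra.one_def]
  exact SuppIn.single h 1

theorem suppIn_univ (x : MonoidAlgebra ℤ G) : SuppIn Set.univ x :=
  fun g hg => absurd (Set.mem_univ g) hg

/-- Induction over elements with support in `S`. -/
theorem SuppIn.induction {S : Set G} {x : MonoidAlgebra ℤ G} (h : SuppIn S x)
    {p : MonoidAlgebra ℤ G → Prop} (h0 : p 0) (hadd : ∀ x y, p x → p y → p (x + y))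
    (hs : ∀ g ∈ S, ∀ a : ℤ, p (MonoidAlgebra.single g a)) : p x := by
  have h1 : x.coeff.sum MonoidAlgebra.single = x := MonoidAlgebra.sum_coeff_single x
  rw [← h1, Finsupp.sum]
  refine Finset.sum_induction _ p hadd h0 fun g hg => hs g ?_ _
  by_contra hgS
  exact (Finsupp.mem_support_iff.1 hg) (h g hgS)

theorem SuppIn.mul {S T U : Set G} {x y : MonoidAlgebra ℤ G} (hx : SuppIn S x) (hy : SuppIn T y)
    (h : ∀ s ∈ S, ∀ t ∈ T, s * t ∈ U) : SuppIn U (x * y) := by
  refine hx.induction (p := fun x => SuppIn U (x * y)) ?_ ?_ ?_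
  · rw [zero_mul]
    exact SuppIn.zero
  · intro x x' h1 h2
    rw [add_mul]
    exact h1.add h2
  · intro s hs a
    refine hy.induction (p := fun y => SuppIn U (MonoidAlgebra.single s a * y)) ?_ ?_ ?_
    · rw [mul_zero]
      exact SuppIn.zero
    · intro y y' h1 h2
      rw [mul_add]
      exact h1.add h2
    · intro t ht b
      rw [MonoidAlgebra.single_mul_single]
      exact SuppIn.single (h s hs t ht) _

open Classical in
theorem coeff_rs (S : Set G) (x : MonoidAlgebra ℤ G) (g : G) :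
    (rs S x).coeff g = if g ∈ S then x.coeff g else 0 := by
  show (x.coeff.filter (· ∈ S)) g = _
  exact Finsupp.filter_apply (· ∈ S) x.coeff g

theorem coeff_rs_mem {S : Set G} (x : MonoidAlgebra ℤ G) {g : G} (hg : g ∈ S) :
    (rs S x).coeff g = x.coeff g := by
  rw [coeff_rs, if_pos hg]

theorem coeff_rs_notMem {S : Set G} (x : MonoidAlgebra ℤ G) {g : G} (hg : g ∉ S) :
    (rs S x).coeff g = 0 := by
  rw [coeff_rs, if_neg hg]

theorem rs_single_mem {S : Set G} {g : G} (hg : g ∈ S) (a : ℤ) :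
    rs S (MonoidAlgebra.single g a) = MonoidAlgebra.single g a := by
  ext g'
  by_cases h : g' ∈ S
  · rw [coeff_rs_mem _ h]
  · rw [coeff_rs_notMem _ h, SuppIn.single hg a g' h]

theorem rs_single_notMem {S : Set G} {g : G} (hg : g ∉ S) (a : ℤ) :
    rs S (MonoidAlgebra.single g a) = 0 := by
  ext g'
  by_cases h : g' ∈ S
  · rw [coeff_rs_mem _ h, MonoidAlgebra.coeff_single, Finsupp.single_eq_of_ne]
    · rfl
    · rintro rfl
      exact hg h
  · rw [coeff_rs_notMem _ h]
    rfl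

theorem rs_supp (S : Set G) (x : MonoidAlgebra ℤ G) : SuppIn S (rs S x) :=
  fun _ hg => coeff_rs_notMem x hg

/-- The restriction of an element with support in `T` has support in `T`. -/
theorem SuppIn.rs {T : Set G} {x : MonoidAlgebra ℤ G} (h : SuppIn T x) (S : Set G) :
    SuppIn T (rs S x) := fun g hg => by
  by_cases hS : g ∈ S
  · rw [coeff_rs_mem _ hS, h g hg]
  · rw [coeff_rs_notMem _ hS]

theorem rs_eq_self {S : Set G} {x : MonoidAlgebra ℤ G} (h : SuppIn S x) : rs S x = x := by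
  ext g
  by_cases hS : g ∈ S
  · rw [coeff_rs_mem _ hS]
  · rw [coeff_rs_notMem _ hS, h g hS]

theorem rs_eq_zero {S T : Set G} {x : MonoidAlgebra ℤ G} (h : SuppIn T x) (hST : Disjoint S T) :
    rs S x = 0 := by
  ext g
  by_cases hS : g ∈ S
  · rw [coeff_rs_mem _ hS, h g (Set.disjoint_left.1 hST hS)]
    rfl
  · rw [coeff_rs_notMem _ hS]
    rfl

theorem rs_rs (S T : Set G) (x : MonoidAlgebra ℤ G) : rs S (rs T x) = rs (S ∩ T) x := by
  ext g
  by_cases hS : g ∈ S
  · rw [coeff_rs_mem _ hS]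
    by_cases hT : g ∈ T
    · rw [coeff_rs_mem _ hT, coeff_rs_mem (S := S ∩ T) _ ⟨hS, hT⟩]
    · rw [coeff_rs_notMem _ hT, coeff_rs_notMem (S := S ∩ T) _ fun h => hT h.2]
  · rw [coeff_rs_notMem _ hS, coeff_rs_notMem (S := S ∩ T) _ fun h => hS h.1]

theorem rs_add_compl (S : Set G) (x : MonoidAlgebra ℤ G) : rs S x + rs Sᶜ x = x := by
  ext g
  rw [MonoidAlgebra.coeff_add, Finsupp.add_apply]
  by_cases hS : g ∈ S
  · rw [coeff_rs_mem _ hS, coeff_rs_notMem (S := Sᶜ) _ fun h => h hS, add_zero]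
  · rw [coeff_rs_notMem _ hS, coeff_rs_mem (S := Sᶜ) _ hS, zero_add]

theorem rs_union {S T : Set G} (h : Disjoint S T) (x : MonoidAlgebra ℤ G) :
    rs (S ∪ T) x = rs S x + rs T x := by
  ext g
  rw [MonoidAlgebra.coeff_add, Finsupp.add_apply]
  by_cases hS : g ∈ S
  · rw [coeff_rs_mem (S := S ∪ T) _ (Or.inl hS), coeff_rs_mem _ hS,
      coeff_rs_notMem _ (Set.disjoint_left.1 h hS), add_zero]
  · by_cases hT : g ∈ T
    · rw [coeff_rs_mem (S := S ∪ T) _ (Or.inr hT), coeff_rs_notMem _ hS, coeff_rs_mem _ hT,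
        zero_add]
    · rw [coeff_rs_notMem (S := S ∪ T) _ fun h' => h'.elim hS hT, coeff_rs_notMem _ hS,
        coeff_rs_notMem _ hT,
        add_zero]

theorem suppIn_iff {S : Set G} {x : MonoidAlgebra ℤ G} : SuppIn S x ↔ rs S x = x :=
  ⟨rs_eq_self, fun h => h ▸ rs_supp S x⟩

theorem rs_mul_right {S S' T : Set G} {x y : MonoidAlgebra ℤ G} (hy : SuppIn T y)
    (h : ∀ g ∈ S, ∀ a ∈ T, g * a ∈ S') (h' : ∀ g ∉ S, ∀ a ∈ T, g * a ∉ S') :
    rs S' (x * y) = rs S x * y := by
  refine (suppIn_univ x).induction (p := fun x => rs S' (x * y) = rs S x * y) ?_ ?_ ?_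
  · rw [zero_mul, map_zero, map_zero, zero_mul]
  · intro x x' h1 h2
    rw [add_mul, map_add, map_add, add_mul, h1, h2]
  · intro g _ c
    refine hy.induction (p := fun y => rs S' (MonoidAlgebra.single g c * y) =
      rs S (MonoidAlgebra.single g c) * y) ?_ ?_ ?_
    · rw [mul_zero, map_zero, mul_zero]
    · intro y y' h1 h2
      rw [mul_add, map_add, mul_add, h1, h2]
    · intro a ha b
      rw [MonoidAlgebra.single_mul_single]
      by_cases hg : g ∈ S
      · rw [rs_single_mem hg, rs_single_mem (h g hg a ha), MonoidAlgebra.single_mul_single]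
      · rw [rs_single_notMem hg, rs_single_notMem (h' g hg a ha), zero_mul]

theorem rs_mul_left {S S' T : Set G} {x y : MonoidAlgebra ℤ G} (hx : SuppIn T x)
    (h : ∀ a ∈ T, ∀ g ∈ S, a * g ∈ S') (h' : ∀ a ∈ T, ∀ g ∉ S, a * g ∉ S') :
    rs S' (x * y) = x * rs S y := by
  refine (suppIn_univ y).induction (p := fun y => rs S' (x * y) = x * rs S y) ?_ ?_ ?_
  · rw [mul_zero, map_zero, map_zero, mul_zero]
  · intro y y' h1 h2
    rw [mul_add, map_add, map_add, mul_add, h1, h2]
  · intro g _ c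
    refine hx.induction (p := fun x => rs S' (x * MonoidAlgebra.single g c) =
      x * rs S (MonoidAlgebra.single g c)) ?_ ?_ ?_
    · rw [zero_mul, map_zero, zero_mul]
    · intro x x' h1 h2
      rw [add_mul, map_add, add_mul, h1, h2]
    · intro a ha b
      rw [MonoidAlgebra.single_mul_single]
      by_cases hg : g ∈ S
      · rw [rs_single_mem hg, rs_single_mem (h a ha g hg), MonoidAlgebra.single_mul_single]
      · rw [rs_single_notMem hg, rs_single_notMem (h' a ha g hg), mul_zero]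

/-! ### Matrices -/

section Mat

variable {m n l : Type} {S T U S' : Set G}

theorem mrs_apply (S : Set G) (M : Matrix m n (MonoidAlgebra ℤ G)) (i : m) (j : n) :
    mrs S M i j = rs S (M i j) := rfl

theorem MSupp.mono {M : Matrix m n (MonoidAlgebra ℤ G)} (h : MSupp S M) (hST : S ⊆ T) :
    MSupp T M := fun i j => (h i j).mono hST

theorem MSupp.zero : MSupp S (0 : Matrix m n (MonoidAlgebra ℤ G)) := fun _ _ => SuppIn.zero

theorem MSupp.one [DecidableEq n] (h : (1 : G) ∈ S) :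
    MSupp S (1 : Matrix n n (MonoidAlgebra ℤ G)) := fun i j => by
  rw [Matrix.one_apply]
  split_ifs
  · exact SuppIn.one h
  · exact SuppIn.zero

theorem MSupp.add {M N : Matrix m n (MonoidAlgebra ℤ G)} (hM : MSupp S M) (hN : MSupp S N) :
    MSupp S (M + N) := fun i j => (hM i j).add (hN i j)

theorem MSupp.neg {M : Matrix m n (MonoidAlgebra ℤ G)} (hM : MSupp S M) : MSupp S (-M) :=
  fun i j => (hM i j).neg

theorem MSupp.sub {M N : Matrix m n (MonoidAlgebra ℤ G)} (hM : MSupp S M) (hN : MSupp S N) :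
    MSupp S (M - N) := fun i j => (hM i j).sub (hN i j)

theorem MSupp.mul [Fintype n] {M : Matrix m n (MonoidAlgebra ℤ G)}
    {N : Matrix n l (MonoidAlgebra ℤ G)} (hM : MSupp S M) (hN : MSupp T N)
    (h : ∀ s ∈ S, ∀ t ∈ T, s * t ∈ U) : MSupp U (M * N) := fun i j => by
  rw [Matrix.mul_apply]
  exact SuppIn.sum fun k _ => (hM i k).mul (hN k j) h

theorem MSupp.smul_single {M : Matrix m n (MonoidAlgebra ℤ G)} {g : G} (a : ℤ) (hM : MSupp T M)
    (h : ∀ s ∈ T, g * s ∈ U) :
    MSupp U ((MonoidAlgebra.single g a : MonoidAlgebra ℤ G) • M) := fun i j => by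
  rw [Matrix.smul_apply, smul_eq_mul]
  refine (SuppIn.single (S := {g}) rfl a).mul (hM i j) ?_
  rintro s rfl t ht
  exact h t ht

theorem MSupp.fromBlocks {m' n' : Type} {A : Matrix m n (MonoidAlgebra ℤ G)}
    {B : Matrix m n' (MonoidAlgebra ℤ G)} {C : Matrix m' n (MonoidAlgebra ℤ G)}
    {D : Matrix m' n' (MonoidAlgebra ℤ G)} (hA : MSupp S A) (hB : MSupp S B) (hC : MSupp S C)
    (hD : MSupp S D) : MSupp S (Matrix.fromBlocks A B C D) := by
  rintro (i | i) (j | j)
  · exact hA i j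
  · exact hB i j
  · exact hC i j
  · exact hD i j

theorem MSupp.submatrix {m' n' : Type} {M : Matrix m n (MonoidAlgebra ℤ G)} (hM : MSupp S M)
    (f : m' → m) (g : n' → n) : MSupp S (M.submatrix f g) := fun i j => hM (f i) (g j)

theorem msupp_univ (M : Matrix m n (MonoidAlgebra ℤ G)) : MSupp Set.univ M :=
  fun _ _ => suppIn_univ _

theorem mrs_supp (S : Set G) (M : Matrix m n (MonoidAlgebra ℤ G)) : MSupp S (mrs S M) :=
  fun _ _ => rs_supp S _

/-- The restriction of a matrix with support in `T` has support in `T`. -/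
theorem MSupp.mrs {M : Matrix m n (MonoidAlgebra ℤ G)} (h : MSupp T M) (S : Set G) :
    MSupp T (mrs S M) := fun i j => (h i j).rs S

theorem mrs_eq_self {M : Matrix m n (MonoidAlgebra ℤ G)} (h : MSupp S M) : mrs S M = M := by
  ext1 i j
  exact rs_eq_self (h i j)

theorem mrs_eq_zero {M : Matrix m n (MonoidAlgebra ℤ G)} (h : MSupp T M) (hST : Disjoint S T) :
    mrs S M = 0 := by
  ext1 i j
  exact rs_eq_zero (h i j) hST

theorem mrs_mrs (S T : Set G) (M : Matrix m n (MonoidAlgebra ℤ G)) :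
    mrs S (mrs T M) = mrs (S ∩ T) M := by
  ext1 i j
  exact rs_rs S T _

theorem mrs_zero (S : Set G) : mrs S (0 : Matrix m n (MonoidAlgebra ℤ G)) = 0 := by
  ext1 i j
  exact map_zero (rs S)

theorem mrs_add (S : Set G) (M N : Matrix m n (MonoidAlgebra ℤ G)) :
    mrs S (M + N) = mrs S M + mrs S N := by
  ext1 i j
  exact map_add (rs S) _ _

theorem mrs_neg (S : Set G) (M : Matrix m n (MonoidAlgebra ℤ G)) : mrs S (-M) = -mrs S M := by
  ext1 i j
  exact map_neg (rs S) _

theorem mrs_sub (S : Set G) (M N : Matrix m n (MonoidAlgebra ℤ G)) :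
    mrs S (M - N) = mrs S M - mrs S N := by
  ext1 i j
  exact map_sub (rs S) _ _

theorem mrs_add_compl (S : Set G) (M : Matrix m n (MonoidAlgebra ℤ G)) :
    mrs S M + mrs Sᶜ M = M := by
  ext1 i j
  exact rs_add_compl S _

theorem mrs_union (h : Disjoint S T) (M : Matrix m n (MonoidAlgebra ℤ G)) :
    mrs (S ∪ T) M = mrs S M + mrs T M := by
  ext1 i j
  exact rs_union h _

theorem msupp_iff {M : Matrix m n (MonoidAlgebra ℤ G)} : MSupp S M ↔ mrs S M = M :=
  ⟨mrs_eq_self, fun h => h ▸ mrs_supp S M⟩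

theorem mrs_mul_right [Fintype n] {M : Matrix m n (MonoidAlgebra ℤ G)}
    {N : Matrix n l (MonoidAlgebra ℤ G)} (hN : MSupp T N)
    (h : ∀ g ∈ S, ∀ a ∈ T, g * a ∈ S') (h' : ∀ g ∉ S, ∀ a ∈ T, g * a ∉ S') :
    mrs S' (M * N) = mrs S M * N := by
  ext1 i j
  rw [mrs_apply, Matrix.mul_apply, Matrix.mul_apply, map_sum]
  exact Finset.sum_congr rfl fun k _ => rs_mul_right (hN k j) h h'

theorem mrs_mul_left [Fintype n] {M : Matrix m n (MonoidAlgebra ℤ G)}
    {N : Matrix n l (MonoidAlgebra ℤ G)} (hM : MSupp T M)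
    (h : ∀ a ∈ T, ∀ g ∈ S, a * g ∈ S') (h' : ∀ a ∈ T, ∀ g ∉ S, a * g ∉ S') :
    mrs S' (M * N) = M * mrs S N := by
  ext1 i j
  rw [mrs_apply, Matrix.mul_apply, Matrix.mul_apply, map_sum]
  exact Finset.sum_congr rfl fun k _ => rs_mul_left (hM i k) h h'

theorem mrs_smul_single {g : G} (h : ∀ x, g * x ∈ S' ↔ x ∈ S)
    (M : Matrix m n (MonoidAlgebra ℤ G)) :
    mrs S' ((MonoidAlgebra.single g (1 : ℤ) : MonoidAlgebra ℤ G) • M) =
      (MonoidAlgebra.single g (1 : ℤ) : MonoidAlgebra ℤ G) • mrs S M := by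
  ext1 i j
  rw [mrs_apply, Matrix.smul_apply, Matrix.smul_apply, smul_eq_mul, smul_eq_mul]
  refine rs_mul_left (T := {g}) (SuppIn.single (Set.mem_singleton g) 1) ?_ ?_
  · rintro a rfl x hx
    exact (h x).2 hx
  · rintro a rfl x hx hx'
    exact hx ((h x).1 hx')

theorem mrs_one_of_mem [DecidableEq n] (h : (1 : G) ∈ S) :
    mrs S (1 : Matrix n n (MonoidAlgebra ℤ G)) = 1 := mrs_eq_self (MSupp.one h)

theorem mrs_one_of_notMem [DecidableEq n] (h : (1 : G) ∉ S) :
    mrs S (1 : Matrix n n (MonoidAlgebra ℤ G)) = 0 :=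
  mrs_eq_zero (T := {1}) (MSupp.one rfl) (Set.disjoint_singleton_right.2 h)

end Mat

/-! ### Subgroups -/

theorem inc_single {E : Type} [Group E] (φ : E →* G) (g : E) (a : ℤ) :
    inc φ (MonoidAlgebra.single g a) = MonoidAlgebra.single (φ g) a :=
  MonoidAlgebra.mapDomain_single

theorem inc_injective {E : Type} [Group E] (φ : E →* G) (hφ : Function.Injective φ) :
    Function.Injective (inc φ) := MonoidAlgebra.mapDomain_injective hφ

theorem suppIn_inc {E : Type} [Group E] (φ : E →* G) (y : MonoidAlgebra ℤ E) :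
    SuppIn (φ.range : Set G) (inc φ y) := by
  refine (suppIn_univ y).induction (p := fun y => SuppIn (φ.range : Set G) (inc φ y)) ?_ ?_ ?_
  · rw [map_zero]
    exact SuppIn.zero
  · intro x y h1 h2
    rw [map_add]
    exact h1.add h2
  · intro g _ a
    rw [inc_single]
    exact SuppIn.single (S := (φ.range : Set G)) ⟨g, rfl⟩ a

theorem suppIn_range {E : Type} [Group E] (φ : E →* G) (_hφ : Function.Injective φ)
    (x : MonoidAlgebra ℤ G) :
    SuppIn (φ.range : Set G) x ↔ ∃ y : MonoidAlgebra ℤ E, inc φ y = x := by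
  constructor
  · intro h
    refine h.induction (p := fun x => ∃ y : MonoidAlgebra ℤ E, inc φ y = x) ?_ ?_ ?_
    · exact ⟨0, map_zero _⟩
    · rintro _ _ ⟨y, rfl⟩ ⟨y', rfl⟩
      exact ⟨y + y', map_add _ _ _⟩
    · rintro _ ⟨g, rfl⟩ a
      exact ⟨MonoidAlgebra.single g a, inc_single φ g a⟩
  · rintro ⟨y, rfl⟩
    exact suppIn_inc φ y

theorem msupp_map_inc {E m n : Type} [Group E] (φ : E →* G)
    (N : Matrix m n (MonoidAlgebra ℤ E)) : MSupp (φ.range : Set G) (N.map (inc φ)) :=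
  fun i j => suppIn_inc φ (N i j)

theorem msupp_range {E m n : Type} [Group E] (φ : E →* G) (hφ : Function.Injective φ)
    (M : Matrix m n (MonoidAlgebra ℤ G)) :
    MSupp (φ.range : Set G) M ↔ ∃ N : Matrix m n (MonoidAlgebra ℤ E), N.map (inc φ) = M := by
  constructor
  · intro h
    choose N hN using fun i j => (suppIn_range φ hφ (M i j)).1 (h i j)
    exact ⟨N, by ext1 i j; exact hN i j⟩
  · rintro ⟨N, rfl⟩
    exact msupp_map_inc φ N

theorem map_inc_injective {E m n : Type} [Group E] (φ : E →* G) (hφ : Function.Injective φ) :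
    Function.Injective fun N : Matrix m n (MonoidAlgebra ℤ E) => N.map (inc φ) := by
  intro N N' h
  ext1 i j
  exact inc_injective φ hφ (congrFun (congrFun h i) j)

end Supp

end Pool.Agent.Wald
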