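import Mathlib
import Pool.Agent.Lib.MP_8f66f0_al_Wald.GrDefs
import Pool.Agent.Lib.MP_8f66f0_al_Wald.K1Lem
import Pool.Agent.Lib.MP_8f66f0_al_Wald.Supp

/-! Rank of invertible matrices over `ℤG`; invertible matrices over a subgroup. -/

set_option autoImplicit false

namespace Pool.Agent.Wald

open Matrix

theorem card_eq_of_inv {G : Type} [Group G] {m n : Type} [Fintype m] [DecidableEq m] [Fintype n]
    [DecidableEq n] (A : Matrix m n (MonoidAlgebra ℤ G)) (B : Matrix n m (MonoidAlgebra ℤ G))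
    (h : A * B = 1) (h' : B * A = 1) : Fintype.card m = Fintype.card n := by
  set ε : MonoidAlgebra ℤ G →+* ℤ := (MonoidAlgebra.lift ℤ ℤ G 1).toRingHom with hε
  refine Matrix.square_of_invertible (A.map ε) (B.map ε) ?_ ?_
  · rw [← Matrix.map_mul, h, Matrix.map_one ε (map_zero ε) (map_one ε)]
  · rw [← Matrix.map_mul, h', Matrix.map_one ε (map_zero ε) (map_one ε)]

/-- The pullback of an invariant. -/
private noncomputable def IbnLift_pull {R S K : Type} [Ring R] [Ring S] [CommGroup K] (i : R →+* S)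
    (κ : K1Fun S K) : K1Fun R K where
  f A := κ.f (A.map i)
  mul A B hA hB := by
    rw [Matrix.map_mul]
    exact κ.mul _ _ (hA.map i.mapMatrix) (hB.map i.mapMatrix)
  reindex e A hA := by
    rw [← Matrix.submatrix_map]
    exact κ.reindex e _ (hA.map i.mapMatrix)
  tri A B D hA hD := by
    rw [Matrix.fromBlocks_map, show (0 : Matrix _ _ R).map i = 0 from Matrix.map_zero i (map_zero i)]
    exact κ.tri _ _ _ (hA.map i.mapMatrix) (hD.map i.mapMatrix)

theorem kills_range {H G : Type} [Group H] [Group G] (φ : H →* G) (hφ : Function.Injective φ)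
    (hH : WhT H) {K : Type} [CommGroup K] (κ : K1Fun (MonoidAlgebra ℤ G) K) (hκ : KillsUnits κ) :
    Kills κ (φ.range : Set G) := by
  intro n _ _ M M' hM hM' h h'
  obtain ⟨N, rfl⟩ := (msupp_range φ hφ M).1 hM
  obtain ⟨N', rfl⟩ := (msupp_range φ hφ M').1 hM'
  have hi := inc_injective φ hφ
  have h0 : N * N' = 1 := by
    apply Matrix.map_injective hi
    dsimp only
    rw [Matrix.map_mul, h, Matrix.map_one _ (map_zero _) (map_one _)]
  have h0' : N' * N = 1 := by
    apply Matrix.map_injective hi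
    dsimp only
    rw [Matrix.map_mul, h', Matrix.map_one _ (map_zero _) (map_one _)]
  refine hH K (IbnLift_pull (inc φ) κ) ?_ n N ⟨⟨N, N', h0, h0'⟩, rfl⟩
  intro g ε
  have h1 : (Matrix.of fun _ _ : Fin 1 => (MonoidAlgebra.single g (ε : ℤ) :
      MonoidAlgebra ℤ H)).map (inc φ) =
      Matrix.of fun _ _ : Fin 1 => (MonoidAlgebra.single (φ g) (ε : ℤ) : MonoidAlgebra ℤ G) := by
    refine Matrix.ext fun i j => ?_
    rw [Matrix.map_apply, Matrix.of_apply, Matrix.of_apply, inc,
      MonoidAlgebra.mapDomainRingHom_apply, MonoidAlgebra.mapDomain_single]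
  change κ.f (Matrix.map _ (inc φ)) = 1
  rw [h1]
  exact hκ (φ g) ε

end Pool.Agent.Wald
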