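import Mathlib
import Pool.Agent.Lib.MP_8f66f0_al_Wald.Defs
import Pool.Agent.Lib.MP_8f66f0_al_Wald.GrDefs

/-! Flatness of `ℤG` over `ℤE`. -/

set_option autoImplicit false

namespace Pool.Agent.Wald

open MonoidAlgebra

section GrFlat
variable {E G : Type} [Group E] [Group G]

private theorem GrFlat_trans (φ : E →* G) (hφ : Function.Injective φ) :
    ∃ (C : Type) (s : C → G), Function.Bijective (fun p : C × E => s p.1 * φ p.2) := by
  refine ⟨G ⧸ φ.range, fun c => Quotient.out c, ?_, ?_⟩
  · rintro ⟨c, e⟩ ⟨c', e'⟩ h
    have h' : Quotient.out c * φ e = Quotient.out c' * φ e' := h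
    have hc : c = c' := by
      rw [← Quotient.out_eq c, ← Quotient.out_eq c']
      refine Quotient.sound ?_
      show (QuotientGroup.leftRel φ.range) (Quotient.out c) (Quotient.out c')
      rw [QuotientGroup.leftRel_apply]
      refine ⟨e * e'⁻¹, ?_⟩
      rw [map_mul, map_inv]
      have h1 : Quotient.out c' = Quotient.out c * φ e * (φ e')⁻¹ := by
        rw [h', mul_inv_cancel_right]
      rw [h1]
      group
    subst hc
    have he : φ e = φ e' := mul_left_cancel h'
    rw [hφ he]
  · intro g
    have h1 : (QuotientGroup.leftRel φ.range) (Quotient.out (Quotient.mk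
      (QuotientGroup.leftRel φ.range) g)) g := Quotient.mk_out g
    rw [QuotientGroup.leftRel_apply] at h1
    obtain ⟨e, he⟩ := h1
    refine ⟨⟨Quotient.mk _ g, e⟩, ?_⟩
    dsimp only
    rw [he, mul_inv_cancel_left]

private noncomputable def GrFlat_P {C : Type} (φ : E →* G) (s : C → G) (J : Type) :
    (C →₀ (J →₀ MonoidAlgebra ℤ E)) →+ (J →₀ MonoidAlgebra ℤ G) :=
  letI := modH φ
  haveI := towerH φ
  Finsupp.liftAddHom fun c =>
    { toFun := fun v => (single (s c) (1 : ℤ) : MonoidAlgebra ℤ G) •
        emb (MonoidAlgebra ℤ E) (MonoidAlgebra ℤ G) J v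
      map_zero' := by rw [map_zero, smul_zero]
      map_add' := fun v w => by rw [map_add, smul_add] }

private theorem GrFlat_P_single {C : Type} (φ : E →* G) (s : C → G) (J : Type) (c : C)
    (v : J →₀ MonoidAlgebra ℤ E) :
    letI := modH φ
    haveI := towerH φ
    GrFlat_P φ s J (Finsupp.single c v) = (single (s c) (1 : ℤ) : MonoidAlgebra ℤ G) •
      emb (MonoidAlgebra ℤ E) (MonoidAlgebra ℤ G) J v := by
  letI := modH φ
  haveI := towerH φ
  exact Finsupp.liftAddHom_apply_single _ _ _

private theorem GrFlat_P_sing {C : Type} (φ : E →* G) (s : C → G) (J : Type) (c : C) (j : J)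
    (e : E) (n : ℤ) :
    GrFlat_P φ s J (Finsupp.single c (Finsupp.single j (single e n))) =
      Finsupp.single j (single (s c * φ e) n) := by
  letI := modH φ
  haveI := towerH φ
  rw [GrFlat_P_single]
  unfold emb
  rw [Finsupp.mapRange.linearMap_apply, Finsupp.mapRange_single, Finsupp.smul_single,
    LinearMap.toSpanSingleton_apply]
  congr 1
  show single (s c) (1 : ℤ) * (inc φ (single e n) * 1) = _
  rw [mul_one, mapDomainRingHom_apply, mapDomain_single, single_mul_single, one_mul]

private theorem GrFlat_co {C : Type} (φ : E →* G) (hφ : Function.Injective φ) (s : C → G)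
    (hs : Function.Bijective (fun p : C × E => s p.1 * φ p.2)) (J : Type)
    (x : C →₀ (J →₀ MonoidAlgebra ℤ E)) (c : C) (j : J) (e : E) :
    ((GrFlat_P φ s J x) j).coeff (s c * φ e) = ((x c) j).coeff e := by
  classical
  induction x using Finsupp.induction_linear with
  | zero => rw [map_zero]; rfl
  | add x y hx hy => rw [map_add, Finsupp.add_apply, coeff_add, Finsupp.add_apply, hx, hy]; rfl
  | single c' v =>
    induction v using Finsupp.induction_linear with
    | zero => rw [Finsupp.single_zero, map_zero]; rfl
    | add v w hv hw =>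
      rw [Finsupp.single_add, map_add, Finsupp.add_apply, coeff_add, Finsupp.add_apply, hv, hw]
      rfl
    | single j' r =>
      induction r using MonoidAlgebra.induction_linear with
      | zero => rw [Finsupp.single_zero, Finsupp.single_zero, map_zero]; rfl
      | add r r' hr hr' =>
        rw [Finsupp.single_add, Finsupp.single_add, map_add, Finsupp.add_apply, coeff_add,
          Finsupp.add_apply, hr, hr']
        rfl
      | single e' n =>
        rw [GrFlat_P_sing, Finsupp.single_apply, Finsupp.single_apply]
        by_cases hj : j' = j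
        · subst hj
          rw [if_pos rfl, coeff_single, Finsupp.single_apply]
          by_cases h : c' = c
          · subst h
            rw [if_pos rfl, Finsupp.single_eq_same]
            by_cases h' : e' = e
            · subst h'
              simp
            · rw [if_neg, coeff_single, Finsupp.single_apply, if_neg h']
              intro h2
              exact h' (hφ (mul_left_cancel h2))
          · rw [if_neg, if_neg h]
            · rfl
            · intro h2
              exact h (Prod.ext_iff.mp (hs.1 (a₁ := (c', e')) (a₂ := (c, e)) h2)).1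
        · rw [if_neg hj]
          by_cases h : c' = c
          · subst h
            rw [if_pos rfl, Finsupp.single_apply, if_neg hj]
            rfl
          · rw [if_neg h]
            rfl

private theorem GrFlat_surj {C : Type} (φ : E →* G) (s : C → G)
    (hs : Function.Bijective (fun p : C × E => s p.1 * φ p.2)) (J : Type)
    (y : J →₀ MonoidAlgebra ℤ G) : ∃ x, GrFlat_P φ s J x = y := by
  classical
  induction y using Finsupp.induction_linear with
  | zero => exact ⟨0, map_zero _⟩
  | add y y' hy hy' =>
    obtain ⟨x, rfl⟩ := hy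
    obtain ⟨x', rfl⟩ := hy'
    exact ⟨x + x', map_add _ _ _⟩
  | single j a =>
    induction a using MonoidAlgebra.induction_linear with
    | zero => exact ⟨0, by rw [map_zero, Finsupp.single_zero]⟩
    | add y y' hy hy' =>
      obtain ⟨x, hx⟩ := hy
      obtain ⟨x', hx'⟩ := hy'
      exact ⟨x + x', by rw [map_add, hx, hx', Finsupp.single_add]⟩
    | single g n =>
      obtain ⟨⟨c, e⟩, rfl⟩ := hs.2 g
      exact ⟨_, GrFlat_P_sing φ s J c j e n⟩

/-- `ℤG` is flat as a right `ℤE`-module. -/
theorem rflat_gr (φ : E →* G) (hφ : Function.Injective φ) :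
    letI := modH φ
    haveI := towerH φ
    RFlat (MonoidAlgebra ℤ E) (MonoidAlgebra ℤ G) := by
  classical
  letI := modH φ
  haveI := towerH φ
  obtain ⟨C, s, hs⟩ := GrFlat_trans φ hφ
  intro J J' g y hy
  obtain ⟨x, rfl⟩ := GrFlat_surj φ s hs J y
  -- base change and the embeddings
  have hbc : ∀ v : J →₀ MonoidAlgebra ℤ E, bc (MonoidAlgebra ℤ G) g
      (emb (MonoidAlgebra ℤ E) (MonoidAlgebra ℤ G) J v) =
      emb (MonoidAlgebra ℤ E) (MonoidAlgebra ℤ G) J' (g v) := by
    intro v
    induction v using Finsupp.induction_linear with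
    | zero => simp only [map_zero]
    | add v w hv hw => simp only [map_add, hv, hw]
    | single j r =>
      have h1 : (Finsupp.single j r : J →₀ MonoidAlgebra ℤ E) =
          r • Finsupp.single j (1 : MonoidAlgebra ℤ E) := by
        rw [Finsupp.smul_single, smul_eq_mul, mul_one]
      have h2 : emb (MonoidAlgebra ℤ E) (MonoidAlgebra ℤ G) J (Finsupp.single j r) =
          Finsupp.single j (r • (1 : MonoidAlgebra ℤ G)) := by
        unfold emb
        rw [Finsupp.mapRange.linearMap_apply, Finsupp.mapRange_single,
          LinearMap.toSpanSingleton_apply]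
      rw [h2, h1, map_smul, map_smul]
      unfold bc
      rw [Finsupp.linearCombination_single, smul_assoc, one_smul]
  have hP : ∀ x : C →₀ (J →₀ MonoidAlgebra ℤ E), bc (MonoidAlgebra ℤ G) g (GrFlat_P φ s J x) =
      GrFlat_P φ s J' (x.mapRange g (map_zero g)) := by
    intro x
    induction x using Finsupp.induction_linear with
    | zero => simp only [map_zero, Finsupp.mapRange_zero]
    | add v w hv hw => rw [map_add, map_add, hv, hw, Finsupp.mapRange_add (map_add g), map_add]
    | single c v =>
      rw [Finsupp.mapRange_single, GrFlat_P_single, GrFlat_P_single, map_smul, hbc]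
  rw [hP] at hy
  have hker : ∀ c, x c ∈ LinearMap.ker g := by
    intro c
    rw [LinearMap.mem_ker]
    ext j e
    have h1 := GrFlat_co φ hφ s hs J' (x.mapRange g (map_zero g)) c j e
    rw [hy, Finsupp.mapRange_apply] at h1
    rw [← h1]
    rfl
  have hx : GrFlat_P φ s J x = ∑ c ∈ x.support, (single (s c) (1 : ℤ) : MonoidAlgebra ℤ G) •
      emb (MonoidAlgebra ℤ E) (MonoidAlgebra ℤ G) J (x c) := by
    conv_lhs => rw [← Finsupp.sum_single x]
    rw [Finsupp.sum, map_sum]
    exact Finset.sum_congr rfl fun c _ => GrFlat_P_single φ s J c (x c)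
  rw [hx]
  exact Submodule.sum_mem _ fun c _ => Submodule.smul_mem _ _
    (Submodule.subset_span ⟨x c, hker c, rfl⟩)

end GrFlat

end Pool.Agent.Wald
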