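import Mathlib
import Pool.Agent.Lib.MP_8f66f0_al_Wald.Defs
import Pool.Agent.Lib.MP_8f66f0_al_Wald.GrDefs

/-! `ℤG` is a free left `ℤE`-module. -/

set_option autoImplicit false

namespace Pool.Agent.Wald

open MonoidAlgebra

section GrFlat
variable {E G : Type} [Group E] [Group G]

private theorem GrFree_trans (φ : E →* G) (hφ : Function.Injective φ) :
    ∃ (C : Type) (s : C → G), Function.Bijective (fun p : E × C => φ p.1 * s p.2) := by
  refine ⟨Quotient (QuotientGroup.rightRel φ.range), fun c => Quotient.out c, ?_, ?_⟩
  · rintro ⟨e, c⟩ ⟨e', c'⟩ h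
    have h' : φ e * Quotient.out c = φ e' * Quotient.out c' := h
    have hc : c = c' := by
      rw [← Quotient.out_eq c, ← Quotient.out_eq c']
      refine Quotient.sound ?_
      show (QuotientGroup.rightRel φ.range) (Quotient.out c) (Quotient.out c')
      rw [QuotientGroup.rightRel_apply]
      refine ⟨e'⁻¹ * e, ?_⟩
      rw [map_mul, map_inv]
      have h1 : Quotient.out c' = (φ e')⁻¹ * (φ e * Quotient.out c) := by
        rw [h', inv_mul_cancel_left]
      rw [h1]
      group
    subst hc
    have he : φ e = φ e' := mul_right_cancel h'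
    rw [hφ he]
  · intro g
    have h1 : (QuotientGroup.rightRel φ.range) (Quotient.out (Quotient.mk
      (QuotientGroup.rightRel φ.range) g)) g := Quotient.mk_out g
    rw [QuotientGroup.rightRel_apply] at h1
    obtain ⟨e, he⟩ := h1
    refine ⟨⟨e, Quotient.mk _ g⟩, ?_⟩
    dsimp only
    rw [he, inv_mul_cancel_right]

/-- `ℤG` is a free left `ℤE`-module. -/
theorem free_gr (φ : E →* G) (hφ : Function.Injective φ) :
    letI := modH φ
    Module.Free (MonoidAlgebra ℤ E) (MonoidAlgebra ℤ G) := by
  classical
  letI := modH φ
  obtain ⟨C, s, hinj, hsurj⟩ := GrFree_trans φ hφ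
  let L : (C →₀ MonoidAlgebra ℤ E) →ₗ[MonoidAlgebra ℤ E] MonoidAlgebra ℤ G :=
    Finsupp.linearCombination (MonoidAlgebra ℤ E) (fun c => (single (s c) (1 : ℤ)))
  have hL : ∀ c e n, L (Finsupp.single c (single e n)) = single (φ e * s c) n := by
    intro c e n
    show Finsupp.linearCombination _ _ _ = _
    rw [Finsupp.linearCombination_single]
    show inc φ (single e n) * single (s c) 1 = _
    rw [mapDomainRingHom_apply, mapDomain_single, single_mul_single, mul_one]
  have hco : ∀ (x : C →₀ MonoidAlgebra ℤ E) (c : C) (e : E),
      (L x).coeff (φ e * s c) = (x c).coeff e := by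
    intro x c e
    induction x using Finsupp.induction_linear with
    | zero => rw [map_zero]; rfl
    | add x y hx hy => rw [map_add, coeff_add, Finsupp.add_apply, hx, hy]; rfl
    | single c' r =>
      induction r using MonoidAlgebra.induction_linear with
      | zero => rw [Finsupp.single_zero, map_zero]; rfl
      | add r r' hr hr' =>
        rw [Finsupp.single_add, map_add, coeff_add, Finsupp.add_apply, hr, hr']
        rfl
      | single e' n =>
        rw [hL, coeff_single, Finsupp.single_apply, Finsupp.single_apply]
        by_cases h : c' = c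
        · subst h
          by_cases h' : e' = e
          · subst h'
            simp
          · rw [if_neg, if_pos rfl, coeff_single, Finsupp.single_apply, if_neg h']
            intro h2
            exact h' (hφ (mul_right_cancel h2))
        · rw [if_neg, if_neg h]
          · rfl
          · intro h2
            exact h (Prod.ext_iff.mp (hinj (a₁ := (e', c')) (a₂ := (e, c)) h2)).2
  have hLi : Function.Injective L := by
    rw [injective_iff_map_eq_zero]
    intro x hx
    ext c e
    rw [← hco, hx]
    rfl
  have hLs : Function.Surjective L := by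
    intro y
    induction y using MonoidAlgebra.induction_linear with
    | zero => exact ⟨0, map_zero _⟩
    | add y y' hy hy' =>
      obtain ⟨x, rfl⟩ := hy
      obtain ⟨x', rfl⟩ := hy'
      exact ⟨x + x', map_add _ _ _⟩
    | single g n =>
      obtain ⟨⟨e, c⟩, rfl⟩ := hsurj g
      exact ⟨_, hL c e n⟩
  exact Module.Free.of_equiv (LinearEquiv.ofBijective L ⟨hLi, hLs⟩)

end GrFlat

end Pool.Agent.Wald
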