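import Mathlib
import Pool.Agent.Lib.MP_8f66f0_al_Wald.GrDefs
import Pool.Agent.Lib.MP_8f66f0_al_Wald.Supp

/-! Theorem N for group rings, local version: only the finitely generated subgroups of `E` have to
satisfy the two conditions, because the data are finite. -/

set_option autoImplicit false

namespace Pool.Agent.Wald

open Matrix

/-- The data of tensor-nilpotence restrict to a finitely generated subgroup. -/
theorem nilGrLoc_restrict {E G : Type} [Group E] [Group G] (φ : E →* G) {n : ℕ}
    (ν : Matrix (Fin n) (Fin n) (MonoidAlgebra ℤ G)) (m : ℕ) (B : ℕ → ℕ)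
    (h : ∀ i, Matrix (Fin n) (Fin (B i)) (MonoidAlgebra ℤ E))
    (h0 : ∀ x : Fin n → MonoidAlgebra ℤ E, vecMul x (h 0) = 0 → x = 0) (hm : h m = 0)
    (hh : ∀ i (x : Fin n → MonoidAlgebra ℤ E), vecMul x (h (i + 1)) = 0 →
      vecMul (vecMul (fun a => inc φ (x a)) ν) ((h i).map (inc φ)) = 0) :
    ∃ (E' : Subgroup E) (h' : ∀ i, Matrix (Fin n) (Fin (B i)) (MonoidAlgebra ℤ E')), E'.FG ∧
      (∀ x : Fin n → MonoidAlgebra ℤ E', vecMul x (h' 0) = 0 → x = 0) ∧ h' m = 0 ∧
      ∀ i (x : Fin n → MonoidAlgebra ℤ E'), vecMul x (h' (i + 1)) = 0 →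
        vecMul (vecMul (fun a => inc (φ.comp E'.subtype) (x a)) ν)
          ((h' i).map (inc (φ.comp E'.subtype))) = 0 := by
  classical
  set S : Finset E := (Finset.range (m + 1)).biUnion fun i =>
    Finset.univ.biUnion fun a => Finset.univ.biUnion fun b => (h i a b).coeff.support with hS
  set E' : Subgroup E := Subgroup.closure (S : Set E) with hE'
  have hinj : Function.Injective E'.subtype := E'.subtype_injective
  have hlift : ∀ i, ∃ N : Matrix (Fin n) (Fin (B i)) (MonoidAlgebra ℤ E'),
      (i ≤ m → N.map (inc E'.subtype) = h i) ∧ (m < i → N = 0) := by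
    intro i
    by_cases hi : i ≤ m
    · have hs : MSupp (E'.subtype.range : Set E) (h i) := by
        intro a b g hg
        by_contra hne
        refine hg ?_
        rw [Subgroup.range_subtype]
        refine Subgroup.subset_closure ?_
        rw [hS]
        simp only [Finset.coe_biUnion, Set.mem_iUnion, Finset.mem_coe]
        exact ⟨i, Finset.mem_range.2 (Nat.lt_succ_of_le hi), a, Finset.mem_univ a, b,
          Finset.mem_univ b, Finsupp.mem_support_iff.2 hne⟩
      obtain ⟨N, hN⟩ := (msupp_range E'.subtype hinj (h i)).1 hs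
      exact ⟨N, fun _ => hN, fun h' => absurd hi (not_le.2 h')⟩
    · exact ⟨0, fun h' => absurd h' hi, fun _ => rfl⟩
  choose h' h1 h2 using hlift
  have hinc : ∀ x : MonoidAlgebra ℤ E', inc (φ.comp E'.subtype) x = inc φ (inc E'.subtype x) := by
    intro x
    refine (suppIn_univ x).induction
      (p := fun x => inc (φ.comp E'.subtype) x = inc φ (inc E'.subtype x)) ?_ ?_ ?_
    · simp only [map_zero]
    · intro x y hx hy
      simp only [map_add, hx, hy]
    · intro g _ a
      rw [inc_single, inc_single, inc_single]
      rfl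
  have hker : ∀ i, i ≤ m → ∀ x : Fin n → MonoidAlgebra ℤ E', vecMul x (h' i) = 0 →
      vecMul (fun a => inc E'.subtype (x a)) (h i) = 0 := by
    intro i hi x hx
    rw [← h1 i hi]
    funext b
    have := congrFun hx b
    have h3 := congrArg (inc E'.subtype) this
    simp only [vecMul, dotProduct, Pi.zero_apply, map_sum, map_mul, map_zero] at h3
    simpa only [vecMul, dotProduct, Pi.zero_apply, Matrix.map_apply] using h3
  refine ⟨E', h', ⟨S, rfl⟩, ?_, ?_, ?_⟩
  · intro x hx
    have h3 := h0 _ (hker 0 (Nat.zero_le m) x hx)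
    funext a
    exact inc_injective _ hinj ((congrFun h3 a).trans (map_zero _).symm)
  · have h3 := h1 m le_rfl
    rw [hm] at h3
    refine map_inc_injective E'.subtype hinj ?_
    dsimp only
    rw [h3, Matrix.map_zero _ (map_zero _)]
  · intro i x hx
    by_cases hi : i + 1 ≤ m
    · have h3 := hh i _ (hker (i + 1) hi x hx)
      have h4 : (h' i).map (inc (φ.comp E'.subtype)) = (h i).map (inc φ) := by
        rw [← h1 i (by omega), Matrix.map_map]
        ext1 a b
        exact hinc _
      rw [h4]
      simp only [hinc]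
      exact h3
    · have h3 : h' i = 0 := by
        rcases Nat.lt_or_ge m i with h4 | h4
        · exact h2 i h4
        · have h5 : i = m := by omega
          subst h5
          have h6 := h1 i le_rfl
          rw [hm] at h6
          refine map_inc_injective E'.subtype hinj ?_
          dsimp only
          rw [h6, Matrix.map_zero _ (map_zero _)]
      rw [h3, Matrix.map_zero _ (map_zero _), Matrix.vecMul_zero]

end Pool.Agent.Wald
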