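import Pool.Agent.Lib.MP_8f66f0_al_Wald.NilGr
import Pool.Agent.Lib.MP_8f66f0_al_Wald.NilGrLoc

/-! The property of a group `E` that Theorem N holds over `ℤE`. -/

set_option autoImplicit false

namespace Pool.Agent.Wald

open Matrix

/-- Theorem N holds over `ℤE`: for every tensor-nilpotent matrix `ν` over the group ring of a
group `G` containing `E`, all `K_1`-like invariants are trivial at `1 - ν`. -/
def NilV (E : Type) [Group E] : Prop :=
  ∀ (G : Type) [Group G] (φ : E →* G), Function.Injective φ → ∀ (n : ℕ)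
    (ν : Matrix (Fin n) (Fin n) (MonoidAlgebra ℤ G)) (m : ℕ) (B : ℕ → ℕ)
    (h : ∀ i, Matrix (Fin n) (Fin (B i)) (MonoidAlgebra ℤ E)),
    (∀ x : Fin n → MonoidAlgebra ℤ E, vecMul x (h 0) = 0 → x = 0) → h m = 0 →
    (∀ i (x : Fin n → MonoidAlgebra ℤ E), vecMul x (h (i + 1)) = 0 →
      vecMul (vecMul (fun a => inc φ (x a)) ν) ((h i).map (inc φ)) = 0) →
    IsUnit (1 - ν) →
    ∀ (K : Type) [CommGroup K] (κ : K1Fun (MonoidAlgebra ℤ G) K), κ.f (1 - ν) = 1

theorem nilV_of_c1 {E : Type} [Group E] (hC : C1 (MonoidAlgebra ℤ E))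
    (hP : PD1 (MonoidAlgebra ℤ E)) : NilV E := by
  intro G _ φ hφ n ν m B h h0 hm hh hu K _ κ
  exact nilVanish_gr φ hφ hC hP ν m B h h0 hm hh hu κ

/-- The property passes from the finitely generated subgroups to the group. -/
theorem nilV_local {E : Type} [Group E] (hE : ∀ E' : Subgroup E, E'.FG → NilV E') : NilV E := by
  intro G _ φ hφ n ν m B h h0 hm hh hu K _ κ
  obtain ⟨E', h', hfg, h0', hm', hh'⟩ := nilGrLoc_restrict φ ν m B h h0 hm hh
  exact hE E' hfg G (φ.comp E'.subtype) (hφ.comp E'.subtype_injective) n ν m B h' h0' hm' hh' hu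
    K κ

end Pool.Agent.Wald
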