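import Pool.Agent.Lib.MP_8f66f0_al_Wald.GrDefs
import Pool.Agent.Lib.MP_8f66f0_al_Wald.Supp
import Pool.Agent.Lib.MP_8f66f0_al_Wald.NilV

/-! Vanishing for path-type nilpotents over a group with the property `NilV`. -/

set_option autoImplicit false

namespace Pool.Agent.Wald

open Matrix

section PathVan

variable {E G : Type} [Group E] [Group G]

private theorem pathVan_injg (φ : E →* G) (hφ : Function.Injective φ) (g : G) :
    Function.Injective (fun e => φ e * g) := fun _ _ hab => hφ (mul_right_cancel hab)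

/-- The component of `x` in the coset `E g`. -/
private noncomputable def pathVan_cf (φ : E →* G) (hφ : Function.Injective φ) (g : G)
    (x : MonoidAlgebra ℤ G) : MonoidAlgebra ℤ E :=
  MonoidAlgebra.ofCoeff (x.coeff.comapDomain (fun e => φ e * g) (pathVan_injg φ hφ g).injOn)

private theorem pathVan_coeff_cf (φ : E →* G) (hφ : Function.Injective φ) (g : G)
    (x : MonoidAlgebra ℤ G) (e : E) : (pathVan_cf φ hφ g x).coeff e = x.coeff (φ e * g) := rfl

private theorem pathVan_cf_zero (φ : E →* G) (hφ : Function.Injective φ) (g : G) :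
    pathVan_cf φ hφ g 0 = 0 := by
  ext e
  rw [pathVan_coeff_cf]
  rfl

private theorem pathVan_cf_add (φ : E →* G) (hφ : Function.Injective φ) (g : G)
    (x y : MonoidAlgebra ℤ G) :
    pathVan_cf φ hφ g (x + y) = pathVan_cf φ hφ g x + pathVan_cf φ hφ g y := by
  ext e
  rw [pathVan_coeff_cf, MonoidAlgebra.coeff_add, MonoidAlgebra.coeff_add, Finsupp.add_apply,
    Finsupp.add_apply, pathVan_coeff_cf, pathVan_coeff_cf]

private theorem pathVan_cf_sum (φ : E →* G) (hφ : Function.Injective φ) (g : G) {ι : Type}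
    (s : Finset ι) (f : ι → MonoidAlgebra ℤ G) :
    pathVan_cf φ hφ g (∑ i ∈ s, f i) = ∑ i ∈ s, pathVan_cf φ hφ g (f i) := by
  classical
  induction s using Finset.induction_on with
  | empty => rw [Finset.sum_empty, Finset.sum_empty, pathVan_cf_zero]
  | insert a s ha ih => rw [Finset.sum_insert ha, Finset.sum_insert ha, pathVan_cf_add, ih]

private theorem pathVan_inc_single (φ : E →* G) (e : E) (a : ℤ) :
    inc φ (MonoidAlgebra.single e a) = MonoidAlgebra.single (φ e) a :=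
  MonoidAlgebra.mapDomain_single

/-- `cf g` is `ℤE`-linear. -/
private theorem pathVan_cf_mul (φ : E →* G) (hφ : Function.Injective φ) (g : G)
    (r : MonoidAlgebra ℤ E) (y : MonoidAlgebra ℤ G) :
    pathVan_cf φ hφ g (inc φ r * y) = r * pathVan_cf φ hφ g y := by
  refine (suppIn_univ r).induction
    (p := fun r => pathVan_cf φ hφ g (inc φ r * y) = r * pathVan_cf φ hφ g y) ?_ ?_ ?_
  · rw [map_zero, zero_mul, zero_mul, pathVan_cf_zero]
  · intro x x' h1 h2
    rw [map_add, add_mul, pathVan_cf_add, h1, h2, add_mul]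
  · intro e' _ a
    rw [pathVan_inc_single]
    ext e
    rw [pathVan_coeff_cf, MonoidAlgebra.coeff_single_mul_apply,
      MonoidAlgebra.coeff_single_mul_apply, pathVan_coeff_cf]
    have h3 : φ (e'⁻¹ * e) * g = (φ e')⁻¹ * (φ e * g) := by
      rw [map_mul φ, map_inv φ, mul_assoc]
    rw [h3]

/-- The coset `E g`. -/
private def pathVan_cs (φ : E →* G) (g : G) : Set G := {w | w * g⁻¹ ∈ φ.range}

private theorem pathVan_coeff_inc (φ : E →* G) (hφ : Function.Injective φ)
    (z : MonoidAlgebra ℤ E) (e : E) : (inc φ z).coeff (φ e) = z.coeff e := by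
  change ((MonoidAlgebra.mapDomain φ z).coeff) (φ e) = z.coeff e
  rw [MonoidAlgebra.coeff_mapDomain]
  exact Finsupp.mapDomain_apply hφ _ _

private theorem pathVan_coeff_inc' (φ : E →* G)
    (z : MonoidAlgebra ℤ E) (g : G) (hg : g ∉ φ.range) : (inc φ z).coeff g = 0 := by
  change ((MonoidAlgebra.mapDomain φ z).coeff) g = 0
  rw [MonoidAlgebra.coeff_mapDomain]
  exact Finsupp.mapDomain_of_notMem_range _ _ hg

private theorem pathVan_inc_inj (φ : E →* G) (hφ : Function.Injective φ) (z : MonoidAlgebra ℤ E)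
    (hz : inc φ z = 0) : z = 0 := by
  ext e
  rw [← pathVan_coeff_inc φ hφ, hz]
  rfl

private theorem pathVan_supp_inc (φ : E →* G) (z : MonoidAlgebra ℤ E) :
    SuppIn (φ.range : Set G) (inc φ z) := fun g hg => pathVan_coeff_inc' φ z g hg

private theorem pathVan_inc_cf (φ : E →* G) (hφ : Function.Injective φ) (g : G)
    (x : MonoidAlgebra ℤ G) : inc φ (pathVan_cf φ hφ g x) =
      rs (pathVan_cs φ g) x * MonoidAlgebra.single g⁻¹ (1 : ℤ) := by
  ext w
  rw [MonoidAlgebra.coeff_mul_single_apply, inv_inv, mul_one]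
  by_cases hw : w ∈ φ.range
  · obtain ⟨e, rfl⟩ := hw
    rw [pathVan_coeff_inc φ hφ, pathVan_coeff_cf, coeff_rs_mem]
    change φ e * g * g⁻¹ ∈ φ.range
    rw [mul_inv_cancel_right]
    exact ⟨e, rfl⟩
  · rw [pathVan_coeff_inc' φ _ _ hw, coeff_rs_notMem]
    intro h
    have h' : w * g * g⁻¹ ∈ φ.range := h
    rw [mul_inv_cancel_right] at h'
    exact hw h'

/-- Supports of the powers. -/
private theorem pathVan_pow {H : Subgroup G} {T : Type} (D : PathData G H T) {n : ℕ}
    (ty : Fin n → T) (ν : Matrix (Fin n) (Fin n) (MonoidAlgebra ℤ G))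
    (hν : ∀ a b, SuppIn (D.X (ty a) (ty b)) (ν a b)) (i : ℕ) :
    ∀ a b, SuppIn {g | g ∈ D.Y (ty a) ∧ D.len g = i} ((ν ^ i) a b) := by
  induction i with
  | zero =>
    intro a b
    rw [pow_zero, Matrix.one_apply]
    split_ifs
    · exact SuppIn.one ⟨D.one_mem _, D.len_one⟩
    · exact SuppIn.zero
  | succ i ih =>
    intro a b
    rw [pow_succ', Matrix.mul_apply]
    refine SuppIn.sum fun j _ => (hν a j).mul (ih j b) ?_
    rintro u hu v ⟨hv, hl⟩
    obtain ⟨h1, h2⟩ := D.add _ _ u hu v hv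
    exact ⟨h1, by rw [h2, hl]⟩

private theorem pathVan_powc {H : Subgroup G} {T : Type} (D : PathData G H T) {n : ℕ}
    (ty : Fin n → T) (ν c : Matrix (Fin n) (Fin n) (MonoidAlgebra ℤ G))
    (hν : ∀ a b, SuppIn (D.X (ty a) (ty b)) (ν a b))
    (hc : ∀ a b, SuppIn (D.Y (ty a)) (c a b)) (i : ℕ) :
    ∀ a b, SuppIn {g | g ∈ D.Y (ty a) ∧ i ≤ D.len g} ((ν ^ i * c) a b) := by
  induction i with
  | zero =>
    intro a b
    rw [pow_zero, Matrix.one_mul]
    exact (hc a b).mono fun g hg => ⟨hg, Nat.zero_le _⟩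
  | succ i ih =>
    intro a b
    rw [pow_succ', Matrix.mul_assoc, Matrix.mul_apply]
    refine SuppIn.sum fun j _ => (hν a j).mul (ih j b) ?_
    rintro u hu v ⟨hv, hl⟩
    obtain ⟨h1, h2⟩ := D.add _ _ u hu v hv
    exact ⟨h1, by omega⟩

private theorem pathVan_geom {n : ℕ} (ν c : Matrix (Fin n) (Fin n) (MonoidAlgebra ℤ G))
    (h2 : (1 - ν) * c = 1) (k : ℕ) : c = ∑ j ∈ Finset.range k, ν ^ j + ν ^ k * c := by
  induction k with
  | zero => rw [Finset.sum_range_zero, pow_zero, Matrix.one_mul, zero_add]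
  | succ k ih =>
    have h3 : c = 1 + ν * c := by
      rw [Matrix.sub_mul, Matrix.one_mul] at h2
      rw [← h2, sub_add_cancel]
    calc c = ∑ j ∈ Finset.range k, ν ^ j + ν ^ k * c := ih
      _ = ∑ j ∈ Finset.range k, ν ^ j + ν ^ k * (1 + ν * c) := by rw [← h3]
      _ = ∑ j ∈ Finset.range (k + 1), ν ^ j + ν ^ (k + 1) * c := by
        rw [Finset.sum_range_succ, Matrix.mul_add, Matrix.mul_one, ← Matrix.mul_assoc, pow_succ,
          add_assoc]

private theorem pathVan_nil {H : Subgroup G} {T : Type} (D : PathData G H T) {n : ℕ}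
    (ty : Fin n → T) (ν c : Matrix (Fin n) (Fin n) (MonoidAlgebra ℤ G))
    (hν : ∀ a b, SuppIn (D.X (ty a) (ty b)) (ν a b))
    (hc : ∀ a b, SuppIn (D.Y (ty a)) (c a b)) (h1 : c * (1 - ν) = 1) (h2 : (1 - ν) * c = 1) :
    ∃ m, ν ^ m = 0 := by
  classical
  let k : ℕ := (Finset.univ.sup fun ab : Fin n × Fin n =>
    (c ab.1 ab.2).coeff.support.sup D.len) + 1
  have hk : ∀ a b g, k ≤ D.len g → (c a b).coeff g = 0 := by
    intro a b g hg
    by_contra hne
    have e1 : D.len g ≤ (c a b).coeff.support.sup D.len :=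
      Finset.le_sup (Finsupp.mem_support_iff.mpr hne)
    have e2 : (c a b).coeff.support.sup D.len ≤ Finset.univ.sup fun ab : Fin n × Fin n =>
        (c ab.1 ab.2).coeff.support.sup D.len :=
      Finset.le_sup (f := fun ab : Fin n × Fin n => (c ab.1 ab.2).coeff.support.sup D.len)
        (Finset.mem_univ (a, b))
    have e3 : k ≤ Finset.univ.sup fun ab : Fin n × Fin n =>
        (c ab.1 ab.2).coeff.support.sup D.len := le_trans hg (e1.trans e2)
    exact absurd e3 (by
      change ¬ (_ + 1 ≤ _)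
      omega)
  have hz : ν ^ k * c = 0 := by
    ext1 a b
    rw [Matrix.zero_apply]
    ext g
    by_cases hg : k ≤ D.len g
    · have e1 := congrArg (fun M : Matrix (Fin n) (Fin n) (MonoidAlgebra ℤ G) =>
        (M a b).coeff g) (pathVan_geom ν c h2 k)
      have e2 : (c a b).coeff g = ((∑ j ∈ Finset.range k, ν ^ j) a b).coeff g +
          ((ν ^ k * c) a b).coeff g := e1
      have e3 : ((∑ j ∈ Finset.range k, ν ^ j) a b).coeff g = 0 := by
        have e4 : SuppIn {g | D.len g < k} ((∑ j ∈ Finset.range k, ν ^ j) a b) := by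
          rw [Matrix.sum_apply]
          refine SuppIn.sum fun j hj => (pathVan_pow D ty ν hν j a b).mono ?_
          rintro w ⟨_, hw⟩
          change D.len w < k
          rw [hw]
          exact Finset.mem_range.mp hj
        exact e4 g (fun h => absurd (show D.len g < k from h) (not_lt.mpr hg))
      rw [hk a b g hg, e3, zero_add] at e2
      rw [← e2]
      rfl
    · rw [pathVan_powc D ty ν c hν hc k a b g (fun h => hg h.2)]
      rfl
  refine ⟨k, ?_⟩
  have e1 : ν ^ k * c * (1 - ν) = ν ^ k := by rw [Matrix.mul_assoc, h1, Matrix.mul_one]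
  rw [← e1, hz, Matrix.zero_mul]

/-- The key step. -/
private theorem pathVan_key (φ : E →* G) {T : Type}
    (D : PathData G φ.range T) {n : ℕ} (ty : Fin n → T)
    (y w : Fin n → MonoidAlgebra ℤ G) (g : G)
    (hy : ∀ b, SuppIn {u | ∃ i, u ∈ D.X i (ty b)} (y b)) (hw : ∀ b, SuppIn (D.Y (ty b)) (w b))
    (hsum : ∑ b, y b * w b = 0) : ∑ b, y b * rs (pathVan_cs φ g) (w b) = 0 := by
  let Sg : Set G := {z | ∃ i j u v, u ∈ D.X i j ∧ v ∈ D.Y j ∧ v ∈ pathVan_cs φ g ∧ z = u * v}
  have e1 : ∀ b, rs Sg (y b * w b) = y b * rs (pathVan_cs φ g) (w b) := by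
    intro b
    have e2 : y b * w b = y b * rs (pathVan_cs φ g) (w b) +
        y b * rs (pathVan_cs φ g)ᶜ (w b) := by
      rw [← mul_add, rs_add_compl]
    have e3 : SuppIn Sg (y b * rs (pathVan_cs φ g) (w b)) := by
      have e4 : SuppIn (D.Y (ty b) ∩ pathVan_cs φ g) (rs (pathVan_cs φ g) (w b)) := by
        intro h hh
        by_cases h1 : h ∈ D.Y (ty b)
        · exact rs_supp _ _ h (fun h2 => hh ⟨h1, h2⟩)
        · exact ((hw b).rs _) h h1
      refine (hy b).mul e4 ?_
      rintro u ⟨i, hu⟩ v ⟨hv1, hv2⟩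
      exact ⟨i, ty b, u, v, hu, hv1, hv2, rfl⟩
    have e5 : SuppIn Sgᶜ (y b * rs (pathVan_cs φ g)ᶜ (w b)) := by
      have e4 : SuppIn (D.Y (ty b) ∩ (pathVan_cs φ g)ᶜ) (rs (pathVan_cs φ g)ᶜ (w b)) := by
        intro h hh
        by_cases h1 : h ∈ D.Y (ty b)
        · exact rs_supp _ _ h (fun h2 => hh ⟨h1, h2⟩)
        · exact ((hw b).rs _) h h1
      refine (hy b).mul e4 ?_
      rintro u' ⟨i', hu'⟩ v' ⟨hv1', hv2'⟩
      rintro ⟨i, j, u, v, hu, hv1, hv2, huv⟩
      have e6 : u⁻¹ * u' ∈ φ.range := D.uniq i j i' (ty b) u hu v hv1 u' hu' v' hv1' huv.symm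
      apply hv2'
      have e7 : v' * g⁻¹ = (u⁻¹ * u')⁻¹ * (v * g⁻¹) := by
        have e8 : v' = (u⁻¹ * u')⁻¹ * v := by
          rw [_root_.mul_inv_rev, inv_inv, mul_assoc, ← huv, inv_mul_cancel_left]
        rw [e8, mul_assoc]
      change v' * g⁻¹ ∈ φ.range
      rw [e7]
      exact φ.range.mul_mem (φ.range.inv_mem e6) hv2
    rw [e2, map_add, rs_eq_self e3, rs_eq_zero e5 (Set.disjoint_left.mpr fun z hz hz' => hz' hz),
      add_zero]
  have e6 : rs Sg (∑ b, y b * w b) = ∑ b, y b * rs (pathVan_cs φ g) (w b) := by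
    rw [map_sum]
    exact Finset.sum_congr rfl fun b _ => e1 b
  rw [← e6, hsum, map_zero]

end PathVan

theorem path_vanish_n {E G : Type} [Group E] [Group G] (φ : E →* G) (hφ : Function.Injective φ)
    (hN : NilV E) {T : Type}
    (D : PathData G φ.range T) {n : ℕ} (ty : Fin n → T)
    (ν c : Matrix (Fin n) (Fin n) (MonoidAlgebra ℤ G))
    (hν : ∀ a b, SuppIn (D.X (ty a) (ty b)) (ν a b)) (hc : ∀ a b, SuppIn (D.Y (ty a)) (c a b))
    (h1 : c * (1 - ν) = 1) (h2 : (1 - ν) * c = 1)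
    {K : Type} [CommGroup K] (κ : K1Fun (MonoidAlgebra ℤ G) K) :
    κ.f (1 - ν) = 1 := by
  classical
  obtain ⟨m, hm⟩ := pathVan_nil D ty ν c hν hc h1 h2
  let F : ℕ → Finset G := fun i => Finset.univ.biUnion fun ab : Fin n × Fin n =>
    ((ν ^ i) ab.1 ab.2).coeff.support
  have hF : ∀ i a b g, g ∉ F i → ((ν ^ i) a b).coeff g = 0 := by
    intro i a b g hg
    by_contra hne
    exact hg (Finset.mem_biUnion.mpr ⟨(a, b), Finset.mem_univ _, Finsupp.mem_support_iff.mpr hne⟩)
  let e : ∀ i, (Fin n × F i) ≃ Fin (Fintype.card (Fin n × F i)) := fun i => Fintype.equivFin _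
  let h : ∀ i, Matrix (Fin n) (Fin (Fintype.card (Fin n × F i))) (MonoidAlgebra ℤ E) :=
    fun i => Matrix.of fun a k =>
      pathVan_cf φ hφ ((e i).symm k).2.1 ((ν ^ i) a ((e i).symm k).1)
  have hker : ∀ i (x : Fin n → MonoidAlgebra ℤ E), vecMul x (h i) = 0 →
      vecMul (fun a => inc φ (x a)) (ν ^ i) = 0 := by
    intro i x hx
    funext b
    rw [Pi.zero_apply]
    have e0 : ∀ g ∈ F i, pathVan_cf φ hφ g (vecMul (fun a => inc φ (x a)) (ν ^ i) b) = 0 := by
      intro g hg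
      have e1 := congrFun hx (e i (b, ⟨g, hg⟩))
      rw [Pi.zero_apply] at e1
      rw [← e1]
      change pathVan_cf φ hφ g (∑ a, inc φ (x a) * (ν ^ i) a b) =
        ∑ a, x a * pathVan_cf φ hφ ((e i).symm (e i (b, ⟨g, hg⟩))).2.1
          ((ν ^ i) a ((e i).symm (e i (b, ⟨g, hg⟩))).1)
      rw [Equiv.symm_apply_apply, pathVan_cf_sum]
      exact Finset.sum_congr rfl fun a _ => pathVan_cf_mul φ hφ g _ _
    have e2 : SuppIn {w | ∃ u ∈ (φ.range : Set G), ∃ g ∈ F i, w = u * g}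
        (vecMul (fun a => inc φ (x a)) (ν ^ i) b) := by
      change SuppIn _ (∑ a, inc φ (x a) * (ν ^ i) a b)
      refine SuppIn.sum fun a _ => (pathVan_supp_inc φ (x a)).mul
        (T := (F i : Set G)) (fun g hg => hF i a b g hg) ?_
      intro u hu g hg
      exact ⟨u, hu, g, hg, rfl⟩
    ext w
    by_cases hw : w ∈ {w | ∃ u ∈ (φ.range : Set G), ∃ g ∈ F i, w = u * g}
    · obtain ⟨u, ⟨e', rfl⟩, g, hg, rfl⟩ := hw
      rw [← pathVan_coeff_cf φ hφ g, e0 g hg]
      rfl
    · rw [e2 w hw]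
      rfl
  refine hN G φ hφ n ν m (fun i => Fintype.card (Fin n × F i)) h ?_ ?_ ?_ ?_ K κ
  · intro x hx
    have e1 := hker 0 x hx
    rw [pow_zero, Matrix.vecMul_one] at e1
    funext a
    exact pathVan_inc_inj φ hφ _ (congrFun e1 a)
  · ext1 a k
    change pathVan_cf φ hφ ((e m).symm k).2.1 ((ν ^ m) a ((e m).symm k).1) = 0
    rw [hm, Matrix.zero_apply, pathVan_cf_zero]
  · intro i x hx
    have e1 := hker (i + 1) x hx
    rw [pow_succ', ← Matrix.vecMul_vecMul] at e1
    funext k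
    rw [Pi.zero_apply]
    have hy : ∀ b, SuppIn {u | ∃ i, u ∈ D.X i (ty b)} (vecMul (fun a => inc φ (x a)) ν b) := by
      intro b
      change SuppIn _ (∑ a, inc φ (x a) * ν a b)
      refine SuppIn.sum fun a _ => (pathVan_supp_inc φ (x a)).mul (hν a b) ?_
      intro u hu v hv
      exact ⟨ty a, (D.mulX (ty a) (ty b) u hu v hv).2⟩
    have e3 := pathVan_key φ D ty (vecMul (fun a => inc φ (x a)) ν)
      (fun b => (ν ^ i) b ((e i).symm k).1) ((e i).symm k).2.1 hy
      (fun b => (pathVan_pow D ty ν hν i b _).mono fun g hg => hg.1)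
      (congrFun e1 ((e i).symm k).1)
    change ∑ b, vecMul (fun a => inc φ (x a)) ν b *
      inc φ (pathVan_cf φ hφ ((e i).symm k).2.1 ((ν ^ i) b ((e i).symm k).1)) = 0
    have e4 : ∀ b, vecMul (fun a => inc φ (x a)) ν b *
        inc φ (pathVan_cf φ hφ ((e i).symm k).2.1 ((ν ^ i) b ((e i).symm k).1)) =
        vecMul (fun a => inc φ (x a)) ν b * rs (pathVan_cs φ ((e i).symm k).2.1)
          ((ν ^ i) b ((e i).symm k).1) * MonoidAlgebra.single ((e i).symm k).2.1⁻¹ (1 : ℤ) := by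
      intro b
      rw [pathVan_inc_cf, mul_assoc]
    rw [Finset.sum_congr rfl fun b _ => e4 b, ← Finset.sum_mul, e3, zero_mul]
  · exact ⟨⟨1 - ν, c, h2, h1⟩, rfl⟩

end Pool.Agent.Wald
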