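import Mathlib
import Pool.Agent.Lib.MP_8f66f0_al_Wald.Defs

/-! Condition (C1) for the modules `Λ^(J)` follows from condition (C1) for `R` if `Λ` is
projective over `R`. -/

set_option autoImplicit false

namespace Pool.Agent.Wald

open Finsupp

section C1Fmod

variable {R : Type} [Ring R]

/-- (C1) for free modules of arbitrary rank -/
private theorem C1Fmod_free (hC : C1 R) {U V : Type} (G : (U →₀ R) →ₗ[R] (V →₀ R)) (s : ℕ)
    (k : Fin s → (U →₀ R)) (hk : ∀ l, G (k l) = 0) :
    ∃ (s' : ℕ) (k' : Fin s' → (U →₀ R)) (T : ℕ) (ρ : Matrix (Fin T) (Fin s) R)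
      (ρ' : Matrix (Fin T) (Fin s') R), (∀ l, G (k' l) = 0) ∧
      (∀ t, ∑ l, ρ t l • k l + ∑ l, ρ' t l • k' l = 0) ∧
      ∀ c : Fin s → R, ∑ l, c l • k l = 0 → ∃ z : Fin T → R, Matrix.vecMul z ρ = c ∧
        Matrix.vecMul z ρ' = 0 := by
  classical
  set U0 : Finset U := Finset.univ.biUnion (fun l => (k l).support) with hU0
  set V0 : Finset V := U0.biUnion (fun u => (G (single u 1)).support) with hV0
  set a := U0.card with ha
  set b := V0.card with hb
  set e : Fin a → U := fun i => (U0.equivFin.symm i : U) with he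
  set f : Fin b → V := fun j => (V0.equivFin.symm j : V) with hf
  have heinj : Function.Injective e := fun i j h => U0.equivFin.symm.injective (Subtype.ext h)
  set A : (Fin a → R) → (U →₀ R) := fun x => ∑ i, x i • single (e i) 1 with hA
  have hAe : ∀ x i, A x (e i) = x i := by
    intro x i
    rw [hA]
    simp only
    rw [Finsupp.finsetSum_apply, Finset.sum_eq_single i]
    · simp
    · intro j _ hj
      rw [Finsupp.smul_apply, Finsupp.single_eq_of_ne (fun h => hj (heinj h).symm), smul_zero]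
    · intro h
      exact absurd (Finset.mem_univ i) h
  have hA0 : ∀ x u, u ∉ U0 → A x u = 0 := by
    intro x u hu
    rw [hA]
    simp only
    rw [Finsupp.finsetSum_apply]
    refine Finset.sum_eq_zero fun i _ => ?_
    rw [Finsupp.smul_apply, Finsupp.single_eq_of_ne, smul_zero]
    rintro rfl
    exact hu (U0.equivFin.symm i).2
  have hsurj : ∀ u ∈ U0, ∃ i, e i = u := by
    intro u hu
    exact ⟨U0.equivFin ⟨u, hu⟩, by rw [he]; simp⟩
  have hAk : ∀ l, A (fun i => k l (e i)) = k l := by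
    intro l
    ext u
    by_cases hu : u ∈ U0
    · obtain ⟨i, rfl⟩ := hsurj u hu
      rw [hAe]
    · rw [hA0 _ _ hu]
      by_contra hne
      apply hu
      rw [hU0, Finset.mem_biUnion]
      exact ⟨l, Finset.mem_univ l, Finsupp.mem_support_iff.2 (Ne.symm hne)⟩
  have hGA : ∀ x, G (A x) = ∑ i, x i • G (single (e i) 1) := by
    intro x
    rw [hA]
    simp only
    rw [map_sum]
    exact Finset.sum_congr rfl fun i _ => map_smul _ _ _
  set h : Matrix (Fin a) (Fin b) R := fun i j => G (single (e i) 1) (f j) with hh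
  set K : Matrix (Fin s) (Fin a) R := fun l i => k l (e i) with hK
  have hGh : ∀ x j, G (A x) (f j) = Matrix.vecMul x h j := by
    intro x j
    rw [hGA, Finsupp.finsetSum_apply]
    rfl
  have hKh : K * h = 0 := by
    funext l j
    rw [Matrix.mul_apply_eq_vecMul, ← hGh]
    show G (A (fun i => k l (e i))) (f j) = 0
    rw [hAk, hk]
    rfl
  obtain ⟨s', k', T, ρ, ρ', h1, h2, h3⟩ := hC a b s h K hKh
  refine ⟨s', fun l => A (k' l), T, ρ, ρ', ?_, ?_, ?_⟩
  · intro l
    ext v
    by_cases hv : v ∈ V0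
    · obtain ⟨j, rfl⟩ : ∃ j, f j = v := ⟨V0.equivFin ⟨v, hv⟩, by rw [hf]; simp⟩
      rw [hGh, ← Matrix.mul_apply_eq_vecMul, h1]
      rfl
    · rw [hGA, Finsupp.finsetSum_apply]
      refine Finset.sum_eq_zero fun i _ => ?_
      rw [Finsupp.smul_apply]
      have : (G (single (e i) 1)) v = 0 := by
        by_contra hne
        apply hv
        rw [hV0, Finset.mem_biUnion]
        exact ⟨e i, (U0.equivFin.symm i).2, Finsupp.mem_support_iff.2 hne⟩
      rw [this, smul_zero]
  · intro t
    ext u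
    by_cases hu : u ∈ U0
    · obtain ⟨i, rfl⟩ := hsurj u hu
      rw [Finsupp.add_apply, Finsupp.finsetSum_apply, Finsupp.finsetSum_apply]
      have h4 := congrFun (congrFun h2 t) i
      rw [Matrix.add_apply, Matrix.mul_apply, Matrix.mul_apply] at h4
      simp only [Finsupp.smul_apply, hAe, smul_eq_mul]
      exact h4
    · rw [Finsupp.add_apply, Finsupp.finsetSum_apply, Finsupp.finsetSum_apply]
      rw [Finset.sum_eq_zero, Finset.sum_eq_zero, add_zero]
      · rfl
      · intro l _
        rw [Finsupp.smul_apply, hA0 _ _ hu, smul_zero]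
      · intro l _
        rw [Finsupp.smul_apply, ← hAk l, hA0 _ _ hu, smul_zero]
  · intro c hc
    apply h3
    funext i
    have h4 := DFunLike.congr_fun hc (e i)
    rw [Finsupp.finsetSum_apply] at h4
    exact h4

/-- (C1) for projective modules -/
private theorem C1Fmod_proj (hC : C1 R) {M M' : Type} [AddCommGroup M] [Module R M]
    [AddCommGroup M'] [Module R M'] [Module.Projective R M] [Module.Projective R M']
    (G : M →ₗ[R] M') (s : ℕ) (k : Fin s → M) (hk : ∀ l, G (k l) = 0) :
    ∃ (s' : ℕ) (k' : Fin s' → M) (T : ℕ) (ρ : Matrix (Fin T) (Fin s) R)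
      (ρ' : Matrix (Fin T) (Fin s') R), (∀ l, G (k' l) = 0) ∧
      (∀ t, ∑ l, ρ t l • k l + ∑ l, ρ' t l • k' l = 0) ∧
      ∀ c : Fin s → R, ∑ l, c l • k l = 0 → ∃ z : Fin T → R, Matrix.vecMul z ρ = c ∧
        Matrix.vecMul z ρ' = 0 := by
  obtain ⟨i, hi⟩ := Module.projective_def'.1 (inferInstance : Module.Projective R M)
  obtain ⟨i', hi'⟩ := Module.projective_def'.1 (inferInstance : Module.Projective R M')
  set p : (M →₀ R) →ₗ[R] M := Finsupp.linearCombination R id with hp
  have hpi : ∀ x, p (i x) = x := fun x => LinearMap.congr_fun hi x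
  have hi'inj : ∀ x, i' x = 0 → x = 0 := by
    intro x hx
    have := LinearMap.congr_fun hi' x
    rw [LinearMap.comp_apply, hx, map_zero] at this
    exact this.symm
  set Gt : (M →₀ R) →ₗ[R] ((M ⊕ M') →₀ R) :=
    (Finsupp.sumFinsuppLEquivProdFinsupp R).symm.toLinearMap ∘ₗ
      ((LinearMap.id - i ∘ₗ p).prod (i' ∘ₗ G ∘ₗ p)) with hGt
  have hGt0 : ∀ u, Gt u = 0 ↔ u = i (p u) ∧ G (p u) = 0 := by
    intro u
    rw [hGt, LinearMap.comp_apply]
    constructor
    · intro h
      have h1 : (LinearMap.id - i ∘ₗ p).prod (i' ∘ₗ G ∘ₗ p) u = 0 :=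
        (LinearEquiv.map_eq_zero_iff _).1 h
      have h2 := congrArg Prod.fst h1
      have h3 := congrArg Prod.snd h1
      exact ⟨sub_eq_zero.1 h2, hi'inj _ h3⟩
    · rintro ⟨h1, h2⟩
      have h3 : (LinearMap.id - i ∘ₗ p).prod (i' ∘ₗ G ∘ₗ p) u = 0 := by
        apply Prod.ext
        · exact sub_eq_zero.2 h1
        · show i' (G (p u)) = 0
          rw [h2, map_zero]
      rw [h3, map_zero]
  obtain ⟨s', k', T, ρ, ρ', h1, h2, h3⟩ := C1Fmod_free hC Gt s (fun l => i (k l)) (fun l =>
    (hGt0 _).2 ⟨by rw [hpi], by rw [hpi, hk]⟩)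
  refine ⟨s', fun l => p (k' l), T, ρ, ρ', fun l => ((hGt0 _).1 (h1 l)).2, ?_, ?_⟩
  · intro t
    have h4 := congrArg p (h2 t)
    rw [map_add, map_sum, map_sum, map_zero] at h4
    simp only [map_smul, hpi] at h4
    exact h4
  · intro c hc
    apply h3
    have h4 := congrArg i hc
    rw [map_sum, map_zero] at h4
    simp only [map_smul] at h4
    exact h4

private theorem C1Fmod_finsupp (Λ J : Type) [AddCommGroup Λ] [Module R Λ]
    [Module.Projective R Λ] : Module.Projective R (J →₀ Λ) := by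
  classical
  exact Module.Projective.of_equiv (finsuppLequivDFinsupp (ι := J) (M := Λ) R).symm

theorem c1F_of_c1 {R Λ : Type} [Ring R] [Ring Λ] [Module R Λ] [IsScalarTower R Λ Λ]
    (hC : C1 R) [Module.Projective R Λ] : C1F R Λ := by
  intro J J' g s k hk
  have := C1Fmod_finsupp (R := R) Λ J
  have := C1Fmod_finsupp (R := R) Λ J'
  exact C1Fmod_proj hC ((bc Λ g).restrictScalars R) s k hk

end C1Fmod

end Pool.Agent.Wald
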