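import Pool.Agent.Lib.MP_8f66f0_al_Wald.DiagDefs

/-! Condition (C1) for an integral group ring, from `GProp` for the group rings over the prime
fields. -/

set_option autoImplicit false

namespace Pool.Agent.Wald

open Matrix

/-- `GProp` with arbitrary finite index types. -/
private theorem C1Int_gprop {S : Type} [Ring S] (hS : GProp S) (A B I : Type) [Fintype A]
    [Fintype B] [Fintype I] (h : Matrix A B S) (k : Matrix I A S) (hk : k * h = 0) :
    ∃ (L : Type) (_ : Fintype L) (r : Matrix I L S) (k' : Matrix L A S), k = r * k' ∧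
      k' * h = 0 ∧ ∀ c : I → S, vecMul c k = 0 → vecMul c r = 0 := by
  classical
  obtain ⟨l, r, k', h1, h2, h3⟩ := hS (Fintype.card A) (Fintype.card B) (Fintype.card I)
    (h.submatrix (Fintype.equivFin A).symm (Fintype.equivFin B).symm)
    (k.submatrix (Fintype.equivFin I).symm (Fintype.equivFin A).symm) (by
      rw [Matrix.submatrix_mul_equiv, hk]; rfl)
  refine ⟨Fin l, inferInstance, r.submatrix (Fintype.equivFin I) id,
    k'.submatrix id (Fintype.equivFin A), ?_, ?_, ?_⟩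
  · have h4 := congrArg (fun M : Matrix _ _ S =>
      M.submatrix (Fintype.equivFin I) (Fintype.equivFin A)) h1
    simp only [Matrix.submatrix_submatrix] at h4
    have h5 : (k.submatrix ((Fintype.equivFin I).symm ∘ (Fintype.equivFin I))
        ((Fintype.equivFin A).symm ∘ (Fintype.equivFin A))) = k := by
      ext i j; simp
    rw [h5] at h4
    rw [h4]
    ext i j
    simp [Matrix.mul_apply]
  · have h4 := congrArg (fun M : Matrix _ _ S =>
      M.submatrix id (Fintype.equivFin B)) h2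
    ext i j
    have h5 := congrFun (congrFun h4 i) j
    simp only [Matrix.submatrix_apply, Matrix.mul_apply, id_eq, Equiv.symm_apply_apply,
      Matrix.zero_apply] at h5
    rw [Matrix.mul_apply]
    simp only [Matrix.submatrix_apply, id_eq, Matrix.zero_apply]
    rw [← h5]
    exact (Equiv.sum_comp (Fintype.equivFin A).symm
      (fun a => k' i ((Fintype.equivFin A) a) * h a j)).symm.trans
      (Finset.sum_congr rfl fun a _ => by rw [Equiv.apply_symm_apply])
  · intro c hc
    have h4 : vecMul (c ∘ (Fintype.equivFin I).symm)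
        (k.submatrix (Fintype.equivFin I).symm (Fintype.equivFin A).symm) = 0 := by
      funext j
      have h5 := congrFun hc ((Fintype.equivFin A).symm j)
      rw [Pi.zero_apply] at h5
      rw [Pi.zero_apply, ← h5]
      exact Equiv.sum_comp (Fintype.equivFin I).symm (fun i => c i * k i _)
    have h6 := h3 _ h4
    funext j
    have h7 := congrFun h6 j
    rw [Pi.zero_apply] at h7
    rw [Pi.zero_apply, ← h7]
    exact (Equiv.sum_comp (Fintype.equivFin I).symm
      (fun i => c i * r ((Fintype.equivFin I) i) j)).symm.trans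
      (Finset.sum_congr rfl fun a _ => by
        change c _ * r ((Fintype.equivFin I) ((Fintype.equivFin I).symm a)) j = c _ * r a j
        rw [Equiv.apply_symm_apply])

section

variable {E : Type} [Group E]

/-- The reduction. -/
private noncomputable abbrev C1Int_π (E : Type) [Group E] (F : Type) [Ring F] :
    MonoidAlgebra ℤ E →+* MonoidAlgebra F E :=
  MonoidAlgebra.mapRingHom E (Int.castRingHom F)

private theorem C1Int_surj (p : ℕ) : Function.Surjective (C1Int_π E (ZMod p)) := by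
  intro x
  refine ⟨MonoidAlgebra.ofCoeff (x.coeff.mapRange (fun a : ZMod p => (ZMod.cast a : ℤ))
    ZMod.cast_zero), ?_⟩
  ext g
  rw [MonoidAlgebra.coeff_mapRingHom, MonoidAlgebra.coeff_ofCoeff, Finsupp.mapRange_apply]
  exact ZMod.intCast_zmod_cast _

private theorem C1Int_kerp (p : ℕ) (x : MonoidAlgebra ℤ E) (hx : C1Int_π E (ZMod p) x = 0) :
    ∃ y : MonoidAlgebra ℤ E, x = p • y := by
  refine ⟨MonoidAlgebra.ofCoeff (x.coeff.mapRange (fun a : ℤ => a / p) (Int.zero_ediv _)), ?_⟩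
  ext g
  have h1 : (Int.castRingHom (ZMod p)) (x.coeff g) = 0 := by
    rw [← MonoidAlgebra.coeff_mapRingHom, hx]; rfl
  rw [eq_intCast, ZMod.intCast_zmod_eq_zero_iff_dvd] at h1
  rw [MonoidAlgebra.coeff_smul, Finsupp.smul_apply, MonoidAlgebra.coeff_ofCoeff,
    Finsupp.mapRange_apply, nsmul_eq_mul]
  exact (Int.mul_ediv_cancel' h1).symm

private theorem C1Int_smulp (p : ℕ) (y : MonoidAlgebra ℤ E) :
    C1Int_π E (ZMod p) (p • y) = 0 := by
  ext g
  rw [MonoidAlgebra.coeff_mapRingHom, MonoidAlgebra.coeff_smul, Finsupp.smul_apply]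
  rw [eq_intCast, nsmul_eq_mul, Int.cast_mul]
  simp

private theorem C1Int_tf (N : ℕ) (hN : 0 < N) (x : MonoidAlgebra ℤ E) (hx : N • x = 0) :
    x = 0 := by
  ext g
  have h1 : (N • x).coeff g = 0 := by rw [hx]; rfl
  rw [MonoidAlgebra.coeff_smul, Finsupp.smul_apply, nsmul_eq_mul] at h1
  rcases mul_eq_zero.mp h1 with h2 | h2
  · exact absurd (by exact_mod_cast h2 : N = 0) (by omega)
  · exact h2

private theorem C1Int_inj : Function.Injective (C1Int_π E ℚ) := by
  rw [injective_iff_map_eq_zero]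
  intro x hx
  ext g
  have h1 : (Int.castRingHom ℚ) (x.coeff g) = 0 := by
    rw [← MonoidAlgebra.coeff_mapRingHom, hx]; rfl
  rw [eq_intCast] at h1
  have h2 : x.coeff g = 0 := by exact_mod_cast h1
  rw [h2]; rfl

private theorem C1Int_den (x : MonoidAlgebra ℚ E) :
    ∃ N : ℕ, 0 < N ∧ ∃ y : MonoidAlgebra ℤ E, N • x = C1Int_π E ℚ y := by
  classical
  let N : ℕ := ∏ g ∈ x.coeff.support, (x.coeff g).den
  have hN : 0 < N := Finset.prod_pos fun g _ => (x.coeff g).pos
  refine ⟨N, hN, MonoidAlgebra.ofCoeff (x.coeff.mapRange (fun a : ℚ => (N * a).num)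
    (by rw [mul_zero]; rfl)), ?_⟩
  ext g
  rw [MonoidAlgebra.coeff_mapRingHom, MonoidAlgebra.coeff_ofCoeff, Finsupp.mapRange_apply,
    MonoidAlgebra.coeff_smul, Finsupp.smul_apply, nsmul_eq_mul, eq_intCast]
  by_cases hg : g ∈ x.coeff.support
  · obtain ⟨q, hq⟩ := Finset.dvd_prod_of_mem (fun g => (x.coeff g).den) hg
    have h1 : (N : ℚ) * x.coeff g = ((q * (x.coeff g).num : ℤ) : ℚ) := by
      have h2 : (N : ℚ) = (x.coeff g).den * q := by exact_mod_cast hq
      rw [h2, Int.cast_mul, mul_comm ((x.coeff g).den : ℚ), mul_assoc, Rat.den_mul_eq_num]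
      norm_cast
    rw [h1]
    norm_cast
  · rw [Finsupp.notMem_support_iff.mp hg, mul_zero]; rfl

/-- Clearing denominators of a matrix. -/
private theorem C1Int_mden {I J : Type} [Fintype I] [Fintype J]
    (M : Matrix I J (MonoidAlgebra ℚ E)) :
    ∃ N : ℕ, 0 < N ∧ ∃ M' : Matrix I J (MonoidAlgebra ℤ E), N • M = M'.map (C1Int_π E ℚ) := by
  classical
  choose f hf g hg using fun ij : I × J => C1Int_den (M ij.1 ij.2)
  have h1 : ∀ ij : I × J, ∃ q : ℕ, ∏ x, f x = f ij * q := fun ij =>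
    Finset.dvd_prod_of_mem f (Finset.mem_univ ij)
  choose q hq using h1
  refine ⟨∏ x, f x, Finset.prod_pos fun x _ => hf x, fun i j => q (i, j) • g (i, j), ?_⟩
  ext1 i j
  change (∏ x, f x) • M i j = C1Int_π E ℚ (q (i, j) • g (i, j))
  rw [map_nsmul, ← hg (i, j), smul_smul, hq (i, j), mul_comm]

private theorem C1Int_mlift {I J : Type} (p : ℕ) (M : Matrix I J (MonoidAlgebra (ZMod p) E)) :
    ∃ M' : Matrix I J (MonoidAlgebra ℤ E), M'.map (C1Int_π E (ZMod p)) = M := by
  choose f hf using fun i j => C1Int_surj (E := E) p (M i j)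
  exact ⟨f, by ext1 i j; exact hf i j⟩

private theorem C1Int_mker {I J : Type} (p : ℕ) (M : Matrix I J (MonoidAlgebra ℤ E))
    (hM : M.map (C1Int_π E (ZMod p)) = 0) :
    ∃ M' : Matrix I J (MonoidAlgebra ℤ E), M = p • M' := by
  choose f hf using fun i j => C1Int_kerp (E := E) p (M i j)
    (congrFun (congrFun hM i) j)
  exact ⟨f, by ext1 i j; exact hf i j⟩

private theorem C1Int_mtf {I J : Type} (N : ℕ) (hN : 0 < N) (M : Matrix I J (MonoidAlgebra ℤ E))
    (hM : N • M = 0) : M = 0 := by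
  ext1 i j
  exact C1Int_tf N hN _ (congrFun (congrFun hM i) j)

private theorem C1Int_vmap {I J : Type} [Fintype I] (F : Type) [Ring F]
    (c : I → MonoidAlgebra ℤ E) (M : Matrix I J (MonoidAlgebra ℤ E)) :
    vecMul (C1Int_π E F ∘ c) (M.map (C1Int_π E F)) = C1Int_π E F ∘ vecMul c M := by
  funext j
  simp only [vecMul, dotProduct, Function.comp_apply, map_sum, map_mul, Matrix.map_apply]

/-- The inductive statement. -/
private def C1Int_St {A B I : Type} [Fintype A] [Fintype I]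
    (h : Matrix A B (MonoidAlgebra ℤ E)) (k : Matrix I A (MonoidAlgebra ℤ E)) (N : ℕ) : Prop :=
  ∃ (J : Type) (_ : Fintype J) (T : Type) (_ : Fintype T)
    (kp : Matrix J A (MonoidAlgebra ℤ E)) (P : Matrix I J (MonoidAlgebra ℤ E))
    (ρ : Matrix T J (MonoidAlgebra ℤ E)), P * kp = k ∧ kp * h = 0 ∧ ρ * kp = 0 ∧
    ∀ c : I → MonoidAlgebra ℤ E, vecMul c k = 0 →
      ∃ z : T → MonoidAlgebra ℤ E, vecMul z ρ = N • vecMul c P

private theorem C1Int_start {A B I : Type} [Fintype A] [Fintype B] [Fintype I]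
    (hQ : GProp (MonoidAlgebra ℚ E))
    (h : Matrix A B (MonoidAlgebra ℤ E)) (k : Matrix I A (MonoidAlgebra ℤ E)) (hk : k * h = 0) :
    ∃ N : ℕ, 0 < N ∧ C1Int_St h k N := by
  classical
  obtain ⟨L, iL, r0, k0, e1, e2, e3⟩ := C1Int_gprop hQ A B I (h.map (C1Int_π E ℚ))
    (k.map (C1Int_π E ℚ)) (by rw [← Matrix.map_mul, hk]; exact Matrix.map_zero _ (map_zero _))
  obtain ⟨N0, hN0, k1, hk1⟩ := C1Int_mden k0
  obtain ⟨N1, hN1, r1, hr1⟩ := C1Int_mden r0
  have f1 : (N1 * N0) • k = r1 * k1 := by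
    apply Matrix.map_injective (C1Int_inj (E := E))
    have g1 : ((N1 * N0) • k).map (C1Int_π E ℚ) = (N1 * N0) • k.map (C1Int_π E ℚ) := by
      ext1 i j
      simp only [Matrix.map_apply, Matrix.smul_apply, map_nsmul]
    change ((N1 * N0) • k).map (C1Int_π E ℚ) = (r1 * k1).map (C1Int_π E ℚ)
    rw [g1, Matrix.map_mul, ← hk1, ← hr1, e1, Matrix.smul_mul, Matrix.mul_smul, smul_smul]
  have f2 : k1 * h = 0 := by
    apply Matrix.map_injective (C1Int_inj (E := E))
    change (k1 * h).map (C1Int_π E ℚ) = (0 : Matrix L B (MonoidAlgebra ℤ E)).map (C1Int_π E ℚ)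
    rw [Matrix.map_mul, ← hk1, Matrix.smul_mul, e2, smul_zero]
    exact (Matrix.map_zero _ (map_zero _)).symm
  have f3 : ∀ c : I → MonoidAlgebra ℤ E, vecMul c k = 0 → vecMul c r1 = 0 := by
    intro c hc
    have g1 : vecMul (C1Int_π E ℚ ∘ c) (k.map (C1Int_π E ℚ)) = 0 := by
      rw [C1Int_vmap, hc]
      funext j
      exact map_zero _
    have g2 := e3 _ g1
    have g3 : vecMul (C1Int_π E ℚ ∘ c) (r1.map (C1Int_π E ℚ)) = 0 := by
      rw [← hr1, Matrix.vecMul_smul, g2, smul_zero]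
    rw [C1Int_vmap] at g3
    funext j
    exact C1Int_inj ((congrFun g3 j).trans (map_zero _).symm)
  refine ⟨N1 * N0, Nat.mul_pos hN1 hN0, I ⊕ L, inferInstance, I, inferInstance, fromRows k k1,
    fromCols 1 0, fromCols ((N1 * N0) • 1) (-r1), ?_, ?_, ?_, ?_⟩
  · rw [fromCols_mul_fromRows, Matrix.one_mul, Matrix.zero_mul, add_zero]
  · rw [fromRows_mul, hk, f2, fromRows_zero]
  · rw [fromCols_mul_fromRows, Matrix.smul_mul, Matrix.one_mul, f1, Matrix.neg_mul,
      add_neg_cancel]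
  · intro c hc
    refine ⟨c, ?_⟩
    rw [vecMul_fromCols, vecMul_fromCols, Matrix.vecMul_neg, f3 c hc, Matrix.vecMul_smul,
      Matrix.vecMul_one, Matrix.vecMul_zero, neg_zero]
    funext j
    rcases j with j | j
    · rfl
    · change (0 : MonoidAlgebra ℤ E) = (N1 * N0) • (0 : MonoidAlgebra ℤ E)
      rw [smul_zero]

private theorem C1Int_step {A B I : Type} [Fintype A] [Fintype B] [Fintype I]
    (p : ℕ) (hp : 0 < p) (hS : GProp (MonoidAlgebra (ZMod p) E)) (N : ℕ)
    (h : Matrix A B (MonoidAlgebra ℤ E)) (k : Matrix I A (MonoidAlgebra ℤ E))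
    (hN : C1Int_St h k (p * N)) : C1Int_St h k N := by
  classical
  obtain ⟨J, iJ, T, iT, kp, P, ρ, a1, a2, a3, a4⟩ := hN
  obtain ⟨L, iL, σ0, κ0, e1, e2, e3⟩ := C1Int_gprop hS J A T (kp.map (C1Int_π E (ZMod p)))
    (ρ.map (C1Int_π E (ZMod p)))
    (by rw [← Matrix.map_mul, a3]; exact Matrix.map_zero _ (map_zero _))
  obtain ⟨σ, hσ⟩ := C1Int_mlift p σ0
  obtain ⟨κ, hκ⟩ := C1Int_mlift p κ0
  obtain ⟨τ, hτ⟩ := C1Int_mker p (ρ - σ * κ) (by
    rw [Matrix.map_sub _ (map_sub _), Matrix.map_mul, hσ, hκ, e1, sub_self])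
  obtain ⟨k2, hk2⟩ := C1Int_mker p (κ * kp) (by rw [Matrix.map_mul, hκ, e2])
  have f1 : k2 * h = 0 := by
    apply C1Int_mtf p hp
    rw [← Matrix.smul_mul, ← hk2, Matrix.mul_assoc, a2, Matrix.mul_zero]
  have f2 : τ * kp + σ * k2 = 0 := by
    apply C1Int_mtf p hp
    rw [smul_add, ← Matrix.smul_mul, ← Matrix.mul_smul, ← hτ, ← hk2, Matrix.sub_mul, a3,
      Matrix.mul_assoc, zero_sub, neg_add_cancel]
  refine ⟨J ⊕ L, inferInstance, L ⊕ T, inferInstance, fromRows kp k2, fromCols P 0,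
    fromBlocks κ (-(p • 1)) τ σ, ?_, ?_, ?_, ?_⟩
  · rw [fromCols_mul_fromRows, a1, Matrix.zero_mul, add_zero]
  · rw [fromRows_mul, a2, f1, fromRows_zero]
  · rw [fromBlocks_mul_fromRows, Matrix.neg_mul, Matrix.smul_mul, Matrix.one_mul, hk2,
      add_neg_cancel, f2, fromRows_zero]
  · intro c hc
    obtain ⟨z, hz⟩ := a4 c hc
    have g1 : vecMul (C1Int_π E (ZMod p) ∘ z) (ρ.map (C1Int_π E (ZMod p))) = 0 := by
      rw [C1Int_vmap, hz]
      funext j
      change C1Int_π E (ZMod p) ((p * N) • vecMul c P j) = 0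
      rw [mul_smul, C1Int_smulp]
    have g2 := e3 _ g1
    rw [← hσ, C1Int_vmap] at g2
    choose ψ hψ using fun l => C1Int_kerp p (vecMul z σ l) (congrFun g2 l)
    have g3 : vecMul z σ = p • ψ := funext hψ
    have g4 : N • vecMul c P = vecMul ψ κ + vecMul z τ := by
      have g5 : ρ = σ * κ + p • τ := by rw [← hτ, add_sub_cancel]
      have g6 : p • (N • vecMul c P) = p • (vecMul ψ κ + vecMul z τ) := by
        rw [smul_smul, ← hz, g5, Matrix.vecMul_add, ← Matrix.vecMul_vecMul, g3,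
          Matrix.vecMul_smul, Matrix.smul_vecMul, smul_add]
      funext j
      have g7 := congrFun g6 j
      have g8 : p • ((N • vecMul c P) j - (vecMul ψ κ + vecMul z τ) j) = 0 := by
        rw [smul_sub]
        exact sub_eq_zero.mpr g7
      exact sub_eq_zero.mp (C1Int_tf p hp _ g8)
    refine ⟨Sum.elim ψ z, ?_⟩
    rw [vecMul_fromBlocks, vecMul_fromCols, Sum.elim_comp_inl, Sum.elim_comp_inr, ← g4,
      Matrix.vecMul_neg, Matrix.vecMul_smul, Matrix.vecMul_one, g3, Matrix.vecMul_zero,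
      neg_add_cancel]
    funext j
    rcases j with j | j
    · rfl
    · change (0 : MonoidAlgebra ℤ E) = N • (0 : MonoidAlgebra ℤ E)
      rw [smul_zero]

private theorem C1Int_all {A B I : Type} [Fintype A] [Fintype B] [Fintype I]
    (hQ : GProp (MonoidAlgebra ℚ E)) (hp : ∀ p : ℕ, p.Prime → GProp (MonoidAlgebra (ZMod p) E))
    (h : Matrix A B (MonoidAlgebra ℤ E)) (k : Matrix I A (MonoidAlgebra ℤ E)) (hk : k * h = 0) :
    C1Int_St h k 1 := by
  obtain ⟨N, hN, hs⟩ := C1Int_start hQ h k hk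
  induction N using Nat.strong_induction_on with
  | _ N ih =>
    rcases Nat.lt_or_ge 1 N with h1 | h1
    · have h2 : N.minFac ∣ N := Nat.minFac_dvd N
      have h3 : N.minFac.Prime := Nat.minFac_prime (by omega)
      obtain ⟨M, hM⟩ := h2
      have h4 : 0 < M := Nat.pos_of_ne_zero (by rintro rfl; rw [mul_zero] at hM; omega)
      refine ih M ?_ h4 (C1Int_step N.minFac h3.pos (hp _ h3) M h k (by rw [← hM]; exact hs))
      calc M < N.minFac * M := by nlinarith [h3.two_le]
        _ = N := hM.symm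
    · have h2 : N = 1 := by omega
      rw [h2] at hs
      exact hs

end

theorem c1_of_gprop {E : Type} [Group E] (hQ : GProp (MonoidAlgebra ℚ E))
    (hp : ∀ p : ℕ, p.Prime → GProp (MonoidAlgebra (ZMod p) E)) : C1 (MonoidAlgebra ℤ E) := by
  classical
  intro a b s h k hk
  obtain ⟨J, iJ, T, iT, kp, P, ρ, a1, a2, a3, a4⟩ := C1Int_all hQ hp h k hk
  let eJ := Fintype.equivFin J
  let eT : (Fin s ⊕ T) ≃ Fin (Fintype.card (Fin s ⊕ T)) := Fintype.equivFin (Fin s ⊕ T)
  let ρ1 : Matrix (Fin s ⊕ T) (Fin s) (MonoidAlgebra ℤ E) := fromRows 1 0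
  let ρ2 : Matrix (Fin s ⊕ T) J (MonoidAlgebra ℤ E) := fromRows (-P) ρ
  have b1 : ρ1 * k + ρ2 * kp = 0 := by
    change fromRows 1 0 * k + fromRows (-P) ρ * kp = 0
    rw [fromRows_mul, fromRows_mul, Matrix.one_mul, Matrix.zero_mul, Matrix.neg_mul, a1, a3]
    ext1 i j
    rcases i with i | i
    · change k i j + -(k i j) = 0
      rw [add_neg_cancel]
    · change (0 : MonoidAlgebra ℤ E) + 0 = 0
      rw [add_zero]
  refine ⟨Fintype.card J, kp.submatrix eJ.symm id, Fintype.card (Fin s ⊕ T),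
    ρ1.submatrix eT.symm id, ρ2.submatrix eT.symm eJ.symm, ?_, ?_, ?_⟩
  · ext1 i j
    have h1 := congrFun (congrFun a2 (eJ.symm i)) j
    exact h1
  · ext1 i j
    have h1 := congrFun (congrFun b1 (eT.symm i)) j
    rw [Matrix.add_apply] at h1 ⊢
    have h2 : ((ρ2.submatrix eT.symm eJ.symm) * (kp.submatrix eJ.symm id)) i j =
        (ρ2 * kp) (eT.symm i) j := by
      rw [Matrix.submatrix_mul_equiv]; rfl
    rw [h2]
    exact h1
  · intro c hc
    obtain ⟨z, hz⟩ := a4 c hc
    rw [one_smul] at hz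
    have h3 : vecMul (Sum.elim c z) ρ1 = c := by
      change vecMul (Sum.elim c z) (fromRows 1 0) = c
      rw [sumElim_vecMul_fromRows, Matrix.vecMul_one, Matrix.vecMul_zero, add_zero]
    have h4 : vecMul (Sum.elim c z) ρ2 = 0 := by
      change vecMul (Sum.elim c z) (fromRows (-P) ρ) = 0
      rw [sumElim_vecMul_fromRows, Matrix.vecMul_neg, hz, neg_add_cancel]
    refine ⟨Sum.elim c z ∘ eT.symm, ?_, ?_⟩
    · refine Eq.trans ?_ h3
      funext j
      exact Equiv.sum_comp eT.symm (fun i => Sum.elim c z i * ρ1 i j)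
    · funext j
      have h5 := congrFun h4 (eJ.symm j)
      refine Eq.trans ?_ h5
      exact Equiv.sum_comp eT.symm (fun i => Sum.elim c z i * ρ2 i (eJ.symm j))

end Pool.Agent.Wald
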