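import Pool.Agent.Lib.MP_8f66f0_al_Wald.Defs
import Pool.Agent.Lib.MP_8f66f0_al_Wald.GrDefs

/-! The frozen form of `Wh = 0` in terms of `K_1`-like invariants. -/

set_option autoImplicit false

namespace Pool.Agent.Wald

open Matrix

namespace WhK

section General

variable {Λ : Type} [Ring Λ]
variable {n m k k' l M M' : Type} [Fintype n] [DecidableEq n] [Fintype m] [DecidableEq m]
  [Fintype k] [DecidableEq k] [Fintype k'] [DecidableEq k'] [Fintype l] [DecidableEq l]
  [Fintype M] [DecidableEq M] [Fintype M'] [DecidableEq M']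

/-- Enlarging a matrix by the identity matrix. -/
private def big (e : n ⊕ k ≃ M) : Matrix n n Λ →* Matrix M M Λ where
  toFun A := (fromBlocks A 0 0 (1 : Matrix k k Λ)).submatrix e.symm e.symm
  map_one' := by rw [fromBlocks_one, submatrix_one_equiv]
  map_mul' A B := by
    rw [submatrix_mul_equiv, fromBlocks_multiply]
    simp

private theorem big_apply (e : n ⊕ k ≃ M) (A : Matrix n n Λ) (x y : n ⊕ k) :
    big e A (e x) (e y) = fromBlocks A 0 0 (1 : Matrix k k Λ) x y := by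
  change fromBlocks A 0 0 (1 : Matrix k k Λ) (e.symm (e x)) (e.symm (e y)) = _
  rw [e.symm_apply_apply, e.symm_apply_apply]

private def ext (e : n ⊕ k ≃ M) : (Matrix n n Λ)ˣ →* (Matrix M M Λ)ˣ := Units.map (big e)

private theorem ext_val (e : n ⊕ k ≃ M) (A : (Matrix n n Λ)ˣ) :
    (ext e A : Matrix M M Λ) = big e (A : Matrix n n Λ) := rfl

/-- The matrix of a permutation. -/
private def perm (σ : M ≃ M) : (Matrix M M Λ)ˣ where
  val := (1 : Matrix M M Λ).submatrix σ.symm id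
  inv := (1 : Matrix M M Λ).submatrix id σ.symm
  val_inv := by
    have := submatrix_mul_equiv (1 : Matrix M M Λ) (1 : Matrix M M Λ) σ.symm (Equiv.refl M) σ.symm
    rw [Equiv.coe_refl] at this
    rw [this, mul_one, submatrix_one_equiv]
  inv_val := by
    rw [submatrix_mul_equiv, mul_one, submatrix_id_id]

private theorem perm_conj (σ : M ≃ M) (X : (Matrix M M Λ)ˣ) :
    ((perm σ * X * (perm σ)⁻¹ : (Matrix M M Λ)ˣ) : Matrix M M Λ) =
      (X : Matrix M M Λ).submatrix σ.symm σ.symm := by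
  change (1 : Matrix M M Λ).submatrix σ.symm id * (X : Matrix M M Λ) *
    (1 : Matrix M M Λ).submatrix id σ.symm = _
  have h1 := submatrix_mul_equiv (1 : Matrix M M Λ) (X : Matrix M M Λ) σ.symm (Equiv.refl M) id
  have h2 := submatrix_mul_equiv (X : Matrix M M Λ) (1 : Matrix M M Λ) σ.symm (Equiv.refl M) σ.symm
  rw [Equiv.coe_refl] at h1 h2
  rw [submatrix_id_id, one_mul] at h1
  rw [mul_one] at h2
  rw [h1, h2]

private theorem of_ext (e : n ⊕ k ≃ M) (e' : n ⊕ k' ≃ M) (A : (Matrix n n Λ)ˣ) :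
    Abelianization.of (ext e A) = Abelianization.of (ext e' A) := by
  obtain ⟨g⟩ : Nonempty (k ≃ k') := by
    rw [← Fintype.card_eq]
    have h1 := Fintype.card_congr e
    have h2 := Fintype.card_congr e'
    rw [Fintype.card_sum] at h1 h2
    omega
  have h : ext e' A = perm (e.symm.trans ((Equiv.sumCongr (Equiv.refl n) g).trans e')) *
      ext e A * (perm (e.symm.trans ((Equiv.sumCongr (Equiv.refl n) g).trans e')))⁻¹ := by
    refine Units.ext ?_
    rw [perm_conj]
    ext a b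
    obtain ⟨x, rfl⟩ := e'.surjective a
    obtain ⟨y, rfl⟩ := e'.surjective b
    rw [ext_val, big_apply, submatrix_apply, ext_val]
    change _ = fromBlocks (A : Matrix n n Λ) 0 0 (1 : Matrix k k Λ)
      (e.symm (e ((Equiv.sumCongr (Equiv.refl n) g).symm (e'.symm (e' x)))))
      (e.symm (e ((Equiv.sumCongr (Equiv.refl n) g).symm (e'.symm (e' y)))))
    rw [e.symm_apply_apply, e.symm_apply_apply, e'.symm_apply_apply, e'.symm_apply_apply]
    rcases x with x | x <;> rcases y with y | y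
    · rfl
    · rfl
    · rfl
    · change (1 : Matrix k' k' Λ) x y = (1 : Matrix k k Λ) (g.symm x) (g.symm y)
      rw [one_apply, one_apply]
      simp only [EmbeddingLike.apply_eq_iff_eq]
  rw [h, map_mul, map_mul, map_inv, mul_comm (Abelianization.of _) (Abelianization.of (ext e A)),
    mul_inv_cancel_right]

private theorem ext_comp (e : n ⊕ k ≃ M) (e' : M ⊕ l ≃ M') (A : (Matrix n n Λ)ˣ) :
    ext e' (ext e A) = ext ((Equiv.sumAssoc n k l).symm.trans
      ((Equiv.sumCongr e (Equiv.refl l)).trans e')) A := by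
  refine Units.ext ?_
  ext a b
  obtain ⟨x, rfl⟩ := e'.surjective a
  obtain ⟨y, rfl⟩ := e'.surjective b
  rw [ext_val, big_apply, ext_val, ext_val]
  change _ = fromBlocks (A : Matrix n n Λ) 0 0 (1 : Matrix (k ⊕ l) (k ⊕ l) Λ)
    (Equiv.sumAssoc n k l ((Equiv.sumCongr e (Equiv.refl l)).symm (e'.symm (e' x))))
    (Equiv.sumAssoc n k l ((Equiv.sumCongr e (Equiv.refl l)).symm (e'.symm (e' y))))
  rw [e'.symm_apply_apply, e'.symm_apply_apply]
  have h1 : ∀ z : n ⊕ k, (Equiv.sumCongr e (Equiv.refl l)).symm (Sum.inl (e z)) = Sum.inl z := by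
    intro z
    rw [Equiv.symm_apply_eq]
    rfl
  have h2 : ∀ z : l, (Equiv.sumCongr e (Equiv.refl l)).symm (Sum.inr z) = Sum.inr z := fun z => rfl
  rcases x with x | x <;> rcases y with y | y
  · obtain ⟨x, rfl⟩ := e.surjective x
    obtain ⟨y, rfl⟩ := e.surjective y
    rw [h1, h1, fromBlocks_apply₁₁, big_apply]
    rcases x with x | x <;> rcases y with y | y
    · rfl
    · rfl
    · rfl
    · simp [one_apply]
  · obtain ⟨x, rfl⟩ := e.surjective x
    rw [h1, h2]
    rcases x with x | x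
    · rfl
    · simp [one_apply]
  · obtain ⟨y, rfl⟩ := e.surjective y
    rw [h1, h2]
    rcases y with y | y
    · rfl
    · simp [one_apply]
  · rw [h2, h2]
    simp [one_apply]

open Classical in
/-- The class of a matrix in the abelianization of the general linear group of rank `M`. -/
private noncomputable def tau (M : Type) [Fintype M] [DecidableEq M] (A : Matrix n n Λ) :
    Abelianization (Matrix M M Λ)ˣ :=
  if h : IsUnit A ∧ Nonempty (n ⊕ Fin (Fintype.card M - Fintype.card n) ≃ M) then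
    Abelianization.of (ext h.2.some h.1.unit) else 1

private theorem exists_equiv (h : Fintype.card n ≤ Fintype.card M) :
    Nonempty (n ⊕ Fin (Fintype.card M - Fintype.card n) ≃ M) := by
  rw [← Fintype.card_eq, Fintype.card_sum, Fintype.card_fin]
  omega

private theorem tau_eq (e : n ⊕ k ≃ M) (A : (Matrix n n Λ)ˣ) :
    tau M (A : Matrix n n Λ) = Abelianization.of (ext e A) := by
  have hc : Fintype.card n ≤ Fintype.card M := by
    rw [← Fintype.card_congr e, Fintype.card_sum]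
    omega
  have h : IsUnit (A : Matrix n n Λ) ∧
      Nonempty (n ⊕ Fin (Fintype.card M - Fintype.card n) ≃ M) := ⟨A.isUnit, exists_equiv hc⟩
  rw [tau, dif_pos h]
  have h2 : h.1.unit = A := Units.ext rfl
  rw [h2]
  exact of_ext _ _ A

private theorem tau_mul (h : Fintype.card n ≤ Fintype.card M) (A B : (Matrix n n Λ)ˣ) :
    tau M ((A * B : (Matrix n n Λ)ˣ) : Matrix n n Λ) =
      tau M (A : Matrix n n Λ) * tau M (B : Matrix n n Λ) := by
  obtain ⟨e⟩ := exists_equiv h
  rw [tau_eq e, tau_eq e, tau_eq e, map_mul, map_mul]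

private theorem tau_one (h : Fintype.card n ≤ Fintype.card M) :
    tau M (1 : Matrix n n Λ) = 1 := by
  obtain ⟨e⟩ := exists_equiv h
  have := tau_eq e (1 : (Matrix n n Λ)ˣ)
  rw [map_one, map_one] at this
  exact this

private theorem tau_big (e : n ⊕ k ≃ m) (h : Fintype.card m ≤ Fintype.card M)
    (A : (Matrix n n Λ)ˣ) : tau M (ext e A : Matrix m m Λ) = tau M (A : Matrix n n Λ) := by
  obtain ⟨e'⟩ := exists_equiv h
  rw [tau_eq e' (ext e A), ext_comp, ← tau_eq]

private theorem tau_reindex (e : n ≃ m) (h : Fintype.card m ≤ Fintype.card M)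
    (A : (Matrix n n Λ)ˣ) :
    tau M ((A : Matrix n n Λ).submatrix e.symm e.symm) = tau M (A : Matrix n n Λ) :=
  tau_big ((Equiv.sumEmpty n Empty).trans e) h A

/-- Elementary block matrices. -/
private def upU (x : Matrix n m Λ) : (Matrix (n ⊕ m) (n ⊕ m) Λ)ˣ where
  val := fromBlocks 1 x 0 1
  inv := fromBlocks 1 (-x) 0 1
  val_inv := by rw [fromBlocks_multiply]; simp
  inv_val := by rw [fromBlocks_multiply]; simp

private def loU (y : Matrix m n Λ) : (Matrix (n ⊕ m) (n ⊕ m) Λ)ˣ where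
  val := fromBlocks 1 0 y 1
  inv := fromBlocks 1 0 (-y) 1
  val_inv := by rw [fromBlocks_multiply]; simp
  inv_val := by rw [fromBlocks_multiply]; simp

private theorem tau_up (h : Fintype.card n + 2 * Fintype.card m ≤ Fintype.card M)
    (X : Matrix n m Λ) : tau M (upU X : Matrix (n ⊕ m) (n ⊕ m) Λ) = 1 := by
  have hc : Fintype.card ((n ⊕ m) ⊕ m) ≤ Fintype.card M := by
    rw [Fintype.card_sum, Fintype.card_sum]
    omega
  rw [← tau_big (Equiv.refl ((n ⊕ m) ⊕ m)) hc (upU X)]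
  have key : ext (Equiv.refl ((n ⊕ m) ⊕ m)) (upU X) *
      (loU (fromCols (0 : Matrix m n Λ) (1 : Matrix m m Λ)) *
        upU (fromRows X (0 : Matrix m m Λ))) =
      upU (fromRows X (0 : Matrix m m Λ)) *
        loU (fromCols (0 : Matrix m n Λ) (1 : Matrix m m Λ)) := by
    refine Units.ext ?_
    change fromBlocks (fromBlocks 1 X 0 1) 0 0 1 *
      (fromBlocks 1 0 (fromCols (0 : Matrix m n Λ) (1 : Matrix m m Λ)) 1 *
        fromBlocks 1 (fromRows X (0 : Matrix m m Λ)) 0 1) =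
      fromBlocks 1 (fromRows X (0 : Matrix m m Λ)) 0 1 *
        fromBlocks 1 0 (fromCols (0 : Matrix m n Λ) (1 : Matrix m m Λ)) 1
    simp only [fromBlocks_multiply]
    have h1 : fromCols (0 : Matrix m n Λ) (1 : Matrix m m Λ) * fromRows X (0 : Matrix m m Λ) =
        0 := by
      rw [fromCols_mul_fromRows]
      simp
    have h2 : fromRows X (0 : Matrix m m Λ) * fromCols (0 : Matrix m n Λ) (1 : Matrix m m Λ) =
        fromBlocks 0 X 0 0 := by
      rw [fromRows_mul_fromCols]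
      simp
    have h3 : fromBlocks (1 : Matrix n n Λ) X 0 (1 : Matrix m m Λ) *
        fromRows X (0 : Matrix m m Λ) = fromRows X 0 := by
      rw [fromBlocks_mul_fromRows]
      simp
    have h4 : (1 : Matrix (n ⊕ m) (n ⊕ m) Λ) + fromBlocks 0 X 0 0 = fromBlocks 1 X 0 1 := by
      rw [← fromBlocks_one, fromBlocks_add]
      simp
    simp [h1, h2, h3, h4]
  have := congrArg (fun u : (Matrix ((n ⊕ m) ⊕ m) ((n ⊕ m) ⊕ m) Λ)ˣ =>
    tau M (u : Matrix ((n ⊕ m) ⊕ m) ((n ⊕ m) ⊕ m) Λ)) key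
  simp only [tau_mul hc] at this
  rw [mul_comm (tau M (loU (fromCols (0 : Matrix m n Λ) (1 : Matrix m m Λ)) :
    Matrix ((n ⊕ m) ⊕ m) ((n ⊕ m) ⊕ m) Λ))] at this
  exact mul_eq_right.1 this

private theorem tau_tri (h : Fintype.card n + 2 * Fintype.card m ≤ Fintype.card M)
    (A : (Matrix n n Λ)ˣ) (B : Matrix n m Λ) (D : (Matrix m m Λ)ˣ) :
    tau M (fromBlocks (A : Matrix n n Λ) B 0 (D : Matrix m m Λ)) =
      tau M (A : Matrix n n Λ) * tau M (D : Matrix m m Λ) := by
  have hc : Fintype.card (n ⊕ m) ≤ Fintype.card M := by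
    rw [Fintype.card_sum]
    omega
  have key : fromBlocks (A : Matrix n n Λ) B 0 (D : Matrix m m Λ) =
      ((upU (B * ((D⁻¹ : (Matrix m m Λ)ˣ) : Matrix m m Λ)) * (ext (Equiv.refl (n ⊕ m)) A *
        ext (Equiv.sumComm m n) D) : (Matrix (n ⊕ m) (n ⊕ m) Λ)ˣ) :
          Matrix (n ⊕ m) (n ⊕ m) Λ) := by
    have h1 : (ext (Equiv.sumComm m n) D : Matrix (n ⊕ m) (n ⊕ m) Λ) =
        fromBlocks 1 0 0 (D : Matrix m m Λ) := by
      ext a b
      rcases a with a | a <;> rcases b with b | b <;> rfl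
    have h2 : (ext (Equiv.refl (n ⊕ m)) A : Matrix (n ⊕ m) (n ⊕ m) Λ) =
        fromBlocks (A : Matrix n n Λ) 0 0 1 := rfl
    rw [Units.val_mul, Units.val_mul, h1, h2]
    change _ = fromBlocks 1 (B * ((D⁻¹ : (Matrix m m Λ)ˣ) : Matrix m m Λ)) 0 1 * _
    rw [fromBlocks_multiply, fromBlocks_multiply]
    simp [Matrix.mul_assoc]
  rw [key, tau_mul hc, tau_mul hc, tau_up h, one_mul, tau_big _ hc, tau_big _ hc]

/-- The equivalence singling out an index. -/
private def pick (i₀ : M) : Fin 1 ⊕ {i : M // i ≠ i₀} ≃ M where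
  toFun := Sum.elim (fun _ => i₀) Subtype.val
  invFun i := if h : i = i₀ then Sum.inl 0 else Sum.inr ⟨i, h⟩
  left_inv x := by
    rcases x with x | x
    · simp only [Sum.elim_inl, dite_true]
      rw [Subsingleton.elim x 0]
    · simp only [Sum.elim_inr, dif_neg x.2]
  right_inv i := by
    by_cases h : i = i₀
    · simp [h]
    · simp [h]

private theorem big_pick (i₀ : M) (u : Λ) :
    big (pick i₀) (Matrix.of fun _ _ : Fin 1 => u) =
      diagonal (fun i => if i = i₀ then u else 1) := by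
  ext a b
  obtain ⟨x, rfl⟩ := (pick i₀).surjective a
  obtain ⟨y, rfl⟩ := (pick i₀).surjective b
  rw [big_apply]
  rcases x with x | x <;> rcases y with y | y
  · change u = diagonal (fun i => if i = i₀ then u else 1) i₀ i₀
    simp
  · change (0 : Λ) = diagonal (fun i => if i = i₀ then u else 1) i₀ y.1
    rw [diagonal_apply_ne _ y.2.symm]
  · change (0 : Λ) = diagonal (fun i => if i = i₀ then u else 1) x.1 i₀
    rw [diagonal_apply_ne _ x.2]
  · change (1 : Matrix {i : M // i ≠ i₀} {i : M // i ≠ i₀} Λ) x y =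
      diagonal (fun i => if i = i₀ then u else 1) x.1 y.1
    by_cases h : x = y
    · subst h
      rw [one_apply_eq, diagonal_apply_eq, if_neg x.2]
    · rw [one_apply_ne h, diagonal_apply_ne _ fun h' => h (Subtype.ext h')]

private theorem ext_empty (X : (Matrix M M Λ)ˣ) : ext (Equiv.sumEmpty M Empty) X = X :=
  Units.ext rfl

private theorem of_inj (s : M ≃ M') (X Y : (Matrix M M Λ)ˣ)
    (h : tau M' (X : Matrix M M Λ) = tau M' (Y : Matrix M M Λ)) :
    Abelianization.of X = Abelianization.of Y := by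
  have key : ∀ X : (Matrix M M Λ)ˣ, Abelianization.map (ext ((Equiv.sumEmpty M' Empty).trans s.symm))
      (tau M' (X : Matrix M M Λ)) = Abelianization.of X := by
    intro X
    rw [tau_eq ((Equiv.sumEmpty M Empty).trans s), Abelianization.map_of, ext_comp,
      of_ext _ (Equiv.sumEmpty M Empty), ext_empty]
  rw [← key X, ← key Y, h]

private theorem f_one {K : Type} [CommGroup K] (κ : K1Fun Λ K) : κ.f (1 : Matrix n n Λ) = 1 := by
  have := κ.mul (1 : Matrix n n Λ) 1 isUnit_one isUnit_one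
  rw [mul_one] at this
  exact (mul_eq_left.1 this.symm)

private theorem f_pick {K : Type} [CommGroup K] (κ : K1Fun Λ K) (i₀ : M)
    (u : (Matrix (Fin 1) (Fin 1) Λ)ˣ) : κ.f (ext (pick i₀) u).val = κ.f u.val := by
  have h := κ.reindex (pick i₀) (fromBlocks u.val 0 0 1) (ext (Equiv.refl _) u).isUnit
  have h' := κ.tri u.val 0 (1 : Matrix {i : M // i ≠ i₀} {i : M // i ≠ i₀} Λ) u.isUnit isUnit_one
  rw [f_one, mul_one] at h'
  exact h.trans h'

variable (U : Subgroup (Matrix (Fin 1) (Fin 1) Λ)ˣ)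

variable (Λ) in
/-- Sequences of classes in the abelianizations. -/
private abbrev Seq : Type := ∀ N : ℕ, Abelianization (Matrix (Fin N) (Fin N) Λ)ˣ

private def S : Subgroup (Seq Λ) where
  carrier := {x | ∃ u ∈ U, ∃ N₀ : ℕ, ∀ N ≥ N₀, x N = tau (Fin N) u.val}
  mul_mem' := by
    rintro x y ⟨u, hu, N₀, h⟩ ⟨u', hu', N₁, h'⟩
    refine ⟨u * u', U.mul_mem hu hu', max 1 (max N₀ N₁), fun N hN => ?_⟩
    have h1 : 1 ≤ N := (le_max_left _ _).trans hN
    have h2 : N₀ ≤ N := ((le_max_left _ _).trans (le_max_right _ _)).trans hN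
    have h3 : N₁ ≤ N := ((le_max_right _ _).trans (le_max_right _ _)).trans hN
    rw [Pi.mul_apply, h N h2, h' N h3, tau_mul]
    simpa using h1
  one_mem' := by
    refine ⟨1, U.one_mem, 1, fun N hN => ?_⟩
    rw [Units.val_one, tau_one (by simpa using hN)]
    rfl
  inv_mem' := by
    rintro x ⟨u, hu, N₀, h⟩
    refine ⟨u⁻¹, U.inv_mem hu, max 1 N₀, fun N hN => ?_⟩
    have h1 : 1 ≤ N := (le_max_left _ _).trans hN
    have h2 : N₀ ≤ N := (le_max_right _ _).trans hN
    rw [Pi.inv_apply, h N h2, inv_eq_iff_mul_eq_one, ← tau_mul (by simpa using h1),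
      mul_inv_cancel, Units.val_one, tau_one (by simpa using h1)]

private abbrev KK : Type := Seq Λ ⧸ S U

private theorem mk_eq {x y : Seq Λ} (N₀ : ℕ) (h : ∀ N ≥ N₀, x N = y N) :
    (QuotientGroup.mk x : KK U) = QuotientGroup.mk y := by
  rw [QuotientGroup.eq]
  refine ⟨1, U.one_mem, max 1 N₀, fun N hN => ?_⟩
  have h1 : 1 ≤ N := (le_max_left _ _).trans hN
  have h2 : N₀ ≤ N := (le_max_right _ _).trans hN
  rw [Pi.mul_apply, Pi.inv_apply, h N h2, inv_mul_cancel, Units.val_one,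
    tau_one (by simpa using h1)]

private noncomputable def kap : K1Fun Λ (KK U) where
  f A := QuotientGroup.mk fun N => tau (Fin N) A
  mul {n} _ _ A B hA hB := by
    rw [← QuotientGroup.mk_mul]
    refine mk_eq U (Fintype.card n) fun N hN => ?_
    obtain ⟨A, rfl⟩ := hA
    obtain ⟨B, rfl⟩ := hB
    exact tau_mul (by simpa using hN) A B
  reindex {n m} _ _ _ _ e A hA := by
    refine mk_eq U (Fintype.card m) fun N hN => ?_
    obtain ⟨A, rfl⟩ := hA
    exact tau_reindex e (by simpa using hN) A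
  tri {n m} _ _ _ _ A B D hA hD := by
    rw [← QuotientGroup.mk_mul]
    refine mk_eq U (Fintype.card n + 2 * Fintype.card m) fun N hN => ?_
    obtain ⟨A, rfl⟩ := hA
    obtain ⟨D, rfl⟩ := hD
    exact tau_tri (by simpa using hN) A B D

/-- The frozen form, for a general ring and a group of trivial units. -/
private def Triv : Prop :=
  ∀ (n : ℕ) (A : (Matrix (Fin n) (Fin n) Λ)ˣ), ∃ (m : ℕ), ∃ u ∈ U,
    ∃ C ∈ commutator (Matrix (Fin n ⊕ Fin (m + 1)) (Fin n ⊕ Fin (m + 1)) Λ)ˣ,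
      fromBlocks A.val 0 0 (1 : Matrix (Fin (m + 1)) (Fin (m + 1)) Λ) =
        diagonal (fun i : Fin n ⊕ Fin (m + 1) => if i = Sum.inr 0 then u.val 0 0 else 1) * C.val

private theorem of_eta (u : Matrix (Fin 1) (Fin 1) Λ) : (Matrix.of fun _ _ => u 0 0) = u := by
  ext i j
  rw [Subsingleton.elim i 0, Subsingleton.elim j 0, of_apply]

private theorem ext_pick (i₀ : M) (u : (Matrix (Fin 1) (Fin 1) Λ)ˣ) :
    (ext (pick i₀) u).val = diagonal (fun i => if i = i₀ then u.val 0 0 else 1) := by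
  rw [← big_pick, of_eta]
  rfl

private theorem dir1 (h : Triv U) {K : Type} [CommGroup K] (κ : K1Fun Λ K)
    (hκ : ∀ u ∈ U, κ.f u.val = 1) (A : Matrix n n Λ) (hA : IsUnit A) : κ.f A = 1 := by
  obtain ⟨A, rfl⟩ := hA
  have h1 : κ.f A.val = κ.f (ext ((Equiv.sumEmpty n Empty).trans (Fintype.equivFin n)) A).val :=
    (κ.reindex (Fintype.equivFin n) _ A.isUnit).symm
  rw [h1]
  generalize ext ((Equiv.sumEmpty n Empty).trans (Fintype.equivFin n)) A = A'
  obtain ⟨m, u, hu, C, hC, e⟩ := h _ A'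
  have h2 : κ.f (fromBlocks A'.val 0 0 (1 : Matrix (Fin (m + 1)) (Fin (m + 1)) Λ)) =
      κ.f A'.val := by
    rw [κ.tri _ _ _ A'.isUnit isUnit_one, f_one, mul_one]
  let φ : (Matrix (Fin (Fintype.card n) ⊕ Fin (m + 1)) (Fin (Fintype.card n) ⊕ Fin (m + 1))
      Λ)ˣ →* K :=
    { toFun := fun u => κ.f u.val
      map_one' := f_one κ
      map_mul' := fun u v => κ.mul _ _ u.isUnit v.isUnit }
  have h3 : κ.f C.val = 1 := Abelianization.commutator_subset_ker φ hC
  rw [← h2, e, ← ext_pick, κ.mul _ _ (Units.isUnit _) C.isUnit, h3, f_pick, hκ u hu, mul_one]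

private theorem dir2 (h : ∀ (K : Type) [CommGroup K] (κ : K1Fun Λ K),
    (∀ u ∈ U, κ.f u.val = 1) → ∀ (n : ℕ) (A : Matrix (Fin n) (Fin n) Λ), IsUnit A → κ.f A = 1) :
    Triv U := by
  intro n A
  have h1 := h (KK U) (kap U) (fun u hu => by
    change (QuotientGroup.mk _ : KK U) = 1
    rw [QuotientGroup.eq_one_iff]
    exact ⟨u, hu, 0, fun N _ => rfl⟩) n _ A.isUnit
  change (QuotientGroup.mk _ : KK U) = 1 at h1
  rw [QuotientGroup.eq_one_iff] at h1
  obtain ⟨u, hu, N₀, hN⟩ := h1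
  have h2 : tau (Fin (n + (N₀ + 1))) A.val = tau (Fin (n + (N₀ + 1))) u.val :=
    hN (n + (N₀ + 1)) (by omega)
  have hc : Fintype.card (Fin n ⊕ Fin (N₀ + 1)) ≤ Fintype.card (Fin (n + (N₀ + 1))) := by
    simp
  rw [← tau_big (Equiv.refl (Fin n ⊕ Fin (N₀ + 1))) hc A,
    ← tau_big (pick (Sum.inr 0 : Fin n ⊕ Fin (N₀ + 1))) hc u] at h2
  have h3 := of_inj finSumFinEquiv _ _ h2
  refine ⟨N₀, u, hu, (ext (pick (Sum.inr 0 : Fin n ⊕ Fin (N₀ + 1))) u)⁻¹ *
    ext (Equiv.refl (Fin n ⊕ Fin (N₀ + 1))) A, ?_, ?_⟩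
  · have h4 : Abelianization.of ((ext (pick (Sum.inr 0 : Fin n ⊕ Fin (N₀ + 1))) u)⁻¹ *
        ext (Equiv.refl (Fin n ⊕ Fin (N₀ + 1))) A) = 1 := by
      rw [map_mul, map_inv, h3, inv_mul_cancel]
    exact (QuotientGroup.eq_one_iff _).1 h4
  · rw [← ext_pick, ← Units.val_mul, mul_inv_cancel_left]
    rfl

end General

section Gr

variable {Γ : Type} [Group Γ]

/-- The units `± g` as `1 × 1` matrices. -/
private noncomputable def sg (g : Γ) (ε : ℤˣ) :
    (Matrix (Fin 1) (Fin 1) (MonoidAlgebra ℤ Γ))ˣ where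
  val := Matrix.of fun _ _ => MonoidAlgebra.single g (ε : ℤ)
  inv := Matrix.of fun _ _ => MonoidAlgebra.single g⁻¹ ((ε⁻¹ : ℤˣ) : ℤ)
  val_inv := by
    refine Matrix.ext fun i j => ?_
    rw [mul_apply, Fin.sum_univ_one, Subsingleton.elim i j, one_apply_eq, of_apply, of_apply,
      MonoidAlgebra.single_mul_single, mul_inv_cancel, ← Units.val_mul, mul_inv_cancel]
    rfl
  inv_val := by
    refine Matrix.ext fun i j => ?_
    rw [mul_apply, Fin.sum_univ_one, Subsingleton.elim i j, one_apply_eq, of_apply, of_apply,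
      MonoidAlgebra.single_mul_single, inv_mul_cancel, ← Units.val_mul, inv_mul_cancel]
    rfl

private theorem sg_mul (g g' : Γ) (ε ε' : ℤˣ) : sg g ε * sg g' ε' = sg (g * g') (ε * ε') := by
  refine Units.ext (Matrix.ext fun i j => ?_)
  change ((Matrix.of fun _ _ => MonoidAlgebra.single g (ε : ℤ)) *
    (Matrix.of fun _ _ => MonoidAlgebra.single g' (ε' : ℤ)) : Matrix (Fin 1) (Fin 1) _) i j =
    MonoidAlgebra.single (g * g') ((ε * ε' : ℤˣ) : ℤ)
  rw [mul_apply, Fin.sum_univ_one, of_apply, of_apply, MonoidAlgebra.single_mul_single,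
    Units.val_mul]

private theorem sg_one : sg (1 : Γ) 1 = 1 := by
  have := sg_mul (1 : Γ) 1 1 1
  rw [mul_one, mul_one] at this
  exact mul_eq_left.1 this

variable (Γ)

private def UG : Subgroup (Matrix (Fin 1) (Fin 1) (MonoidAlgebra ℤ Γ))ˣ where
  carrier := {u | ∃ (g : Γ) (ε : ℤˣ), u = sg g ε}
  mul_mem' := by
    rintro _ _ ⟨g, ε, rfl⟩ ⟨g', ε', rfl⟩
    exact ⟨_, _, sg_mul g g' ε ε'⟩
  one_mem' := ⟨1, 1, sg_one.symm⟩
  inv_mem' := by
    rintro _ ⟨g, ε, rfl⟩
    refine ⟨g⁻¹, ε⁻¹, ?_⟩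
    rw [inv_eq_iff_mul_eq_one, sg_mul, mul_inv_cancel, mul_inv_cancel, sg_one]

private theorem triv_iff : WhTrivial Γ ↔ Triv (UG Γ) := by
  constructor
  · intro h n A
    obtain ⟨m, g, ε, C, hC, e⟩ := h n A
    exact ⟨m, sg g ε, ⟨g, ε, rfl⟩, C, hC, e⟩
  · intro h n A
    obtain ⟨m, _, ⟨g, ε, rfl⟩, C, hC, e⟩ := h n A
    exact ⟨m, g, ε, C, hC, e⟩

end Gr

end WhK

open WhK

theorem whTrivial_iff (Γ : Type) [Group Γ] : WhTrivial Γ ↔ WhT Γ := by
  rw [triv_iff]
  constructor
  · intro h K _ κ hκ n _ _ A hA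
    refine dir1 (UG Γ) h κ ?_ A hA
    rintro _ ⟨g, ε, rfl⟩
    exact hκ g ε
  · intro h
    refine dir2 (UG Γ) fun K _ κ hκ n A hA => h K κ (fun g ε => hκ _ ⟨g, ε, rfl⟩) (Fin n) A hA

end Pool.Agent.Wald
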