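import Pool.Agent.Lib.MP_8f66f0_al_Wald.GrDefs
import Pool.Agent.Lib.MP_8f66f0_al_Wald.WhK
import Pool.Agent.Lib.MP_8f66f0_al_Wald.IbnLift

/-! Triviality of the Whitehead group: isomorphisms and directed unions. -/

set_option autoImplicit false

namespace Pool.Agent.Wald

theorem whTrivial_iso {G G' : Type} [Group G] [Group G'] (e : G ≃* G') (h : WhTrivial G) :
    WhTrivial G' := by
  rw [whTrivial_iff] at h ⊢
  intro K _ κ hκ n _ _ A hA
  obtain ⟨u, rfl⟩ := hA
  have hk := kills_range e.toMonoidHom e.injective h κ hκ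
  have htop : ∀ g : G', g ∈ (e.toMonoidHom.range : Set G') := fun g => ⟨e.symm g, by simp⟩
  exact hk n _ (u⁻¹ : (Matrix n n (MonoidAlgebra ℤ G'))ˣ) (fun i j g hg => absurd (htop g) hg)
    (fun i j g hg => absurd (htop g) hg) u.mul_inv u.inv_mul

theorem whTrivial_directed {G : Type} [Group G] (S : Set (Subgroup G)) (hne : S.Nonempty)
    (hd : DirectedOn (· ≤ ·) S) (hS : ∀ g : G, ∃ K ∈ S, g ∈ K)
    (h : ∀ K ∈ S, WhTrivial K) : WhTrivial G := by
  classical
  rw [whTrivial_iff]
  intro K _ κ hκ n _ _ A hA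
  obtain ⟨u, rfl⟩ := hA
  -- a subgroup in `S` which contains a given finite set
  have hfin : ∀ F : Finset G, ∃ L ∈ S, ∀ g ∈ F, g ∈ L := by
    intro F
    induction F using Finset.induction_on with
    | empty =>
      obtain ⟨L, hL⟩ := hne
      exact ⟨L, hL, by simp⟩
    | insert g F _ ih =>
      obtain ⟨L, hL, hF⟩ := ih
      obtain ⟨L', hL', hg⟩ := hS g
      obtain ⟨L'', hL'', h1, h2⟩ := hd L hL L' hL'
      refine ⟨L'', hL'', fun x hx => ?_⟩
      rcases Finset.mem_insert.1 hx with rfl | hx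
      · exact h2 hg
      · exact h1 (hF x hx)
  let F : Finset G := (Finset.univ.biUnion fun i => Finset.univ.biUnion fun j =>
    ((u : Matrix n n (MonoidAlgebra ℤ G)) i j).coeff.support) ∪
    (Finset.univ.biUnion fun i => Finset.univ.biUnion fun j =>
      (((u⁻¹ : (Matrix n n (MonoidAlgebra ℤ G))ˣ) : Matrix n n (MonoidAlgebra ℤ G))
        i j).coeff.support)
  obtain ⟨L, hL, hF⟩ := hfin F
  have hk := kills_range L.subtype L.subtype_injective ((whTrivial_iff L).1 (h L hL)) κ hκ
  have hr : ∀ g, g ∈ L → g ∈ (L.subtype.range : Set G) := fun g hg => by simpa using hg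
  refine hk n _ (u⁻¹ : (Matrix n n (MonoidAlgebra ℤ G))ˣ) (fun i j g hg => ?_)
    (fun i j g hg => ?_) u.mul_inv u.inv_mul
  · by_contra hne
    refine hg (hr g (hF g ?_))
    simp only [F, Finset.mem_union, Finset.mem_biUnion, Finset.mem_univ, true_and]
    exact Or.inl ⟨i, j, Finsupp.mem_support_iff.2 hne⟩
  · by_contra hne
    refine hg (hr g (hF g ?_))
    simp only [F, Finset.mem_union, Finset.mem_biUnion, Finset.mem_univ, true_and]
    exact Or.inr ⟨i, j, Finsupp.mem_support_iff.2 hne⟩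

end Pool.Agent.Wald
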