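import Pool.Agent.Lib.MP_8f66f0_al_Wald.FinalN
import Pool.Agent.Lib.MP_8f66f0_al_Wald.NilGrPd
import Pool.Agent.Lib.MP_8f66f0_al_Wald.PdN
import Pool.Agent.Lib.MP_8f66f0_al_Wald.Dir

/-! The class of groups obtained by amalgams and HNN extensions along groups which are locally of
cohomological dimension at most two, or satisfy (C1) and have finite cohomological dimension. -/

set_option autoImplicit false

namespace Pool.Agent.Wald

/-- Edge groups: all finitely generated subgroups (iterated) have cohomological dimension at most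
two, or satisfy condition (C1) and have finite cohomological dimension. -/
inductive Edge : (E : Type) → [Group E] → Prop
  | cd {E : Type} [Group E] : CdLE 2 E → Edge E
  | c1 {E : Type} [Group E] (n : ℕ) : C1 (MonoidAlgebra ℤ E) → CdLE n E → Edge E
  | loc {E : Type} [Group E] : (∀ E' : Subgroup E, E'.FG → Edge E') → Edge E

/-- A larger bound is a bound. -/
theorem CdLE.mono {E : Type} [Group E] {m n : ℕ} (h : CdLE m E) (hmn : m ≤ n) : CdLE n E := by
  unfold CdLE at h ⊢
  have h1 : m + 1 ≤ n + 1 := Nat.succ_le_succ hmn
  exact CategoryTheory.hasProjectiveDimensionLT_of_ge _ (m + 1) (n + 1) h1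

theorem Edge.nilV {E : Type} [Group E] (h : Edge E) : NilV E := by
  induction h with
  | cd h => exact nilV_of_cd h
  | c1 n hC h => exact nilV_of_c1_pd hC (pdk_of_cd n (h.mono (Nat.le_add_right n 2)))
  | loc _ ih => exact nilV_local ih

/-- The least class of groups which contains all groups with vanishing Whitehead group and is
closed under isomorphism, directed unions, amalgams `G₀ *_E G₁` and HNN extensions with stable
letter conjugating the subgroup `A` to `B`, where the group `E` (or `A`) is an edge group in the
sense of `Edge` and all finitely generated projective modules over its integral group ring are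
stably free. -/
inductive Cl : (Γ : Type) → [Group Γ] → Prop
  | base {Γ : Type} [Group Γ] : WhTrivial Γ → Cl Γ
  | iso {Γ Γ' : Type} [Group Γ] [Group Γ'] (e : Γ ≃* Γ') : Cl Γ → Cl Γ'
  | directed {Γ : Type} [Group Γ] (S : Set (Subgroup Γ)) : S.Nonempty →
      DirectedOn (· ≤ ·) S → (∀ g : Γ, ∃ K ∈ S, g ∈ K) → (∀ K ∈ S, Cl K) → Cl Γ
  | amalgam (G : Bool → Type) [∀ i, Group (G i)] (E : Type) [Group E] (φ : ∀ i, E →* G i) :
      (∀ i, Function.Injective (φ i)) → (∀ i, Cl (G i)) → Edge E →
      ProjSF (MonoidAlgebra ℤ E) → Cl (Monoid.PushoutI φ)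
  | hnn (G : Type) [Group G] (A B : Subgroup G) (φ : A ≃* B) : Cl G → Edge A →
      ProjSF (MonoidAlgebra ℤ A) → Cl (HNNExtension G A B φ)

theorem cl_whTrivial {Γ : Type} [Group Γ] (h : Cl Γ) : WhTrivial Γ := by
  induction h with
  | base h => exact h
  | iso e _ ih => exact whTrivial_iso e ih
  | directed S hne hd hS _ ih => exact whTrivial_directed S hne hd hS ih
  | amalgam G E φ hφ _ hE hS ih => exact whTrivial_pushout_n G E φ hφ ih hE.nilV hS
  | hnn G A B φ _ hA hS ih => exact whTrivial_hnn_n G A B φ ih hA.nilV hS

end Pool.Agent.Wald
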