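import Pool.Agent.Lib.MP_8f66f0_al_Wald.DiagDefs

/-! Functoriality and unit of the diagonal tensor product. -/

set_option autoImplicit false

namespace Pool.Agent.Wald

open Matrix CategoryTheory TensorProduct

/-- A linear map which commutes with the group is linear over the group ring. -/
theorem DiagMap.exists_lin {k E V N : Type} [CommRing k] [Group E] [AddCommGroup V] [Module k V]
    (ρ : Representation k E V) [AddCommGroup N] [Module k N] [Module (MonoidAlgebra k E) N]
    [IsScalarTower k (MonoidAlgebra k E) N] (f : V →ₗ[k] N)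
    (hf : ∀ g v, f (ρ g v) = (MonoidAlgebra.single g (1 : k) : MonoidAlgebra k E) • f v) :
    ∃ F : ρ.asModule →ₗ[MonoidAlgebra k E] N, ∀ v, F (ρ.asModuleEquiv.symm v) = f v := by
  have h1 : ∀ (r : MonoidAlgebra k E) (v : V), f (ρ.asAlgebraHom r v) = r • f v := by
    intro r v
    induction r using MonoidAlgebra.induction_linear with
    | zero => rw [map_zero, zero_smul, LinearMap.zero_apply, map_zero]
    | add x y hx hy => rw [map_add, add_smul, LinearMap.add_apply, map_add, hx, hy]
    | single g c =>
      rw [Representation.asAlgebraHom_single, LinearMap.smul_apply, map_smul, hf, ← smul_assoc,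
        MonoidAlgebra.smul_single, smul_eq_mul, mul_one]
  refine ⟨{ toFun := fun x => f (ρ.asModuleEquiv x), map_add' := ?_, map_smul' := ?_ }, ?_⟩
  · intro x y
    rw [map_add, map_add]
  · intro r x
    rw [Representation.asModuleEquiv_map_smul, h1]
    rfl
  · intro v
    change f (ρ.asModuleEquiv (ρ.asModuleEquiv.symm v)) = f v
    rw [LinearEquiv.apply_symm_apply]

/-- The diagonal action on a pure tensor. -/
theorem DiagMap.rep_tmul {k E : Type} [CommRing k] [Group E] (M P : Type) [AddCommGroup M]
    [Module k M] [Module (MonoidAlgebra k E) M] [IsScalarTower k (MonoidAlgebra k E) M]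
    [AddCommGroup P] [Module (MonoidAlgebra ℤ E) P] (g : E) (m : M) (p : P) :
    diagRep k E M P g (m ⊗ₜ[ℤ] p) =
      ((MonoidAlgebra.single g (1 : k) : MonoidAlgebra k E) • m) ⊗ₜ[ℤ]
        ((MonoidAlgebra.single g (1 : ℤ) : MonoidAlgebra ℤ E) • p) := rfl

section Diag

variable (k E : Type) [CommRing k] [Group E]

/-- The map induced by a homomorphism of the second factor. -/
theorem diag_map (M : Type) {P P' : Type} [AddCommGroup M] [Module k M]
    [Module (MonoidAlgebra k E) M] [IsScalarTower k (MonoidAlgebra k E) M] [AddCommGroup P]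
    [Module (MonoidAlgebra ℤ E) P] [AddCommGroup P'] [Module (MonoidAlgebra ℤ E) P']
    (f : P →ₗ[MonoidAlgebra ℤ E] P') :
    ∃ F : (diagRep k E M P).asModule →ₗ[MonoidAlgebra k E] (diagRep k E M P').asModule,
      ∀ x : M ⊗[ℤ] P, F ((diagRep k E M P).asModuleEquiv.symm x) =
        (diagRep k E M P').asModuleEquiv.symm
          (TensorProduct.map (LinearMap.id (R := ℤ) (M := M)) f.toAddMonoidHom.toIntLinearMap x) := by
  let h : M ⊗[ℤ] P →ₗ[k] M ⊗[ℤ] P' :=
    TensorProduct.AlgebraTensorModule.map (LinearMap.id (R := k) (M := M))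
      f.toAddMonoidHom.toIntLinearMap
  have hh : ∀ x, h x =
      TensorProduct.map (LinearMap.id (R := ℤ) (M := M)) f.toAddMonoidHom.toIntLinearMap x := by
    intro x
    induction x using TensorProduct.induction_on with
    | zero => rw [map_zero, map_zero]
    | tmul m p => rfl
    | add x y hx hy => rw [map_add, map_add, hx, hy]
  have he : ∀ g v, h (diagRep k E M P g v) = diagRep k E M P' g (h v) := by
    intro g v
    induction v using TensorProduct.induction_on with
    | zero => rw [map_zero, map_zero, map_zero]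
    | tmul m p =>
      rw [DiagMap.rep_tmul]
      change ((MonoidAlgebra.single g (1 : k) : MonoidAlgebra k E) • m) ⊗ₜ[ℤ]
        (f ((MonoidAlgebra.single g (1 : ℤ) : MonoidAlgebra ℤ E) • p)) =
        diagRep k E M P' g (m ⊗ₜ[ℤ] f p)
      rw [DiagMap.rep_tmul, map_smul]
    | add x y hx hy => rw [map_add, map_add, map_add, map_add, hx, hy]
  obtain ⟨F, hF⟩ := DiagMap.exists_lin (diagRep k E M P)
    ((diagRep k E M P').asModuleEquiv.symm.toLinearMap ∘ₗ h) (by
      intro g v
      change (diagRep k E M P').asModuleEquiv.symm (h (diagRep k E M P g v)) =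
        (MonoidAlgebra.single g (1 : k) : MonoidAlgebra k E) •
          (diagRep k E M P').asModuleEquiv.symm (h v)
      rw [he, Representation.asModuleEquiv_symm_map_rho]
      rfl)
  refine ⟨F, fun x => ?_⟩
  rw [hF, ← hh]
  rfl

/-- The trivial module is the unit. -/
theorem diag_trivial (M : Type) [AddCommGroup M] [Module k M]
    [Module (MonoidAlgebra k E) M] [IsScalarTower k (MonoidAlgebra k E) M] :
    ∃ F : (diagRep k E M (Representation.trivial ℤ E ℤ).asModule).asModule
        ≃ₗ[MonoidAlgebra k E] M,
      ∀ (m : M) (a : ℤ), F ((diagRep k E M _).asModuleEquiv.symm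
        (m ⊗ₜ[ℤ] (Representation.trivial ℤ E ℤ).asModuleEquiv.symm a)) = a • m := by
  let T := (Representation.trivial ℤ E ℤ).asModule
  let e : T ≃ₗ[ℤ] ℤ := (Representation.trivial ℤ E ℤ).asModuleEquiv.toAddEquiv.toIntLinearEquiv
  let h : M ⊗[ℤ] T ≃ₗ[k] M :=
    (TensorProduct.AlgebraTensorModule.congr (LinearEquiv.refl k M) e).trans
      (TensorProduct.AlgebraTensorModule.rid ℤ k M)
  have hh : ∀ (m : M) (t : T), h (m ⊗ₜ[ℤ] t) = e t • m := fun m t => rfl
  have hT : ∀ (g : E) (t : T), (MonoidAlgebra.single g (1 : ℤ) : MonoidAlgebra ℤ E) • t = t := by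
    intro g t
    rw [Representation.single_smul, one_smul]
    rfl
  obtain ⟨F, hF⟩ := DiagMap.exists_lin (diagRep k E M T) h.toLinearMap (by
    intro g v
    change h (diagRep k E M T g v) = (MonoidAlgebra.single g (1 : k) : MonoidAlgebra k E) • h v
    induction v using TensorProduct.induction_on with
    | zero => rw [map_zero, map_zero, smul_zero]
    | tmul m t =>
      rw [DiagMap.rep_tmul, hT, hh, hh]
      exact (smul_comm _ _ _)
    | add x y hx hy => rw [map_add, map_add, map_add, smul_add, hx, hy])
  have hb : Function.Bijective F := by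
    have h1 : (F : (diagRep k E M T).asModule → M) = fun x => h ((diagRep k E M T).asModuleEquiv x) := by
      funext x
      have := hF ((diagRep k E M T).asModuleEquiv x)
      rw [LinearEquiv.symm_apply_apply] at this
      exact this
    rw [h1]
    exact h.bijective.comp (diagRep k E M T).asModuleEquiv.bijective
  refine ⟨LinearEquiv.ofBijective F hb, fun m a => ?_⟩
  exact (hF _).trans (hh m _)

end Diag

end Pool.Agent.Wald
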