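import Pool.Agent.Lib.MP_8f66f0_al_Wald.DiagMap

/-! The diagonal tensor product is projective. -/

set_option autoImplicit false

namespace Pool.Agent.Wald

open Matrix CategoryTheory TensorProduct

namespace DiagProj

variable (k E : Type) [CommRing k] [Group E] (M J : Type) [AddCommGroup M] [Module k M]
  [Module (MonoidAlgebra k E) M] [IsScalarTower k (MonoidAlgebra k E) M]

/-- the induced module -/
abbrev X : Type := MonoidAlgebra k E ⊗[k] (J →₀ M)

/-- the basic maps -/
noncomputable def hm (j : J) (g : E) : M →ₗ[k] X k E M J where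
  toFun m := (MonoidAlgebra.single g (1 : k) : MonoidAlgebra k E) ⊗ₜ[k]
    Finsupp.single j ((MonoidAlgebra.single g⁻¹ (1 : k) : MonoidAlgebra k E) • m)
  map_add' m m' := by rw [smul_add, Finsupp.single_add, TensorProduct.tmul_add]
  map_smul' c m := by
    rw [smul_comm, ← Finsupp.smul_single, TensorProduct.tmul_smul, RingHom.id_apply]

/-- the map from the free module to the homomorphisms -/
noncomputable def B₀ : (J →₀ MonoidAlgebra ℤ E) →+ (M →ₗ[k] X k E M J) :=
  Finsupp.liftAddHom fun j =>
    (Finsupp.liftAddHom fun g => (AddMonoidHom.flip (smulAddHom ℤ (M →ₗ[k] X k E M J))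
      (hm k E M J j g))).comp MonoidAlgebra.coeffAddEquiv.toAddMonoidHom

theorem B₀_single (j : J) (g : E) (a : ℤ) :
    B₀ k E M J (Finsupp.single j (MonoidAlgebra.single g a)) = a • hm k E M J j g := by
  unfold B₀
  rw [Finsupp.liftAddHom_apply_single]
  change Finsupp.liftAddHom _ (MonoidAlgebra.coeff (MonoidAlgebra.single g a)) = _
  rw [MonoidAlgebra.coeff_single, Finsupp.liftAddHom_apply_single]
  rfl

/-- the bilinear map -/
noncomputable def Bf : M →ₗ[k] (J →₀ MonoidAlgebra ℤ E) →ₗ[ℤ] X k E M J where
  toFun m := AddMonoidHom.toIntLinearMap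
    { toFun := fun p => B₀ k E M J p m
      map_zero' := by rw [map_zero]; rfl
      map_add' := fun p q => by rw [map_add]; rfl }
  map_add' m m' := by
    ext p
    change B₀ k E M J _ (m + m') = B₀ k E M J _ m + B₀ k E M J _ m'
    rw [map_add]
  map_smul' c m := by
    ext p
    change B₀ k E M J _ (c • m) = c • B₀ k E M J _ m
    rw [map_smul]

/-- the map from the diagonal module -/
noncomputable def i₀ : M ⊗[ℤ] (J →₀ MonoidAlgebra ℤ E) →ₗ[k] X k E M J :=
  TensorProduct.AlgebraTensorModule.lift (Bf k E M J)

theorem i₀_single (m : M) (j : J) (g : E) (a : ℤ) :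
    i₀ k E M J (m ⊗ₜ[ℤ] Finsupp.single j (MonoidAlgebra.single g a)) =
      a • ((MonoidAlgebra.single g (1 : k) : MonoidAlgebra k E) ⊗ₜ[k]
        Finsupp.single j ((MonoidAlgebra.single g⁻¹ (1 : k) : MonoidAlgebra k E) • m)) := by
  change B₀ k E M J (Finsupp.single j (MonoidAlgebra.single g a)) m = _
  rw [B₀_single]
  rfl

/-- induction on generators -/
theorem ind {Q : M ⊗[ℤ] (J →₀ MonoidAlgebra ℤ E) → Prop} (h0 : Q 0)
    (ha : ∀ x y, Q x → Q y → Q (x + y))
    (hs : ∀ (m : M) (j : J) (g : E) (a : ℤ),
      Q (m ⊗ₜ[ℤ] Finsupp.single j (MonoidAlgebra.single g a))) (x) : Q x := by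
  induction x using TensorProduct.induction_on with
  | zero => exact h0
  | add x y hx hy => exact ha x y hx hy
  | tmul m p =>
    induction p using Finsupp.induction_linear with
    | zero => rw [TensorProduct.tmul_zero]; exact h0
    | add p q hp hq => rw [TensorProduct.tmul_add]; exact ha _ _ hp hq
    | single j y =>
      induction y using MonoidAlgebra.induction_linear with
      | zero => rw [Finsupp.single_zero, TensorProduct.tmul_zero]; exact h0
      | add y z hy hz => rw [Finsupp.single_add, TensorProduct.tmul_add]; exact ha _ _ hy hz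
      | single g a => exact hs m j g a

/-- the free case -/
theorem free [Module.Projective k M] :
    Module.Projective (MonoidAlgebra k E)
      (diagRep k E M (J →₀ MonoidAlgebra ℤ E)).asModule := by
  classical
  set D := (diagRep k E M (J →₀ MonoidAlgebra ℤ E)) with hD
  -- the injection
  obtain ⟨F, hF⟩ := DiagMap.exists_lin D (i₀ k E M J) (by
    intro g x
    induction x using ind with
    | h0 => rw [map_zero, map_zero, smul_zero]
    | ha x y hx hy => rw [map_add, map_add, map_add, smul_add, hx, hy]
    | hs m j g' a =>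
      have e1 : (MonoidAlgebra.single (g * g')⁻¹ (1 : k) : MonoidAlgebra k E) •
          (MonoidAlgebra.single g (1 : k) : MonoidAlgebra k E) • m =
          (MonoidAlgebra.single g'⁻¹ (1 : k) : MonoidAlgebra k E) • m := by
        rw [← mul_smul, MonoidAlgebra.single_mul_single, one_mul, _root_.mul_inv_rev,
          inv_mul_cancel_right]
      have e2 : (MonoidAlgebra.single g (1 : k) : MonoidAlgebra k E) *
          MonoidAlgebra.single g' 1 = MonoidAlgebra.single (g * g') 1 := by
        rw [MonoidAlgebra.single_mul_single, one_mul]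
      rw [hD, DiagMap.rep_tmul, Finsupp.smul_single, smul_eq_mul, MonoidAlgebra.single_mul_single,
        one_mul, i₀_single, i₀_single, e1, ← e2, ← smul_eq_mul, ← TensorProduct.smul_tmul']
      exact (smul_comm _ _ _).symm)
  -- the retraction
  let s₀ : (J →₀ M) →ₗ[k] D.asModule := D.asModuleEquiv.symm.toLinearMap ∘ₗ
    Finsupp.lsum k (fun j =>
      { toFun := fun m => m ⊗ₜ[ℤ] Finsupp.single j (1 : MonoidAlgebra ℤ E)
        map_add' := fun m m' => TensorProduct.add_tmul _ _ _
        map_smul' := fun c m => rfl })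
  have hs₀ : ∀ j m, s₀ (Finsupp.single j m) =
      D.asModuleEquiv.symm (m ⊗ₜ[ℤ] Finsupp.single j (1 : MonoidAlgebra ℤ E)) := by
    intro j m
    change D.asModuleEquiv.symm (Finsupp.lsum k _ (Finsupp.single j m)) = _
    rw [Finsupp.lsum_single]
    rfl
  let s : X k E M J →ₗ[MonoidAlgebra k E] D.asModule :=
    TensorProduct.AlgebraTensorModule.lift
      (LinearMap.toSpanSingleton (MonoidAlgebra k E) ((J →₀ M) →ₗ[k] D.asModule) s₀)
  have hs : ∀ r x, s (r ⊗ₜ[k] x) = r • s₀ x := fun r x => rfl
  have hJ : Module.Projective k (J →₀ M) := by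
    classical
    exact Module.Projective.of_equiv (finsuppLequivDFinsupp k).symm
  refine Module.Projective.of_split F s ?_
  apply LinearMap.ext
  intro x
  obtain ⟨x, rfl⟩ := D.asModuleEquiv.symm.surjective x
  rw [LinearMap.comp_apply, hF, LinearMap.id_apply]
  induction x using ind with
  | h0 => rw [map_zero, map_zero, map_zero]
  | ha x y hx hy => rw [map_add, map_add, map_add, hx, hy]
  | hs m j g a =>
    rw [i₀_single, map_zsmul, hs, hs₀]
    have h1 := Representation.asModuleEquiv_symm_map_rho D g
      ((((MonoidAlgebra.single g⁻¹ (1 : k) : MonoidAlgebra k E) • m)) ⊗ₜ[ℤ]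
        Finsupp.single j (1 : MonoidAlgebra ℤ E))
    rw [MonoidAlgebra.of_apply] at h1
    rw [← h1, hD, DiagMap.rep_tmul, ← mul_smul, MonoidAlgebra.single_mul_single, one_mul,
      mul_inv_cancel, ← MonoidAlgebra.one_def, one_smul, Finsupp.smul_single, smul_eq_mul, mul_one,
      ← map_zsmul, ← TensorProduct.tmul_smul, Finsupp.smul_single, MonoidAlgebra.smul_single,
      smul_eq_mul, mul_one]

end DiagProj

section Diag

variable (k E : Type) [CommRing k] [Group E]

/-- `M ⊗ P` with the diagonal action is projective if `P` is projective over `ℤE` and `M` over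
`k`. -/
theorem diag_projective (M P : Type) [AddCommGroup M] [Module k M]
    [Module (MonoidAlgebra k E) M] [IsScalarTower k (MonoidAlgebra k E) M] [AddCommGroup P]
    [Module (MonoidAlgebra ℤ E) P] [Module.Projective k M] [Module.Projective (MonoidAlgebra ℤ E) P] :
    Module.Projective (MonoidAlgebra k E) (diagRep k E M P).asModule := by
  obtain ⟨σ, hσ⟩ := Module.projective_def'.mp
    (inferInstance : Module.Projective (MonoidAlgebra ℤ E) P)
  obtain ⟨F, hF⟩ := diag_map k E M σ
  obtain ⟨F', hF'⟩ := diag_map k E M (Finsupp.linearCombination (MonoidAlgebra ℤ E) (id : P → P))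
  have := DiagProj.free k E M P
  refine Module.Projective.of_split F F' ?_
  apply LinearMap.ext
  intro x
  obtain ⟨x, rfl⟩ := (diagRep k E M P).asModuleEquiv.symm.surjective x
  rw [LinearMap.comp_apply, hF, hF', LinearMap.id_apply]
  induction x using TensorProduct.induction_on with
  | zero => rw [map_zero, map_zero]
  | add x y hx hy => rw [map_add, map_add, map_add, hx, hy, map_add]
  | tmul m p =>
    rw [TensorProduct.map_tmul, TensorProduct.map_tmul]
    have h1 : Finsupp.linearCombination (MonoidAlgebra ℤ E) (id : P → P) (σ p) = p :=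
      LinearMap.congr_fun hσ p
    change (diagRep k E M P).asModuleEquiv.symm (m ⊗ₜ[ℤ]
      (Finsupp.linearCombination (MonoidAlgebra ℤ E) (id : P → P) (σ p))) = _
    rw [h1]

end Diag

end Pool.Agent.Wald
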