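import Pool.Agent.Lib.MP_8f66f0_al_Wald.GrDefs
import Pool.Agent.Lib.MP_8f66f0_al_Wald.Supp
import Pool.Agent.Lib.MP_8f66f0_al_Wald.HnnCore

/-! HNN extensions: the normal form. -/

set_option autoImplicit false

namespace Pool.Agent.Wald

open Matrix

section HnnNormal
variable {G : Type} [Group G]

private noncomputable abbrev HnnNormal_e1 (G : Type) [Group G] (p q : ℕ) :
    Matrix (Fin p ⊕ Fin q) (Fin p ⊕ Fin q) (MonoidAlgebra ℤ G) := fromBlocks 1 0 0 0

private noncomputable abbrev HnnNormal_e2 (G : Type) [Group G] (p q : ℕ) :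
    Matrix (Fin p ⊕ Fin q) (Fin p ⊕ Fin q) (MonoidAlgebra ℤ G) := fromBlocks 0 0 0 1

private theorem HnnNormal_add (p q : ℕ) : HnnNormal_e1 G p q + HnnNormal_e2 G p q = 1 := by
  rw [fromBlocks_add]
  simp

private theorem HnnNormal_11 (p q : ℕ) :
    HnnNormal_e1 G p q * HnnNormal_e1 G p q = HnnNormal_e1 G p q := by
  rw [fromBlocks_multiply]
  simp

private theorem HnnNormal_12 (p q : ℕ) : HnnNormal_e1 G p q * HnnNormal_e2 G p q = 0 := by
  rw [fromBlocks_multiply]
  simp

private theorem HnnNormal_21 (p q : ℕ) : HnnNormal_e2 G p q * HnnNormal_e1 G p q = 0 := by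
  rw [fromBlocks_multiply]
  simp

private theorem HnnNormal_22 (p q : ℕ) :
    HnnNormal_e2 G p q * HnnNormal_e2 G p q = HnnNormal_e2 G p q := by
  rw [fromBlocks_multiply]
  simp

private theorem HnnNormal_c1 (p q : ℕ) (x : MonoidAlgebra ℤ G) :
    diagonal (fun _ => x) * HnnNormal_e1 G p q = HnnNormal_e1 G p q * diagonal (fun _ => x) := by
  ext i j : 2
  rw [diagonal_mul, mul_diagonal]
  rcases i with i | i <;> rcases j with j | j
  · simp only [fromBlocks_apply₁₁, one_apply]
    split_ifs <;> simp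
  · simp
  · simp
  · simp

private theorem HnnNormal_c2 (p q : ℕ) (x : MonoidAlgebra ℤ G) :
    diagonal (fun _ => x) * HnnNormal_e2 G p q = HnnNormal_e2 G p q * diagonal (fun _ => x) := by
  ext i j : 2
  rw [diagonal_mul, mul_diagonal]
  rcases i with i | i <;> rcases j with j | j
  · simp
  · simp
  · simp
  · simp only [fromBlocks_apply₂₂, one_apply]
    split_ifs <;> simp

private theorem HnnNormal_m1 {p q : ℕ} {m : Type} (M : Matrix m (Fin p ⊕ Fin q) (MonoidAlgebra ℤ G))
    (i : m) (j : Fin p) : (M * HnnNormal_e1 G p q) i (Sum.inl j) = M i (Sum.inl j) := by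
  rw [Matrix.mul_apply, Fintype.sum_sum_type]
  simp [Matrix.one_apply]

private theorem HnnNormal_m2 {p q : ℕ} {m : Type} (M : Matrix m (Fin p ⊕ Fin q) (MonoidAlgebra ℤ G))
    (i : m) (j : Fin q) : (M * HnnNormal_e2 G p q) i (Sum.inr j) = M i (Sum.inr j) := by
  rw [Matrix.mul_apply, Fintype.sum_sum_type]
  simp [Matrix.one_apply]

private theorem HnnNormal_s1 (p q : ℕ) {S : Set G} (h : (1 : G) ∈ S) :
    MSupp S (HnnNormal_e1 G p q) := by
  intro i j
  rcases i with i | i <;> rcases j with j | j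
  · exact MSupp.one h i j
  · exact SuppIn.zero
  · exact SuppIn.zero
  · exact SuppIn.zero

private theorem HnnNormal_s2 (p q : ℕ) {S : Set G} (h : (1 : G) ∈ S) :
    MSupp S (HnnNormal_e2 G p q) := by
  intro i j
  rcases i with i | i <;> rcases j with j | j
  · exact SuppIn.zero
  · exact SuppIn.zero
  · exact SuppIn.zero
  · exact MSupp.one h i j

private theorem HnnNormal_restr {m n : Type} {S T : Set G}
    {M : Matrix m n (MonoidAlgebra ℤ G)} (h : MSupp T M) : MSupp T (mrs S M) := by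
  have h1 : mrs T (mrs S M) = mrs S M := by
    rw [mrs_mrs, Set.inter_comm, ← mrs_mrs, mrs_eq_self h]
  rw [← h1]
  exact mrs_supp _ _

variable {T : HnnTree G}

private theorem HnnNormal_HV {g : G} (hg : g ∈ T.H) : g ∉ T.V := by
  intro h
  have := T.rightH g h g⁻¹ (T.H.inv_mem hg)
  rw [mul_inv_cancel] at this
  exact T.one_notMem this

private theorem HnnNormal_EH {g : G} (hg : g ∈ T.E) : g ∈ T.H := ((T.memE g).1 hg).1

private theorem HnnNormal_tH {g : G} (hg : T.t⁻¹ * g ∈ T.H) : g ∈ T.V := by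
  have := T.rightH _ T.t_mem _ hg
  rwa [mul_inv_cancel_left] at this

private theorem HnnNormal_t : T.t ∉ T.H := fun h => HnnNormal_HV h T.t_mem

/-- `t g t⁻¹`-type elements are in `E` or in `V`. -/
private theorem HnnNormal_gt {g : G} (hg : g * T.t ∈ T.V) : g ∈ T.E ∨ g ∈ T.V := by
  by_cases h : g ∈ T.E
  · exact Or.inl h
  · exact Or.inr ((T.edge g h).2 hg)

variable {J : Type} [Fintype J] [DecidableEq J]

theorem HnnData.normal {p q : ℕ} (D : HnnData T (Fin p ⊕ Fin q) J)
    (hp : D.pa = fromBlocks 1 0 0 0) :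
    ∃ (Y : Matrix J (Fin p ⊕ Fin q) (MonoidAlgebra ℤ G))
      (c : Matrix (Fin p ⊕ Fin q) (Fin p ⊕ Fin q) (MonoidAlgebra ℤ G)),
      MSupp (T.H : Set G) Y ∧ fromRows D.a.toRows₁ D.b.toRows₂ * Y = 1 ∧
      Y * fromRows D.a.toRows₁ D.b.toRows₂ = 1 ∧
      (∀ i j, SuppIn (T.X (Sum.isLeft i) (Sum.isLeft j)) 
        ((1 - D.m * Y * T.tInv p q :
          Matrix (Fin p ⊕ Fin q) (Fin p ⊕ Fin q) (MonoidAlgebra ℤ G)) i j)) ∧
      (∀ i j, SuppIn (T.Y (Sum.isLeft i)) (c i j)) ∧
      c * (D.m * Y * T.tInv p q) = 1 ∧ (D.m * Y * T.tInv p q) * c = 1 := by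
  classical
  set e1 := HnnNormal_e1 G p q with he1
  set e2 := HnnNormal_e2 G p q with he2
  have hadd : e1 + e2 = 1 := HnnNormal_add p q
  have h11 : e1 * e1 = e1 := HnnNormal_11 p q
  have h12 : e1 * e2 = 0 := HnnNormal_12 p q
  have h21 : e2 * e1 = 0 := HnnNormal_21 p q
  have h22 : e2 * e2 = e2 := HnnNormal_22 p q
  set t' : MonoidAlgebra ℤ G := MonoidAlgebra.single T.t (1 : ℤ) with ht'
  set ti : MonoidAlgebra ℤ G := MonoidAlgebra.single T.t⁻¹ (1 : ℤ) with hti
  have htti : t' * ti = 1 := by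
    rw [ht', hti, MonoidAlgebra.single_mul_single, mul_inv_cancel, mul_one]
    rfl
  have htit : ti * t' = 1 := by
    rw [ht', hti, MonoidAlgebra.single_mul_single, inv_mul_cancel, mul_one]
    rfl
  set Dg : Matrix (Fin p ⊕ Fin q) (Fin p ⊕ Fin q) (MonoidAlgebra ℤ G) := diagonal fun _ => t'
    with hDg
  set Di : Matrix (Fin p ⊕ Fin q) (Fin p ⊕ Fin q) (MonoidAlgebra ℤ G) := diagonal fun _ => ti
    with hDi
  have hgi : Dg * Di = 1 := by
    rw [hDg, hDi, diagonal_mul_diagonal, htti, diagonal_one]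
  have hig : Di * Dg = 1 := by
    rw [hDg, hDi, diagonal_mul_diagonal, htit, diagonal_one]
  have hg1 : Dg * e1 = e1 * Dg := HnnNormal_c1 p q t'
  have hg2 : Dg * e2 = e2 * Dg := HnnNormal_c2 p q t'
  have hi2 : Di * e2 = e2 * Di := HnnNormal_c2 p q ti
  set A := D.a with hA
  set b := D.b with hb
  set c := D.c with hc
  set be := t' • b with hbe
  have hbeg : Dg * b = be := by
    ext i j : 2
    rw [hDg, diagonal_mul, hbe, Matrix.smul_apply, smul_eq_mul]
  have hbi : Di * be = b := by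
    rw [← hbeg, ← Matrix.mul_assoc, hig, Matrix.one_mul]
  have hmc : (A + be) * c = 1 := D.mc
  have hcm : c * (A + be) = 1 := D.cm
  have hpa : D.pa = e1 := hp
  have hpb : D.pb = e2 := by
    have h := D.pa_add_pb
    rw [hpa, ← hadd] at h
    exact add_left_cancel h
  have hbeS : MSupp {g | T.t⁻¹ * g ∈ T.H} be := MSupp.smul_single 1 D.hb fun s hs => by
    change T.t⁻¹ * (T.t * s) ∈ T.H
    rw [← mul_assoc, inv_mul_cancel, one_mul]
    exact hs
  set Hm : Set G := {g | g * T.t ∈ T.H} with hHm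
  set CH := mrs (T.H : Set G) c with hCH
  set Cm := mrs Hm c with hCm
  have s1 : CH * e2 = 0 := by
    have := D.star_a
    rwa [hpb] at this
  have s2 : Cm * e1 = 0 := by
    have := D.star_b
    rwa [hpa] at this
  have s1' : CH * e1 = CH := by
    have : CH * (e1 + e2) = CH := by rw [hadd, Matrix.mul_one]
    rwa [Matrix.mul_add, s1, add_zero] at this
  have s2' : Cm * e2 = Cm := by
    have : Cm * (e1 + e2) = Cm := by rw [hadd, Matrix.mul_one]
    rwa [Matrix.mul_add, s2, zero_add] at this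
  -- supports
  have hVe : MSupp T.V (e1 * be * c) := by
    have := D.rows_a e1 (HnnNormal_s1 p q T.E.one_mem) (by rw [hpb, h12])
    rw [Matrix.mul_assoc]
    exact this
  have hNe : MSupp {g | g ∉ T.V ∧ g ∉ T.E} (e2 * A * c) := by
    have := D.rows_b e2 (HnnNormal_s2 p q T.E.one_mem) (by rw [hpa, h21])
    rw [Matrix.mul_assoc]
    exact this
  have hsum1 : e1 * A * c + e1 * be * c = e1 := by
    rw [← Matrix.add_mul, ← Matrix.mul_add, Matrix.mul_assoc, hmc, Matrix.mul_one]
  have hsum2 : e2 * A * c + e2 * be * c = e2 := by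
    rw [← Matrix.add_mul, ← Matrix.mul_add, Matrix.mul_assoc, hmc, Matrix.mul_one]
  have heA1 : MSupp (T.H : Set G) (e1 * A) :=
    (HnnNormal_s1 p q T.H.one_mem).mul D.ha fun s hs t ht => T.H.mul_mem hs ht
  have heA2 : MSupp (T.H : Set G) (e2 * A) :=
    (HnnNormal_s2 p q T.H.one_mem).mul D.ha fun s hs t ht => T.H.mul_mem hs ht
  have heb1 : MSupp {g | T.t⁻¹ * g ∈ T.H} (e1 * be) :=
    (HnnNormal_s1 p q (Set.mem_singleton (1 : G))).mul hbeS fun s hs t ht => by
      rw [Set.mem_singleton_iff.1 hs, one_mul]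
      exact ht
  have heb2 : MSupp {g | T.t⁻¹ * g ∈ T.H} (e2 * be) :=
    (HnnNormal_s2 p q (Set.mem_singleton (1 : G))).mul hbeS fun s hs t ht => by
      rw [Set.mem_singleton_iff.1 hs, one_mul]
      exact ht
  -- left multiplications
  have lH : ∀ {M : Matrix (Fin p ⊕ Fin q) J (MonoidAlgebra ℤ G)}, MSupp (T.H : Set G) M →
      mrs (T.H : Set G) (M * c) = M * CH := by
    intro M hM
    apply mrs_mul_left hM
    · intro a ha g hg
      exact T.H.mul_mem ha hg
    · intro a ha g hg h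
      exact hg ((T.H.mul_mem_cancel_left ha).1 h)
  have lHm : ∀ {M : Matrix (Fin p ⊕ Fin q) J (MonoidAlgebra ℤ G)}, MSupp (T.H : Set G) M →
      mrs Hm (M * c) = M * Cm := by
    intro M hM
    apply mrs_mul_left hM
    · intro a ha g hg
      change a * g * T.t ∈ T.H
      rw [mul_assoc]
      exact T.H.mul_mem ha hg
    · intro a ha g hg h
      change a * g * T.t ∈ T.H at h
      rw [mul_assoc] at h
      exact hg ((T.H.mul_mem_cancel_left ha).1 h)
  have ltH : ∀ {M : Matrix (Fin p ⊕ Fin q) J (MonoidAlgebra ℤ G)},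
      MSupp {g | T.t⁻¹ * g ∈ T.H} M → mrs {g | T.t⁻¹ * g ∈ T.H} (M * c) = M * CH := by
    intro M hM
    apply mrs_mul_left hM
    · intro a ha g hg
      change T.t⁻¹ * (a * g) ∈ T.H
      rw [← mul_assoc]
      exact T.H.mul_mem ha hg
    · intro a ha g hg h
      change T.t⁻¹ * (a * g) ∈ T.H at h
      rw [← mul_assoc] at h
      exact hg ((T.H.mul_mem_cancel_left ha).1 h)
  have ltHm : ∀ {M : Matrix (Fin p ⊕ Fin q) J (MonoidAlgebra ℤ G)},
      MSupp {g | T.t⁻¹ * g ∈ T.H} M →
      mrs {g | T.t⁻¹ * g * T.t ∈ T.H} (M * c) = M * Cm := by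
    intro M hM
    apply mrs_mul_left hM
    · intro a ha g hg
      change T.t⁻¹ * (a * g) * T.t ∈ T.H
      rw [← mul_assoc, mul_assoc (T.t⁻¹ * a)]
      exact T.H.mul_mem ha hg
    · intro a ha g hg h
      change T.t⁻¹ * (a * g) * T.t ∈ T.H at h
      rw [← mul_assoc, mul_assoc (T.t⁻¹ * a)] at h
      exact hg ((T.H.mul_mem_cancel_left ha).1 h)
  -- the four products
  have Q1 : e1 * A * CH = e1 := by
    have h := congrArg (mrs (T.H : Set G)) hsum1
    rw [mrs_add, lH heA1, mrs_eq_zero hVe (by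
      rw [Set.disjoint_left]
      intro g hg
      exact HnnNormal_HV hg), add_zero, mrs_eq_self (HnnNormal_s1 p q T.H.one_mem)] at h
    exact h
  have Q2 : e1 * A * Cm = 0 := by
    have h := congrArg (mrs Hm) hsum1
    rw [mrs_add, lHm heA1, mrs_eq_zero hVe (by
      rw [Set.disjoint_left]
      intro g hg hg'
      have hgE : g ∉ T.E := fun h => HnnNormal_HV (HnnNormal_EH h) hg'
      exact HnnNormal_HV hg ((T.edge g hgE).1 hg')), add_zero,
      mrs_eq_zero (HnnNormal_s1 p q (Set.mem_singleton (1 : G))) (by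
      rw [Set.disjoint_singleton_right]
      intro h
      change 1 * T.t ∈ T.H at h
      rw [one_mul] at h
      exact HnnNormal_t h)] at h
    exact h
  have Q3 : e2 * be * CH = 0 := by
    have h := congrArg (mrs {g | T.t⁻¹ * g ∈ T.H}) hsum2
    rw [mrs_add, ltH heb2, mrs_eq_zero hNe (by
      rw [Set.disjoint_left]
      intro g hg hg'
      exact hg'.1 (HnnNormal_tH hg)), zero_add,
      mrs_eq_zero (HnnNormal_s2 p q (Set.mem_singleton (1 : G))) (by
      rw [Set.disjoint_singleton_right]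
      intro h
      change T.t⁻¹ * 1 ∈ T.H at h
      rw [mul_one] at h
      exact HnnNormal_t (T.H.inv_mem_iff.1 h))] at h
    exact h
  have Q4 : e2 * be * Cm = e2 := by
    have h := congrArg (mrs {g | T.t⁻¹ * g * T.t ∈ T.H}) hsum2
    rw [mrs_add, ltHm heb2, mrs_eq_zero hNe (by
      rw [Set.disjoint_left]
      intro g hg hg'
      have h1 : T.t⁻¹ * (g * T.t) ∈ T.H := by
        rw [← mul_assoc]
        exact hg
      rcases HnnNormal_gt (HnnNormal_tH h1) with h2 | h2
      · exact hg'.2 h2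
      · exact hg'.1 h2), zero_add,
      mrs_eq_self (HnnNormal_s2 p q (by
        change T.t⁻¹ * 1 * T.t ∈ T.H
        rw [mul_one, inv_mul_cancel]
        exact T.H.one_mem))] at h
    exact h
  have hone : CH * A + Cm * be = 1 := by
    have h1 : mrs (T.H : Set G) (c * A) = CH * A := by
      apply mrs_mul_right D.ha
      · intro g hg a ha
        exact T.H.mul_mem hg ha
      · intro g hg a ha h
        exact hg ((T.H.mul_mem_cancel_right ha).1 h)
    have h2 : mrs (T.H : Set G) (c * be) = Cm * be := by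
      have h3 : ∀ g a : G, g * T.t * (T.t⁻¹ * a) = g * a := by
        intro g a
        group
      apply mrs_mul_right hbeS
      · intro g hg a ha
        rw [← h3]
        exact T.H.mul_mem hg ha
      · intro g hg a ha h
        rw [← h3] at h
        exact hg ((T.H.mul_mem_cancel_right ha).1 h)
    rw [← h1, ← h2, ← mrs_add, ← Matrix.mul_add, hcm]
    exact mrs_one_of_mem T.H.one_mem
  have hYt : (CH + Cm * Dg) * T.tInv p q = CH + Cm := by
    have h1 : T.tInv p q = e1 + e2 * Di := by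
      rw [← hi2]
      ext i j : 2
      rw [HnnTree.tInv, Matrix.add_apply, hDi, diagonal_mul]
      rcases i with i | i <;> rcases j with j | j
      · simp [he1, he2]
      · simp [he1, he2]
      · simp [he1, he2]
      · simp only [he1, he2, fromBlocks_apply₂₂, Matrix.zero_apply, zero_add, Matrix.one_apply,
          diagonal_apply]
        split_ifs <;> simp [hti]
    rw [h1, Matrix.mul_add, Matrix.add_mul, Matrix.add_mul, s1', ← Matrix.mul_assoc CH, s1,
      Matrix.zero_mul, Matrix.mul_assoc Cm, hg1, ← Matrix.mul_assoc Cm, s2, Matrix.zero_mul,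
      Matrix.mul_assoc Cm Dg, ← Matrix.mul_assoc Dg, hg2, Matrix.mul_assoc e2, hgi,
      Matrix.mul_one, s2', zero_add, add_zero]
  have hN : D.m * (CH + Cm * Dg) * T.tInv p q = (A + be) * (CH + Cm) := by
    rw [Matrix.mul_assoc, hYt]
    rfl
  have hW : fromRows D.a.toRows₁ D.b.toRows₂ = e1 * A + e2 * b := by
    conv_rhs => rw [← fromRows_toRows A, ← fromRows_toRows b]
    rw [fromBlocks_mul_fromRows, fromBlocks_mul_fromRows]
    ext i j : 2
    rcases i with i | i
    · simp [hA, hb, Matrix.add_apply, toRows₁, toRows₂]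
    · simp [hA, hb, Matrix.add_apply, toRows₁, toRows₂]
  have hEN : (1 : Matrix (Fin p ⊕ Fin q) (Fin p ⊕ Fin q) (MonoidAlgebra ℤ G)) -
      (A + be) * (CH + Cm) =
      -(e1 * be * CH) - e1 * be * Cm - e2 * A * CH - e2 * A * Cm := by
    have h1 : (A + be) * (CH + Cm) = (e1 + e2) * ((A + be) * (CH + Cm)) := by
      rw [hadd, Matrix.one_mul]
    have h2 : (e1 + e2) * ((A + be) * (CH + Cm)) = e1 * A * CH + e1 * A * Cm + e1 * be * CH +
        e1 * be * Cm + (e2 * A * CH + e2 * A * Cm + e2 * be * CH + e2 * be * Cm) := by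
      simp only [Matrix.add_mul, Matrix.mul_add, Matrix.mul_assoc]
      abel
    rw [h1, h2, Q1, Q2, Q3, Q4, ← hadd]
    abel
  have hCmDg : MSupp (T.H : Set G) (Cm * Dg) := by
    apply (mrs_supp Hm c).mul (T := {T.t})
    · intro i j
      rw [hDg, diagonal_apply]
      split_ifs
      · intro g hg
        rw [ht', MonoidAlgebra.coeff_single, Finsupp.single_apply, if_neg]
        rintro rfl
        exact hg rfl
      · exact SuppIn.zero
    · intro g hg s hs
      rw [Set.mem_singleton_iff.1 hs]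
      exact hg
  refine ⟨CH + Cm * Dg, e1 * A * c + e2 * be * c, (mrs_supp _ _).add hCmDg, ?_, ?_, ?_, ?_, ?_,
    ?_⟩
  · rw [hW]
    have h1 : e2 * b = Di * (e2 * be) := by
      rw [← Matrix.mul_assoc, hi2, Matrix.mul_assoc, hbi]
    rw [h1, Matrix.add_mul, Matrix.mul_add, Matrix.mul_add, Q1, ← Matrix.mul_assoc (e1 * A), Q2,
      Matrix.zero_mul, add_zero, Matrix.mul_assoc Di, Q3, Matrix.mul_zero, zero_add,
      Matrix.mul_assoc Di, ← Matrix.mul_assoc (e2 * be), Q4, ← hg2, ← Matrix.mul_assoc, hig,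
      Matrix.one_mul, hadd]
  · rw [hW, Matrix.add_mul, Matrix.mul_add, Matrix.mul_add, ← Matrix.mul_assoc CH, s1',
      ← Matrix.mul_assoc CH, s1, Matrix.zero_mul, add_zero, Matrix.mul_assoc Cm,
      ← Matrix.mul_assoc Dg, hg1, Matrix.mul_assoc e1, ← Matrix.mul_assoc Cm, s2,
      Matrix.zero_mul, zero_add, Matrix.mul_assoc Cm, ← Matrix.mul_assoc Dg, hg2,
      Matrix.mul_assoc e2, hbeg, ← Matrix.mul_assoc Cm, s2', hone]
  · intro i j
    rw [hN, hEN]
    have k1 : ∀ (M : Matrix (Fin p ⊕ Fin q) J (MonoidAlgebra ℤ G)) i j,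
        (M * CH) i (Sum.inr j) = 0 := by
      intro M i j
      have h : M * CH * e2 = 0 := by rw [Matrix.mul_assoc, s1, Matrix.mul_zero]
      have h' := congrFun (congrFun h i) (Sum.inr j)
      rwa [Matrix.zero_apply, he2, HnnNormal_m2] at h'
    have k2 : ∀ (M : Matrix (Fin p ⊕ Fin q) J (MonoidAlgebra ℤ G)) i j,
        (M * Cm) i (Sum.inl j) = 0 := by
      intro M i j
      have h : M * Cm * e1 = 0 := by rw [Matrix.mul_assoc, s2, Matrix.mul_zero]
      have h' := congrFun (congrFun h i) (Sum.inl j)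
      rwa [Matrix.zero_apply, he1, HnnNormal_m1] at h'
    have r1 : ∀ (M : Matrix (Fin p ⊕ Fin q) (Fin p ⊕ Fin q) (MonoidAlgebra ℤ G)) i j,
        (e1 * M) (Sum.inr i) j = 0 := by
      intro M i j
      rw [Matrix.mul_apply]
      simp [he1]
    have r2 : ∀ (M : Matrix (Fin p ⊕ Fin q) (Fin p ⊕ Fin q) (MonoidAlgebra ℤ G)) i j,
        (e2 * M) (Sum.inl i) j = 0 := by
      intro M i j
      rw [Matrix.mul_apply]
      simp [he2]
    have hmul : ∀ {S U : Set G} {M : Matrix (Fin p ⊕ Fin q) J (MonoidAlgebra ℤ G)}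
        {M' : Matrix J (Fin p ⊕ Fin q) (MonoidAlgebra ℤ G)} {V : Set G}, MSupp S M →
        MSupp U M' → (∀ s ∈ S, ∀ t ∈ U, s * t ∈ V) → MSupp V (M * M') :=
      fun h1 h2 h3 => h1.mul h2 h3
    rcases i with i | i <;> rcases j with j | j
    · -- t H
      have h1 : (-(e1 * be * CH) - e1 * be * Cm - e2 * A * CH - e2 * A * Cm) (Sum.inl i)
          (Sum.inl j) = (-(e1 * be * CH)) (Sum.inl i) (Sum.inl j) := by
        simp only [Matrix.sub_apply, k2, Matrix.mul_assoc e2, r2, sub_zero]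
      rw [h1]
      have h2 : MSupp {g | ∃ h ∈ T.H, g = T.t * h} (-(e1 * be * CH)) := by
        apply MSupp.neg
        apply hmul heb1 (mrs_supp _ _)
        intro s hs t ht
        refine ⟨T.t⁻¹ * s * t, T.H.mul_mem hs ht, ?_⟩
        group
      exact h2 _ _
    · -- t H t⁻¹ without E
      have h1 : (-(e1 * be * CH) - e1 * be * Cm - e2 * A * CH - e2 * A * Cm) (Sum.inl i)
          (Sum.inr j) = (-(e1 * be * Cm)) (Sum.inl i) (Sum.inr j) := by
        simp only [Matrix.sub_apply, Matrix.neg_apply, k1, Matrix.mul_assoc e2, r2, sub_zero,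
          neg_zero, zero_sub]
      rw [h1]
      have h3 : MSupp T.V (e1 * be * Cm) := by
        rw [← ltHm heb1]
        exact HnnNormal_restr hVe
      have h4 : MSupp {g | T.t⁻¹ * g * T.t ∈ T.H} (e1 * be * Cm) := by
        rw [← ltHm heb1]
        exact mrs_supp _ _
      have h2 : MSupp {g | (∃ h ∈ T.H, g = T.t * h * T.t⁻¹) ∧ g ∉ T.E} (-(e1 * be * Cm)) := by
        apply MSupp.neg
        intro i j g hg
        by_cases hgV : g ∈ T.V
        · by_cases hgH : T.t⁻¹ * g * T.t ∈ T.H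
          · exfalso
            apply hg
            refine ⟨⟨_, hgH, ?_⟩, fun h => HnnNormal_HV (HnnNormal_EH h) hgV⟩
            group
          · exact h4 i j g hgH
        · exact h3 i j g hgV
      exact h2 _ _
    · -- H without E
      have h1 : (-(e1 * be * CH) - e1 * be * Cm - e2 * A * CH - e2 * A * Cm) (Sum.inr i)
          (Sum.inl j) = (-(e2 * A * CH)) (Sum.inr i) (Sum.inl j) := by
        simp only [Matrix.sub_apply, Matrix.neg_apply, k2, Matrix.mul_assoc e1, r1, sub_zero,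
          neg_zero, zero_sub]
      rw [h1]
      have h3 : MSupp {g | g ∉ T.V ∧ g ∉ T.E} (e2 * A * CH) := by
        rw [← lH heA2]
        exact HnnNormal_restr hNe
      have h4 : MSupp (T.H : Set G) (e2 * A * CH) := by
        rw [← lH heA2]
        exact mrs_supp _ _
      have h2 : MSupp {g | g ∈ T.H ∧ g ∉ T.E} (-(e2 * A * CH)) := by
        apply MSupp.neg
        intro i j g hg
        by_cases hgH : g ∈ T.H
        · apply h3 i j g
          intro h
          exact hg ⟨hgH, h.2⟩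
        · exact h4 i j g hgH
      exact h2 _ _
    · -- H t⁻¹
      have h1 : (-(e1 * be * CH) - e1 * be * Cm - e2 * A * CH - e2 * A * Cm) (Sum.inr i)
          (Sum.inr j) = (-(e2 * A * Cm)) (Sum.inr i) (Sum.inr j) := by
        simp only [Matrix.sub_apply, Matrix.neg_apply, k1, Matrix.mul_assoc e1, r1, sub_zero,
          neg_zero, zero_sub]
      rw [h1]
      have h2 : MSupp {g | ∃ h ∈ T.H, g = h * T.t⁻¹} (-(e2 * A * Cm)) := by
        apply MSupp.neg
        apply hmul heA2 (mrs_supp _ _)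
        intro s hs t ht
        refine ⟨s * (t * T.t), T.H.mul_mem hs ht, ?_⟩
        group
      exact h2 _ _
  · intro i j
    have r1 : ∀ (M : Matrix (Fin p ⊕ Fin q) (Fin p ⊕ Fin q) (MonoidAlgebra ℤ G)) i j,
        (e1 * M) (Sum.inr i) j = 0 := by
      intro M i j
      rw [Matrix.mul_apply]
      simp [he1]
    have r2 : ∀ (M : Matrix (Fin p ⊕ Fin q) (Fin p ⊕ Fin q) (MonoidAlgebra ℤ G)) i j,
        (e2 * M) (Sum.inl i) j = 0 := by
      intro M i j
      rw [Matrix.mul_apply]
      simp [he2]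
    rcases i with i | i
    · have h1 : (e1 * A * c + e2 * be * c) (Sum.inl i) j = (e1 * A * c) (Sum.inl i) j := by
        rw [Matrix.add_apply, Matrix.mul_assoc e2, r2, add_zero]
      rw [h1]
      have h2 : e1 * A * c = e1 - e1 * be * c := eq_sub_of_add_eq hsum1
      rw [h2]
      have h3 : MSupp {g | g ∈ T.E ∨ g ∈ T.V} (e1 - e1 * be * c) :=
        (HnnNormal_s1 p q (show (1 : G) ∈ {g | g ∈ T.E ∨ g ∈ T.V} from Or.inl T.E.one_mem)).sub (hVe.mono fun g hg => Or.inr hg)
      exact h3 _ _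
    · have h1 : (e1 * A * c + e2 * be * c) (Sum.inr i) j = (e2 * be * c) (Sum.inr i) j := by
        rw [Matrix.add_apply, Matrix.mul_assoc e1, r1, zero_add]
      rw [h1]
      have h2 : e2 * be * c = e2 - e2 * A * c := eq_sub_of_add_eq' hsum2
      rw [h2]
      have h3 : MSupp T.Vᶜ (e2 - e2 * A * c) :=
        (HnnNormal_s2 p q T.one_notMem).sub (hNe.mono fun g hg => hg.1)
      exact h3 _ _
  · rw [hN]
    have h1 : (e1 * A * c + e2 * be * c) * ((A + be) * (CH + Cm)) =
        (e1 * A + e2 * be) * (CH + Cm) := by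
      rw [← Matrix.add_mul, Matrix.mul_assoc, ← Matrix.mul_assoc c, hcm, Matrix.one_mul]
    rw [h1, Matrix.add_mul, Matrix.mul_add, Matrix.mul_add, Q1, Q2, Q3, Q4, add_zero, zero_add,
      hadd]
  · rw [hN]
    have h1 : (A + be) * (CH + Cm) * (e1 * A * c + e2 * be * c) =
        (A + be) * ((CH * e1 * A + CH * e2 * be + (Cm * e1 * A + Cm * e2 * be)) * c) := by
      simp only [Matrix.add_mul, Matrix.mul_add, Matrix.mul_assoc]
      abel
    rw [h1, s1', s1, s2, s2', Matrix.zero_mul, Matrix.zero_mul, add_zero, zero_add, hone,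
      Matrix.one_mul, hmc]

end HnnNormal

end Pool.Agent.Wald
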