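import Mathlib
import Pool.Agent.Lib.MP_8f66f0_al_Wald.GrDefs
import Pool.Agent.Lib.MP_8f66f0_al_Wald.Supp

/-! HNN extensions: stabilization and base change. -/

set_option autoImplicit false

namespace Pool.Agent.Wald

open Matrix

section Hnn
variable {G : Type} [Group G] {T : HnnTree G}
variable {I J : Type} [Fintype I] [DecidableEq I] [Fintype J] [DecidableEq J]

omit [Group G] in
private theorem HnnOps_blocks {S : Set G} {m n l o : Type} (A : Matrix m n (MonoidAlgebra ℤ G))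
    (B : Matrix m o (MonoidAlgebra ℤ G)) (C : Matrix l n (MonoidAlgebra ℤ G))
    (D : Matrix l o (MonoidAlgebra ℤ G)) :
    mrs S (fromBlocks A B C D) = fromBlocks (mrs S A) (mrs S B) (mrs S C) (mrs S D) :=
  Matrix.fromBlocks_map A B C D (rs S)

private theorem HnnOps_inv (t : G) (n : Type) [Fintype n] [DecidableEq n] :
    ((MonoidAlgebra.single t (1 : ℤ) : MonoidAlgebra ℤ G) •
      (1 : Matrix n n (MonoidAlgebra ℤ G))) *
      Matrix.diagonal (fun _ : n => (MonoidAlgebra.single t⁻¹ (1 : ℤ) : MonoidAlgebra ℤ G)) = 1 ∧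
    Matrix.diagonal (fun _ : n => (MonoidAlgebra.single t⁻¹ (1 : ℤ) : MonoidAlgebra ℤ G)) *
      ((MonoidAlgebra.single t (1 : ℤ) : MonoidAlgebra ℤ G) •
      (1 : Matrix n n (MonoidAlgebra ℤ G))) = 1 := by
  rw [smul_one_eq_diagonal, diagonal_mul_diagonal, diagonal_mul_diagonal]
  simp only [MonoidAlgebra.single_mul_single, mul_inv_cancel, inv_mul_cancel, mul_one,
    ← MonoidAlgebra.one_def, diagonal_one, and_self]

theorem HnnData.exists_stab (D : HnnData T I J) (k l : ℕ) :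
    ∃ D' : HnnData T (I ⊕ (Fin k ⊕ Fin l)) (J ⊕ (Fin k ⊕ Fin l)),
      D'.a = fromBlocks D.a 0 0 (fromBlocks 1 0 0 0) ∧
      D'.b = fromBlocks D.b 0 0 (fromBlocks 0 0 0 1) ∧
      D'.pa = fromBlocks D.pa 0 0 (fromBlocks 1 0 0 0) := by
  have e0 := HnnOps_inv T.t (Fin l)
  refine ⟨⟨fromBlocks D.a 0 0 (fromBlocks 1 0 0 0), fromBlocks D.b 0 0 (fromBlocks 0 0 0 1),
    fromBlocks D.c 0 0 (fromBlocks 1 0 0
      (Matrix.diagonal fun _ => MonoidAlgebra.single T.t⁻¹ (1 : ℤ))), ?_, ?_, ?_, ?_⟩,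
    rfl, rfl, ?_⟩
  · exact MSupp.fromBlocks D.ha MSupp.zero MSupp.zero
      (MSupp.fromBlocks (MSupp.one T.H.one_mem) MSupp.zero MSupp.zero MSupp.zero)
  · exact MSupp.fromBlocks D.hb MSupp.zero MSupp.zero
      (MSupp.fromBlocks MSupp.zero MSupp.zero MSupp.zero (MSupp.one T.H.one_mem))
  · simp only [fromBlocks_smul, fromBlocks_add, smul_zero, add_zero, zero_add, fromBlocks_multiply,
      Matrix.mul_zero, Matrix.zero_mul, Matrix.mul_one, D.mc, e0.1, fromBlocks_one]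
  · simp only [fromBlocks_smul, fromBlocks_add, smul_zero, add_zero, zero_add, fromBlocks_multiply,
      Matrix.mul_zero, Matrix.zero_mul, Matrix.mul_one, D.cm, e0.2, fromBlocks_one]
  · unfold HnnData.pa
    simp only [fromBlocks_multiply, Matrix.mul_zero, Matrix.zero_mul, Matrix.mul_one, add_zero,
      zero_add, HnnOps_blocks, mrs_zero]
    rw [mrs_one_of_mem T.E.one_mem]

/-- Conjugation by `t`. -/
private noncomputable def HnnOps_conj {m n : Type} (t : G) (U : Matrix m n (MonoidAlgebra ℤ G)) :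
    Matrix m n (MonoidAlgebra ℤ G) :=
  U.map fun x => MonoidAlgebra.single t⁻¹ (1 : ℤ) * x * MonoidAlgebra.single t (1 : ℤ)

private theorem HnnOps_conj_mul {m n l : Type} [Fintype n] (t : G)
    (U : Matrix m n (MonoidAlgebra ℤ G)) (B : Matrix n l (MonoidAlgebra ℤ G)) :
    (MonoidAlgebra.single t (1 : ℤ) : MonoidAlgebra ℤ G) • (HnnOps_conj t U * B) =
      U * ((MonoidAlgebra.single t (1 : ℤ) : MonoidAlgebra ℤ G) • B) := by
  ext1 i j
  rw [Matrix.smul_apply, Matrix.mul_apply, Matrix.mul_apply, smul_eq_mul, Finset.mul_sum]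
  refine Finset.sum_congr rfl fun x _ => ?_
  rw [Matrix.smul_apply, smul_eq_mul, HnnOps_conj, Matrix.map_apply, ← mul_assoc, ← mul_assoc,
    ← mul_assoc, ← mul_assoc, MonoidAlgebra.single_mul_single, mul_inv_cancel, mul_one,
    ← MonoidAlgebra.one_def, one_mul]

theorem HnnData.exists_base (D : HnnData T I J) {I' : Type} [Fintype I'] [DecidableEq I']
    (U : Matrix I' I (MonoidAlgebra ℤ G)) (V : Matrix I I' (MonoidAlgebra ℤ G))
    (hU : MSupp (T.E : Set G) U) (hV : MSupp (T.E : Set G) V) (hUV : U * V = 1)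
    (hVU : V * U = 1) : ∃ D' : HnnData T I' J, D'.m = U * D.m ∧ D'.pa = U * D.pa * V := by
  have hEH : ∀ e ∈ (T.E : Set G), e ∈ (T.H : Set G) := fun e he => ((T.memE e).1 he).1
  have hEt : ∀ e ∈ (T.E : Set G), T.t⁻¹ * e * T.t ∈ (T.H : Set G) := fun e he =>
    ((T.memE e).1 he).2
  have e1 : U * D.a + (MonoidAlgebra.single T.t (1 : ℤ) : MonoidAlgebra ℤ G) •
      (HnnOps_conj T.t U * D.b) =
      U * (D.a + (MonoidAlgebra.single T.t (1 : ℤ) : MonoidAlgebra ℤ G) • D.b) := by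
    rw [HnnOps_conj_mul, Matrix.mul_add]
  have hc : MSupp (T.H : Set G) (HnnOps_conj T.t U) := by
    intro i j
    refine (((SuppIn.single (S := {T.t⁻¹}) rfl 1).mul (hU i j)
      (U := {g | ∃ e ∈ (T.E : Set G), g = T.t⁻¹ * e}) ?_).mul
      (SuppIn.single (S := {T.t}) rfl 1) ?_)
    · rintro s rfl e he
      exact ⟨e, he, rfl⟩
    · rintro s ⟨e, he, rfl⟩ x rfl
      exact hEt e he
  refine ⟨⟨U * D.a, HnnOps_conj T.t U * D.b, D.c * V, ?_, ?_, ?_, ?_⟩, e1, ?_⟩
  · exact (hU.mono (T := (T.H : Set G)) hEH).mul D.ha fun s hs t ht => T.H.mul_mem hs ht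
  · exact hc.mul D.hb fun s hs t ht => T.H.mul_mem hs ht
  · rw [e1, Matrix.mul_assoc, ← Matrix.mul_assoc _ D.c V, D.mc, Matrix.one_mul, hUV]
  · rw [e1, Matrix.mul_assoc, ← Matrix.mul_assoc V U, hVU, Matrix.one_mul, D.cm]
  · unfold HnnData.pa
    dsimp only
    rw [show U * D.a * (D.c * V) = U * (D.a * D.c) * V by simp only [Matrix.mul_assoc]]
    have hr : ∀ g ∉ (T.E : Set G), ∀ a ∈ (T.E : Set G), g * a ∉ (T.E : Set G) := by
      intro g hg a ha h
      exact hg (by simpa using T.E.mul_mem h (T.E.inv_mem ha))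
    have hl : ∀ a ∈ (T.E : Set G), ∀ g ∉ (T.E : Set G), a * g ∉ (T.E : Set G) := by
      intro a ha g hg h
      exact hg (by simpa using T.E.mul_mem (T.E.inv_mem ha) h)
    rw [mrs_mul_right hV (fun g hg a ha => T.E.mul_mem hg ha) hr,
      mrs_mul_left hU (fun a ha g hg => T.E.mul_mem ha hg) hl]

end Hnn

end Pool.Agent.Wald
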