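import Mathlib
import Pool.Agent.Lib.MP_8f66f0_al_Wald.DiagDefs

/-! Kernels are projective implies the factorization property. -/

set_option autoImplicit false

namespace Pool.Agent.Wald

open Matrix

theorem gprop_of_kerProj {S : Type} [Ring S] (h : KerProj S) : GProp S := by
  classical
  intro a b s hm k hk
  obtain ⟨σ, hσ⟩ := Module.projective_def.1 (h a b hm)
  have hmem : ∀ i, k i ∈ LinearMap.ker (Matrix.vecMulLinear hm) := fun i => by
    rw [LinearMap.mem_ker, Matrix.vecMulLinear_apply, ← Matrix.mul_apply_eq_vecMul, hk]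
    rfl
  set kk : Fin s → LinearMap.ker (Matrix.vecMulLinear hm) := fun i => ⟨k i, hmem i⟩ with hkk
  set F : Finset (LinearMap.ker (Matrix.vecMulLinear hm)) :=
    Finset.univ.biUnion fun i => (σ (kk i)).support with hF
  have e : Fin F.card ≃ F := F.equivFin.symm
  refine ⟨F.card, fun i j => σ (kk i) (e j),
    fun j => ((e j : LinearMap.ker (Matrix.vecMulLinear hm)) : Fin a → S), ?_, ?_, ?_⟩
  · ext i x
    have h1 : Finsupp.linearCombination S id (σ (kk i)) = kk i := hσ (kk i)
    rw [Finsupp.linearCombination_apply, Finsupp.sum_of_support_subset (s := F) _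
      (Finset.subset_biUnion_of_mem (fun i => (σ (kk i)).support) (Finset.mem_univ i)) _
      (fun v _ => zero_smul S (id v))] at h1
    have h2 : (k i x) = ((∑ v ∈ F, (σ (kk i)) v • id v :
        LinearMap.ker (Matrix.vecMulLinear hm)) : Fin a → S) x := by rw [h1]
    rw [h2, Matrix.mul_apply, AddSubmonoidClass.coe_finsetSum, Finset.sum_apply,
      ← Finset.sum_coe_sort F, ← Equiv.sum_comp e]
    rfl
  · ext j x
    have h1 := (e j : LinearMap.ker (Matrix.vecMulLinear hm)).2
    rw [LinearMap.mem_ker, Matrix.vecMulLinear_apply] at h1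
    rw [Matrix.mul_apply_eq_vecMul, h1]
    rfl
  · intro c hc
    have h1 : ∑ i, c i • kk i = 0 := by
      apply Subtype.ext
      rw [AddSubmonoidClass.coe_finsetSum]
      rw [Matrix.vecMul_eq_sum] at hc
      exact hc
    have h2 := congrArg σ h1
    rw [map_sum, map_zero] at h2
    ext j
    have h3 := DFunLike.congr_fun h2 (e j : LinearMap.ker (Matrix.vecMulLinear hm))
    rw [Finsupp.finsetSum_apply] at h3
    rw [Matrix.vecMul, dotProduct]
    simpa using h3

end Pool.Agent.Wald
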