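import Mathlib

/-! # IntSub: submodules of free abelian groups are projective -/

set_option autoImplicit false

namespace Pool.Agent.Wald

namespace IntSubAux

/-- quotients of divisible modules satisfy the criterion of Baer -/
theorem baer_quot {I : Type} [AddCommGroup I]
    (hI : ∀ n : ℤ, n ≠ 0 → Function.Surjective fun a : I => n • a) (K : Submodule ℤ I) :
    Module.Baer ℤ (I ⧸ K) := by
  let _ : DivisibleBy (I ⧸ K) ℤ := divisibleByOfSMulRightSurj (I ⧸ K) ℤ (by
    intro n hn x
    obtain ⟨a, rfl⟩ := K.mkQ_surjective x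
    obtain ⟨b, hb⟩ := hI n hn a
    refine ⟨K.mkQ b, ?_⟩
    change n • K.mkQ b = K.mkQ a
    rw [← map_smul]
    exact congrArg _ hb)
  exact Module.Baer.of_divisible _

end IntSubAux

open IntSubAux

theorem int_submodule_projective (J : Type) (N : Submodule ℤ (J →₀ ℤ)) : Module.Projective ℤ N := by
  refine Module.Projective.of_lifting_property'' fun π hπ => ?_
  let ι : (N →₀ ℤ) →ₗ[ℤ] (N →₀ ℚ) := Finsupp.mapRange.linearMap (Int.castAddHom ℚ).toIntLinearMap
  have hι : Function.Injective ι := by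
    intro a b h
    ext x
    have h1 := DFunLike.congr_fun h x
    change ((a x : ℤ) : ℚ) = ((b x : ℤ) : ℚ) at h1
    exact_mod_cast h1
  let K : Submodule ℤ (N →₀ ℚ) := (LinearMap.ker π).map ι
  have hB : Module.Baer ℤ ((N →₀ ℚ) ⧸ K) := by
    refine baer_quot (fun n hn a => ⟨(n : ℚ)⁻¹ • a, ?_⟩) K
    change n • ((n : ℚ)⁻¹ • a) = a
    ext x
    change n • ((n : ℚ)⁻¹ • a x) = a x
    rw [zsmul_eq_mul, smul_eq_mul]
    have : (n : ℚ) ≠ 0 := Int.cast_ne_zero.2 hn
    field_simp
  -- the map `j : N → I / K`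
  let j : N →ₗ[ℤ] ((N →₀ ℚ) ⧸ K) :=
    (Submodule.mapQ (LinearMap.ker π) K ι (Submodule.le_comap_map _ _)).comp
      (π.quotKerEquivOfSurjective hπ).symm.toLinearMap
  have hj : ∀ b, j (π b) = K.mkQ (ι b) := by
    intro b
    change (Submodule.mapQ (LinearMap.ker π) K ι (Submodule.le_comap_map _ _)) ((π.quotKerEquivOfSurjective hπ).symm (π b)) = _
    have h1 : (π.quotKerEquivOfSurjective hπ).symm (π b) = (LinearMap.ker π).mkQ b := by
      rw [LinearEquiv.symm_apply_eq]
      rfl
    rw [h1]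
    rfl
  obtain ⟨g, hg⟩ := hB.extension_property N.subtype N.injective_subtype j
  obtain ⟨h, hh⟩ := Module.projective_lifting_property K.mkQ g K.mkQ_surjective
  -- the restriction of `h` takes values in the image of `ι`
  have key : ∀ x : N, ∃ b, π b = x ∧ ι b = h (x : J →₀ ℤ) := by
    intro x
    obtain ⟨b, hb⟩ := hπ x
    have h1 : K.mkQ (h (x : J →₀ ℤ)) = K.mkQ (ι b) := by
      have h2 := LinearMap.congr_fun hh (x : J →₀ ℤ)
      have h3 := LinearMap.congr_fun hg x
      change K.mkQ (h (x : J →₀ ℤ)) = g (x : J →₀ ℤ) at h2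
      change g (x : J →₀ ℤ) = j x at h3
      rw [h2, h3, ← hb, hj]
    rw [← sub_eq_zero, ← map_sub, Submodule.mkQ_apply, Submodule.Quotient.mk_eq_zero] at h1
    obtain ⟨k, hk, hk'⟩ := h1
    refine ⟨b + k, ?_, ?_⟩
    · rw [map_add, hb, LinearMap.mem_ker.1 hk, add_zero]
    · rw [map_add, hk']
      abel
  choose s hs1 hs2 using key
  refine ⟨{ toFun := s, map_add' := ?_, map_smul' := ?_ }, ?_⟩
  · intro x y
    apply hι
    rw [map_add, hs2, hs2, hs2, ← map_add]
    rfl
  · intro n x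
    apply hι
    rw [map_smul, hs2, hs2, ← map_smul]
    rfl
  · exact LinearMap.ext fun x => hs1 x

end Pool.Agent.Wald
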