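import Mathlib
import Pool.Agent.Lib.MP_8f66f0_al_Wald.GrDefs
import Pool.Agent.Lib.MP_8f66f0_al_Wald.DiagDefs

/-! A projective resolution of length two of the trivial module. -/

set_option autoImplicit false

namespace Pool.Agent.Wald

open Matrix CategoryTheory TensorProduct

private theorem Resol_sh {R : Type} [Ring R] {P M : Type} [AddCommGroup P] [Module R P]
    [AddCommGroup M] [Module R M] [Module.Projective R P] (f : P →ₗ[R] M)
    (hf : Function.Surjective f) (n : ℕ)
    (hM : HasProjectiveDimensionLT (ModuleCat.of R M) (n + 2)) :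
    HasProjectiveDimensionLT (ModuleCat.of R (LinearMap.ker f)) (n + 1) := by
  have h1 := LinearMap.shortExact_shortComplexKer hf
  have hP : Projective (ModuleCat.of R P) := (IsProjective.iff_projective P).mp inferInstance
  have h2 : HasProjectiveDimensionLT (ModuleCat.of R P) (n + 1) :=
    hasProjectiveDimensionLT_of_ge _ 1 _ (by omega)
  exact h1.hasProjectiveDimensionLT_X₁ (n + 1) h2 hM

private theorem Resol_lc {R : Type} [Ring R] (M : Type) [AddCommGroup M] [Module R M] :
    Function.Surjective (Finsupp.linearCombination R (id : M → M)) := fun m =>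
  ⟨Finsupp.single m 1, by simp⟩

private theorem Resol_gen {R : Type} [Ring R] (M : Type) [AddCommGroup M] [Module R M]
    (hM : HasProjectiveDimensionLE (ModuleCat.of R M) 2) :
    ∃ (P₀ P₁ P₂ : Type) (_ : AddCommGroup P₀) (_ : Module R P₀)
      (_ : AddCommGroup P₁) (_ : Module R P₁) (_ : AddCommGroup P₂)
      (_ : Module R P₂) (ε : P₀ →ₗ[R] M) (d₁ : P₁ →ₗ[R] P₀)
      (d₂ : P₂ →ₗ[R] P₁),
      Module.Projective R P₀ ∧ Module.Projective R P₁ ∧
      Module.Projective R P₂ ∧ Function.Surjective ε ∧ Function.Exact d₁ ε ∧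
      Function.Exact d₂ d₁ ∧ Function.Injective d₂ := by
  let ε : (M →₀ R) →ₗ[R] M := Finsupp.linearCombination R (id : M → M)
  let K₀ := LinearMap.ker ε
  let π : (K₀ →₀ R) →ₗ[R] K₀ := Finsupp.linearCombination R (id : K₀ → K₀)
  have hε : Function.Surjective ε := Resol_lc M
  have hπ : Function.Surjective π := Resol_lc K₀
  have h1 : HasProjectiveDimensionLT (ModuleCat.of R K₀) 2 := Resol_sh ε hε 1 hM
  have h2 : HasProjectiveDimensionLT (ModuleCat.of R (LinearMap.ker π)) 1 := Resol_sh π hπ 0 h1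
  have h3 : Module.Projective R (LinearMap.ker π) :=
    (IsProjective.iff_projective _).mpr (projective_iff_hasProjectiveDimensionLT_one.mpr h2)
  refine ⟨M →₀ R, K₀ →₀ R, LinearMap.ker π, inferInstance, inferInstance, inferInstance,
    inferInstance, inferInstance, inferInstance, ε, K₀.subtype ∘ₗ π, (LinearMap.ker π).subtype,
    inferInstance, inferInstance, h3, hε, ?_, ?_, Subtype.val_injective⟩
  · intro y
    constructor
    · intro hy
      obtain ⟨z, hz⟩ := hπ ⟨y, hy⟩
      exact ⟨z, by rw [LinearMap.comp_apply, hz]; rfl⟩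
    · rintro ⟨z, rfl⟩
      exact (π z).2
  · intro y
    constructor
    · intro hy
      exact ⟨⟨y, Subtype.ext hy⟩, rfl⟩
    · rintro ⟨z, rfl⟩
      have h4 : π z.1 = 0 := z.2
      show ((π z.1 : K₀) : M →₀ R) = 0
      rw [h4]
      rfl

section Diag

variable (k E : Type) [CommRing k] [Group E]

/-- A resolution of length two of the trivial module. -/
theorem exists_resolution (hE : CdLE2 E) :
    ∃ (P₀ P₁ P₂ : Type) (_ : AddCommGroup P₀) (_ : Module (MonoidAlgebra ℤ E) P₀)
      (_ : AddCommGroup P₁) (_ : Module (MonoidAlgebra ℤ E) P₁) (_ : AddCommGroup P₂)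
      (_ : Module (MonoidAlgebra ℤ E) P₂) (ε : P₀ →ₗ[MonoidAlgebra ℤ E]
        (Representation.trivial ℤ E ℤ).asModule) (d₁ : P₁ →ₗ[MonoidAlgebra ℤ E] P₀)
      (d₂ : P₂ →ₗ[MonoidAlgebra ℤ E] P₁),
      Module.Projective (MonoidAlgebra ℤ E) P₀ ∧ Module.Projective (MonoidAlgebra ℤ E) P₁ ∧
      Module.Projective (MonoidAlgebra ℤ E) P₂ ∧ Function.Surjective ε ∧ Function.Exact d₁ ε ∧
      Function.Exact d₂ d₁ ∧ Function.Injective d₂ :=
  Resol_gen (R := MonoidAlgebra ℤ E) (Representation.trivial ℤ E ℤ).asModule hE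

end Diag

end Pool.Agent.Wald
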