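import Pool.Agent.Lib.MP_8f66f0_al_Wald.DiagDefs
import Pool.Agent.Lib.MP_8f66f0_al_Wald.DiagProj
import Pool.Agent.Lib.MP_8f66f0_al_Wald.DiagMap
import Pool.Agent.Lib.MP_8f66f0_al_Wald.Resol

/-! Modules which are projective over `k` have projective dimension at most two over `kE`. -/

set_option autoImplicit false

namespace Pool.Agent.Wald

open Matrix CategoryTheory TensorProduct

private theorem Reso_cat {S : Type} [Ring S] {Q2 Q1 Q0 T : Type} [AddCommGroup Q2] [Module S Q2]
    [AddCommGroup Q1] [Module S Q1] [AddCommGroup Q0] [Module S Q0] [AddCommGroup T] [Module S T]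
    [Module.Projective S Q2] [Module.Projective S Q1] [Module.Projective S Q0]
    (G2 : Q2 →ₗ[S] Q1) (G1 : Q1 →ₗ[S] Q0) (G0 : Q0 →ₗ[S] T) (h2 : Function.Injective G2)
    (h21 : Function.Exact G2 G1) (h10 : Function.Exact G1 G0) (h0 : Function.Surjective G0) :
    HasProjectiveDimensionLT (ModuleCat.of S T) 3 := by
  have hP2 : HasProjectiveDimensionLT (ModuleCat.of S Q2) 1 :=
    projective_iff_hasProjectiveDimensionLT_one.mp ((IsProjective.iff_projective Q2).mp ‹_›)
  have hP1 : HasProjectiveDimensionLT (ModuleCat.of S Q1) 2 := by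
    have : HasProjectiveDimensionLT (ModuleCat.of S Q1) 1 :=
      projective_iff_hasProjectiveDimensionLT_one.mp ((IsProjective.iff_projective Q1).mp ‹_›)
    exact hasProjectiveDimensionLT_of_ge _ 1 _ (by omega)
  have hP0 : HasProjectiveDimensionLT (ModuleCat.of S Q0) 3 := by
    have : HasProjectiveDimensionLT (ModuleCat.of S Q0) 1 :=
      projective_iff_hasProjectiveDimensionLT_one.mp ((IsProjective.iff_projective Q0).mp ‹_›)
    exact hasProjectiveDimensionLT_of_ge _ 1 _ (by omega)
  let G1' : Q1 →ₗ[S] LinearMap.ker G0 := G1.codRestrict (LinearMap.ker G0) fun x =>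
    (h10 _).mpr ⟨x, rfl⟩
  have hs1 : Function.Surjective G1' := by
    rintro ⟨y, hy⟩
    obtain ⟨x, rfl⟩ := (h10 y).mp hy
    exact ⟨x, rfl⟩
  have hex : Function.Exact G2 G1' := by
    intro y
    rw [← h21 y]
    constructor
    · intro h
      exact congrArg Subtype.val h
    · intro h
      exact Subtype.ext h
  have hse1 := ModuleCat.shortComplex_shortExact
    (ModuleCat.shortComplexOfCompEqZero G2 G1' (LinearMap.ext fun x => (hex _).mpr ⟨x, rfl⟩))
    hex h2 hs1
  have hK : HasProjectiveDimensionLT (ModuleCat.of S (LinearMap.ker G0)) 2 :=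
    hse1.hasProjectiveDimensionLT_X₃ 1 hP2 hP1
  exact (LinearMap.shortExact_shortComplexKer h0).hasProjectiveDimensionLT_X₃ 2 hK hP0

private theorem Reso_retr {P T : Type} [AddCommGroup P] [AddCommGroup T] (ε : P →ₗ[ℤ] T)
    (hε : Function.Surjective ε) [Module.Projective ℤ T] :
    ∃ r : P →ₗ[ℤ] LinearMap.ker ε, r ∘ₗ (LinearMap.ker ε).subtype = LinearMap.id := by
  obtain ⟨s, hs⟩ := Module.projective_lifting_property ε LinearMap.id hε
  have hs' : ∀ x, ε (s x) = x := fun x => LinearMap.congr_fun hs x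
  refine ⟨(LinearMap.id - s ∘ₗ ε).codRestrict (LinearMap.ker ε) fun x => by
    rw [LinearMap.mem_ker]
    simp [hs'], ?_⟩
  ext x
  have hx : ε x.1 = 0 := x.2
  simp [hx]

private theorem Reso_inj {M A B : Type} [AddCommGroup M] [AddCommGroup A] [AddCommGroup B]
    (i : A →ₗ[ℤ] B) (r : B →ₗ[ℤ] A) (h : r ∘ₗ i = LinearMap.id) :
    Function.Injective (LinearMap.lTensor M i) := by
  have h1 : ∀ x, LinearMap.lTensor M r (LinearMap.lTensor M i x) = x := by
    intro x
    rw [← LinearMap.comp_apply, ← LinearMap.lTensor_comp, h, LinearMap.lTensor_id]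
    rfl
  exact Function.LeftInverse.injective h1

private theorem Reso_tens (M : Type) [AddCommGroup M] {P0 P1 P2 T : Type} [AddCommGroup P0]
    [AddCommGroup P1] [AddCommGroup P2] [AddCommGroup T] [Module.Projective ℤ T]
    [Module.Projective ℤ P0] (ε : P0 →ₗ[ℤ] T) (d1 : P1 →ₗ[ℤ] P0) (d2 : P2 →ₗ[ℤ] P1)
    (h0 : Function.Surjective ε) (h10 : Function.Exact d1 ε) (h21 : Function.Exact d2 d1)
    (h2 : Function.Injective d2) :
    Function.Surjective (LinearMap.lTensor M ε) ∧
    Function.Exact (LinearMap.lTensor M d1) (LinearMap.lTensor M ε) ∧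
    Function.Exact (LinearMap.lTensor M d2) (LinearMap.lTensor M d1) ∧
    Function.Injective (LinearMap.lTensor M d2) := by
  obtain ⟨r, hr⟩ := Reso_retr ε h0
  have hK : Module.Projective ℤ (LinearMap.ker ε) := Module.Projective.of_split _ _ hr
  let d1' : P1 →ₗ[ℤ] LinearMap.ker ε := d1.codRestrict (LinearMap.ker ε) fun x =>
    (h10 _).mpr ⟨x, rfl⟩
  have hs1 : Function.Surjective d1' := by
    rintro ⟨y, hy⟩
    obtain ⟨x, rfl⟩ := (h10 y).mp hy
    exact ⟨x, rfl⟩
  have hex : Function.Exact d2 d1' := by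
    intro y
    rw [← h21 y]
    constructor
    · intro h
      exact congrArg Subtype.val h
    · intro h
      exact Subtype.ext h
  have hd : d1 = (LinearMap.ker ε).subtype ∘ₗ d1' := rfl
  refine ⟨LinearMap.lTensor_surjective M h0, lTensor_exact M h10 h0, ?_, ?_⟩
  · intro y
    rw [← lTensor_exact M hex hs1 y, hd, LinearMap.lTensor_comp, LinearMap.comp_apply]
    constructor
    · intro h
      exact Reso_inj _ r hr (by rw [h, map_zero])
    · intro h
      rw [h, map_zero]
  · obtain ⟨r', hr'⟩ := Reso_retr d1' hs1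
    have hmem : ∀ x : LinearMap.ker d1', ∃ p, d2 p = x.1 := fun x => (hex _).mp x.2
    let e : P2 ≃ₗ[ℤ] LinearMap.ker d1' := LinearEquiv.ofBijective
      (d2.codRestrict (LinearMap.ker d1') fun x => (hex _).mpr ⟨x, rfl⟩)
      ⟨fun a b h => h2 (congrArg Subtype.val h), fun x => by
        obtain ⟨p, hp⟩ := hmem x
        exact ⟨p, Subtype.ext hp⟩⟩
    refine Reso_inj d2 (e.symm.toLinearMap ∘ₗ r') ?_
    ext p
    have h1 : d2 p = (LinearMap.ker d1').subtype (e p) := rfl
    have h3 : r' ((LinearMap.ker d1').subtype (e p)) = e p := LinearMap.congr_fun hr' (e p)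
    show e.symm (r' (d2 p)) = p
    rw [h1, h3, LinearEquiv.symm_apply_apply]

private theorem Reso_proj {E : Type} [Group E] (P : Type) [AddCommGroup P]
    [Module (MonoidAlgebra ℤ E) P] [Module.Projective (MonoidAlgebra ℤ E) P] :
    Module.Projective ℤ P := by
  obtain ⟨s, hs⟩ := Module.projective_def.mp ‹Module.Projective (MonoidAlgebra ℤ E) P›
  have h1 : Module.Projective ℤ (P →₀ MonoidAlgebra ℤ E) := inferInstance
  refine Module.Projective.of_split (R := ℤ) (M := P →₀ MonoidAlgebra ℤ E)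
    s.toAddMonoidHom.toIntLinearMap
    (Finsupp.linearCombination (MonoidAlgebra ℤ E)
      (id : P → P)).toAddMonoidHom.toIntLinearMap ?_
  ext x
  exact hs x

/-- A module which is projective over `k` has projective dimension at most two over `kE`. -/
theorem reso {E : Type} [Group E] (hE : CdLE2 E) {k : Type} [CommRing k] (M : Type)
    [AddCommGroup M] [Module k M] [Module (MonoidAlgebra k E) M]
    [IsScalarTower k (MonoidAlgebra k E) M] [Module.Projective k M] :
    HasProjectiveDimensionLE (ModuleCat.of (MonoidAlgebra k E) M) 2 := by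
  obtain ⟨P0, P1, P2, _, _, _, _, _, _, ε, d1, d2, hp0, hp1, hp2, h0, h10, h21, h2⟩ :=
    exists_resolution E hE
  obtain ⟨F0, hF0⟩ := diag_map k E M ε
  obtain ⟨F1, hF1⟩ := diag_map k E M d1
  obtain ⟨F2, hF2⟩ := diag_map k E M d2
  obtain ⟨e, -⟩ := diag_trivial k E M
  have hPZ : Module.Projective ℤ P0 := Reso_proj (E := E) P0
  have hTZ : Module.Projective ℤ (Representation.trivial ℤ E ℤ).asModule :=
    Module.Projective.of_equiv (Representation.trivial ℤ E ℤ).asModuleEquiv.symm
  have hq0 := diag_projective k E M P0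
  have hq1 := diag_projective k E M P1
  have hq2 := diag_projective k E M P2
  obtain ⟨t0, t10, t21, t2⟩ := Reso_tens M (T := (Representation.trivial ℤ E ℤ).asModule)
    ε.toAddMonoidHom.toIntLinearMap
    d1.toAddMonoidHom.toIntLinearMap d2.toAddMonoidHom.toIntLinearMap h0 h10 h21 h2
  have hT : HasProjectiveDimensionLT (ModuleCat.of (MonoidAlgebra k E)
      (diagRep k E M (Representation.trivial ℤ E ℤ).asModule).asModule) 3 := by
    refine Reso_cat F2 F1 F0 ?_ ?_ ?_ ?_
    · intro a b hab
      obtain ⟨x, rfl⟩ := (diagRep k E M P2).asModuleEquiv.symm.surjective a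
      obtain ⟨y, rfl⟩ := (diagRep k E M P2).asModuleEquiv.symm.surjective b
      rw [hF2, hF2] at hab
      rw [t2 ((diagRep k E M P1).asModuleEquiv.symm.injective hab)]
    · intro a
      obtain ⟨x, rfl⟩ := (diagRep k E M P1).asModuleEquiv.symm.surjective a
      rw [hF1, LinearEquiv.map_eq_zero_iff]
      refine (t21 x).trans ⟨?_, ?_⟩
      · rintro ⟨y, rfl⟩
        exact ⟨(diagRep k E M P2).asModuleEquiv.symm y, hF2 y⟩
      · rintro ⟨b, hb⟩
        obtain ⟨y, rfl⟩ := (diagRep k E M P2).asModuleEquiv.symm.surjective b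
        rw [hF2] at hb
        exact ⟨y, (diagRep k E M P1).asModuleEquiv.symm.injective hb⟩
    · intro a
      obtain ⟨x, rfl⟩ := (diagRep k E M P0).asModuleEquiv.symm.surjective a
      rw [hF0, LinearEquiv.map_eq_zero_iff]
      refine (t10 x).trans ⟨?_, ?_⟩
      · rintro ⟨y, rfl⟩
        exact ⟨(diagRep k E M P1).asModuleEquiv.symm y, hF1 y⟩
      · rintro ⟨b, hb⟩
        obtain ⟨y, rfl⟩ := (diagRep k E M P1).asModuleEquiv.symm.surjective b
        rw [hF1] at hb
        exact ⟨y, (diagRep k E M P0).asModuleEquiv.symm.injective hb⟩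
    · intro a
      obtain ⟨x, rfl⟩ := (diagRep k E M _).asModuleEquiv.symm.surjective a
      obtain ⟨y, rfl⟩ := t0 x
      exact ⟨(diagRep k E M P0).asModuleEquiv.symm y, hF0 y⟩
  exact hasProjectiveDimensionLT_of_iso e.toModuleIso 3

end Pool.Agent.Wald
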