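import Mathlib
import Pool.Agent.Lib.MP_8f66f0_al_Wald.GrDefs
import Pool.Agent.Lib.MP_8f66f0_al_Wald.DiagDefs
import Pool.Agent.Lib.MP_8f66f0_al_Wald.IntSub
import Pool.Agent.Lib.MP_8f66f0_al_Wald.GPropM
import Pool.Agent.Lib.MP_8f66f0_al_Wald.C1Int
import Pool.Agent.Lib.MP_8f66f0_al_Wald.Reso

/-! Consequences of cohomological dimension at most two: second kernels are projective. -/

set_option autoImplicit false

namespace Pool.Agent.Wald

open Matrix CategoryTheory TensorProduct

private theorem KerP_sh {R : Type} [Ring R] {P M : Type} [AddCommGroup P] [Module R P]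
    [AddCommGroup M] [Module R M] [Module.Projective R P] (f : P →ₗ[R] M)
    (hf : Function.Surjective f) (n : ℕ)
    (hM : HasProjectiveDimensionLT (ModuleCat.of R M) (n + 2)) :
    HasProjectiveDimensionLT (ModuleCat.of R (LinearMap.ker f)) (n + 1) := by
  have h1 := LinearMap.shortExact_shortComplexKer hf
  have hP : Projective (ModuleCat.of R P) := (IsProjective.iff_projective P).mp inferInstance
  have h2 : HasProjectiveDimensionLT (ModuleCat.of R P) (n + 1) :=
    hasProjectiveDimensionLT_of_ge _ 1 _ (by omega)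
  exact h1.hasProjectiveDimensionLT_X₁ (n + 1) h2 hM

/-- Dimension shifting. -/
theorem ker_projective {S : Type} [Ring S] {W₁ W₀ M : Type} [AddCommGroup W₁] [Module S W₁]
    [AddCommGroup W₀] [Module S W₀] [AddCommGroup M] [Module S M] [Module.Projective S W₁]
    [Module.Projective S W₀] (d : W₁ →ₗ[S] W₀) (e : W₀ →ₗ[S] M)
    (hde : LinearMap.range d = LinearMap.ker e)
    (hM : HasProjectiveDimensionLE (ModuleCat.of S (LinearMap.range e)) 2) :
    Module.Projective S (LinearMap.ker d) := by
  have h1 : HasProjectiveDimensionLT (ModuleCat.of S (LinearMap.ker e.rangeRestrict)) 2 :=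
    KerP_sh e.rangeRestrict e.surjective_rangeRestrict 1 hM
  have hk : LinearMap.ker e.rangeRestrict = LinearMap.ker e := LinearMap.ker_rangeRestrict e
  have hmem : ∀ x, d x ∈ LinearMap.ker e.rangeRestrict := by
    intro x
    rw [hk, ← hde]
    exact ⟨x, rfl⟩
  set d' : W₁ →ₗ[S] LinearMap.ker e.rangeRestrict := d.codRestrict _ hmem with hd'
  have hsurj : Function.Surjective d' := by
    rintro ⟨y, hy⟩
    have hy' : y ∈ LinearMap.range d := by
      rw [hde, ← hk]
      exact hy
    obtain ⟨x, rfl⟩ := hy'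
    exact ⟨x, rfl⟩
  have h2 : HasProjectiveDimensionLT (ModuleCat.of S (LinearMap.ker d')) 1 :=
    KerP_sh d' hsurj 0 h1
  have h3 : Module.Projective S (LinearMap.ker d') :=
    (IsProjective.iff_projective _).mpr (projective_iff_hasProjectiveDimensionLT_one.mpr h2)
  have h4 : LinearMap.ker d' = LinearMap.ker d := LinearMap.ker_codRestrict _ _ _
  rw [h4] at h3
  exact h3

theorem kerProj_of_cd {E : Type} [Group E] (hE : CdLE2 E) (k : Type) [Field k] :
    KerProj (MonoidAlgebra k E) := by
  intro a b h
  set d : (Fin a → MonoidAlgebra k E) →ₗ[MonoidAlgebra k E] (Fin b → MonoidAlgebra k E) :=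
    Matrix.vecMulLinear h with hd
  exact ker_projective d (LinearMap.range d).mkQ (LinearMap.range d).ker_mkQ.symm
    (reso hE (k := k) (LinearMap.range (LinearMap.range d).mkQ))

theorem pd1_of_cd {E : Type} [Group E] (hE : CdLE2 E) : PD1 (MonoidAlgebra ℤ E) := by
  intro a b e J d hde
  have hproj : Module.Projective ℤ (LinearMap.range e) := by
    let φ : (Fin b →₀ MonoidAlgebra ℤ E) →+ (Fin b × E →₀ ℤ) :=
      (Finsupp.curryAddEquiv (α := Fin b) (β := E) (M := ℤ)).symm.toAddMonoidHom.comp
        (Finsupp.mapRange.addMonoidHom (MonoidAlgebra.coeffAddEquiv (R := ℤ) (M := E)).toAddMonoidHom)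
    have hφ : Function.Injective φ :=
      (Finsupp.curryAddEquiv (α := Fin b) (β := E) (M := ℤ)).symm.injective.comp
        (Finsupp.mapRange_injective _ (map_zero _)
          (MonoidAlgebra.coeffAddEquiv (R := ℤ) (M := E)).injective)
    let ψ : LinearMap.range e →ₗ[ℤ] (Fin b × E →₀ ℤ) :=
      { toFun := fun x => φ (x : Fin b →₀ MonoidAlgebra ℤ E)
        map_add' := fun x y => map_add φ _ _
        map_smul' := fun n x => map_zsmul φ n (x : Fin b →₀ MonoidAlgebra ℤ E) }
    have hψ : Function.Injective ψ := hφ.comp Subtype.val_injective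
    have h1 := int_submodule_projective (Fin b × E) (LinearMap.range ψ)
    exact Module.Projective.of_equiv (LinearEquiv.ofInjective ψ hψ).symm
  exact ker_projective d e hde (reso hE (k := ℤ) (LinearMap.range e))

theorem c1_of_cd {E : Type} [Group E] (hE : CdLE2 E) : C1 (MonoidAlgebra ℤ E) := by
  refine c1_of_gprop (gprop_of_kerProj (kerProj_of_cd hE ℚ)) ?_
  intro p hp
  have : Fact p.Prime := ⟨hp⟩
  exact gprop_of_kerProj (kerProj_of_cd hE (ZMod p))

end Pool.Agent.Wald
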