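import Pool.Agent.Lib.MP_8f66f0_al_Wald.WhK
import Pool.Agent.Lib.MP_8f66f0_al_Wald.KerP
import Pool.Agent.Lib.MP_8f66f0_al_Wald.C1Int
import Pool.Agent.Lib.MP_8f66f0_al_Wald.HnnFinalN
import Pool.Agent.Lib.MP_8f66f0_al_Wald.HnnExt
import Pool.Agent.Lib.MP_8f66f0_al_Wald.IbnLift
import Pool.Agent.Lib.MP_8f66f0_al_Wald.NilV

/-! Theorem W, modular form: HNN extensions whose edge group has the property `NilV`. -/

set_option autoImplicit false

namespace Pool.Agent.Wald

open Matrix

theorem nilV_of_cd {E : Type} [Group E] (hE : CdLE2 E) : NilV E :=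
  nilV_of_c1 (c1_of_cd hE) (pd1_of_cd hE)

/-- If all finitely generated subgroups have cohomological dimension at most two, Theorem N holds
over `ℤE`. -/
theorem nilV_of_local_cd {E : Type} [Group E] (hE : ∀ E' : Subgroup E, E'.FG → CdLE2 E') :
    NilV E := nilV_local fun E' h => nilV_of_cd (hE E' h)

theorem whTrivial_hnn_n (G : Type) [Group G] (A B : Subgroup G) (φ : A ≃* B) (hG : WhTrivial G)
    (hA : NilV A) (hS : ProjSF (MonoidAlgebra ℤ A)) : WhTrivial (HNNExtension G A B φ) := by
  rw [whTrivial_iff]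
  intro K _ κ hκ n _ _ M hM
  obtain ⟨T, hTH, hTt, hTE⟩ := hnnTree_ext G A B φ
  have hinj : Function.Injective (((HNNExtension.of (φ := φ)).comp B.subtype).comp
      φ.toMonoidHom) := by
    intro x y h
    exact φ.injective (Subtype.val_injective (HNNExtension.of_injective φ h))
  have hran : (((HNNExtension.of (φ := φ)).comp B.subtype).comp φ.toMonoidHom).range = T.E := by
    rw [hTE]
    ext g
    constructor
    · rintro ⟨x, hx⟩
      exact ⟨φ x, hx⟩
    · rintro ⟨y, hy⟩
      refine ⟨φ.symm y, ?_⟩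
      rw [← hy]
      change HNNExtension.of ((φ (φ.symm y) : B) : G) = HNNExtension.of (y : G)
      rw [φ.apply_symm_apply]
  refine hnn_final_n T _ hinj hran hA hS κ hκ ?_ n M hM
  rw [hTH]
  exact kills_range _ (HNNExtension.of_injective φ) ((whTrivial_iff _).1 hG) κ hκ

end Pool.Agent.Wald
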