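import Pool.Agent.Lib.MP_8f66f0_al_Wald.FinalHN
import Pool.Agent.Lib.MP_8f66f0_al_Wald.AmFinalN
import Pool.Agent.Lib.MP_8f66f0_al_Wald.AmPush

/-! Theorem W, modular form: amalgams whose edge group has the property `NilV`, and the local
versions of Theorem W for amalgams and HNN extensions. -/

set_option autoImplicit false

namespace Pool.Agent.Wald

open Matrix

theorem whTrivial_pushout_n (G : Bool → Type) [∀ i, Group (G i)] (E : Type) [Group E]
    (φ : ∀ i, E →* G i) (hφ : ∀ i, Function.Injective (φ i)) (hG : ∀ i, WhTrivial (G i))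
    (hN : NilV E) (hS : ProjSF (MonoidAlgebra ℤ E)) : WhTrivial (Monoid.PushoutI φ) := by
  rw [whTrivial_iff]
  intro K _ κ hκ n _ _ M hM
  obtain ⟨T, hTA, hTB, hTE⟩ := amTree_pushout G E φ hφ
  have hb : Function.Injective (Monoid.PushoutI.base φ) := by
    rw [← Monoid.PushoutI.of_comp_eq_base (φ := φ) true]
    exact (Monoid.PushoutI.of_injective hφ true).comp (hφ true)
  have hkill : ∀ i, Kills κ ((Monoid.PushoutI.of (φ := φ) i).range : Set (Monoid.PushoutI φ)) :=
    fun i => kills_range _ (Monoid.PushoutI.of_injective hφ i) ((whTrivial_iff _).1 (hG i)) κ hκ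
  refine am_final_n T (Monoid.PushoutI.base φ) hb hTE.symm hN hS κ hκ ?_ ?_ n M hM
  · rw [hTA]
    exact hkill true
  · rw [hTB]
    exact hkill false

/-- Amalgams over a group all of whose finitely generated subgroups have cohomological dimension
at most two. -/
theorem whTrivial_pushout_local (G : Bool → Type) [∀ i, Group (G i)] (E : Type) [Group E]
    (φ : ∀ i, E →* G i) (hφ : ∀ i, Function.Injective (φ i)) (hG : ∀ i, WhTrivial (G i))
    (hE : ∀ E' : Subgroup E, E'.FG → CdLE2 E') (hS : ProjSF (MonoidAlgebra ℤ E)) :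
    WhTrivial (Monoid.PushoutI φ) :=
  whTrivial_pushout_n G E φ hφ hG (nilV_of_local_cd hE) hS

/-- HNN extensions over a group all of whose finitely generated subgroups have cohomological
dimension at most two. -/
theorem whTrivial_hnn_local (G : Type) [Group G] (A B : Subgroup G) (φ : A ≃* B)
    (hG : WhTrivial G) (hA : ∀ E' : Subgroup A, E'.FG → CdLE2 E')
    (hS : ProjSF (MonoidAlgebra ℤ A)) : WhTrivial (HNNExtension G A B φ) :=
  whTrivial_hnn_n G A B φ hG (nilV_of_local_cd hA) hS

end Pool.Agent.Wald
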