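import Pool.Agent.Lib.MP_8f66f0_al_Wald.K1Lem
import Pool.Agent.Lib.MP_8f66f0_al_Wald.HnnCore
import Pool.Agent.Lib.MP_8f66f0_al_Wald.HnnNormal
import Pool.Agent.Lib.MP_8f66f0_al_Wald.HnnOps
import Pool.Agent.Lib.MP_8f66f0_al_Wald.HnnRed
import Pool.Agent.Lib.MP_8f66f0_al_Wald.HnnPath
import Pool.Agent.Lib.MP_8f66f0_al_Wald.StabIdem
import Pool.Agent.Lib.MP_8f66f0_al_Wald.IbnLift
import Pool.Agent.Lib.MP_8f66f0_al_Wald.PathVan

/-! # MP_8f66f0_al, Theorem W: the HNN case (helper51) -/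

set_option autoImplicit false

namespace Pool.Agent.Wald

open Matrix


private theorem hnnFinal_unit {Λ : Type} [Ring Λ] {n : Type} [Fintype n] [DecidableEq n]
    {A B : Matrix n n Λ} (h : A * B = 1) (h' : B * A = 1) : IsUnit A := ⟨⟨A, B, h, h'⟩, rfl⟩

/-- An element supported in the range comes from the subgroup. -/
private theorem hnnFinal_pre {E G : Type} [Group E] [Group G] (φ : E →* G)
    (x : MonoidAlgebra ℤ G) (hx : SuppIn (φ.range : Set G) x) :
    ∃ y : MonoidAlgebra ℤ E, inc φ y = x := by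
  classical
  refine ⟨x.coeff.sum fun g a => if h : g ∈ φ.range then
    MonoidAlgebra.single (Classical.choose h) a else 0, ?_⟩
  rw [map_finsuppSum]
  have h1 : ∀ g ∈ x.coeff.support, (inc φ) (if h : g ∈ φ.range then
      MonoidAlgebra.single (Classical.choose h) (x.coeff g) else 0) =
      MonoidAlgebra.single g (x.coeff g) := by
    intro g hg
    have hgr : g ∈ φ.range := by
      by_contra hcon
      exact (Finsupp.mem_support_iff.mp hg) (hx g hcon)
    rw [dif_pos hgr]
    show MonoidAlgebra.mapDomain φ _ = _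
    rw [MonoidAlgebra.mapDomain_single, Classical.choose_spec hgr]
  rw [Finsupp.sum, Finset.sum_congr rfl h1]
  have h2 := MonoidAlgebra.sum_coeff_single x
  exact h2

private theorem hnnFinal_suppIn {E G : Type} [Group E] [Group G] (φ : E →* G)
    (y : MonoidAlgebra ℤ E) : SuppIn (φ.range : Set G) (inc φ y) := by
  intro g hg
  show (Finsupp.mapDomain φ y.coeff) g = 0
  exact Finsupp.mapDomain_of_notMem_range _ _ (fun h => hg h)

/-- The invariant of a scalar diagonal matrix with entries in the group. -/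
private theorem hnnFinal_diag {G : Type} [Group G] {K : Type} [CommGroup K]
    (κ : K1Fun (MonoidAlgebra ℤ G) K) (hκ : KillsUnits κ) (g : G) (l : ℕ) :
    IsUnit (diagonal fun _ : Fin l => (MonoidAlgebra.single g (1 : ℤ) : MonoidAlgebra ℤ G)) ∧
    κ.f (diagonal fun _ : Fin l => (MonoidAlgebra.single g (1 : ℤ) : MonoidAlgebra ℤ G)) = 1 := by
  have hu : ∀ (n : Type) [Fintype n] [DecidableEq n],
      IsUnit (diagonal fun _ : n => (MonoidAlgebra.single g (1 : ℤ) : MonoidAlgebra ℤ G)) := by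
    intro n _ _
    refine hnnFinal_unit (B := diagonal fun _ : n =>
      (MonoidAlgebra.single g⁻¹ (1 : ℤ) : MonoidAlgebra ℤ G)) ?_ ?_
    · rw [diagonal_mul_diagonal]
      simp only [MonoidAlgebra.single_mul_single, mul_inv_cancel, mul_one]
      rw [← MonoidAlgebra.one_def, diagonal_one]
    · rw [diagonal_mul_diagonal]
      simp only [MonoidAlgebra.single_mul_single, inv_mul_cancel, mul_one]
      rw [← MonoidAlgebra.one_def, diagonal_one]
  refine ⟨hu (Fin l), ?_⟩
  induction l with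
  | zero =>
    have h0 : (diagonal fun _ : Fin 0 => (MonoidAlgebra.single g (1 : ℤ) : MonoidAlgebra ℤ G)) =
      1 := Subsingleton.elim _ _
    rw [h0, κ.f_one]
  | succ l ih =>
    have h1 : (diagonal fun _ : Fin (l + 1) =>
        (MonoidAlgebra.single g (1 : ℤ) : MonoidAlgebra ℤ G)) =
        (fromBlocks (diagonal fun _ : Fin l => (MonoidAlgebra.single g (1 : ℤ) :
          MonoidAlgebra ℤ G)) 0 0 (diagonal fun _ : Fin 1 =>
          (MonoidAlgebra.single g (1 : ℤ) : MonoidAlgebra ℤ G))).submatrix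
          (finSumFinEquiv (m := l) (n := 1)).symm (finSumFinEquiv (m := l) (n := 1)).symm := by
      rw [fromBlocks_diagonal, submatrix_diagonal_equiv]
      congr 1
      funext i
      rw [Function.comp_apply]
      rcases (finSumFinEquiv (m := l) (n := 1)).symm i with j | j <;> rfl
    have hu1 := hu (Fin 1)
    have hul := hu (Fin l)
    have hf1 : κ.f (diagonal fun _ : Fin 1 =>
        (MonoidAlgebra.single g (1 : ℤ) : MonoidAlgebra ℤ G)) = 1 := by
      have h2 := hκ g 1
      have h3 : (diagonal fun _ : Fin 1 => (MonoidAlgebra.single g (1 : ℤ) :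
          MonoidAlgebra ℤ G)) = Matrix.of fun _ _ : Fin 1 =>
          (MonoidAlgebra.single g (((1 : ℤˣ) : ℤ)) : MonoidAlgebra ℤ G) := by
        ext i j
        have : i = j := Subsingleton.elim _ _
        subst this
        rw [diagonal_apply_eq]
        rfl
      rw [h3]
      exact h2
    rw [h1, κ.reindex (finSumFinEquiv (m := l) (n := 1)) _ (K1Fun.isUnit_tri 0 hul hu1),
      κ.tri _ _ _ hul hu1, ih, hf1, one_mul]

private theorem hnnFinal_tInv {G : Type} [Group G] {K : Type} [CommGroup K]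
    (κ : K1Fun (MonoidAlgebra ℤ G) K) (hκ : KillsUnits κ) (g : G) (k l : ℕ) :
    IsUnit (fromBlocks (1 : Matrix (Fin k) (Fin k) (MonoidAlgebra ℤ G)) 0 0
      (diagonal fun _ : Fin l => (MonoidAlgebra.single g (1 : ℤ) : MonoidAlgebra ℤ G))) ∧
    κ.f (fromBlocks (1 : Matrix (Fin k) (Fin k) (MonoidAlgebra ℤ G)) 0 0
      (diagonal fun _ : Fin l => (MonoidAlgebra.single g (1 : ℤ) : MonoidAlgebra ℤ G))) = 1 := by
  have h1 := hnnFinal_diag κ hκ g l
  refine ⟨K1Fun.isUnit_tri 0 isUnit_one h1.1, ?_⟩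
  rw [κ.tri _ _ _ isUnit_one h1.1, κ.f_one, h1.2, one_mul]

theorem hnn_final {G : Type} [Group G] (T : HnnTree G) {E : Type} [Group E] (φ : E →* G)
    (hφ : Function.Injective φ) (hE : φ.range = T.E) (hC : C1 (MonoidAlgebra ℤ E))
    (hP : PD1 (MonoidAlgebra ℤ E)) (hS : ProjSF (MonoidAlgebra ℤ E)) {K : Type} [CommGroup K]
    (κ : K1Fun (MonoidAlgebra ℤ G) K) (hκ : KillsUnits κ) (hH : Kills κ (T.H : Set G))
    (n : Type) [Fintype n] [DecidableEq n]
    (M : Matrix n n (MonoidAlgebra ℤ G)) (hM : IsUnit M) : κ.f M = 1 := by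
  classical
  obtain ⟨N, D, hD⟩ := hnn_red κ hκ T n M hM
  rw [← hD]
  -- the idempotent over `ℤE`
  have hEH : (T.E : Set G) ⊆ (T.H : Set G) := fun g hg => ((T.memE g).mp hg).1
  have hpaS : MSupp (T.E : Set G) D.pa := by
    intro i j g hg
    show ((D.a * D.c) i j).coeff.filter (· ∈ (T.E : Set G)) g = 0
    exact Finsupp.filter_apply_neg _ _ hg
  have hex : ∀ i j, ∃ y : MonoidAlgebra ℤ E, inc φ y = D.pa i j := by
    intro i j
    refine hnnFinal_pre φ _ ?_
    rw [hE]
    exact hpaS i j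
  choose p0 hp0 using hex
  have hinj : Function.Injective (inc φ) := MonoidAlgebra.mapDomain_injective hφ
  have hp0m : (Matrix.of p0).map (inc φ) = D.pa := by
    ext i j
    rw [Matrix.map_apply, Matrix.of_apply, hp0]
  have hidem : D.pa * D.pa = D.pa := by
    have h1 : D.pa * (D.pa + D.pb) = D.pa := by rw [D.pa_add_pb, Matrix.mul_one]
    rw [Matrix.mul_add, D.pa_mul_pb, add_zero] at h1
    exact h1
  have hp0i : (Matrix.of p0) * (Matrix.of p0) = Matrix.of p0 := by
    apply Matrix.map_injective hinj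
    show ((Matrix.of p0) * (Matrix.of p0)).map (inc φ) = (Matrix.of p0).map (inc φ)
    rw [Matrix.map_mul, hp0m, hidem]
  obtain ⟨k, l, a, b, U0, V0, hUV0, hVU0, hU0⟩ := stab_idem hS (Matrix.of p0) hp0i
  obtain ⟨D1, hD1a, hD1b, hD1p⟩ := D.exists_stab k l
  have hmap1 : ∀ (m : Type) [Fintype m] [DecidableEq m],
      (1 : Matrix m m (MonoidAlgebra ℤ E)).map (inc φ) = 1 := fun m _ _ =>
    Matrix.map_one _ (map_zero _) (map_one _)
  have hUV : U0.map (inc φ) * V0.map (inc φ) = 1 := by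
    rw [← Matrix.map_mul, hUV0, hmap1]
  have hVU : V0.map (inc φ) * U0.map (inc φ) = 1 := by
    rw [← Matrix.map_mul, hVU0, hmap1]
  have hUs : MSupp (T.E : Set G) (U0.map (inc φ)) := by
    intro i j
    rw [← hE]
    exact hnnFinal_suppIn φ _
  have hVs : MSupp (T.E : Set G) (V0.map (inc φ)) := by
    intro i j
    rw [← hE]
    exact hnnFinal_suppIn φ _
  obtain ⟨D2, hD2m, hD2p⟩ := D1.exists_base (U0.map (inc φ)) (V0.map (inc φ)) hUs hVs hUV hVU
  have hp2 : D2.pa = fromBlocks 1 0 0 0 := by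
    have hU0' : U0 * (fromBlocks (Matrix.of p0) 0 0 (fromBlocks 1 0 0 0) :
        Matrix (Fin N ⊕ (Fin k ⊕ Fin l)) (Fin N ⊕ (Fin k ⊕ Fin l)) (MonoidAlgebra ℤ E)) =
        (fromBlocks 1 0 0 0 : Matrix (Fin a ⊕ Fin b) (Fin a ⊕ Fin b) (MonoidAlgebra ℤ E)) * U0 :=
      hU0
    have h1 := congrArg (fun X : Matrix (Fin a ⊕ Fin b) (Fin N ⊕ (Fin k ⊕ Fin l))
      (MonoidAlgebra ℤ E) => X.map (inc φ)) hU0'
    have h0 : ∀ (m m' : Type), (0 : Matrix m m' (MonoidAlgebra ℤ E)).map (inc φ) = 0 :=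
      fun m m' => Matrix.map_zero _ (map_zero _)
    rw [Matrix.map_mul, Matrix.map_mul, fromBlocks_map, fromBlocks_map, fromBlocks_map, hp0m,
      hmap1, hmap1, h0, h0, h0, h0, h0, h0, h0, h0] at h1
    rw [hD2p, hD1p, h1, Matrix.mul_assoc, hUV, Matrix.mul_one]
  obtain ⟨Y, c, hYs, hY1, hY2, hX, hYY, hc1, hc2⟩ := D2.normal hp2
  set W := D2.m * Y * T.tInv a b with hW
  -- vanishing
  have hWu : IsUnit W := hnnFinal_unit hc2 hc1
  have hW1 : κ.f W = 1 := by
    obtain ⟨P, hPX, hPY⟩ := T.exists_path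
    have key : ∀ (S : Subgroup G) (hS : φ.range = S) (P : PathData G S Bool), P.X = T.X →
        P.Y = T.Y → κ.f W = 1 := by
      intro S hS P hPX hPY
      subst hS
      have h := path_vanish φ hφ hC hP P
        (fun i : Fin (a + b) => Sum.isLeft (finSumFinEquiv.symm i))
        ((1 - W).submatrix finSumFinEquiv.symm finSumFinEquiv.symm)
        (c.submatrix finSumFinEquiv.symm finSumFinEquiv.symm)
        (fun i j => by rw [hPX]; exact hX _ _) (fun i j => by rw [hPY]; exact hYY _ _)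
      have h1 : (1 : Matrix (Fin (a + b)) (Fin (a + b)) (MonoidAlgebra ℤ G)) -
          (1 - W).submatrix finSumFinEquiv.symm finSumFinEquiv.symm =
          W.submatrix finSumFinEquiv.symm finSumFinEquiv.symm := by
        have h2 : (1 : Matrix (Fin (a + b)) (Fin (a + b)) (MonoidAlgebra ℤ G)) =
            (1 : Matrix (Fin a ⊕ Fin b) (Fin a ⊕ Fin b) (MonoidAlgebra ℤ G)).submatrix
            finSumFinEquiv.symm finSumFinEquiv.symm := by
          rw [submatrix_one_equiv]
        rw [h2]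
        ext i j
        rw [Matrix.sub_apply, submatrix_apply, submatrix_apply, submatrix_apply,
          Matrix.sub_apply, sub_sub_cancel]
      rw [h1] at h
      rw [← κ.reindex finSumFinEquiv W hWu]
      refine h ?_ ?_ κ
      · rw [submatrix_mul_equiv, hc1, submatrix_one_equiv]
      · rw [submatrix_mul_equiv, hc2, submatrix_one_equiv]
    exact key T.E hE P hPX hPY
  -- the bijection
  have hcard : Fintype.card (Fin a ⊕ Fin b) = Fintype.card (Fin N ⊕ (Fin k ⊕ Fin l)) :=
    (card_eq_of_inv _ _ hY2 hY1).symm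
  let e : Fin a ⊕ Fin b ≃ Fin N ⊕ (Fin k ⊕ Fin l) := Fintype.equivOfCardEq hcard
  set U := U0.map (inc φ) with hUdef
  set V := V0.map (inc φ) with hVdef
  set Y' := fromRows D2.a.toRows₁ D2.b.toRows₂ with hY'
  have hY's : MSupp (T.H : Set G) Y' := by
    rintro (i | i) j
    · exact D2.ha _ _
    · exact D2.hb _ _
  have hm1 : D1.m * D1.c = 1 := D1.mc
  have hm2 : D1.c * D1.m = 1 := D1.cm
  have hDu : IsUnit D1.m := hnnFinal_unit hm1 hm2
  have hprod : W.submatrix e.symm e.symm = U.submatrix e.symm id * D1.m *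
      Y.submatrix id e.symm * (T.tInv a b).submatrix e.symm e.symm := by
    rw [hW, hD2m]
    rw [← submatrix_mul_equiv (U * D1.m * Y) (T.tInv a b) e.symm e.symm e.symm,
      ← submatrix_mul_equiv (U * D1.m) Y e.symm (Equiv.refl _) e.symm,
      ← submatrix_mul_equiv U D1.m e.symm (Equiv.refl _) (Equiv.refl _)]
    rfl
  have hU1 : U.submatrix e.symm id * V.submatrix id e.symm = 1 := by
    have h1 := submatrix_mul_equiv U V e.symm (Equiv.refl _) e.symm
    rw [hUV, submatrix_one_equiv] at h1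
    exact h1
  have hU2 : V.submatrix id e.symm * U.submatrix e.symm id = 1 := by
    have h1 := submatrix_mul_equiv V U id e.symm id
    rw [hVU] at h1
    exact h1
  have hUf : κ.f (U.submatrix e.symm id) = 1 :=
    hH _ _ _ (fun i j => (fun g hg => hUs _ _ g (fun h => hg (hEH h))))
      (fun i j => (fun g hg => hVs _ _ g (fun h => hg (hEH h)))) hU1 hU2
  have hYa : Y.submatrix id e.symm * Y'.submatrix e.symm id = 1 := by
    have h1 := submatrix_mul_equiv Y Y' id e.symm id
    rw [hY2] at h1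
    exact h1
  have hYb : Y'.submatrix e.symm id * Y.submatrix id e.symm = 1 := by
    have h1 := submatrix_mul_equiv Y' Y e.symm (Equiv.refl _) e.symm
    rw [hY1, submatrix_one_equiv] at h1
    exact h1
  have hYf : κ.f (Y.submatrix id e.symm) = 1 :=
    hH _ _ _ (fun i j => hYs _ _) (fun i j => hY's _ _) hYa hYb
  have htI : IsUnit (T.tInv a b) ∧ κ.f (T.tInv a b) = 1 := hnnFinal_tInv κ hκ T.t⁻¹ a b
  have htu : IsUnit ((T.tInv a b).submatrix e.symm e.symm) := K1Fun.isUnit_submatrix e htI.1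
  have htf : κ.f ((T.tInv a b).submatrix e.symm e.symm) = 1 := by
    rw [κ.reindex e _ htI.1]
    exact htI.2
  have hUu : IsUnit (U.submatrix e.symm id) := hnnFinal_unit hU1 hU2
  have hYu : IsUnit (Y.submatrix id e.symm) := hnnFinal_unit hYa hYb
  have hD1 : κ.f D1.m = 1 := by
    have h1 : κ.f (W.submatrix e.symm e.symm) = 1 := by
      rw [κ.reindex e W hWu, hW1]
    rw [hprod, κ.mul _ _ ((hUu.mul hDu).mul hYu) htu, κ.mul _ _ (hUu.mul hDu) hYu,
      κ.mul _ _ hUu hDu, hUf, hYf, htf, one_mul, mul_one, mul_one] at h1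
    exact h1
  -- destabilize
  have hD1m : D1.m = fromBlocks D.m 0 0 (fromBlocks 1 0 0
      (diagonal fun _ : Fin l => (MonoidAlgebra.single T.t (1 : ℤ) : MonoidAlgebra ℤ G))) := by
    show D1.a + (MonoidAlgebra.single T.t (1 : ℤ) : MonoidAlgebra ℤ G) • D1.b = _
    rw [hD1a, hD1b, fromBlocks_smul, fromBlocks_smul, fromBlocks_add, fromBlocks_add]
    simp only [smul_zero, add_zero, zero_add]
    congr 2
    rw [← diagonal_one, ← diagonal_smul]
    congr 1
    funext i
    rw [Pi.smul_apply, smul_eq_mul, mul_one]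
  have hT := hnnFinal_tInv κ hκ T.t k l
  have hDm : IsUnit D.m := hnnFinal_unit D.mc D.cm
  rw [hD1m, κ.tri _ _ _ hDm hT.1, hT.2, mul_one] at hD1
  exact hD1

end Pool.Agent.Wald
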