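import Pool.Agent.Lib.MP_8f66f0_al_Wald.WhK
import Pool.Agent.Lib.MP_8f66f0_al_Wald.KerP
import Pool.Agent.Lib.MP_8f66f0_al_Wald.AmFinal
import Pool.Agent.Lib.MP_8f66f0_al_Wald.HnnFinal
import Pool.Agent.Lib.MP_8f66f0_al_Wald.AmPush
import Pool.Agent.Lib.MP_8f66f0_al_Wald.HnnExt
import Pool.Agent.Lib.MP_8f66f0_al_Wald.IbnLift

/-! Theorem W: the Whitehead group of an amalgam and of an HNN extension. -/

set_option autoImplicit false

namespace Pool.Agent.Wald

open Matrix

theorem whTrivial_pushout (G : Bool → Type) [∀ i, Group (G i)] (E : Type) [Group E]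
    (φ : ∀ i, E →* G i) (hφ : ∀ i, Function.Injective (φ i)) (hG : ∀ i, WhTrivial (G i))
    (hE : CdLE2 E) (hS : ProjSF (MonoidAlgebra ℤ E)) : WhTrivial (Monoid.PushoutI φ) := by
  rw [whTrivial_iff]
  intro K _ κ hκ n _ _ M hM
  obtain ⟨T, hTA, hTB, hTE⟩ := amTree_pushout G E φ hφ
  have hb : Function.Injective (Monoid.PushoutI.base φ) := by
    rw [← Monoid.PushoutI.of_comp_eq_base (φ := φ) true]
    exact (Monoid.PushoutI.of_injective hφ true).comp (hφ true)
  have hkill : ∀ i, Kills κ ((Monoid.PushoutI.of (φ := φ) i).range : Set (Monoid.PushoutI φ)) :=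
    fun i => kills_range _ (Monoid.PushoutI.of_injective hφ i) ((whTrivial_iff _).1 (hG i)) κ hκ
  refine am_final T (Monoid.PushoutI.base φ) hb hTE.symm (c1_of_cd hE) (pd1_of_cd hE) hS κ hκ ?_ ?_
    n M hM
  · rw [hTA]
    exact hkill true
  · rw [hTB]
    exact hkill false

theorem whTrivial_hnn (G : Type) [Group G] (A B : Subgroup G) (φ : A ≃* B) (hG : WhTrivial G)
    (hA : CdLE2 A) (hS : ProjSF (MonoidAlgebra ℤ A)) : WhTrivial (HNNExtension G A B φ) := by
  rw [whTrivial_iff]
  intro K _ κ hκ n _ _ M hM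
  obtain ⟨T, hTH, hTt, hTE⟩ := hnnTree_ext G A B φ
  have hinj : Function.Injective (((HNNExtension.of (φ := φ)).comp B.subtype).comp
      φ.toMonoidHom) := by
    intro x y h
    exact φ.injective (Subtype.val_injective (HNNExtension.of_injective φ h))
  have hran : (((HNNExtension.of (φ := φ)).comp B.subtype).comp φ.toMonoidHom).range = T.E := by
    rw [hTE]
    ext g
    constructor
    · rintro ⟨x, hx⟩
      exact ⟨φ x, hx⟩
    · rintro ⟨y, hy⟩
      refine ⟨φ.symm y, ?_⟩
      rw [← hy]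
      change HNNExtension.of ((φ (φ.symm y) : B) : G) = HNNExtension.of (y : G)
      rw [φ.apply_symm_apply]
  refine hnn_final T _ hinj hran (c1_of_cd hA) (pd1_of_cd hA) hS κ hκ ?_ n M hM
  rw [hTH]
  exact kills_range _ (HNNExtension.of_injective φ) ((whTrivial_iff _).1 hG) κ hκ

end Pool.Agent.Wald
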